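import Pool.Agent.Helper69.DY.W

/-!
# The centre is nonnegative on the imaginary cone (MP_d13a5e_al)
-/

namespace DY

open Set

variable {E : Type*} [AddCommGroup E] [Module ℝ E]

private theorem im_step {Ψ : Set E} {B : E →ₗ[ℝ] E →ₗ[ℝ] ℝ} {ρ : E →ₗ[ℝ] ℝ} {v : E} (n : ℕ)
    (ih : ∀ m < n, ∀ a b c : E, Tri Ψ B a b c → Adm Ψ a b c ρ →
      {u | u ∈ Ψ ∧ u ∈ C01 a b c ∧ ρ u < 0}.ncard = m →
      (∃ α β γ : ℝ, v = α • a + β • b + γ • c ∧ 0 ≤ α ∧ 0 ≤ β ∧ 0 ≤ γ) →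
      (∀ u ∈ Ψ, u ∈ C01 a b c → ρ u < 0 → B v u ≤ 0) → 0 ≤ ρ v)
    (a b c : E) (h : Tri Ψ B a b c) (hρ : Adm Ψ a b c ρ)
    (hn : {u | u ∈ Ψ ∧ u ∈ C01 a b c ∧ ρ u < 0}.ncard = n)
    (hv : ∃ α β γ : ℝ, v = α • a + β • b + γ • c ∧ 0 ≤ α ∧ 0 ≤ β ∧ 0 ≤ γ)
    (hB : ∀ u ∈ Ψ, u ∈ C01 a b c → ρ u < 0 → B v u ≤ 0) (ha : ρ a < 0) : 0 ≤ ρ v := by
  have h1 : B a a = 1 := h.one a h.ha
  have hfin : {u | u ∈ Ψ ∧ u ∈ C01 a b c ∧ ρ u < 0}.Finite :=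
    hρ.neg.subset fun u hu => ⟨hu.1, hu.2.1, hu.2.2.le⟩
  have haC : a ∈ C01 a b c := ⟨1, 0, 0, by simp, Or.inr le_rfl, Or.inl rfl, Or.inl rfl⟩
  have hlt : {u | u ∈ Ψ ∧ u ∈ C01 (-a) (rf B a b) (rf B a c) ∧ ρ u < 0}.ncard < n := by
    rw [← hn]
    apply Set.ncard_lt_ncard _ hfin
    refine ⟨?_, fun hsub => ?_⟩
    · rintro u ⟨hu, hp, h0⟩
      refine ⟨hu, h.of_rfW hu hp ?_, h0⟩
      rintro rfl
      rw [map_neg] at h0
      linarith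
    · have h2 := hsub ⟨h.ha, haC, ha⟩
      have h3 := (mem_C01_rfW h1).1 h2.2.1
      rw [rfW_self h1] at h3
      obtain ⟨α, β, γ, h4, g1, g2, g3⟩ := h3
      obtain ⟨h5, -, -⟩ := h.coordW (α := -1) (β := 0) (γ := 0) (by rw [← h4]; module)
      rcases g1 with g1 | g1 <;> linarith
  refine ih _ hlt _ _ _ h.flipW (hρ.flipW h) rfl ?_ ?_
  · obtain ⟨α, β, γ, e, h2, h3, h4⟩ := hv
    have h5 := hB a h.ha haC ha
    have h6 : B v a = α + β * B a b + γ * B a c := by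
      rw [h.symm v a, e, map_add, map_add, map_smul, map_smul, map_smul, h1, smul_eq_mul,
        smul_eq_mul, smul_eq_mul, mul_one]
    refine ⟨-α - 2 * B a b * β - 2 * B a c * γ, β, γ, ?_, by linarith, h3, h4⟩
    rw [e]
    unfold DY.rf
    module
  · intro u hu hp h0
    refine hB u hu (h.of_rfW hu hp ?_) h0
    rintro rfl
    rw [map_neg] at h0
    linarith

/-- the centre is nonnegative on the vectors `v` of the cone of the simple roots with `B v u ≤ 0` for all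
positive roots `u` which are negative at the centre -/
theorem Adm.imag {Ψ : Set E} {B : E →ₗ[ℝ] E →ₗ[ℝ] ℝ} {ρ : E →ₗ[ℝ] ℝ} {a b c v : E}
    (h : Tri Ψ B a b c) (hρ : Adm Ψ a b c ρ)
    (hv : ∃ α β γ : ℝ, v = α • a + β • b + γ • c ∧ 0 ≤ α ∧ 0 ≤ β ∧ 0 ≤ γ)
    (hB : ∀ u ∈ Ψ, u ∈ C01 a b c → ρ u < 0 → B v u ≤ 0) : 0 ≤ ρ v := by
  suffices H : ∀ n : ℕ, ∀ a b c : E, Tri Ψ B a b c → Adm Ψ a b c ρ →
      {u | u ∈ Ψ ∧ u ∈ C01 a b c ∧ ρ u < 0}.ncard = n →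
      (∃ α β γ : ℝ, v = α • a + β • b + γ • c ∧ 0 ≤ α ∧ 0 ≤ β ∧ 0 ≤ γ) →
      (∀ u ∈ Ψ, u ∈ C01 a b c → ρ u < 0 → B v u ≤ 0) → 0 ≤ ρ v from H _ a b c h hρ rfl hv hB
  intro n
  induction n using Nat.strong_induction_on with
  | _ n ih =>
    intro a b c h hρ hn hv hB
    by_cases ha : ρ a < 0
    · exact im_step n ih a b c h hρ hn hv hB ha
    by_cases hb : ρ b < 0
    · refine im_step n ih b a c h.swapW hρ.swapW (by rw [C01_swapW]; exact hn) ?_ ?_ hb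
      · obtain ⟨α, β, γ, e, h2, h3, h4⟩ := hv
        exact ⟨β, α, γ, by rw [e]; module, h3, h2, h4⟩
      · rwa [C01_swapW]
    by_cases hc : ρ c < 0
    · refine im_step n ih c b a h.swapW' hρ.swapW' (by rw [C01_swapW']; exact hn) ?_ ?_ hc
      · obtain ⟨α, β, γ, e, h2, h3, h4⟩ := hv
        exact ⟨γ, β, α, by rw [e]; module, h4, h3, h2⟩
      · rwa [C01_swapW']
    · obtain ⟨α, β, γ, e, h2, h3, h4⟩ := hv
      rw [not_lt] at ha hb hc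
      rw [e, map_add, map_add, map_smul, map_smul, map_smul, smul_eq_mul, smul_eq_mul, smul_eq_mul]
      positivity

/-- the centre is nonnegative on the imaginary cone -/
theorem Adm.imag' {Ψ : Set E} {B : E →ₗ[ℝ] E →ₗ[ℝ] ℝ} {ρ : E →ₗ[ℝ] ℝ} {a b c v : E}
    (h : Tri Ψ B a b c) (hρ : Adm Ψ a b c ρ)
    (hv : ∃ α β γ : ℝ, v = α • a + β • b + γ • c ∧ 0 ≤ α ∧ 0 ≤ β ∧ 0 ≤ γ)
    (ha : B v a ≤ 0) (hb : B v b ≤ 0) (hc : B v c ≤ 0) : 0 ≤ ρ v := by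
  refine hρ.imag h hv fun u _ hp _ => ?_
  obtain ⟨α, β, γ, e, h2, h3, h4⟩ := hp
  have e0 : ∀ {t : ℝ}, Z1 t → 0 ≤ t := by
    intro t ht
    rcases ht with ht | ht <;> linarith
  rw [e, map_add, map_add, map_smul, map_smul, map_smul, smul_eq_mul, smul_eq_mul, smul_eq_mul]
  have := mul_nonneg (e0 h2) (neg_nonneg.mpr ha)
  have := mul_nonneg (e0 h3) (neg_nonneg.mpr hb)
  have := mul_nonneg (e0 h4) (neg_nonneg.mpr hc)
  linarith

/-- the dual quadratic form, in the values on a simple system -/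
def dq (B : E →ₗ[ℝ] E →ₗ[ℝ] ℝ) (ρ : E →ₗ[ℝ] ℝ) (a b c : E) : ℝ :=
  (1 - B b c ^ 2) * ρ a ^ 2 + (1 - B a c ^ 2) * ρ b ^ 2 + (1 - B a b ^ 2) * ρ c ^ 2 +
    2 * (B a c * B b c - B a b) * ρ a * ρ b + 2 * (B a b * B b c - B a c) * ρ a * ρ c +
    2 * (B a b * B a c - B b c) * ρ b * ρ c

theorem dq_flip {Ψ : Set E} {B : E →ₗ[ℝ] E →ₗ[ℝ] ℝ} {ρ : E →ₗ[ℝ] ℝ} {a b c : E}
    (h : Tri Ψ B a b c) : dq B ρ (-a) (rf B a b) (rf B a c) = dq B ρ a b c := by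
  have h1 : B a a = 1 := h.one a h.ha
  have e1 : B (-a) (rf B a b) = B a b := by
    rw [map_neg, LinearMap.neg_apply]
    have : B a (rf B a b) = -B a b := by
      unfold DY.rf
      rw [map_sub, map_smul, h1, smul_eq_mul]
      ring
    rw [this, neg_neg]
  have e2 : B (-a) (rf B a c) = B a c := by
    rw [map_neg, LinearMap.neg_apply]
    have : B a (rf B a c) = -B a c := by
      unfold DY.rf
      rw [map_sub, map_smul, h1, smul_eq_mul]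
      ring
    rw [this, neg_neg]
  have e3 : B (rf B a b) (rf B a c) = B b c := B_rfW h.symm h1 b c
  have e4 : ρ (rf B a b) = ρ b - 2 * B a b * ρ a := by
    unfold DY.rf
    rw [map_sub, map_smul, smul_eq_mul]
  have e5 : ρ (rf B a c) = ρ c - 2 * B a c * ρ a := by
    unfold DY.rf
    rw [map_sub, map_smul, smul_eq_mul]
  unfold dq
  rw [e1, e2, e3, e4, e5, map_neg]
  ring

theorem dq_swap {Ψ : Set E} {B : E →ₗ[ℝ] E →ₗ[ℝ] ℝ} {ρ : E →ₗ[ℝ] ℝ} {a b c : E}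
    (h : Tri Ψ B a b c) : dq B ρ b a c = dq B ρ a b c := by
  unfold dq
  rw [h.symm b a]
  ring

theorem dq_swap' {Ψ : Set E} {B : E →ₗ[ℝ] E →ₗ[ℝ] ℝ} {ρ : E →ₗ[ℝ] ℝ} {a b c : E}
    (h : Tri Ψ B a b c) : dq B ρ c b a = dq B ρ a b c := by
  unfold dq
  rw [h.symm b a, h.symm c a, h.symm c b]
  ring

private theorem dq_step {Ψ : Set E} {B : E →ₗ[ℝ] E →ₗ[ℝ] ℝ} {ρ : E →ₗ[ℝ] ℝ} {q : ℝ} (n : ℕ)
    (ih : ∀ m < n, ∀ a b c : E, Tri Ψ B a b c → Adm Ψ a b c ρ →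
      {u | u ∈ Ψ ∧ u ∈ C01 a b c ∧ ρ u < 0}.ncard = m → dq B ρ a b c = q →
      ∃ a' b' c', Tri Ψ B a' b' c' ∧ 0 ≤ ρ a' ∧ 0 ≤ ρ b' ∧ 0 ≤ ρ c' ∧ dq B ρ a' b' c' = q ∧
        (({-B a b, -B a c, -B b c} : Set ℝ) = {-B a' b', -B a' c', -B b' c'}))
    (a b c : E) (h : Tri Ψ B a b c) (hρ : Adm Ψ a b c ρ)
    (hn : {u | u ∈ Ψ ∧ u ∈ C01 a b c ∧ ρ u < 0}.ncard = n) (hq : dq B ρ a b c = q)
    (ha : ρ a < 0) :
      ∃ a' b' c', Tri Ψ B a' b' c' ∧ 0 ≤ ρ a' ∧ 0 ≤ ρ b' ∧ 0 ≤ ρ c' ∧ dq B ρ a' b' c' = q ∧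
        (({-B a b, -B a c, -B b c} : Set ℝ) = {-B a' b', -B a' c', -B b' c'}) := by
  have h1 : B a a = 1 := h.one a h.ha
  have hfin : {u | u ∈ Ψ ∧ u ∈ C01 a b c ∧ ρ u < 0}.Finite :=
    hρ.neg.subset fun u hu => ⟨hu.1, hu.2.1, hu.2.2.le⟩
  have haC : a ∈ C01 a b c := ⟨1, 0, 0, by simp, Or.inr le_rfl, Or.inl rfl, Or.inl rfl⟩
  have hlt : {u | u ∈ Ψ ∧ u ∈ C01 (-a) (rf B a b) (rf B a c) ∧ ρ u < 0}.ncard < n := by
    rw [← hn]
    apply Set.ncard_lt_ncard _ hfin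
    refine ⟨?_, fun hsub => ?_⟩
    · rintro u ⟨hu, hp, h0⟩
      refine ⟨hu, h.of_rfW hu hp ?_, h0⟩
      rintro rfl
      rw [map_neg] at h0
      linarith
    · have h2 := hsub ⟨h.ha, haC, ha⟩
      have h3 := (mem_C01_rfW h1).1 h2.2.1
      rw [rfW_self h1] at h3
      obtain ⟨α, β, γ, h4, g1, g2, g3⟩ := h3
      obtain ⟨h5, -, -⟩ := h.coordW (α := -1) (β := 0) (γ := 0) (by rw [← h4]; module)
      rcases g1 with g1 | g1 <;> linarith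
  obtain ⟨a', b', c', k1, k2, k3, k4, k5, k6⟩ := ih _ hlt _ _ _ h.flipW (hρ.flipW h) rfl
    (by rw [dq_flip h, hq])
  refine ⟨a', b', c', k1, k2, k3, k4, k5, ?_⟩
  have e1 : B (-a) (rf B a b) = B a b := by
    rw [map_neg, LinearMap.neg_apply]
    have : B a (rf B a b) = -B a b := by
      unfold DY.rf
      rw [map_sub, map_smul, h1, smul_eq_mul]
      ring
    rw [this, neg_neg]
  have e2 : B (-a) (rf B a c) = B a c := by
    rw [map_neg, LinearMap.neg_apply]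
    have : B a (rf B a c) = -B a c := by
      unfold DY.rf
      rw [map_sub, map_smul, h1, smul_eq_mul]
      ring
    rw [this, neg_neg]
  have e3 : B (rf B a b) (rf B a c) = B b c := B_rfW h.symm h1 b c
  rw [← k6, e1, e2, e3]

/-- there is a simple system on which the centre is nonnegative, with the same dual form and the same
labels -/
theorem exists_chamber_dq {Ψ : Set E} {B : E →ₗ[ℝ] E →ₗ[ℝ] ℝ} {ρ : E →ₗ[ℝ] ℝ} {a b c : E}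
    (h : Tri Ψ B a b c) (hρ : Adm Ψ a b c ρ) :
    ∃ a' b' c', Tri Ψ B a' b' c' ∧ 0 ≤ ρ a' ∧ 0 ≤ ρ b' ∧ 0 ≤ ρ c' ∧
      dq B ρ a' b' c' = dq B ρ a b c ∧
      (({-B a b, -B a c, -B b c} : Set ℝ) = {-B a' b', -B a' c', -B b' c'}) := by
  suffices H : ∀ n : ℕ, ∀ a b c : E, Tri Ψ B a b c → Adm Ψ a b c ρ →
      {u | u ∈ Ψ ∧ u ∈ C01 a b c ∧ ρ u < 0}.ncard = n → ∀ q, dq B ρ a b c = q →
      ∃ a' b' c', Tri Ψ B a' b' c' ∧ 0 ≤ ρ a' ∧ 0 ≤ ρ b' ∧ 0 ≤ ρ c' ∧ dq B ρ a' b' c' = q ∧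
        (({-B a b, -B a c, -B b c} : Set ℝ) = {-B a' b', -B a' c', -B b' c'}) from
    H _ a b c h hρ rfl _ rfl
  intro n
  induction n using Nat.strong_induction_on with
  | _ n ih =>
    intro a b c h hρ hn q hq
    have ih' : ∀ m < n, ∀ a b c : E, Tri Ψ B a b c → Adm Ψ a b c ρ →
      {u | u ∈ Ψ ∧ u ∈ C01 a b c ∧ ρ u < 0}.ncard = m → dq B ρ a b c = q →
      ∃ a' b' c', Tri Ψ B a' b' c' ∧ 0 ≤ ρ a' ∧ 0 ≤ ρ b' ∧ 0 ≤ ρ c' ∧ dq B ρ a' b' c' = q ∧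
        (({-B a b, -B a c, -B b c} : Set ℝ) = {-B a' b', -B a' c', -B b' c'}) :=
      fun m hm a b c h1 h2 h3 h4 => ih m hm a b c h1 h2 h3 q h4
    by_cases ha : ρ a < 0
    · exact dq_step n ih' a b c h hρ hn hq ha
    by_cases hb : ρ b < 0
    · obtain ⟨a', b', c', k1, k2, k3, k4, k5, k6⟩ := dq_step n ih' b a c h.swapW hρ.swapW
        (by rw [C01_swapW]; exact hn) (by rw [dq_swap h, hq]) hb
      refine ⟨a', b', c', k1, k2, k3, k4, k5, ?_⟩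
      rw [← k6, h.symm b a]
      ext z
      simp only [mem_insert_iff, mem_singleton_iff]
      tauto
    by_cases hc : ρ c < 0
    · obtain ⟨a', b', c', k1, k2, k3, k4, k5, k6⟩ := dq_step n ih' c b a h.swapW' hρ.swapW'
        (by rw [C01_swapW']; exact hn) (by rw [dq_swap' h, hq]) hc
      refine ⟨a', b', c', k1, k2, k3, k4, k5, ?_⟩
      rw [← k6, h.symm b a, h.symm c a, h.symm c b]
      ext z
      simp only [mem_insert_iff, mem_singleton_iff]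
      tauto
    · exact ⟨a, b, c, h, not_lt.mp ha, not_lt.mp hb, not_lt.mp hc, hq, rfl⟩

/-- the labels of a triangle system are nonnegative -/
theorem Tri.nonpos_ab {Ψ : Set E} {B : E →ₗ[ℝ] E →ₗ[ℝ] ℝ} {a b c : E} (h : Tri Ψ B a b c) :
    B a b ≤ 0 := by
  by_contra hcon
  rw [not_le] at hcon
  have h1 := h.refl a h.ha b h.hb
  have e : rf B a b = (-(2 * B a b)) • a + (1 : ℝ) • b + (0 : ℝ) • c := by
    unfold DY.rf
    module
  rcases h.pos _ h1 with ⟨α, β, γ, e1, g1, g2, g3⟩ | ⟨α, β, γ, e1, g1, g2, g3⟩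
  · obtain ⟨h5, -, -⟩ := h.coordW (e.symm.trans e1)
    rcases g1 with g1 | g1 <;> linarith
  · obtain ⟨-, h6, -⟩ := h.coordW (α := 2 * B a b) (β := -1) (γ := 0)
      (by rw [← e1, e]; module)
    rcases g2 with g2 | g2 <;> linarith

/-- **the conic**: for labels at most one the dual form is nonnegative at admissible centres -/
theorem Adm.conic {Ψ : Set E} {B : E →ₗ[ℝ] E →ₗ[ℝ] ℝ} {ρ : E →ₗ[ℝ] ℝ} {a b c : E}
    (h : Tri Ψ B a b c) (hρ : Adm Ψ a b c ρ) (hab : -1 ≤ B a b) (hac : -1 ≤ B a c)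
    (hbc : -1 ≤ B b c) : 0 ≤ dq B ρ a b c := by
  obtain ⟨a', b', c', k1, k2, k3, k4, k5, k6⟩ := exists_chamber_dq h hρ
  have hle : ∀ z ∈ ({-B a b, -B a c, -B b c} : Set ℝ), z ≤ 1 := by
    rintro z (rfl | rfl | rfl) <;> linarith
  have h1 : -B a' b' ≤ 1 := hle _ (by rw [k6]; simp)
  have h2 : -B a' c' ≤ 1 := hle _ (by rw [k6]; simp)
  have h3 : -B b' c' ≤ 1 := hle _ (by rw [k6]; simp)
  have g1 := k1.nonpos_ab
  have g2 : B a' c' ≤ 0 := by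
    have := k1.swapW'.swapW.nonpos_ab
    have h4 := k1.swapW'.nonpos_ab
    have h5 := k1.swapW.swapW'.nonpos_ab
    rw [k1.symm a' c']
    first
      | exact this
      | (rw [k1.symm]; exact this)
      | exact h5
      | (rw [k1.symm]; exact h5)
      | exact h4
  have g3 : B b' c' ≤ 0 := by
    have := k1.swapW'.nonpos_ab
    rw [k1.symm b' c']
    exact this
  rw [← k5]
  unfold dq
  have e1 : 0 ≤ 1 - B b' c' ^ 2 := by nlinarith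
  have e2 : 0 ≤ 1 - B a' c' ^ 2 := by nlinarith
  have e3 : 0 ≤ 1 - B a' b' ^ 2 := by nlinarith
  have e4 : 0 ≤ B a' c' * B b' c' - B a' b' := by nlinarith
  have e5 : 0 ≤ B a' b' * B b' c' - B a' c' := by nlinarith
  have e6 : 0 ≤ B a' b' * B a' c' - B b' c' := by nlinarith
  positivity

end DY
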