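import Pool.Agent.Helper70.DY.D2

/-!
# Triangle systems: definitions (MP_d13a5e_al)

`Tri Ψ B a b c`: `Ψ = -Ψ` is a root system (all roots, both signs) with the three linearly
independent simple roots `a, b, c`; every root or its negative is a combination of `a, b, c` with
coefficients `0` or at least `1`.
-/

namespace DY

open Set

variable {E : Type*} [AddCommGroup E] [Module ℝ E]

/-- zero or at least one -/
def Z1 (α : ℝ) : Prop := α = 0 ∨ 1 ≤ α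

/-- combinations with coefficients zero or at least one -/
def C01 (a b c : E) : Set E :=
  {u | ∃ α β γ : ℝ, u = α • a + β • b + γ • c ∧ Z1 α ∧ Z1 β ∧ Z1 γ}

/-- the closure of a set under signs and reflections -/
inductive Cl (B : E →ₗ[ℝ] E →ₗ[ℝ] ℝ) (S : Set E) : E → Prop
  | base {u : E} : u ∈ S → Cl B S u
  | neg {u : E} : Cl B S u → Cl B S (-u)
  | refl {u v : E} : Cl B S u → Cl B S v → Cl B S (rf B u v)

/-- root systems with three simple roots (`Ψ` contains both signs) -/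
structure Tri (Ψ : Set E) (B : E →ₗ[ℝ] E →ₗ[ℝ] ℝ) (a b c : E) : Prop where
  symm : ∀ u v, B u v = B v u
  one : ∀ u ∈ Ψ, B u u = 1
  neg : ∀ u ∈ Ψ, -u ∈ Ψ
  refl : ∀ u ∈ Ψ, ∀ v ∈ Ψ, rf B u v ∈ Ψ
  ha : a ∈ Ψ
  hb : b ∈ Ψ
  hc : c ∈ Ψ
  indep : ∀ α β γ : ℝ, α • a + β • b + γ • c = 0 → α = 0 ∧ β = 0 ∧ γ = 0
  pos : ∀ u ∈ Ψ, u ∈ C01 a b c ∨ -u ∈ C01 a b c
  fin : ∀ r : ℝ, {u | u ∈ Ψ ∧ ∃ α β γ : ℝ, u = α • a + β • b + γ • c ∧ 0 ≤ α ∧ 0 ≤ β ∧ 0 ≤ γ ∧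
    α + β + γ ≤ r}.Finite
  inv : ∀ u ∈ Ψ, {v | v ∈ Ψ ∧ v ∈ C01 a b c ∧ -rf B u v ∈ C01 a b c}.Finite

/-- the canonical pair of a plane section of `Ψ` -/
def Canon (Ψ : Set E) (x y : E) : Prop :=
  ∀ u ∈ Ψ, ∀ α β : ℝ, u = α • x + β • y →
    (α = 0 ∧ β = 1 ∨ α = 1 ∧ β = 0 ∨ 1 ≤ α ∧ 1 ≤ β) ∨
    (-α = 0 ∧ -β = 1 ∨ -α = 1 ∧ -β = 0 ∨ 1 ≤ -α ∧ 1 ≤ -β)

end DY
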