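import Pool.Agent.Helper70.DY.J3
import Pool.Agent.Helper32.DY.Gap1

/-!
# [GAP1], the piece `G1e` of `Helper32/DY/Gap1.lean` (MP_d13a5e_al)
-/

set_option autoImplicit false

namespace DY

open Set

variable {E : Type*} [AddCommGroup E] [Module ℝ E]

/-- **`G1e`**: `h = d2`, `bO = 1 / 2`, `b1 ≥ 1 / 2`, `x_L ≠ a`, `j = 3` or `m2 = 3` and `F` beyond -/
theorem g1e (Ψ : Set E) (B : E →ₗ[ℝ] E →ₗ[ℝ] ℝ) : G1e Ψ B := by
  intro ρ φ t d1 d2 x x' g x1 x2 g' x1' x2' X hg' _ _ hca hfa hu _ ⟨hb1, hO, hj⟩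
  have hR := Pool.Agent.Helper62.DY.rt_of_tri X.L.tri
  have hB : B d1 d2 = -(1 / 2) := by linarith
  have h2 : (2 : ℝ) * -B d1 d2 = 1 := by linarith
  rw [h2, one_mul] at hca hfa hu
  have ham : (1 : ℝ) • d1 + (1 : ℝ) • d2 ∈ Ψ := by
    have := hR.r2 0 1 0 hR.e1
    have e1 : 2 * -B t d2 * 0 + 2 * -B d1 d2 * 1 - 0 = 1 := by linarith
    have e2 : (0 : ℝ) • t + (1 : ℝ) • d1 + (2 * -B t d2 * 0 + 2 * -B d1 d2 * 1 - 0) • d2 =
        (1 : ℝ) • d1 + (1 : ℝ) • d2 := by
      rw [e1]
      module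
    rw [e2] at this
    exact this
  have O : OFA Ψ B φ d1 d2 1 1 0 1 := by
    refine ⟨⟨ham, Or.inr le_rfl, Or.inr le_rfl, ?_⟩, ⟨?_, Or.inl rfl, Or.inr le_rfl, ?_⟩, ?_, ?_, ?_, ?_, ?_⟩
    · rw [hB]
      norm_num
    · rw [zero_smul, zero_add, one_smul]
      exact X.L.tri.hc
    · norm_num
    · linarith
    · linarith [X.h2]
    · norm_num
    · rw [hB]
      norm_num
    · intro y1 y2 hy h0
      have hn := hy.nrm
      rw [hB] at hn
      have hd2 := X.h2
      rcases hy.z1 with h | h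
      · exfalso
        rw [h] at hn h0
        have h3 : y2 ^ 2 = 1 := by linarith
        have h4 : y2 ≠ 0 := by
          rintro rfl
          norm_num at h3
        rw [zero_mul, zero_add] at h0
        rcases mul_eq_zero.1 h0 with k | k
        · exact h4 k
        · linarith
      · rcases hy.z2 with h' | h'
        · exfalso
          rw [h', zero_mul, add_zero] at h0
          rcases mul_eq_zero.1 h0 with k | k
          · linarith
          · linarith
        · have h5 : (y1 - y2) ^ 2 + (y1 * y2 - 1) = 0 := by linarith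
          have h6 : 1 * 1 ≤ y1 * y2 := mul_le_mul h h' zero_le_one (by linarith)
          have h7 : y1 * y2 - 1 = 0 := by linarith [sq_nonneg (y1 - y2)]
          have h8 : 0 ≤ (y1 - 1) * (y2 - 1) := mul_nonneg (by linarith) (by linarith)
          constructor <;> linarith
  exact Pool.Agent.Helper70.DY.gap1_j3 X O rfl hO hb1 (by linarith) (by linarith) hg' hj

end DY
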