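import Pool.Agent.EW.RC.Rz

/-!
# Biclosed sets of positive roots (MP_d13a5e_al)
-/

namespace RC.Rlz

variable {B W : Type} [Group W] {M : CoxeterMatrix B} {cs : CoxeterSystem M W} (V : Rlz cs)

/-- `A` is a biclosed set of positive roots -/
structure Biclosed (A : Set (Fin V.n → ℝ)) : Prop where
  pos : ∀ u ∈ A, V.PosRoot u
  closed : ∀ u ∈ A, ∀ v ∈ A, ∀ a b : ℝ, 0 ≤ a → 0 ≤ b → V.PosRoot (a • u + b • v) →
    a • u + b • v ∈ A
  coclosed : ∀ u v, V.PosRoot u → V.PosRoot v → u ∉ A → v ∉ A → ∀ a b : ℝ, 0 ≤ a → 0 ≤ b →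
    V.PosRoot (a • u + b • v) → a • u + b • v ∉ A

end RC.Rlz
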