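import Pool.Agent.Helper70.DY.E1
import Pool.Agent.EW.RC.I0b
import Pool.Agent.Helper70.DY.Bic

/-!
# The root system of a realization

Biclosed sets of positive roots are initial sections of reflection orders, if all balls of all
generic positive linear forms are tight.
-/

namespace DY

open Set RC

variable {B W : Type} [Group W] {M : CoxeterMatrix B} {cs : CoxeterSystem M W} (V : Rlz cs)

/-- the positive roots, as combinations of the simple roots -/
def Phi : Set (B →₀ ℝ) := {c | V.PosRoot (V.lc c)}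

/-- the invariant bilinear form -/
noncomputable def Bf : (B →₀ ℝ) →ₗ[ℝ] (B →₀ ℝ) →ₗ[ℝ] ℝ :=
  LinearMap.mk₂ ℝ (fun c d => (1 / 2 : ℝ) * V.lcc c (V.lc d))
    (fun c c' d => by rw [map_add, LinearMap.add_apply]; ring)
    (fun a c d => by rw [map_smul, LinearMap.smul_apply, smul_eq_mul, smul_eq_mul]; ring)
    (fun c d d' => by rw [map_add, map_add]; ring)
    (fun a c d => by rw [map_smul, map_smul, smul_eq_mul, smul_eq_mul]; ring)

theorem Bf_apply (c d : B →₀ ℝ) : Bf V c d = (1 / 2 : ℝ) * V.lcc c (V.lc d) := rfl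

theorem lcc_symm (c d : B →₀ ℝ) : V.lcc c (V.lc d) = V.lcc d (V.lc c) := by
  induction d using Finsupp.induction_linear with
  | zero => simp
  | add x y hx hy => rw [map_add, map_add, hx, hy, map_add, LinearMap.add_apply]
  | single t a =>
    rw [Rlz.lc_single, Rlz.lcc_single, map_smul, V.lcc_α, LinearMap.smul_apply]

theorem root_data {c : B →₀ ℝ} (hc : c ∈ Phi V) : ∃ w s, V.lc c = V.ρ w (V.α s) ∧
    ∀ v, V.lcc c v = V.rfn w s v := by
  obtain ⟨⟨w, s, h1⟩, -⟩ := id hc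
  obtain ⟨x, h2, h3⟩ := V.exists_lc w s
  have : c = x := V.lc_inj (by rw [h1, h2])
  subst this
  exact ⟨w, s, h1, h3⟩

theorem lc_rf {c : B →₀ ℝ} {w : W} {s : B} (h1 : V.lc c = V.ρ w (V.α s))
    (h2 : ∀ v, V.lcc c v = V.rfn w s v) (d : B →₀ ℝ) :
    V.lc (rf (Bf V) c d) = V.ρ (w * cs.simple s * w⁻¹) (V.lc d) := by
  unfold rf
  rw [map_sub, map_smul, Bf_apply, V.refl_apply, h1, h2]
  congr 2
  ring

theorem Phi_one {c : B →₀ ℝ} (hc : c ∈ Phi V) : Bf V c c = 1 := by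
  obtain ⟨w, s, h1, h2⟩ := root_data V hc
  rw [Bf_apply, h2, h1, V.rfn_self]
  norm_num

theorem Phi_refl {c d : B →₀ ℝ} (hc : c ∈ Phi V) (hd : d ∈ Phi V) :
    rf (Bf V) c d ∈ Phi V ∨ -rf (Bf V) c d ∈ Phi V := by
  obtain ⟨w, s, h1, h2⟩ := root_data V hc
  obtain ⟨w', s', h3, -⟩ := root_data V hd
  have h4 := lc_rf V h1 h2 d
  rw [h3, ← V.ρ_mul] at h4
  rcases V.pos_or_neg (w * cs.simple s * w⁻¹ * w') s' with h5 | h5
  · left
    change V.PosRoot _
    rwa [h4]
  · right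
    change V.PosRoot _
    rwa [map_neg, h4]

theorem Phi_nonneg {c : B →₀ ℝ} (hc : c ∈ Phi V) (s : B) : 0 ≤ c s := by
  obtain ⟨-, c', h1, h2⟩ := id hc
  rw [← V.lc_apply] at h2
  rw [V.lc_inj h2]
  exact h1 s

theorem Phi_ne_zero {c : B →₀ ℝ} (hc : c ∈ Phi V) : c ≠ 0 := by
  rintro rfl
  exact V.ne_zero_of_pos hc (map_zero _)

/-- positive roots with the same reflection are equal -/
theorem Phi_unique {c d : B →₀ ℝ} (hc : c ∈ Phi V) (hd : d ∈ Phi V) {w w' : W} {s s' : B}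
    (h1 : V.lc c = V.ρ w (V.α s)) (h2 : V.lc d = V.ρ w' (V.α s'))
    (h3 : w * cs.simple s * w⁻¹ = w' * cs.simple s' * w'⁻¹) : c = d := by
  have h4 := V.refl_apply w s (V.ρ w (V.α s))
  rw [h3, V.refl_apply, V.rfn_self] at h4
  have h5 : V.ρ w (V.α s) =
      (V.rfn w' s' (V.ρ w (V.α s)) / 2) • V.ρ w' (V.α s') := by
    have h6 : (2 : ℝ) • V.ρ w (V.α s) =
        V.rfn w' s' (V.ρ w (V.α s)) • V.ρ w' (V.α s') := by
      rw [sub_right_inj] at h4
      exact h4.symm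
    rw [div_eq_inv_mul, mul_smul, ← h6, smul_smul, inv_mul_cancel₀ two_ne_zero, one_smul]
  rcases V.root_smul h5 with h7 | h7
  · rw [h7, one_smul] at h5
    exact V.lc_inj (by rw [h1, h2, h5])
  · exfalso
    rw [h7, neg_smul, one_smul] at h5
    have h8 : V.PosRoot (V.lc d) := hd
    have h9 : V.PosRoot (V.lc c) := hc
    rw [h1, h5, ← h2] at h9
    exact V.not_pos_neg h8 h9

theorem Phi_inv {c : B →₀ ℝ} (hc : c ∈ Phi V) :
    {d | d ∈ Phi V ∧ -rf (Bf V) c d ∈ Phi V}.Finite := by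
  obtain ⟨w, s, h1, h2⟩ := root_data V hc
  have h3 := V.finite_inv (w * cs.simple s * w⁻¹)
  refine (h3.biUnion (t := fun t => {d | d ∈ Phi V ∧ ∃ w' s', V.lc d = V.ρ w' (V.α s') ∧
    t = w' * cs.simple s' * w'⁻¹}) fun t _ => Set.Subsingleton.finite ?_).subset ?_
  · rintro d ⟨hd, w1, s1, e1, e2⟩ d' ⟨hd', w2, s2, e3, e4⟩
    exact Phi_unique V hd hd' e1 e3 (e2.symm.trans e4)
  · rintro d ⟨hd, hd'⟩
    obtain ⟨w', s', h4, -⟩ := root_data V hd
    rw [mem_iUnion₂]
    refine ⟨w' * cs.simple s' * w'⁻¹, ⟨⟨w', s', rfl⟩, ?_⟩, hd, w', s', h4, rfl⟩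
    have h5 : V.PosRoot (V.ρ w' (V.α s')) := h4 ▸ hd
    rw [V.inv_iff w' s' h5]
    have h6 : V.PosRoot (V.lc (-rf (Bf V) c d)) := hd'
    rw [map_neg, lc_rf V h1 h2, h4] at h6
    have h7 : (w * cs.simple s * w⁻¹)⁻¹ = w * cs.simple s * w⁻¹ := by
      rw [mul_inv_rev, mul_inv_rev, inv_inv, cs.inv_simple, mul_assoc]
    rw [h7]
    exact h6

section fin

variable [Fintype B]

/-- the height -/
noncomputable def ht : (B →₀ ℝ) →ₗ[ℝ] ℝ := ∑ s, Finsupp.lapply s

theorem ht_apply (u : B →₀ ℝ) : ht u = ∑ s, u s := by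
  simp [ht]

theorem lcc_apply' (u : B →₀ ℝ) (v : Fin V.n → ℝ) : V.lcc u v = ∑ s, u s * V.fc s v := by
  have : V.lcc u = ∑ s, u s • V.fc s := by
    unfold Rlz.lcc
    rw [Finsupp.linearCombination_apply, Finsupp.sum_fintype]
    intro s
    rw [zero_smul]
  rw [this, LinearMap.sum_apply]
  rfl

theorem lc_apply' (u : B →₀ ℝ) : V.lc u = ∑ s, u s • V.α s := by
  unfold Rlz.lc
  rw [Finsupp.linearCombination_apply, Finsupp.sum_fintype]
  intro s
  rw [zero_smul]

theorem Bf_le (u : B →₀ ℝ) : Bf V u u ≤ (∑ s, |u s|) ^ 2 := by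
  rw [Bf_apply, lcc_apply', sq, Finset.sum_mul_sum, Finset.mul_sum]
  refine Finset.sum_le_sum fun s _ => ?_
  rw [lc_apply', map_sum, Finset.mul_sum, Finset.mul_sum]
  refine Finset.sum_le_sum fun t _ => ?_
  rw [map_smul, V.fc_α, smul_eq_mul]
  have h1 := Real.abs_cos_le_one (Real.pi / (M t s : ℝ))
  calc 1 / 2 * (u s * (u t * (-2 * Real.cos (Real.pi / (M t s : ℝ)))))
      = -(u s * u t * Real.cos (Real.pi / (M t s : ℝ))) := by ring
    _ ≤ |u s * u t * Real.cos (Real.pi / (M t s : ℝ))| := neg_le_abs _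
    _ = |u s| * |u t| * |Real.cos (Real.pi / (M t s : ℝ))| := by rw [abs_mul, abs_mul]
    _ ≤ |u s| * |u t| * 1 := mul_le_mul_of_nonneg_left h1 (by positivity)
    _ = _ := mul_one _

theorem ht_finite (H : ℝ) : (ball (Phi V) ht H).Finite :=
  finite_height ht_apply (Bf_le V) (fun u v => by rw [Bf_apply, Bf_apply, lcc_symm])
    (fun u hu => Phi_one V hu) (fun u hu => Phi_nonneg V hu)
    (fun u hu v hv => Phi_refl V hu hv) (fun u hu => Phi_inv V hu) H

theorem Phi_countable : (Phi V).Countable := by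
  have : Phi V = ⋃ n : ℕ, ball (Phi V) ht n := by
    ext u
    rw [mem_iUnion]
    refine ⟨fun hu => ?_, fun ⟨n, hn⟩ => hn.1⟩
    obtain ⟨n, hn⟩ := exists_nat_ge (ht u)
    exact ⟨n, hu, hn⟩
  rw [this]
  exact countable_iUnion fun n => (ht_finite V n).countable

/-- there is a positive form which is injective on the positive roots -/
theorem exists_generic : ∃ ρ : (B →₀ ℝ) →ₗ[ℝ] ℝ, (∀ u, (∀ s, 0 ≤ u s) → ht u ≤ ρ u) ∧
    ∀ u ∈ Phi V, ∀ v ∈ Phi V, ρ u = ρ v → u = v := by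
  classical
  let e := Fintype.equivFin B
  let P : (B →₀ ℝ) → Polynomial ℝ := fun u => ∑ s, Polynomial.C (u s) *
    (1 + Polynomial.X ^ ((e s : ℕ) + 1))
  have hP : ∀ u, u ≠ 0 → P u ≠ 0 := by
    intro u hu h0
    apply hu
    ext s
    have h1 : (P u).coeff ((e s : ℕ) + 1) = u s := by
      simp only [P, Polynomial.finsetSum_coeff]
      rw [Finset.sum_eq_single s]
      · rw [mul_add, mul_one, Polynomial.coeff_add, Polynomial.coeff_C_of_ne_zero (by omega),
          Polynomial.coeff_C_mul_X_pow, if_pos rfl, zero_add]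
      · intro t _ hts
        rw [mul_add, mul_one, Polynomial.coeff_add, Polynomial.coeff_C_of_ne_zero (by omega),
          Polynomial.coeff_C_mul_X_pow, if_neg, zero_add]
        intro h2
        have h3 : (e s : ℕ) = e t := by omega
        exact hts (e.injective (Fin.ext h3)).symm
      · intro h2
        exact absurd (Finset.mem_univ s) h2
    rw [← h1, h0, Polynomial.coeff_zero]
    rfl
  have hcount : (⋃ p ∈ (Phi V) ×ˢ (Phi V), {t : ℝ | p.1 ≠ p.2 ∧ (P (p.1 - p.2)).eval t = 0}).Countable := by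
    refine ((Phi_countable V).prod (Phi_countable V)).biUnion fun p _ => ?_
    by_cases hp : p.1 = p.2
    · have : {t : ℝ | p.1 ≠ p.2 ∧ (P (p.1 - p.2)).eval t = 0} = ∅ := by
        ext t
        simp [hp]
      rw [this]
      exact countable_empty
    · exact ((Polynomial.finite_setOfPred_isRoot (hP _ (sub_ne_zero.mpr hp))).subset
        fun t ht => ht.2).countable
  have hdense := hcount.dense_compl ℝ
  obtain ⟨t, htc, ht0⟩ := hdense.exists_mem_open isOpen_Ioi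
    (⟨1, mem_Ioi.mpr one_pos⟩ : (Ioi (0 : ℝ)).Nonempty)
  let ρ : (B →₀ ℝ) →ₗ[ℝ] ℝ := ∑ s, (1 + t ^ ((e s : ℕ) + 1)) • Finsupp.lapply s
  have hρ : ∀ u, ρ u = ∑ s, u s * (1 + t ^ ((e s : ℕ) + 1)) := by
    intro u
    simp only [ρ, LinearMap.sum_apply, LinearMap.smul_apply, Finsupp.lapply_apply, smul_eq_mul]
    exact Finset.sum_congr rfl fun s _ => mul_comm _ _
  have hρP : ∀ u, (P u).eval t = ρ u := by
    intro u
    rw [hρ]
    simp only [P, Polynomial.eval_finsetSum, Polynomial.eval_mul, Polynomial.eval_C,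
      Polynomial.eval_add, Polynomial.eval_one, Polynomial.eval_pow, Polynomial.eval_X]
  refine ⟨ρ, fun u hu => ?_, fun u hu v hv huv => ?_⟩
  · rw [hρ, ht_apply]
    refine Finset.sum_le_sum fun s _ => ?_
    have h1 : 0 ≤ t ^ ((e s : ℕ) + 1) := pow_nonneg (le_of_lt (mem_Ioi.mp ht0)) _
    nlinarith [hu s]
  · by_contra hne
    exact htc (mem_iUnion₂.mpr ⟨(u, v), ⟨hu, hv⟩, hne, by rw [hρP, map_sub, huv, sub_self]⟩)

theorem exists_RS : ∃ ρ : (B →₀ ℝ) →ₗ[ℝ] ℝ, RS (Phi V) (Bf V) ρ := by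
  obtain ⟨ρ, h1, h2⟩ := exists_generic V
  have hpos : ∀ u ∈ Phi V, 0 < ht u := by
    intro u hu
    rw [ht_apply]
    obtain ⟨s, hs⟩ : ∃ s, u s ≠ 0 := by
      by_contra hh
      push Not at hh
      exact Phi_ne_zero V hu (Finsupp.ext hh)
    exact Finset.sum_pos' (fun t _ => Phi_nonneg V hu t)
      ⟨s, Finset.mem_univ s, lt_of_le_of_ne (Phi_nonneg V hu s) hs.symm⟩
  refine ⟨ρ, ?_, fun u hu => Phi_one V hu, fun u hu => ?_, fun u hu v hv => Phi_refl V hu hv,
    fun r => ?_, fun u hu => Phi_inv V hu, h2⟩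
  · intro u v
    rw [Bf_apply, Bf_apply, lcc_symm]
  · exact (hpos u hu).trans_le (h1 u (Phi_nonneg V hu))
  · exact (ht_finite V r).subset fun u hu => ⟨hu.1, (h1 u (Phi_nonneg V hu.1)).trans hu.2⟩

end fin

/-- If the balls of all positive forms are tight, then every biclosed set of positive roots is an
initial section of a reflection order (Dyer's conjecture for `V`) -/
theorem exists_reflOrder [Finite B]
    (hT : ∀ ρ, RS (Phi V) (Bf V) ρ → ∀ r, Tight (ball (Phi V) ρ r))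
    {A : Set (Fin V.n → ℝ)} (hA : V.Biclosed A) : ∃ r, V.ReflOrder r ∧ V.InitSec r A := by
  have := Fintype.ofFinite B
  obtain ⟨ρ, hρ⟩ := exists_RS V
  have hH : Hs (Phi V) {c | c ∈ Phi V ∧ V.lc c ∈ A} := by
    refine ⟨fun c hc => hc.1, fun u hu v hv w hw ⟨a, b, ha, hb, e⟩ => ?_⟩
    have e' : V.lc w = a • V.lc u + b • V.lc v := by
      rw [e, map_add, map_smul, map_smul]
    have hw' : V.PosRoot (a • V.lc u + b • V.lc v) := e' ▸ hw
    refine ⟨fun h1 h2 => ⟨hw, ?_⟩, fun h1 => ?_⟩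
    · rw [e']
      exact hA.closed _ h1.2 _ h2.2 a b ha.le hb.le hw'
    · by_contra hcon
      rw [not_or] at hcon
      have hu' : V.lc u ∉ A := fun h => hcon.1 ⟨hu, h⟩
      have hv' : V.lc v ∉ A := fun h => hcon.2 ⟨hv, h⟩
      exact hA.coclosed _ _ hu hv hu' hv' a b ha.le hb.le hw' (e' ▸ h1.2)
  obtain ⟨r, r1, r2, r3, r4, r5⟩ := hρ.order (hT ρ hρ) hH
  -- every positive root is a combination of the simple roots
  have hex : ∀ u, V.PosRoot u → ∃ c, V.lc c = u ∧ c ∈ Phi V := by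
    intro u hu
    obtain ⟨-, c, -, hc⟩ := id hu
    rw [← V.lc_apply] at hc
    exact ⟨c, hc.symm, by
      change V.PosRoot (V.lc c)
      rwa [← hc]⟩
  refine ⟨fun u v => ∃ c d, V.lc c = u ∧ V.lc d = v ∧ r c d, ?_, ?_⟩
  · refine ⟨?_, ?_, ?_, ?_⟩
    · rintro u - ⟨c, d, h1, h2, h3⟩
      have : c = d := V.lc_inj (h1.trans h2.symm)
      subst this
      exact r1 c h3
    · rintro u v w - - - ⟨c, d, h1, h2, h3⟩ ⟨c', d', h4, h5, h6⟩
      have : d = c' := V.lc_inj (h2.trans h4.symm)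
      subst this
      exact ⟨c, d', h1, h5, r2 _ _ _ h3 h6⟩
    · intro u v hu hv huv
      obtain ⟨c, hc, hc'⟩ := hex u hu
      obtain ⟨d, hd, hd'⟩ := hex v hv
      have hcd : c ≠ d := by
        rintro rfl
        exact huv (hc.symm.trans hd)
      rcases r3 c hc' d hd' hcd with h | h
      · exact Or.inl ⟨c, d, hc, hd, h⟩
      · exact Or.inr ⟨d, c, hd, hc, h⟩
    · intro u v a b hu hv huv ha hb hw
      obtain ⟨c, hc, hc'⟩ := hex u hu
      obtain ⟨d, hd, hd'⟩ := hex v hv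
      have hcd : c ≠ d := by
        rintro rfl
        exact huv (hc.symm.trans hd)
      have he : V.lc (a • c + b • d) = a • u + b • v := by
        rw [map_add, map_smul, map_smul, hc, hd]
      have hw' : a • c + b • d ∈ Phi V := by
        change V.PosRoot _
        rwa [he]
      rcases r4 c hc' d hd' _ hw' hcd ⟨a, b, ha, hb, rfl⟩ with ⟨h1, h2⟩ | ⟨h1, h2⟩
      · exact Or.inl ⟨⟨c, _, hc, he, h1⟩, ⟨_, d, he, hd, h2⟩⟩
      · exact Or.inr ⟨⟨d, _, hd, he, h1⟩, ⟨_, c, he, hc, h2⟩⟩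
  · refine ⟨hA.pos, ?_⟩
    rintro u v hu hv ⟨c, d, hc, hd, h⟩
    have hcP : c ∈ Phi V := by
      change V.PosRoot _
      rwa [hc]
    have hdP : d ∈ Phi V := by
      change V.PosRoot _
      rw [hd]
      exact hA.pos v hv
    have h1 := r5 c hcP d hdP ⟨hdP, by rwa [hd]⟩ h
    rw [← hc]
    exact h1.2

end DY
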