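import Pool.Agent.Helper70.DY.G12
import Pool.Agent.Helper70.DY.E2
import Pool.Agent.Helper78.DY.R
import Pool.Agent.Helper10.DY.P

/-!
# Dyer's conjecture from the statement about triangles (MP_d13a5e_al)
-/

namespace DY

open Set RC

/-- all balls are tight, from the statement about triangles -/
theorem tight_all {E : Type*} [AddCommGroup E] [Module ℝ E] {Φ : Set E}
    {B : E →ₗ[ℝ] E →ₗ[ℝ] ℝ} {ρ : E →ₗ[ℝ] ℝ} (h : RS Φ B ρ)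
    (hStar : ∀ (Ψ : Set E) (a b c : E), Tri Ψ B a b c → StarS Ψ a b c)
    (hFn : ∀ (Ψ : Set E) (a b c : E), Tri Ψ B a b c → ∀ x ∈ Ψ, ∀ x' ∈ Ψ, x ≠ x' → x ≠ -x' →
      ∃ φ : E →ₗ[ℝ] ℝ, Fn Ψ x x' φ) : ∀ r, Tight (ball Φ ρ r) :=
  tight_of_tri_aux h (fun a ha b hb c hc hi h1 h2 h3 => tri_of_canon h ha hb hc hi h1 h2 h3)
    fun Ψ a b c hT ha hb hc _ r => tight_tri hT (hStar Ψ a b c hT) (hFn Ψ a b c hT) ha hb hc r

/-- Dyer's conjecture for `V`, from the statement about triangles -/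
theorem dyer_of_star {B W : Type} [Finite B] [Group W] {M : CoxeterMatrix B}
    {cs : CoxeterSystem M W} (V : Rlz cs)
    (hStar : ∀ (Ψ : Set (B →₀ ℝ)) (a b c : B →₀ ℝ), Tri Ψ (Bf V) a b c → StarS Ψ a b c)
    (hFn : ∀ (Ψ : Set (B →₀ ℝ)) (a b c : B →₀ ℝ), Tri Ψ (Bf V) a b c → ∀ x ∈ Ψ, ∀ x' ∈ Ψ,
      x ≠ x' → x ≠ -x' → ∃ φ : (B →₀ ℝ) →ₗ[ℝ] ℝ, Fn Ψ x x' φ)
    {A : Set (Fin V.n → ℝ)} (hA : V.Biclosed A) : ∃ r, V.ReflOrder r ∧ V.InitSec r A :=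
  exists_reflOrder V (fun _ h r => tight_all h hStar hFn r) hA

end DY
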