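import Pool.Agent.EW.RC.Fin6
import Pool.Agent.Helper70.DY.G13
import Pool.Agent.Helper9.DY.Fn

/-!
# The full question Q1 of MP_d13a5e_al, from the statement about triangles
-/

open MvPolynomial

namespace DY

open RC (BEq Rlz)
open RC.Rlz (ReflOrder InitSec mik Biclosed)
open _root_.RS

theorem full_of_star {B W : Type} [Finite B] [Group W] {M : CoxeterMatrix B}
    (cs : CoxeterSystem M W) (V : Rlz cs)
    (hStar : ∀ (Ψ : Set (B →₀ ℝ)) (a b c : B →₀ ℝ), Tri Ψ (Bf V) a b c → StarS Ψ a b c) :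
    ∃ Bz : W → Raw V.n, (∀ w, IsB V w (Bz w)) ∧
      ∀ A, Biclosed V A → ∀ l, cs.IsReduced l → ∀ u, BEq M u (mik V A l) →
        (∃ X, IsCx X ∧ HE X (Rou V u) ∧ Minimal X) ∧
        ∀ X, IsCx X → HE X (Rou V u) → Minimal X → Linear cs Bz (cs.wordProd l) X := by
  classical
  refine ⟨fun w => raw (@EW.KLB V.datOf w), fun w => raw_isB V w _ (V.isB_KLB w), ?_⟩
  intro A hA' l hl u hu
  obtain ⟨r, hr, hA⟩ := dyer_of_star V hStar
    (fun Ψ a b c hT x hx x' hx' h1 h2 => exists_fn hT hx hx' h1 h2) hA'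
  rw [← raw_Rou]
  refine ⟨?_, fun X' hX' hX hmin => ?_⟩
  · obtain ⟨X, hX, hmin⟩ := V.exists_minimal hr hA l hl u hu
    exact ⟨raw X, raw_isCx X, (he_iff _ _).2 hX, (min_iff _).2 hmin⟩
  obtain ⟨X, rfl⟩ : ∃ X : RC.CB V.n, raw X = X' := ⟨toCB X' hX', rfl⟩
  obtain ⟨ι, hι, hd, z, k, i, p, hF, h1, h2, h3, h4⟩ :=
    V.main hr hA l hl u hu X ((he_iff _ _).1 hX) ((min_iff _).1 hmin)
  obtain ⟨N, ⟨σ⟩⟩ := Finite.exists_equiv_fin ι
  refine ⟨N, fun j => z (σ.symm j), fun j => k (σ.symm j), ⟨fun j => i (σ.symm j),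
    fun j => p (σ.symm j), fun j => (hm_iff _ _ _ _ _).2 (hF.hi _ (Finset.mem_univ _)),
    fun j => (hm_iff _ _ _ _ _).2 (hF.hp _ (Finset.mem_univ _)),
    fun j => hF.pi _ (Finset.mem_univ _),
    fun j j' hj => hF.orth _ (Finset.mem_univ _) _ (Finset.mem_univ _)
      (fun h => hj (σ.symm.injective h)), fun x => ?_⟩, ?_, fun j => h2 _, fun j => h3 _,
    fun j => h4 _⟩
  · have := hF.sum x
    rw [AddMonoidHom.id_apply] at this
    exact (Equiv.sum_comp σ.symm (fun r => i r (p r x))).trans this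
  · obtain ⟨j0, hj0, hun⟩ := h1
    refine ⟨σ j0, ?_, fun j hj => ?_⟩
    · change z (σ.symm (σ j0)) = _
      rw [σ.symm_apply_apply]
      exact hj0
    · rw [← hun (σ.symm j) hj, σ.apply_symm_apply]

end DY
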