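import Mathlib

/-!
# Relatively biclosed subsets of a finite set of vectors; tightness; chains (MP_d13a5e_al)

`Hs K C`: `C` is biclosed in `K`.  `Tight K`: if `U`, `U + x`, `U + y` are biclosed in `K`, then so
is `U` together with all elements of `K` in the cone of `x` and `y`.  Tightness is local
confluence of one-element steps up, so that Newman's lemma applies.
-/

namespace DY

open Relation Set

variable {E : Type*} [AddCommGroup E] [Module ℝ E]

/-- `w` is strictly between `u` and `v` -/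
def Btw (u w v : E) : Prop := ∃ a b : ℝ, 0 < a ∧ 0 < b ∧ w = a • u + b • v

/-- the relatively biclosed subsets of `K` -/
def Hs (K C : Set E) : Prop :=
  C ⊆ K ∧ ∀ u ∈ K, ∀ v ∈ K, ∀ w ∈ K, Btw u w v →
    ((u ∈ C → v ∈ C → w ∈ C) ∧ (w ∈ C → u ∈ C ∨ v ∈ C))

/-- the elements of `K` in the closed cone spanned by `x` and `y` -/
def Fl (K : Set E) (x y : E) : Set E := {w | w ∈ K ∧ ∃ a b : ℝ, 0 ≤ a ∧ 0 ≤ b ∧ w = a • x + b • y}

/-- tightness -/
def Tight (K : Set E) : Prop := ∀ U x y, x ≠ y → x ∉ U → y ∉ U → Hs K U → Hs K (insert x U) →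
  Hs K (insert y U) → Hs K (U ∪ Fl K x y)

/-- finite sets of pairwise independent vectors in an open half space -/
structure Nice (K : Set E) : Prop where
  fin : K.Finite
  pos : ∃ ρ : E →ₗ[ℝ] ℝ, ∀ u ∈ K, 0 < ρ u
  np : ∀ u ∈ K, ∀ v ∈ K, ∀ c : ℝ, u = c • v → u = v

/-- one-element steps up -/
def Step (K : Set E) (U V : Set E) : Prop := Hs K U ∧ Hs K V ∧ ∃ x, x ∉ U ∧ V = insert x U

theorem Btw.symm {u w v : E} (h : Btw u w v) : Btw v w u := by
  obtain ⟨a, b, ha, hb, rfl⟩ := h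
  exact ⟨b, a, hb, ha, add_comm _ _⟩

theorem Nice.mono {K K' : Set E} (h : Nice K) (hs : K' ⊆ K) : Nice K' where
  fin := h.fin.subset hs
  pos := by
    obtain ⟨ρ, hρ⟩ := h.pos
    exact ⟨ρ, fun u hu => hρ u (hs hu)⟩
  np := fun u hu v hv c hc => h.np u (hs hu) v (hs hv) c hc

theorem Fl_symm (K : Set E) (x y : E) : Fl K x y = Fl K y x := by
  ext w
  constructor
  · rintro ⟨hw, a, b, ha, hb, h⟩
    exact ⟨hw, b, a, hb, ha, by rw [h, add_comm]⟩
  · rintro ⟨hw, a, b, ha, hb, h⟩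
    exact ⟨hw, b, a, hb, ha, by rw [h, add_comm]⟩

theorem Hs.compl {K C : Set E} (h : Hs K C) : Hs K (K \ C) := by
  refine ⟨sdiff_subset, fun u hu v hv w hw hb => ?_⟩
  obtain ⟨h1, h2⟩ := h.2 u hu v hv w hw hb
  refine ⟨fun a b => ⟨hw, fun c => ?_⟩, fun a => ?_⟩
  · rcases h2 c with d | d
    · exact a.2 d
    · exact b.2 d
  · by_contra hcon
    rw [not_or] at hcon
    have hu' : u ∈ C := by
      by_contra hh
      exact hcon.1 ⟨hu, hh⟩
    have hv' : v ∈ C := by
      by_contra hh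
      exact hcon.2 ⟨hv, hh⟩
    exact a.2 (h1 hu' hv')

theorem Hs.empty (K : Set E) : Hs K (∅ : Set E) :=
  ⟨empty_subset _, fun _ _ _ _ _ _ _ => ⟨fun h => h.elim, fun h => h.elim⟩⟩

theorem Hs.self (K : Set E) : Hs K K :=
  ⟨subset_rfl, fun _ hu _ _ _ hw _ => ⟨fun _ _ => hw, fun _ => Or.inl hu⟩⟩

theorem Hs.le (K : Set E) (h : E →ₗ[ℝ] ℝ) : Hs K {u | u ∈ K ∧ h u ≤ 0} := by
  refine ⟨fun u hu => hu.1, fun u hu v hv w hw hb => ?_⟩
  obtain ⟨a, b, ha, hb, rfl⟩ := hb
  refine ⟨fun h1 h2 => ⟨hw, ?_⟩, fun h1 => ?_⟩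
  · rw [map_add, map_smul, map_smul, smul_eq_mul, smul_eq_mul]
    have := mul_nonpos_of_nonneg_of_nonpos ha.le h1.2
    have := mul_nonpos_of_nonneg_of_nonpos hb.le h2.2
    linarith
  · by_contra hcon
    rw [not_or] at hcon
    have hu' : 0 < h u := by
      by_contra hh
      exact hcon.1 ⟨hu, not_lt.mp hh⟩
    have hv' : 0 < h v := by
      by_contra hh
      exact hcon.2 ⟨hv, not_lt.mp hh⟩
    have h3 := h1.2
    rw [map_add, map_smul, map_smul, smul_eq_mul, smul_eq_mul] at h3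
    have := mul_pos ha hu'
    have := mul_pos hb hv'
    linarith

theorem Hs.lt (K : Set E) (h : E →ₗ[ℝ] ℝ) : Hs K {u | u ∈ K ∧ h u < 0} := by
  have h1 := (Hs.le K (-h)).compl
  convert h1 using 1
  ext u
  simp only [mem_ofPred_eq, mem_sdiff, LinearMap.neg_apply, not_and]
  constructor
  · rintro ⟨ha, hb⟩
    exact ⟨ha, fun _ => by linarith⟩
  · rintro ⟨ha, hb⟩
    refine ⟨ha, ?_⟩
    have := hb ha
    linarith

theorem Hs.mono {K K' C : Set E} (h : Hs K C) (hs : K' ⊆ K) : Hs K' (C ∩ K') := by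
  refine ⟨inter_subset_right, fun u hu v hv w hw hb => ?_⟩
  obtain ⟨h1, h2⟩ := h.2 u (hs hu) v (hs hv) w (hs hw) hb
  exact ⟨fun a b => ⟨h1 a.1 b.1, hw⟩, fun a => (h2 a.1).imp (fun c => ⟨c, hu⟩) (fun c => ⟨c, hv⟩)⟩

theorem Step.compl {K U V : Set E} (h : Step K U V) : Step K (K \ V) (K \ U) := by
  obtain ⟨h1, h2, x, hx, rfl⟩ := h
  refine ⟨h2.compl, h1.compl, x, fun hh => hh.2 (mem_insert _ _), ?_⟩
  have hxK : x ∈ K := h2.1 (mem_insert _ _)
  ext u
  simp only [mem_sdiff, mem_insert_iff, not_or]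
  constructor
  · rintro ⟨ha, hb⟩
    by_cases hu : u = x
    · exact Or.inl hu
    · exact Or.inr ⟨ha, hu, hb⟩
  · rintro (rfl | ⟨ha, hb, hc⟩)
    · exact ⟨hxK, hx⟩
    · exact ⟨ha, hc⟩

theorem rtg_compl {K U V : Set E} (h : ReflTransGen (Step K) U V) :
    ReflTransGen (Step K) (K \ V) (K \ U) := by
  induction h with
  | refl => exact ReflTransGen.refl
  | tail _ h2 ih => exact ReflTransGen.head h2.compl ih

theorem rtg_subset {K U V : Set E} (h : ReflTransGen (Step K) U V) : U ⊆ V := by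
  induction h with
  | refl => exact subset_rfl
  | tail _ h2 ih =>
    obtain ⟨-, -, x, -, rfl⟩ := h2
    exact ih.trans (subset_insert _ _)

/-- Newman's lemma -/
theorem newman {α : Type*} {r : α → α → Prop} (m : α → ℕ) (hm : ∀ a b, r a b → m b < m a)
    (lc : ∀ a b c, r a b → r a c → ∃ d, ReflTransGen r b d ∧ ReflTransGen r c d) :
    ∀ n a b c, m a ≤ n → ReflTransGen r a b → ReflTransGen r a c →
      ∃ d, ReflTransGen r b d ∧ ReflTransGen r c d := by
  intro n
  induction n with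
  | zero =>
    intro a b c ha hb hc
    rcases ReflTransGen.cases_head hb with rfl | ⟨b', h1, h2⟩
    · exact ⟨c, hc, ReflTransGen.refl⟩
    · have := hm _ _ h1
      omega
  | succ n ih =>
    intro a b c ha hb hc
    rcases ReflTransGen.cases_head hb with rfl | ⟨b', h1, h2⟩
    · exact ⟨c, hc, ReflTransGen.refl⟩
    rcases ReflTransGen.cases_head hc with rfl | ⟨c', h3, h4⟩
    · exact ⟨b, ReflTransGen.refl, hb⟩
    obtain ⟨d, h5, h6⟩ := lc a b' c' h1 h3
    have hb' := hm _ _ h1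
    have hc' := hm _ _ h3
    obtain ⟨e, h7, h8⟩ := ih b' b d (by omega) h2 h5
    obtain ⟨f, h9, h10⟩ := ih c' c e (by omega) h4 (h6.trans h8)
    exact ⟨f, h7.trans h10, h9⟩

section plane

variable {K : Set E} (hK : Nice K) {U : Set E} {x y : E} (hxy : x ≠ y) (hx : x ∉ U) (hy : y ∉ U)
  (h0 : Hs K U) (h1 : Hs K (insert x U)) (h2 : Hs K (insert y U))

include hK hxy hx hy h1 h2 in
theorem coord_nonneg {z : E} (hz : z ∈ K) {a b : ℝ} (h : z = a • x + b • y) : 0 ≤ a := by
  obtain ⟨ρ, hρ⟩ := hK.pos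
  have hxK : x ∈ K := h1.1 (mem_insert _ _)
  have hyK : y ∈ K := h2.1 (mem_insert _ _)
  by_contra ha
  rw [not_le] at ha
  have hb : 0 < b := by
    have h3 := hρ z hz
    rw [h, map_add, map_smul, map_smul, smul_eq_mul, smul_eq_mul] at h3
    have h4 := mul_neg_of_neg_of_pos ha (hρ x hxK)
    by_contra hb
    rw [not_lt] at hb
    have h5 := mul_nonpos_of_nonpos_of_nonneg hb (hρ y hyK).le
    linarith
  have hB : Btw z y x := by
    refine ⟨b⁻¹, -a * b⁻¹, by positivity, mul_pos (by linarith) (by positivity), ?_⟩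
    rw [h, smul_add, smul_smul, smul_smul, inv_mul_cancel₀ hb.ne', one_smul, neg_mul, neg_smul,
      mul_comm a]
    abel
  obtain ⟨-, h3⟩ := h2.2 z hz x hxK y hyK hB
  rcases h3 (mem_insert _ _) with h4 | h4
  · rcases h4 with h4 | h4
    · rw [h4] at h
      apply hxy
      refine hK.np x hxK y hyK ((1 - b) / a) ?_
      have h5 : a • x = (1 - b) • y := by
        rw [sub_smul, one_smul, eq_sub_iff_add_eq]
        exact h.symm
      rw [div_eq_inv_mul, mul_smul, ← h5, smul_smul, inv_mul_cancel₀ ha.ne, one_smul]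
    · obtain ⟨h5, -⟩ := h1.2 z hz x hxK y hyK hB
      rcases h5 (mem_insert_of_mem _ h4) (mem_insert _ _) with h6 | h6
      · exact hxy h6.symm
      · exact hy h6
  · rcases h4 with h4 | h4
    · exact hxy h4
    · exact hx h4

include hK hxy hx hy h1 h2 in
theorem mem_Fl_of_plane {z : E} (hz : z ∈ K) {a b : ℝ} (h : z = a • x + b • y) :
    z ∈ Fl K x y :=
  ⟨hz, a, b, coord_nonneg hK hxy hx hy h1 h2 hz h,
    coord_nonneg hK hxy.symm hy hx h2 h1 hz (by rw [h, add_comm]), h⟩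

include hK hx hy h0 h1 h2 in
theorem not_mem_of_Fl {z : E} (hz : z ∈ Fl K x y) : z ∉ U := by
  obtain ⟨hzK, a, b, ha, hb, h⟩ := hz
  have hxK : x ∈ K := h1.1 (mem_insert _ _)
  have hyK : y ∈ K := h2.1 (mem_insert _ _)
  intro hzU
  rcases ha.eq_or_lt with ha | ha
  · rw [← ha, zero_smul, zero_add] at h
    exact hy (hK.np z hzK y hyK b h ▸ hzU)
  rcases hb.eq_or_lt with hb | hb
  · rw [← hb, zero_smul, add_zero] at h
    exact hx (hK.np z hzK x hxK a h ▸ hzU)
  rcases (h0.2 x hxK y hyK z hzK ⟨a, b, ha, hb, h⟩).2 hzU with h3 | h3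
  · exact hx h3
  · exact hy h3

include hK hxy hx hy h0 h1 h2 in
/-- between `U` and `U + F` -/
theorem Hs_union {I : Set E} (hI : Hs (Fl K x y) I) (hF : Hs K (U ∪ Fl K x y)) :
    Hs K (U ∪ I) := by
  have hxK : x ∈ K := h1.1 (mem_insert _ _)
  have hyK : y ∈ K := h2.1 (mem_insert _ _)
  have hnF : ∀ z, z ∈ Fl K x y → z ∉ U := fun z hz => not_mem_of_Fl hK hx hy h0 h1 h2 hz
  have hpl : ∀ z ∈ K, (∃ a b : ℝ, z = a • x + b • y) → z ∈ Fl K x y := fun z hz ⟨a, b, h⟩ =>
    mem_Fl_of_plane hK hxy hx hy h1 h2 hz h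
  have hco : ∀ z, z ∈ Fl K x y → ∃ a b : ℝ, z = a • x + b • y := fun z ⟨_, a, b, _, _, h⟩ =>
    ⟨a, b, h⟩
  refine ⟨union_subset h0.1 (hI.1.trans fun z hz => hz.1), fun u hu v hv w hw hb => ?_⟩
  -- two of three in the plane
  have huv : u ∈ Fl K x y → v ∈ Fl K x y → w ∈ Fl K x y := by
    intro ha hb'
    obtain ⟨a1, b1, e1⟩ := hco u ha
    obtain ⟨a2, b2, e2⟩ := hco v hb'
    obtain ⟨a, b, -, -, e⟩ := hb
    refine hpl w hw ⟨a * a1 + b * a2, a * b1 + b * b2, ?_⟩
    rw [e, e1, e2]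
    module
  have huw : u ∈ Fl K x y → w ∈ Fl K x y → v ∈ Fl K x y := by
    intro ha hb'
    obtain ⟨a1, b1, e1⟩ := hco u ha
    obtain ⟨a2, b2, e2⟩ := hco w hb'
    obtain ⟨a, b, -, hb0, e⟩ := hb
    refine hpl v hv ⟨b⁻¹ * (a2 - a * a1), b⁻¹ * (b2 - a * b1), ?_⟩
    have e3 : b • v = (a2 - a * a1) • x + (b2 - a * b1) • y := by
      have : b • v = w - a • u := by rw [e]; abel
      rw [this, e1, e2]
      module
    rw [mul_smul, mul_smul, ← smul_add, ← e3, smul_smul, inv_mul_cancel₀ hb0.ne', one_smul]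
  have hvw : v ∈ Fl K x y → w ∈ Fl K x y → u ∈ Fl K x y := by
    intro ha hb'
    obtain ⟨a1, b1, e1⟩ := hco v ha
    obtain ⟨a2, b2, e2⟩ := hco w hb'
    obtain ⟨a, b, ha0, -, e⟩ := hb
    refine hpl u hu ⟨a⁻¹ * (a2 - b * a1), a⁻¹ * (b2 - b * b1), ?_⟩
    have e3 : a • u = (a2 - b * a1) • x + (b2 - b * b1) • y := by
      have : a • u = w - b • v := by rw [e]; abel
      rw [this, e1, e2]
      module
    rw [mul_smul, mul_smul, ← smul_add, ← e3, smul_smul, inv_mul_cancel₀ ha0.ne', one_smul]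
  have mI : ∀ z, z ∉ Fl K x y → (z ∈ U ∪ I ↔ z ∈ U) := fun z hz =>
    ⟨fun h => h.elim id fun h' => absurd (hI.1 h') hz, Or.inl⟩
  have mF : ∀ z, z ∉ Fl K x y → (z ∈ U ∪ Fl K x y ↔ z ∈ U) := fun z hz =>
    ⟨fun h => h.elim id fun h' => absurd h' hz, Or.inl⟩
  have mI' : ∀ z, z ∈ Fl K x y → (z ∈ U ∪ I ↔ z ∈ I) := fun z hz =>
    ⟨fun h => h.elim (fun h' => absurd h' (hnF z hz)) id, Or.inr⟩
  have mF' : ∀ z, z ∈ Fl K x y → (z ∈ U ∪ Fl K x y ↔ True) := fun z hz =>
    ⟨fun _ => trivial, fun _ => Or.inr hz⟩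
  have hU := h0.2 u hu v hv w hw hb
  have hF' := hF.2 u hu v hv w hw hb
  by_cases fu : u ∈ Fl K x y
  · by_cases fv : v ∈ Fl K x y
    · have fw := huv fu fv
      rw [mI' u fu, mI' v fv, mI' w fw]
      exact hI.2 u fu v fv w fw hb
    · have fw : w ∉ Fl K x y := fun h => fv (huw fu h)
      rw [mI' u fu, mI v fv, mI w fw]
      rw [mF' u fu, mF v fv, mF w fw] at hF'
      have hu0 := hnF u fu
      by_cases hui : u ∈ I
      · simp only [hui, true_or, implies_true, true_implies, and_true]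
        exact hF'.1 trivial
      · simp only [hui, false_or, false_implies, true_and]
        simp only [hu0, false_or, false_implies, true_and] at hU
        exact hU
  · by_cases fv : v ∈ Fl K x y
    · have fw : w ∉ Fl K x y := fun h => fu (hvw fv h)
      rw [mI u fu, mI' v fv, mI w fw]
      rw [mF u fu, mF' v fv, mF w fw] at hF'
      have hv0 := hnF v fv
      by_cases hvi : v ∈ I
      · simp only [hvi, or_true, implies_true, true_implies, and_true]
        exact fun h => hF'.1 h trivial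
      · simp only [hvi, or_false, false_implies, implies_true, true_and]
        simp only [hv0, or_false, false_implies, implies_true, true_and] at hU
        exact hU
    · by_cases fw : w ∈ Fl K x y
      · rw [mI u fu, mI v fv, mI' w fw]
        rw [mF u fu, mF v fv, mF' w fw] at hF'
        have hw0 := hnF w fw
        by_cases hwi : w ∈ I
        · simp only [hwi, implies_true, true_implies, true_and]
          exact hF'.2 trivial
        · simp only [hwi, false_implies, and_true]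
          simp only [hw0, false_implies, and_true] at hU
          exact hU
      · rw [mI u fu, mI v fv, mI w fw]
        exact hU

end plane

end DY
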