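import Pool.Agent.Helper70.DY.A

/-!
# Tightness gives chains from `∅` to every biclosed set and from there to `K` (MP_d13a5e_al)
-/

namespace DY

open Relation Set

variable {E : Type*} [AddCommGroup E] [Module ℝ E]

/-- a linear form which separates two independent vectors -/
theorem exists_form {K : Set E} (hK : Nice K) {x y : E} (hxy : x ≠ y) (hxK : x ∈ K) (hyK : y ∈ K) :
    ∃ g : E →ₗ[ℝ] ℝ, g x = 0 ∧ g y = 1 := by
  have hn : y ∉ Submodule.span ℝ {x} := by
    rw [Submodule.mem_span_singleton]
    rintro ⟨c, hc⟩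
    exact hxy (hK.np y hyK x hxK c hc.symm).symm
  obtain ⟨f, hf, hf'⟩ := Submodule.exists_dual_map_eq_bot_of_notMem hn inferInstance
  refine ⟨(f y)⁻¹ • f, ?_, ?_⟩
  · have : f x ∈ (Submodule.span ℝ {x}).map f :=
      Submodule.mem_map_of_mem (Submodule.mem_span_singleton_self x)
    rw [hf', Submodule.mem_bot] at this
    rw [LinearMap.smul_apply, this, smul_zero]
  · rw [LinearMap.smul_apply, smul_eq_mul, inv_mul_cancel₀ hf]

section plane

variable {K : Set E} (hK : Nice K) {U : Set E} {x y : E} (hxy : x ≠ y) (hx : x ∉ U) (hy : y ∉ U)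
  (h0 : Hs K U) (h1 : Hs K (insert x U)) (h2 : Hs K (insert y U))

include hK hxy hx hy h0 h1 h2 in
theorem chain_up (hF : Hs K (U ∪ Fl K x y)) :
    ReflTransGen (Step K) (insert x U) (U ∪ Fl K x y) := by
  classical
  have hxK : x ∈ K := h1.1 (mem_insert _ _)
  have hyK : y ∈ K := h2.1 (mem_insert _ _)
  obtain ⟨ρ, hρ⟩ := hK.pos
  obtain ⟨g, gx, gy⟩ := exists_form hK hxy hxK hyK
  have hfin : (Fl K x y).Finite := hK.fin.subset fun z hz => hz.1
  have hHI : ∀ c : ℝ, Hs K (U ∪ {u | u ∈ Fl K x y ∧ (g - c • ρ) u ≤ 0}) := fun c =>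
    Hs_union hK hxy hx hy h0 h1 h2 (Hs.le _ _) hF
  have key : ∀ n : ℕ, ∀ c : ℝ, {u | u ∈ Fl K x y ∧ 0 < (g - c • ρ) u}.ncard = n →
      ReflTransGen (Step K) (U ∪ {u | u ∈ Fl K x y ∧ (g - c • ρ) u ≤ 0}) (U ∪ Fl K x y) := by
    intro n
    induction n with
    | zero =>
      intro c hc
      have hem : {u | u ∈ Fl K x y ∧ 0 < (g - c • ρ) u} = ∅ := by
        rwa [ncard_eq_zero (hfin.subset fun z hz => hz.1)] at hc
      have : {u | u ∈ Fl K x y ∧ (g - c • ρ) u ≤ 0} = Fl K x y := by
        ext u
        refine ⟨fun hu => hu.1, fun hu => ⟨hu, ?_⟩⟩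
        by_contra hh
        have : u ∈ {u | u ∈ Fl K x y ∧ 0 < (g - c • ρ) u} := ⟨hu, not_le.mp hh⟩
        rw [hem] at this
        exact this
      rw [this]
    | succ n ih =>
      intro c hc
      set S : Set E := {u | u ∈ Fl K x y ∧ 0 < (g - c • ρ) u} with hS
      have hSf : S.Finite := hfin.subset fun z hz => hz.1
      have hSn : S.Nonempty := by
        rw [nonempty_iff_ne_empty]
        intro hem
        rw [hem, ncard_empty] at hc
        omega
      obtain ⟨w, hwS, hmin⟩ := hSf.exists_minimalFor (fun u => g u / ρ u) S hSn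
      have hρw : 0 < ρ w := hρ w hwS.1.1
      have hcw : c < g w / ρ w := by
        have := hwS.2
        rw [LinearMap.sub_apply, LinearMap.smul_apply, smul_eq_mul] at this
        rw [lt_div_iff₀ hρw]
        linarith
      -- equal slopes
      have heq : ∀ u ∈ Fl K x y, g u / ρ u = g w / ρ w → u = w := by
        intro u hu hs
        have hρu : 0 < ρ u := hρ u hu.1
        obtain ⟨huK, a, b, -, -, e1⟩ := hu
        obtain ⟨⟨hwK, a', b', -, -, e2⟩, -⟩ := hwS
        have hgu : g u = b := by
          rw [e1, map_add, map_smul, map_smul, gx, gy]; simp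
        have hgw : g w = b' := by
          rw [e2, map_add, map_smul, map_smul, gx, gy]; simp
        have h3 : b * ρ w = b' * ρ u := by
          rw [div_eq_div_iff hρu.ne' hρw.ne', hgu, hgw] at hs
          linarith
        have h4 : ρ u = a * ρ x + b * ρ y := by
          rw [e1, map_add, map_smul, map_smul]; simp
        have h5 : ρ w = a' * ρ x + b' * ρ y := by
          rw [e2, map_add, map_smul, map_smul]; simp
        have h6 : a * ρ w = a' * ρ u := by
          have hρx := hρ x hxK
          have : ρ x * (a * ρ w) = ρ x * (a' * ρ u) := by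
            have e3 : a * ρ x = ρ u - b * ρ y := by linarith
            have e4 : a' * ρ x = ρ w - b' * ρ y := by linarith
            calc ρ x * (a * ρ w) = (a * ρ x) * ρ w := by ring
              _ = (ρ u - b * ρ y) * ρ w := by rw [e3]
              _ = ρ u * ρ w - ρ y * (b * ρ w) := by ring
              _ = ρ u * ρ w - ρ y * (b' * ρ u) := by rw [h3]
              _ = (ρ w - b' * ρ y) * ρ u := by ring
              _ = (a' * ρ x) * ρ u := by rw [e4]
              _ = ρ x * (a' * ρ u) := by ring
          exact mul_left_cancel₀ hρx.ne' this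
        refine hK.np u huK w hwK (ρ u / ρ w) ?_
        have e6 : ρ w • u = (a * ρ w) • x + (b * ρ w) • y := by
          rw [e1]
          module
        have e7 : ρ u • w = (a' * ρ u) • x + (b' * ρ u) • y := by
          rw [e2]
          module
        have e5 : ρ w • u = ρ u • w := by
          rw [e6, e7, h6, h3]
        rw [div_eq_inv_mul, mul_smul, ← e5, smul_smul, inv_mul_cancel₀ hρw.ne', one_smul]
      set c' := g w / ρ w with hc'
      -- the next set
      have hins : {u | u ∈ Fl K x y ∧ (g - c' • ρ) u ≤ 0} =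
          insert w {u | u ∈ Fl K x y ∧ (g - c • ρ) u ≤ 0} := by
        ext u
        simp only [mem_ofPred_eq, mem_insert_iff, LinearMap.sub_apply, LinearMap.smul_apply,
          smul_eq_mul]
        constructor
        · rintro ⟨hu, h3⟩
          by_cases h4 : g u - c * ρ u ≤ 0
          · exact Or.inr ⟨hu, h4⟩
          · left
            have huS : u ∈ S := ⟨hu, by
              rw [LinearMap.sub_apply, LinearMap.smul_apply, smul_eq_mul]; linarith⟩
            have hρu : 0 < ρ u := hρ u hu.1
            have h5 : g u / ρ u ≤ c' := by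
              rw [div_le_iff₀ hρu]
              linarith
            exact heq u hu (le_antisymm h5 (hmin huS h5))
        · rintro (rfl | ⟨hu, h3⟩)
          · refine ⟨hwS.1, ?_⟩
            rw [hc', div_mul_cancel₀ _ hρw.ne']
            linarith
          · refine ⟨hu, ?_⟩
            have hρu : 0 < ρ u := hρ u hu.1
            have := mul_lt_mul_of_pos_right hcw hρu
            linarith
      have hstep : Step K (U ∪ {u | u ∈ Fl K x y ∧ (g - c • ρ) u ≤ 0})
          (U ∪ {u | u ∈ Fl K x y ∧ (g - c' • ρ) u ≤ 0}) := by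
        refine ⟨hHI c, hHI c', w, ?_, ?_⟩
        · rintro (h3 | h3)
          · exact not_mem_of_Fl hK hx hy h0 h1 h2 hwS.1 h3
          · exact absurd hwS.2 (not_lt.mpr h3.2)
        · rw [hins, union_insert]
      refine ReflTransGen.head hstep (ih c' ?_)
      have hS' : {u | u ∈ Fl K x y ∧ 0 < (g - c' • ρ) u} = S \ {w} := by
        ext u
        simp only [mem_ofPred_eq, mem_sdiff, mem_singleton_iff, LinearMap.sub_apply,
          LinearMap.smul_apply, smul_eq_mul, hS]
        constructor
        · rintro ⟨hu, h3⟩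
          have hρu : 0 < ρ u := hρ u hu.1
          refine ⟨⟨hu, ?_⟩, ?_⟩
          · have := mul_lt_mul_of_pos_right hcw hρu
            linarith
          · rintro rfl
            rw [hc', div_mul_cancel₀ _ hρw.ne'] at h3
            linarith
        · rintro ⟨⟨hu, h3⟩, h4⟩
          refine ⟨hu, ?_⟩
          by_contra hh
          have hρu : 0 < ρ u := hρ u hu.1
          have h5 : g u / ρ u ≤ c' := by
            rw [div_le_iff₀ hρu]
            linarith
          have huS : u ∈ S := ⟨hu, by
            rw [LinearMap.sub_apply, LinearMap.smul_apply, smul_eq_mul]; linarith⟩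
          exact h4 (heq u hu (le_antisymm h5 (hmin huS h5)))
      rw [hS', ncard_sdiff_singleton_of_mem hwS, hc]
      rfl
  have h3 := key _ 0 rfl
  have h4 : {u | u ∈ Fl K x y ∧ (g - (0 : ℝ) • ρ) u ≤ 0} = {x} := by
    ext u
    simp only [zero_smul, sub_zero, mem_ofPred_eq, mem_singleton_iff]
    constructor
    · rintro ⟨⟨huK, a, b, ha, hb, e⟩, h5⟩
      have hgu : g u = b := by
        rw [e, map_add, map_smul, map_smul, gx, gy]; simp
      have hb0 : b = 0 := le_antisymm (hgu ▸ h5) hb
      rw [hb0, zero_smul, add_zero] at e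
      exact hK.np u huK x hxK a e
    · rintro rfl
      exact ⟨⟨hxK, 1, 0, zero_le_one, le_rfl, by simp⟩, by rw [gx]⟩
  rw [h4, union_singleton] at h3
  exact h3

end plane

theorem local_confluence {K : Set E} (hK : Nice K) (hT : Tight K) (A B C : Set E)
    (hB : Step K A B) (hC : Step K A C) :
    ∃ D, ReflTransGen (Step K) B D ∧ ReflTransGen (Step K) C D := by
  obtain ⟨h0, h1, x, hx, rfl⟩ := hB
  obtain ⟨-, h2, y, hy, rfl⟩ := hC
  by_cases hxy : x = y
  · subst hxy
    exact ⟨_, ReflTransGen.refl, ReflTransGen.refl⟩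
  have hF := hT A x y hxy hx hy h0 h1 h2
  refine ⟨A ∪ Fl K x y, chain_up hK hxy hx hy h0 h1 h2 hF, ?_⟩
  rw [Fl_symm] at hF ⊢
  exact chain_up hK (Ne.symm hxy) hy hx h0 h2 h1 hF

theorem step_top {K X : Set E} (h : ReflTransGen (Step K) K X) : X = K := by
  rcases ReflTransGen.cases_head h with h | ⟨Y, h1, -⟩
  · exact h.symm
  · obtain ⟨-, h2, x, hx, rfl⟩ := h1
    exact absurd (h2.1 (mem_insert _ _)) hx

theorem to_top {K : Set E} (hK : Nice K) (hT : Tight K) (h : ReflTransGen (Step K) ∅ K)
    {X : Set E} (hX : ReflTransGen (Step K) ∅ X) : ReflTransGen (Step K) X K := by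
  obtain ⟨D, h1, h2⟩ := newman (r := Step K) (fun U => (K \ U).ncard) (fun A B hAB => by
      obtain ⟨-, h4, x, hx, rfl⟩ := hAB
      refine ncard_lt_ncard ?_ (hK.fin.subset sdiff_subset)
      have hxK : x ∈ K := h4.1 (mem_insert _ _)
      refine ⟨fun u hu => ⟨hu.1, fun hh => hu.2 (mem_insert_of_mem _ hh)⟩, fun hh => ?_⟩
      exact (hh ⟨hxK, hx⟩ : x ∈ K \ insert x A).2 (mem_insert _ _))
    (local_confluence hK hT) _ ∅ X K le_rfl hX h
  rw [step_top h2] at h1
  exact h1

theorem from_bot {K : Set E} (hK : Nice K) (hT : Tight K) (h : ReflTransGen (Step K) ∅ K)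
    {X : Set E} (hXK : X ⊆ K) (hX : ReflTransGen (Step K) X K) : ReflTransGen (Step K) ∅ X := by
  have h1 := rtg_compl hX
  rw [sdiff_self] at h1
  have h2 := rtg_compl (to_top hK hT h h1)
  rw [sdiff_self, sdiff_sdiff_cancel_left hXK] at h2
  exact h2

/-- the induction step -/
theorem good_step {K' : Set E} {t : E} (ht : t ∉ K') (hK : Nice (insert t K'))
    (hT : Tight (insert t K'))
    (hint : ∀ u ∈ K', ∀ w ∈ K', Btw t w u → ∃ v ∈ K', Btw v t w)
    (ih : ∀ C, Hs K' C → ReflTransGen (Step K') ∅ C) (C : Set E) (hC : Hs (insert t K') C) :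
    ReflTransGen (Step (insert t K')) ∅ C ∧ ReflTransGen (Step (insert t K')) C (insert t K') := by
  set K := insert t K' with hKdef
  have htK : t ∈ K := mem_insert _ _
  have hsub : K' ⊆ K := subset_insert _ _
  obtain ⟨ρ, hρ⟩ := hK.pos
  -- a set of the chain below `C` is biclosed in `K`
  have lift : ∀ C, Hs K C → t ∉ C → ∀ V, V ⊆ C → Hs K' V → Hs K V := by
    intro C hC htC V hVC hV
    refine ⟨hV.1.trans hsub, fun u hu v hv w hw hb => ?_⟩
    have htV : t ∉ V := fun h => htC (hVC h)
    -- the case of `t` at an end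
    have hend : ∀ v w, v ∈ K' → w ∈ K' → Btw t w v → w ∈ V → v ∈ V := by
      intro v w hv hw hb hwV
      obtain ⟨v', hv', hb'⟩ := hint v hv w hw hb
      by_contra hvV
      have hbt : Btw v' w v := by
        obtain ⟨a', b', ha', hb1, e1⟩ := hb'
        obtain ⟨a, b, ha, hb2, e2⟩ := hb
        have e3 : (1 - a * b') • w = (a * a') • v' + b • v := by
          have : w = a • (a' • v' + b' • w) + b • v := by rw [← e1]; exact e2
          rw [sub_smul, one_smul, sub_eq_iff_eq_add]
          nth_rewrite 1 [this]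
          module
        have hpos : 0 < 1 - a * b' := by
          have h3 := congrArg ρ e3
          rw [map_smul, map_add, map_smul, map_smul, smul_eq_mul, smul_eq_mul, smul_eq_mul] at h3
          have h4 : 0 < a * a' * ρ v' + b * ρ v := by
            have := hρ v' (hsub hv')
            have := hρ v (hsub hv)
            positivity
          rw [← h3] at h4
          by_contra hh
          have := mul_nonpos_of_nonpos_of_nonneg (not_lt.mp hh) (hρ w (hsub hw)).le
          linarith
        refine ⟨(1 - a * b')⁻¹ * (a * a'), (1 - a * b')⁻¹ * b, by positivity, by positivity, ?_⟩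
        rw [mul_smul (1 - a * b')⁻¹ (a * a') v', mul_smul (1 - a * b')⁻¹ b v, ← smul_add, ← e3,
          smul_smul, inv_mul_cancel₀ hpos.ne', one_smul]
      rcases (hV.2 v' hv' v hv w hw hbt).2 hwV with h3 | h3
      · exact htC ((hC.2 v' (hsub hv') w (hsub hw) t htK hb').1 (hVC h3) (hVC hwV))
      · exact hvV h3
    rcases hu with hut | hu
    · subst hut
      refine ⟨fun h => absurd h htV, fun hwV => Or.inr ?_⟩
      rcases hw with hwt | hw
      · exact absurd (hwt ▸ hwV) htV
      rcases hv with hvt | hv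
      · exfalso
        obtain ⟨a, b, ha, hb1, e⟩ := hb
        rw [hvt, ← add_smul] at e
        exact ht (hK.np w (hsub hw) u htK _ e ▸ hw)
      exact hend v w hv hw hb hwV
    rcases hv with hvt | hv
    · subst hvt
      refine ⟨fun _ h => absurd h htV, fun hwV => Or.inl ?_⟩
      rcases hw with hwt | hw
      · exact absurd (hwt ▸ hwV) htV
      exact hend u w hu hw hb.symm hwV
    rcases hw with hwt | hw
    · subst hwt
      refine ⟨fun h3 h4 => ?_, fun h => absurd h htV⟩
      exact absurd ((hC.2 u (hsub hu) v (hsub hv) w htK hb).1 (hVC h3) (hVC h4)) htC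
    · exact hV.2 u hu v hv w hw hb
  -- sets without `t` are reached from below
  have hα : ∀ C, Hs K C → t ∉ C → ReflTransGen (Step K) ∅ C := by
    intro C hC htC
    have hC' : Hs K' C := by
      have h3 := hC.mono hsub
      have h4 : C ∩ K' = C := by
        rw [inter_eq_left]
        intro z hz
        rcases hC.1 hz with h | h
        · exact absurd (h ▸ hz) htC
        · exact h
      rwa [h4] at h3
    have h3 := ih C hC'
    have h4 : ∀ V, ReflTransGen (Step K') V C → V ⊆ C ∧ ReflTransGen (Step K) V C := by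
      intro V hV
      induction hV using ReflTransGen.head_induction_on with
      | refl => exact ⟨subset_rfl, ReflTransGen.refl⟩
      | @head V₁ V₂ h5 _ h6 =>
        obtain ⟨h7, h8⟩ := h6
        obtain ⟨h9, h10, z, hz, e⟩ := h5
        have h11 : V₁ ⊆ V₂ := by
          rw [e]
          exact subset_insert _ _
        exact ⟨h11.trans h7, ReflTransGen.head ⟨lift C hC htC _ (h11.trans h7) h9,
          lift C hC htC _ h7 h10, z, hz, e⟩ h8⟩
    exact (h4 ∅ h3).2
  have hβ : ∀ C, Hs K C → t ∈ C → ReflTransGen (Step K) C K := by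
    intro C hC htC
    have h3 := rtg_compl (hα (K \ C) hC.compl (fun h => h.2 htC))
    rwa [sdiff_sdiff_cancel_left hC.1, sdiff_empty] at h3
  -- a chain from `∅` to `K`
  have hγ : ReflTransGen (Step K) ∅ K := by
    have hfin : Finite K' := (hK.fin.subset hsub).to_subtype
    obtain ⟨g, hgt, hg⟩ : ∃ g : E →ₗ[ℝ] ℝ, g t = 0 ∧ ∀ u : K', g u.1 ≠ 0 := by
      have h3 : ∀ u : K', (Submodule.span ℝ {t}).mkQ u.1 ≠ 0 := by
        intro u h4
        rw [Submodule.mkQ_apply, Submodule.Quotient.mk_eq_zero,
          Submodule.mem_span_singleton] at h4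
        obtain ⟨c, hc⟩ := h4
        exact ht (hK.np u.1 (hsub u.2) t htK c hc.symm ▸ u.2)
      obtain ⟨f, hf⟩ := Module.exists_dual_forall_apply_ne_zero (K := ℝ)
        (fun u : K' => (Submodule.span ℝ {t}).mkQ u.1) h3
      refine ⟨f.comp (Submodule.span ℝ {t}).mkQ, ?_, fun u => hf u⟩
      rw [LinearMap.comp_apply, Submodule.mkQ_apply,
        (Submodule.Quotient.mk_eq_zero _).mpr (Submodule.mem_span_singleton_self t), map_zero]
    have h3 := Hs.lt K g
    have h4 := Hs.le K g
    have h5 : {u | u ∈ K ∧ g u ≤ 0} = insert t {u | u ∈ K ∧ g u < 0} := by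
      ext u
      simp only [mem_ofPred_eq, mem_insert_iff]
      constructor
      · rintro ⟨h6, h7⟩
        rcases h7.lt_or_eq with h8 | h8
        · exact Or.inr ⟨h6, h8⟩
        · left
          rcases h6 with h6 | h6
          · exact h6
          · exact absurd h8 (hg ⟨u, h6⟩)
      · rintro (rfl | ⟨h6, h7⟩)
        · exact ⟨htK, hgt.le⟩
        · exact ⟨h6, h7.le⟩
    have h6 : t ∉ {u | u ∈ K ∧ g u < 0} := fun h => absurd hgt h.2.ne
    have h7 := hα _ h3 h6
    have h8 := hβ _ h4 (by rw [h5]; exact mem_insert _ _)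
    exact (h7.tail ⟨h3, h4, t, h6, h5⟩).trans h8
  by_cases htC : t ∈ C
  · have h3 := hβ C hC htC
    exact ⟨from_bot hK hT hγ hC.1 h3, h3⟩
  · have h3 := hα C hC htC
    exact ⟨h3, to_top hK hT hγ h3⟩

/-- sets which are obtained by adding interior elements, with tightness at each stage -/
inductive Ch : Set E → Prop
  | nil : Ch ∅
  | step {K' : Set E} {t : E} : Ch K' → t ∉ K' → Tight (insert t K') →
      (∀ u ∈ K', ∀ w ∈ K', Btw t w u → ∃ v ∈ K', Btw v t w) → Ch (insert t K')

theorem Ch.good {K : Set E} (h : Ch K) (hK : Nice K) (C : Set E) (hC : Hs K C) :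
    ReflTransGen (Step K) ∅ C ∧ ReflTransGen (Step K) C K := by
  induction h generalizing C with
  | nil =>
    have := subset_empty_iff.mp hC.1
    subst this
    exact ⟨ReflTransGen.refl, ReflTransGen.refl⟩
  | step _ h2 h3 h4 ih =>
    exact good_step h2 hK h3 h4 (fun C hC => (ih (hK.mono (subset_insert _ _)) C hC).1) C hC

end DY
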