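import Pool.Agent.Helper70.DY.B

/-!
# From chains of biclosed sets to orders, and the limit over balls (MP_d13a5e_al)
-/

namespace DY

open Relation Set

variable {E : Type*} [AddCommGroup E] [Module ℝ E]

theorem exists_family {K A B : Set E} (h : ReflTransGen (Step K) A B) (hA : Hs K A) :
    ∃ F : Set (Set E), A ∈ F ∧ B ∈ F ∧ (∀ X ∈ F, Hs K X ∧ A ⊆ X ∧ X ⊆ B) ∧
      (∀ X ∈ F, ∀ Y ∈ F, X ⊆ Y ∨ Y ⊆ X) ∧
      ∀ u ∈ B, u ∉ A → ∀ v ∈ B, v ∉ A → u ≠ v → ∃ X ∈ F, (u ∈ X ∧ v ∉ X) ∨ (v ∈ X ∧ u ∉ X) := by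
  induction h with
  | refl =>
    refine ⟨{A}, rfl, rfl, ?_, ?_, fun u hu hu' => absurd hu hu'⟩
    · rintro X rfl
      exact ⟨hA, subset_rfl, subset_rfl⟩
    · rintro X rfl Y rfl
      exact Or.inl subset_rfl
  | @tail B B' _ h2 ih =>
    obtain ⟨F, h3, h4, h5, h6, h7⟩ := ih
    obtain ⟨h8, h9, z, hz, e⟩ := h2
    have hBB : B ⊆ B' := by
      rw [e]
      exact subset_insert _ _
    have hAB : A ⊆ B := (h5 B h4).2.1
    refine ⟨insert B' F, mem_insert_of_mem _ h3, mem_insert _ _, ?_, ?_, ?_⟩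
    · rintro X (rfl | hX)
      · exact ⟨h9, hAB.trans hBB, subset_rfl⟩
      · exact ⟨(h5 X hX).1, (h5 X hX).2.1, (h5 X hX).2.2.trans hBB⟩
    · rintro X (rfl | hX) Y (rfl | hY)
      · exact Or.inl subset_rfl
      · exact Or.inr ((h5 Y hY).2.2.trans hBB)
      · exact Or.inl ((h5 X hX).2.2.trans hBB)
      · exact h6 X hX Y hY
    · intro u hu hu' v hv hv' huv
      rw [e] at hu hv
      rcases hu with hu | hu
      · rcases hv with hv | hv
        · exact absurd (hu.trans hv.symm) huv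
        · exact ⟨B, mem_insert_of_mem _ h4, Or.inr ⟨hv, hu ▸ hz⟩⟩
      · rcases hv with hv | hv
        · exact ⟨B, mem_insert_of_mem _ h4, Or.inl ⟨hu, hv ▸ hz⟩⟩
        · obtain ⟨X, hX, h⟩ := h7 u hu hu' v hv hv' huv
          exact ⟨X, mem_insert_of_mem _ hX, h⟩

/-- `r` is a reflection order relative to `K` and `C` is an initial section -/
structure RelOrd (K C : Set E) (r : E → E → Prop) : Prop where
  irrefl : ∀ u, ¬ r u u
  trans : ∀ u v w, r u v → r v w → r u w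
  total : ∀ u ∈ K, ∀ v ∈ K, u ≠ v → r u v ∨ r v u
  conv : ∀ u ∈ K, ∀ v ∈ K, ∀ w ∈ K, u ≠ v → Btw u w v → (r u w ∧ r w v) ∨ (r v w ∧ r w u)
  init : ∀ u v, v ∈ C → r u v → u ∈ C

theorem exists_relOrd {K C : Set E} (hK : Nice K) (hC : Hs K C)
    (h1 : ReflTransGen (Step K) ∅ C) (h2 : ReflTransGen (Step K) C K) :
    ∃ r, RelOrd K C r := by
  obtain ⟨F, a1, a2, a3, a4, a5⟩ := exists_family h1 (Hs.empty K)
  obtain ⟨G, b1, b2, b3, b4, b5⟩ := exists_family h2 hC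
  have hch : ∀ X ∈ F ∪ G, ∀ Y ∈ F ∪ G, X ⊆ Y ∨ Y ⊆ X := by
    rintro X (hX | hX) Y (hY | hY)
    · exact a4 X hX Y hY
    · exact Or.inl ((a3 X hX).2.2.trans (b3 Y hY).2.1)
    · exact Or.inr ((a3 Y hY).2.2.trans (b3 X hX).2.1)
    · exact b4 X hX Y hY
  have hHs : ∀ X ∈ F ∪ G, Hs K X := by
    rintro X (hX | hX)
    · exact (a3 X hX).1
    · exact (b3 X hX).1
  have hsep : ∀ u ∈ K, ∀ v ∈ K, u ≠ v → ∃ X ∈ F ∪ G, (u ∈ X ∧ v ∉ X) ∨ (v ∈ X ∧ u ∉ X) := by
    intro u hu v hv huv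
    by_cases hu' : u ∈ C
    · by_cases hv' : v ∈ C
      · obtain ⟨X, hX, h⟩ := a5 u hu' (fun h => h) v hv' (fun h => h) huv
        exact ⟨X, Or.inl hX, h⟩
      · exact ⟨C, Or.inl a2, Or.inl ⟨hu', hv'⟩⟩
    · by_cases hv' : v ∈ C
      · exact ⟨C, Or.inl a2, Or.inr ⟨hv', hu'⟩⟩
      · obtain ⟨X, hX, h⟩ := b5 u hu hu' v hv hv' huv
        exact ⟨X, Or.inr hX, h⟩
  set r : E → E → Prop := fun u v => ∃ X ∈ F ∪ G, u ∈ X ∧ v ∉ X with hr
  have htot : ∀ u ∈ K, ∀ v ∈ K, u ≠ v → r u v ∨ r v u := by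
    intro u hu v hv huv
    obtain ⟨X, hX, h | h⟩ := hsep u hu v hv huv
    · exact Or.inl ⟨X, hX, h⟩
    · exact Or.inr ⟨X, hX, h⟩
  have hcv : ∀ u ∈ K, ∀ v ∈ K, ∀ w ∈ K, u ≠ v → Btw u w v → r u v → r u w ∧ r w v := by
    intro u hu v hv w hw huv hb ⟨X, hX, hu1, hv1⟩
    have hne : ∀ p ∈ K, ∀ q ∈ K, p ≠ q → ∀ s ∈ K, Btw p s q → p ≠ s := by
      rintro p hp q hq hpq _ - ⟨a, b, ha, hb, e⟩ rfl
      have e1 : b • q = (1 - a) • p := by
        rw [sub_smul, one_smul, eq_sub_iff_add_eq, add_comm]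
        exact e.symm
      exact hpq (hK.np q hq p hp ((1 - a) / b) (by
        rw [div_eq_inv_mul, mul_smul, ← e1, smul_smul, inv_mul_cancel₀ hb.ne', one_smul])).symm
    have hw1 : u ≠ w := hne u hu v hv huv w hw hb
    have hw2 : v ≠ w := hne v hv u hu huv.symm w hw hb.symm
    constructor
    · rcases htot u hu w hw hw1 with h | ⟨Y, hY, hwY, huY⟩
      · exact h
      · exfalso
        have hvY : v ∉ Y := by
          intro hvY
          rcases hch X hX Y hY with h | h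
          · exact huY (h hu1)
          · exact hv1 (h hvY)
        rcases ((hHs Y hY).2 u hu v hv w hw hb).2 hwY with h | h
        · exact huY h
        · exact hvY h
    · rcases htot w hw v hv hw2.symm with h | ⟨Y, hY, hvY, hwY⟩
      · exact h
      · exfalso
        have huY : u ∈ Y := by
          rcases hch X hX Y hY with h | h
          · exact h hu1
          · exact absurd (h hvY) hv1
        exact hwY (((hHs Y hY).2 u hu v hv w hw hb).1 huY hvY)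
  refine ⟨r, ?_, ?_, htot, ?_, ?_⟩
  · rintro u ⟨X, -, h, h'⟩
    exact h' h
  · rintro u v w ⟨X, hX, hu, hv⟩ ⟨Y, hY, hv', hw⟩
    rcases hch X hX Y hY with h | h
    · exact ⟨Y, hY, h hu, hw⟩
    · exact absurd (h hv') hv
  · intro u hu v hv w hw huv hb
    rcases htot u hu v hv huv with h | h
    · exact Or.inl (hcv u hu v hv w hw huv hb h)
    · exact Or.inr (hcv v hv u hu w hw huv.symm hb.symm h)
  · rintro u v hvC ⟨X, hX, hu, hv⟩
    rcases hch X hX C (Or.inl a2) with h | h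
    · exact h hu
    · exact absurd (h hvC) hv

/-- the limit -/
theorem exists_limit {Φ A : Set E} (K : ℕ → Set E)
    (hK : ∀ u ∈ Φ, ∀ᶠ n in Filter.atTop, u ∈ K n)
    (h : ∀ n, ∃ r, RelOrd (K n) (A ∩ K n) r) : ∃ r : E → E → Prop,
      (∀ u, ¬ r u u) ∧ (∀ u v w, r u v → r v w → r u w) ∧
      (∀ u ∈ Φ, ∀ v ∈ Φ, u ≠ v → r u v ∨ r v u) ∧
      (∀ u ∈ Φ, ∀ v ∈ Φ, ∀ w ∈ Φ, u ≠ v → Btw u w v → (r u w ∧ r w v) ∨ (r v w ∧ r w u)) ∧
      (∀ u ∈ Φ, ∀ v ∈ Φ, v ∈ A → r u v → u ∈ A) := by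
  choose r hr using h
  let l : Ultrafilter ℕ := Filter.hyperfilter ℕ
  have hl : ∀ u ∈ Φ, ∀ᶠ n in (l : Filter ℕ), u ∈ K n := fun u hu => by
    have h1 := hK u hu
    rw [← Nat.cofinite_eq_atTop] at h1
    exact Filter.hyperfilter_le_cofinite h1
  refine ⟨fun u v => ∀ᶠ n in (l : Filter ℕ), r n u v, ?_, ?_, ?_, ?_, ?_⟩
  · intro u hu
    obtain ⟨n, hn⟩ := hu.exists
    exact (hr n).irrefl u hn
  · intro u v w h1 h2
    filter_upwards [h1, h2] with n h3 h4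
    exact (hr n).trans u v w h3 h4
  · intro u hu v hv huv
    rw [← Ultrafilter.eventually_or]
    filter_upwards [hl u hu, hl v hv] with n h1 h2
    exact (hr n).total u h1 v h2 huv
  · intro u hu v hv w hw huv hb
    rw [← Filter.eventually_and, ← Filter.eventually_and, ← Ultrafilter.eventually_or]
    filter_upwards [hl u hu, hl v hv, hl w hw] with n h1 h2 h3
    exact (hr n).conv u h1 v h2 w h3 huv hb
  · intro u hu v hv hvA h1
    obtain ⟨n, h2, h3⟩ := (h1.and (hl v hv)).exists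
    exact ((hr n).init u v ⟨hvA, h3⟩ h2).1

/-- the balls of a linear form -/
def ball (Φ : Set E) (ρ : E →ₗ[ℝ] ℝ) (r : ℝ) : Set E := {u | u ∈ Φ ∧ ρ u ≤ r}

/-- the balls have chains -/
theorem ch_ball {Φ : Set E} {ρ : E →ₗ[ℝ] ℝ} (hfin : ∀ r, (ball Φ ρ r).Finite)
    (hinj : ∀ u ∈ Φ, ∀ v ∈ Φ, ρ u = ρ v → u = v) (hT : ∀ r, Tight (ball Φ ρ r))
    (hint : ∀ t ∈ Φ, ∀ u ∈ Φ, ∀ w ∈ Φ, ρ u < ρ t → ρ w < ρ t → Btw t w u →
      ∃ v ∈ Φ, ρ v < ρ t ∧ Btw v t w) (r : ℝ) : Ch (ball Φ ρ r) := by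
  have key : ∀ n : ℕ, ∀ r, (ball Φ ρ r).ncard = n → Ch (ball Φ ρ r) := by
    intro n
    induction n with
    | zero =>
      intro r hr
      rw [ncard_eq_zero (hfin r)] at hr
      rw [hr]
      exact Ch.nil
    | succ n ih =>
      intro r hr
      have hne : (ball Φ ρ r).Nonempty := by
        rw [nonempty_iff_ne_empty]
        intro h
        rw [h, ncard_empty] at hr
        omega
      obtain ⟨t, htB, hmax⟩ := (hfin r).exists_maximalFor ρ _ hne
      have hlt : ∀ u ∈ ball Φ ρ r, u ≠ t → ρ u < ρ t := by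
        intro u hu hut
        by_contra hh
        rw [not_lt] at hh
        exact hut (hinj u hu.1 t htB.1 (le_antisymm (hmax hu hh) hh))
      set K' := ball Φ ρ r \ {t} with hK'
      have hins : insert t K' = ball Φ ρ r := by
        rw [hK', insert_sdiff_singleton, insert_eq_of_mem htB]
      have hCh : Ch K' := by
        by_cases hne' : K'.Nonempty
        · obtain ⟨s, hsB, hsmax⟩ := ((hfin r).subset sdiff_subset).exists_maximalFor ρ K' hne'
          have : K' = ball Φ ρ (ρ s) := by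
            ext u
            constructor
            · intro hu
              refine ⟨hu.1.1, ?_⟩
              by_contra hh
              exact hh (hsmax hu (not_le.mp hh).le)
            · rintro ⟨hu, hus⟩
              have hst : ρ s < ρ t := hlt s hsB.1 hsB.2
              refine ⟨⟨hu, hus.trans hsB.1.2⟩, ?_⟩
              rintro rfl
              linarith
          have hcard : K'.ncard = n := by
            rw [hK', ncard_sdiff_singleton_of_mem htB, hr]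
            rfl
          rw [this] at hcard ⊢
          exact ih _ hcard
        · rw [not_nonempty_iff_eq_empty] at hne'
          rw [hne']
          exact Ch.nil
      rw [← hins]
      refine Ch.step hCh (fun h => h.2 rfl) (hins ▸ hT r) ?_
      intro u hu w hw hb
      obtain ⟨v, hv, hvt, hb'⟩ := hint t htB.1 u hu.1.1 w hw.1.1 (hlt u hu.1 hu.2)
        (hlt w hw.1 hw.2) hb
      refine ⟨v, ⟨⟨hv, ?_⟩, ?_⟩, hb'⟩
      · exact hvt.le.trans htB.2
      · rintro rfl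
        exact lt_irrefl _ hvt
  exact key _ r rfl

/-- biclosed sets are initial sections of reflection orders if all balls are tight -/
theorem exists_order {Φ : Set E} {ρ : E →ₗ[ℝ] ℝ} (hpos : ∀ u ∈ Φ, 0 < ρ u)
    (hnp : ∀ u ∈ Φ, ∀ v ∈ Φ, ∀ c : ℝ, u = c • v → u = v)
    (hfin : ∀ r, (ball Φ ρ r).Finite)
    (hinj : ∀ u ∈ Φ, ∀ v ∈ Φ, ρ u = ρ v → u = v) (hT : ∀ r, Tight (ball Φ ρ r))
    (hint : ∀ t ∈ Φ, ∀ u ∈ Φ, ∀ w ∈ Φ, ρ u < ρ t → ρ w < ρ t → Btw t w u →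
      ∃ v ∈ Φ, ρ v < ρ t ∧ Btw v t w)
    {A : Set E} (hA : Hs Φ A) : ∃ r : E → E → Prop,
      (∀ u, ¬ r u u) ∧ (∀ u v w, r u v → r v w → r u w) ∧
      (∀ u ∈ Φ, ∀ v ∈ Φ, u ≠ v → r u v ∨ r v u) ∧
      (∀ u ∈ Φ, ∀ v ∈ Φ, ∀ w ∈ Φ, u ≠ v → Btw u w v → (r u w ∧ r w v) ∨ (r v w ∧ r w u)) ∧
      (∀ u ∈ Φ, ∀ v ∈ Φ, v ∈ A → r u v → u ∈ A) := by
  refine exists_limit (fun n : ℕ => ball Φ ρ n) (fun u hu => ?_) (fun n => ?_)
  · obtain ⟨N, hN⟩ := exists_nat_ge (ρ u)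
    filter_upwards [Filter.eventually_ge_atTop N] with n hn
    exact ⟨hu, hN.trans (by exact_mod_cast hn)⟩
  · have hN : Nice (ball Φ ρ n) := ⟨hfin n, ⟨ρ, fun u hu => hpos u hu.1⟩,
      fun u hu v hv c hc => hnp u hu.1 v hv.1 c hc⟩
    have hH : Hs (ball Φ ρ n) (A ∩ ball Φ ρ n) := hA.mono fun u hu => hu.1
    obtain ⟨h1, h2⟩ := (ch_ball hfin hinj hT hint n).good hN _ hH
    exact exists_relOrd hN hH h1 h2

end DY
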