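import Pool.Agent.Helper70.DY.C

/-!
# Root systems with a positive linear form: canonical generators of the rank two sections

`RS Φ B ρ`: `Φ` is the set of positive roots (unit vectors for `B`) of a reflection group, `ρ` is a
positive linear form, injective on `Φ`, the balls `{ρ ≤ r}` are finite and each reflection inverts
only finitely many positive roots.
-/

namespace DY

open Set

variable {E : Type*} [AddCommGroup E] [Module ℝ E]

/-- the reflection in `u` -/
def rf (B : E →ₗ[ℝ] E →ₗ[ℝ] ℝ) (u v : E) : E := v - (2 * B u v) • u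

/-- positive roots and a positive form -/
structure RS (Φ : Set E) (B : E →ₗ[ℝ] E →ₗ[ℝ] ℝ) (ρ : E →ₗ[ℝ] ℝ) : Prop where
  symm : ∀ u v, B u v = B v u
  one : ∀ u ∈ Φ, B u u = 1
  pos : ∀ u ∈ Φ, 0 < ρ u
  refl : ∀ u ∈ Φ, ∀ v ∈ Φ, rf B u v ∈ Φ ∨ -rf B u v ∈ Φ
  fin : ∀ r, (ball Φ ρ r).Finite
  inv : ∀ u ∈ Φ, {v | v ∈ Φ ∧ -rf B u v ∈ Φ}.Finite
  inj : ∀ u ∈ Φ, ∀ v ∈ Φ, ρ u = ρ v → u = v

namespace RS

variable {Φ : Set E} {B : E →ₗ[ℝ] E →ₗ[ℝ] ℝ} {ρ : E →ₗ[ℝ] ℝ} (h : RS Φ B ρ)

include h

theorem ne_zero {u : E} (hu : u ∈ Φ) : u ≠ 0 := by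
  rintro rfl
  have := h.pos _ hu
  rw [map_zero] at this
  exact lt_irrefl _ this

theorem np : ∀ u ∈ Φ, ∀ v ∈ Φ, ∀ c : ℝ, u = c • v → u = v := by
  intro u hu v hv c hc
  have h1 := h.one u hu
  have h2 := h.one v hv
  have h3 := h.pos u hu
  have h4 := h.pos v hv
  simp only [hc, map_smul, LinearMap.smul_apply, h2, smul_eq_mul, mul_one] at h1
  rw [hc, map_smul, smul_eq_mul] at h3
  have hc0 : 0 < c := by
    by_contra hh
    have := mul_nonpos_of_nonpos_of_nonneg (not_lt.mp hh) h4.le
    linarith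
  have hc1 : c = 1 := by nlinarith
  rw [hc, hc1, one_smul]

theorem indep {u v : E} (hu : u ∈ Φ) (hv : v ∈ Φ) (huv : u ≠ v) :
    ∀ a b : ℝ, a • u + b • v = 0 → a = 0 ∧ b = 0 := by
  intro a b hab
  have ha : a = 0 := by
    by_contra ha
    refine huv (h.np u hu v hv (-(b / a)) ?_)
    have h1 : a • u = (-b) • v := by
      rw [neg_smul, eq_neg_iff_add_eq_zero]
      exact hab
    have h2 : u = a⁻¹ • ((-b) • v) := by
      rw [← h1, smul_smul, inv_mul_cancel₀ ha, one_smul]
    rw [h2, smul_smul]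
    congr 1
    ring
  refine ⟨ha, ?_⟩
  rw [ha, zero_smul, zero_add] at hab
  rcases smul_eq_zero.mp hab with h1 | h1
  · exact h1
  · exact absurd h1 (h.ne_zero hv)

theorem mem_of_pos {w : E} (hw : w ∈ Φ ∨ -w ∈ Φ) (hρ : 0 < ρ w) : w ∈ Φ := by
  rcases hw with hw | hw
  · exact hw
  · have := h.pos _ hw
    rw [map_neg] at this
    linarith

theorem span_eq {u v x y : E} (hx : x ∈ Φ) (hy : y ∈ Φ)
    (hxy : x ≠ y) (hx' : x ∈ Submodule.span ℝ {u, v}) (hy' : y ∈ Submodule.span ℝ {u, v}) :
    Submodule.span ℝ {x, y} = Submodule.span ℝ {u, v} := by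
  classical
  have hfd : FiniteDimensional ℝ (Submodule.span ℝ ({u, v} : Set E)) :=
    FiniteDimensional.span_of_finite ℝ (by simp)
  refine Submodule.eq_of_le_of_finrank_le ?_ ?_
  · rw [Submodule.span_le]
    rintro z (rfl | rfl)
    · exact hx'
    · exact hy'
  · have hli : LinearIndependent ℝ ![x, y] := by
      rw [LinearIndependent.pair_iff]
      exact h.indep hx hy hxy
    have h1 := finrank_span_eq_card hli
    have h2 : Set.range ![x, y] = {x, y} := by
      simp [Matrix.range_cons, Matrix.range_empty, Set.pair_comm]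
    rw [h2, Fintype.card_fin] at h1
    rw [h1]
    have h3 : ({u, v} : Set E) = (({u, v} : Finset E) : Set E) := by simp
    rw [h3]
    exact (finrank_span_finset_le_card _).trans Finset.card_le_two

/-- canonical generators of a rank two section -/
theorem exists_canon {u v : E} (hu : u ∈ Φ) (hv : v ∈ Φ) (huv : u ≠ v) :
    ∃ x ∈ Φ, ∃ y ∈ Φ, x ≠ y ∧ x ∈ Submodule.span ℝ {u, v} ∧ y ∈ Submodule.span ℝ {u, v} ∧
      B x y ≤ 0 ∧ ρ x < ρ y ∧ ∀ w ∈ Φ, w ∈ Submodule.span ℝ {u, v} →
      ∃ a b : ℝ, w = a • x + b • y ∧ (a = 0 ∧ b = 1 ∨ a = 1 ∧ b = 0 ∨ 1 ≤ a ∧ 1 ≤ b) := by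
  set P := Submodule.span ℝ ({u, v} : Set E) with hP
  have huP : u ∈ P := Submodule.subset_span (by simp)
  have hvP : v ∈ P := Submodule.subset_span (by simp)
  -- minima
  have hmin : ∀ S : Set E, S ⊆ Φ → S.Nonempty → ∃ x ∈ S, ∀ z ∈ S, z ≠ x → ρ x < ρ z := by
    intro S hS hne
    obtain ⟨z0, hz0⟩ := hne
    have hf : (S ∩ ball Φ ρ (ρ z0)).Finite := (h.fin _).subset inter_subset_right
    obtain ⟨x, hx, hxm⟩ := hf.exists_minimalFor ρ _ ⟨z0, hz0, hS hz0, le_rfl⟩
    refine ⟨x, hx.1, fun z hz hzx => ?_⟩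
    by_contra hh
    rw [not_lt] at hh
    have hzb : z ∈ S ∩ ball Φ ρ (ρ z0) := ⟨hz, hS hz, hh.trans hx.2.2⟩
    exact hzx (h.inj z (hS hz) x (hS hx.1) (le_antisymm hh (hxm hzb hh)))
  obtain ⟨x, hx, hxm⟩ := hmin {w | w ∈ Φ ∧ w ∈ P} (fun w hw => hw.1) ⟨u, hu, huP⟩
  have hne : ({w | w ∈ Φ ∧ w ∈ P} \ {x} : Set E).Nonempty := by
    by_cases hux : u = x
    · exact ⟨v, ⟨hv, hvP⟩, fun hvx => huv (hux.trans (by simpa using hvx.symm))⟩
    · exact ⟨u, ⟨hu, huP⟩, hux⟩
  obtain ⟨y, hy, hym⟩ := hmin ({w | w ∈ Φ ∧ w ∈ P} \ {x}) (fun w hw => hw.1.1) hne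
  have hyx : y ≠ x := hy.2
  have hρxy : ρ x < ρ y := hxm y hy.1 hyx
  have hρx := h.pos x hx.1
  have hρy := h.pos y hy.1.1
  set β := B x y with hβ
  have hβ' : B y x = β := h.symm y x
  have hPx : ∀ a b : ℝ, a • x + b • y ∈ P := fun a b =>
    P.add_mem (P.smul_mem _ hx.2) (P.smul_mem _ hy.1.2)
  -- nothing below `y` but `x`
  have hbelow : ∀ w ∈ Φ, w ∈ P → ρ w < ρ y → w = x := by
    intro w hw hwP hlt
    by_contra hwx
    by_cases hwy : w = y
    · rw [hwy] at hlt
      exact lt_irrefl _ hlt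
    · exact lt_asymm hlt (hym w ⟨⟨hw, hwP⟩, hwx⟩ hwy)
  have hlow : ∀ w ∈ Φ, w ∈ P → ρ x ≤ ρ w := by
    intro w hw hwP
    by_cases hwx : w = x
    · rw [hwx]
    · exact (hxm w ⟨hw, hwP⟩ hwx).le
  have hβ0 : β ≤ 0 := by
    by_contra hβp
    rw [not_le] at hβp
    have e1 : rf B x y = (-(2 * β)) • x + (1 : ℝ) • y := by
      unfold rf
      rw [← hβ]
      module
    rcases h.refl x hx.1 y hy.1.1 with h1 | h1
    · have h2 : ρ (rf B x y) < ρ y := by
        rw [e1, map_add, map_smul, map_smul, smul_eq_mul, smul_eq_mul]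
        have := mul_pos hβp hρx
        linarith
      have h3 := hbelow _ h1 (e1 ▸ hPx _ _) h2
      rw [e1] at h3
      have h4 := h.indep hx.1 hy.1.1 hyx.symm (-(2 * β) - 1) 1 (by
        rw [sub_smul, one_smul (M := ℝ) x]
        rw [← sub_eq_zero] at h3
        rw [← h3]
        abel)
      exact one_ne_zero h4.2
    · have e2 : -rf B x y = (2 * β) • x + (-1 : ℝ) • y := by
        rw [e1]
        module
      have h2 := hlow _ h1 (e2 ▸ hPx _ _)
      have h3 : ρ (-rf B x y) = 2 * β * ρ x - ρ y := by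
        rw [e2, map_add, map_smul, map_smul, smul_eq_mul, smul_eq_mul]
        ring
      rw [h3] at h2
      have hβ1 : 1 < β := by
        by_contra hh
        rw [not_lt] at hh
        have := mul_le_mul_of_nonneg_right hh hρx.le
        linarith
      -- the two sequences
      have hseq : ∀ y0 ∈ Φ, B x y0 = β → ρ x < ρ y0 ∨ ρ x ≤ ρ y0 → ∃ z : ℕ → E, z 0 = x ∧
          z 1 = y0 ∧ (∀ n, z (n + 2) = (2 * β) • z (n + 1) - z n) ∧ ∀ n, z n ∈ Φ ∧
          z (n + 1) ∈ Φ ∧ B (z n) (z (n + 1)) = β ∧ ρ (z n) ≤ ρ (z (n + 1)) := by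
        intro y0 hy0 hb0 hle
        have hle : ρ x ≤ ρ y0 := hle.elim le_of_lt id
        let p : ℕ → E × E := fun n => n.rec (x, y0) fun _ q => (q.2, (2 * β) • q.2 - q.1)
        have hp : ∀ n, (p n).1 ∈ Φ ∧ (p n).2 ∈ Φ ∧ B (p n).1 (p n).2 = β ∧
            ρ (p n).1 ≤ ρ (p n).2 := by
          intro n
          induction n with
          | zero => exact ⟨hx.1, hy0, hb0, hle⟩
          | succ n ih =>
            obtain ⟨i1, i2, i3, i4⟩ := ih
            have hρ1 := h.pos _ i1
            have hρ2 := h.pos _ i2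
            have e3 : (p (n + 1)).2 = (2 * β) • (p n).2 - (p n).1 := rfl
            have e4 : (p (n + 1)).1 = (p n).2 := rfl
            have e5 : (p (n + 1)).2 = -rf B (p n).2 (p n).1 := by
              rw [e3]
              unfold rf
              rw [h.symm (p n).2, i3]
              abel
            have hρ3 : ρ (p n).2 ≤ ρ (p (n + 1)).2 := by
              rw [e3, map_sub, map_smul, smul_eq_mul]
              nlinarith
            refine ⟨e4 ▸ i2, ?_, ?_, e4 ▸ hρ3⟩
            · refine h.mem_of_pos ?_ (hρ2.trans_le hρ3)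
              rw [e5]
              rcases h.refl _ i2 _ i1 with h4 | h4
              · right
                rwa [neg_neg]
              · exact Or.inl h4
            · rw [e4, e3, map_sub, map_smul, h.one _ i2, h.symm (p n).2, i3, smul_eq_mul]
              ring
        refine ⟨fun n => (p n).1, rfl, rfl, fun n => rfl, fun n => ?_⟩
        obtain ⟨i1, i2, i3, i4⟩ := hp n
        exact ⟨i1, i2, i3, i4⟩
      have hb1 : B x (-rf B x y) = β := by
        rw [e2, map_add, map_smul, map_smul, h.one x hx.1, ← hβ, smul_eq_mul, smul_eq_mul]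
        ring
      obtain ⟨z, z0, z1, zr, zp⟩ := hseq y hy.1.1 rfl (Or.inl hρxy)
      obtain ⟨z', z0', z1', zr', zp'⟩ := hseq (-rf B x y) h1 hb1 (Or.inr (h3 ▸ h2))
      -- the reflection exchanges them
      have hrf : ∀ n, -rf B x (z n) = z' n ∧ -rf B x (z (n + 1)) = z' (n + 1) := by
        have hlin : ∀ (a b : ℝ) (p q : E), rf B x (a • p - b • q) = a • rf B x p - b • rf B x q := by
          intro a b p q
          unfold rf
          rw [map_sub, map_smul, map_smul, smul_eq_mul, smul_eq_mul]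
          module
        intro n
        induction n with
        | zero =>
          refine ⟨?_, ?_⟩
          · rw [z0, z0']
            unfold rf
            rw [h.one x hx.1]
            module
          · rw [zero_add, z1, z1']
        | succ n ih =>
          refine ⟨ih.2, ?_⟩
          have h5 := hlin (2 * β) 1 (z (n + 1)) (z n)
          rw [one_smul, one_smul] at h5
          rw [show n + 1 + 1 = n + 2 from rfl, zr, zr', h5, ← ih.1, ← ih.2]
          module
      have hsub : range z ⊆ {v | v ∈ Φ ∧ -rf B x v ∈ Φ} := by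
        rintro _ ⟨n, rfl⟩
        refine ⟨(zp n).1, ?_⟩
        rw [(hrf n).1]
        exact (zp' n).1
      have hstr : ∀ n, ρ (z n) < ρ (z (n + 1)) := by
        intro n
        induction n with
        | zero => rw [z0, zero_add, z1]; exact hρxy
        | succ n ih =>
          rw [show n + 1 + 1 = n + 2 from rfl, zr, map_sub, map_smul, smul_eq_mul]
          have := h.pos _ (zp (n + 1)).1
          nlinarith
      have hinj : Function.Injective z := by
        have h6 : StrictMono (fun n => ρ (z n)) := strictMono_nat_of_lt_succ hstr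
        intro m n hmn
        exact h6.injective (congrArg ρ hmn)
      exact (Set.infinite_range_of_injective hinj) ((h.inv x hx.1).subset hsub)
  -- norms
  have hnorm : ∀ a b : ℝ, B (a • x + b • y) (a • x + b • y) = a ^ 2 + 2 * a * b * β + b ^ 2 := by
    intro a b
    simp only [map_add, map_smul, LinearMap.add_apply, LinearMap.smul_apply, smul_eq_mul,
      h.one x hx.1, h.one y hy.1.1, ← hβ, hβ']
    ring
  -- non-negative coefficients
  have hnn : ∀ a b : ℝ, a • x + b • y ∈ Φ → 0 ≤ a ∧ 0 ≤ b := by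
    intro a b hw
    have h1 := h.one _ hw
    rw [hnorm] at h1
    have h2 := h.pos _ hw
    rw [map_add, map_smul, map_smul, smul_eq_mul, smul_eq_mul] at h2
    constructor
    · by_contra ha
      rw [not_le] at ha
      have hb : 0 < b := by
        by_contra hb
        have := mul_nonpos_of_nonpos_of_nonneg (not_lt.mp hb) hρy.le
        have := mul_neg_of_neg_of_pos ha hρx
        linarith
      have h3 : 0 ≤ 2 * a * b * β := by
        have : 0 ≤ (a * b) * β := mul_nonneg_of_nonpos_of_nonpos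
          (mul_nonpos_of_nonpos_of_nonneg ha.le hb.le) hβ0
        linarith
      have hb1 : b < 1 := by
        have : 0 < a * a := mul_pos_of_neg_of_neg ha ha
        nlinarith
      have h4 : ρ (a • x + b • y) < ρ y := by
        rw [map_add, map_smul, map_smul, smul_eq_mul, smul_eq_mul]
        have := mul_neg_of_neg_of_pos ha hρx
        have := mul_lt_mul_of_pos_right hb1 hρy
        linarith
      have h5 := hbelow _ hw (hPx _ _) h4
      have h6 := (h.indep hx.1 hy.1.1 hyx.symm (a - 1) b (by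
        rw [sub_smul, one_smul]
        rw [← sub_eq_zero] at h5
        rw [← h5]
        abel)).2
      exact hb.ne' h6
    · by_contra hb
      rw [not_le] at hb
      have ha : 0 < a := by
        by_contra ha
        have := mul_nonpos_of_nonpos_of_nonneg (not_lt.mp ha) hρx.le
        have := mul_neg_of_neg_of_pos hb hρy
        linarith
      have h3 : 0 ≤ 2 * a * b * β := by
        have : 0 ≤ (a * b) * β := mul_nonneg_of_nonpos_of_nonpos
          (mul_nonpos_of_nonneg_of_nonpos ha.le hb.le) hβ0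
        linarith
      have ha1 : a < 1 := by
        have : 0 < b * b := mul_pos_of_neg_of_neg hb hb
        nlinarith
      have h4 := hlow _ hw (hPx _ _)
      rw [map_add, map_smul, map_smul, smul_eq_mul, smul_eq_mul] at h4
      have := mul_neg_of_neg_of_pos hb hρy
      have := mul_lt_mul_of_pos_right ha1 hρx
      linarith
  have hone : ∀ a : ℝ, 0 ≤ a → a ^ 2 = 1 → a = 1 := fun a ha h1 => by nlinarith
  -- coefficients at least one
  have hge : ∀ a b : ℝ, a • x + b • y ∈ Φ →
      (a = 0 ∧ b = 1 ∨ a = 1 ∧ b = 0 ∨ 1 ≤ a ∧ 1 ≤ b) := by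
    by_contra hcon
    push Not at hcon
    set S : Set E := {w | w ∈ Φ ∧ ∃ a b : ℝ, w = a • x + b • y ∧
      ¬ (a = 0 ∧ b = 1 ∨ a = 1 ∧ b = 0 ∨ 1 ≤ a ∧ 1 ≤ b)} with hS
    have hSne : S.Nonempty := by
      obtain ⟨a, b, hw, h1, h2, h3⟩ := hcon
      refine ⟨_, hw, a, b, rfl, ?_⟩
      rintro (⟨h4, h5⟩ | ⟨h4, h5⟩ | ⟨h4, h5⟩)
      · exact h1 h4 h5
      · exact h2 h4 h5
      · exact absurd (h3 h4) (not_lt.mpr h5)
    obtain ⟨w, hwS, hwm⟩ := hmin S (fun w hw => hw.1) hSne
    obtain ⟨hw, a, b, rfl, hbad⟩ := hwS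
    obtain ⟨ha, hb⟩ := hnn a b hw
    have h1 := h.one _ hw
    rw [hnorm] at h1
    have ha0 : 0 < a := by
      rcases ha.eq_or_lt with h2 | h2
      · exfalso
        rw [← h2] at h1
        exact hbad (Or.inl ⟨h2.symm, hone b hb (by linarith)⟩)
      · exact h2
    have hb0 : 0 < b := by
      rcases hb.eq_or_lt with h2 | h2
      · exfalso
        rw [← h2] at h1
        exact hbad (Or.inr (Or.inl ⟨hone a ha (by linarith), h2.symm⟩))
      · exact h2
    -- the two reflections
    have ex : rf B x (a • x + b • y) = (-a - 2 * b * β) • x + b • y := by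
      unfold rf
      rw [map_add, map_smul, map_smul, h.one x hx.1, ← hβ, smul_eq_mul, smul_eq_mul]
      module
    have ey : rf B y (a • x + b • y) = a • x + (-b - 2 * a * β) • y := by
      unfold rf
      rw [map_add, map_smul, map_smul, h.one y hy.1.1, hβ', smul_eq_mul, smul_eq_mul]
      module
    have hxr : rf B x (a • x + b • y) ∈ Φ := by
      rcases h.refl x hx.1 _ hw with h2 | h2
      · exact h2
      · exfalso
        have e : -rf B x (a • x + b • y) = (a + 2 * b * β) • x + (-b) • y := by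
          rw [ex]
          module
        rw [e] at h2
        have := (hnn _ _ h2).2
        linarith
    have hyr : rf B y (a • x + b • y) ∈ Φ := by
      rcases h.refl y hy.1.1 _ hw with h2 | h2
      · exact h2
      · exfalso
        have e : -rf B y (a • x + b • y) = (-a) • x + (b + 2 * a * β) • y := by
          rw [ey]
          module
        rw [e] at h2
        have := (hnn _ _ h2).1
        linarith
    -- minimality
    have hsm : ∀ a' b' : ℝ, a' • x + b' • y ∈ Φ → ρ (a' • x + b' • y) < ρ (a • x + b • y) →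
        (a' = 0 ∧ b' = 1 ∨ a' = 1 ∧ b' = 0 ∨ 1 ≤ a' ∧ 1 ≤ b') := by
      intro a' b' hw' hlt
      by_contra hh
      have h2 : a' • x + b' • y ∈ S := ⟨hw', a', b', rfl, hh⟩
      have h3 : a' • x + b' • y ≠ a • x + b • y := by
        intro h4
        rw [h4] at hlt
        exact lt_irrefl _ hlt
      exact lt_asymm hlt (hwm _ h2 h3)
    have hρab : ∀ a b : ℝ, ρ (a • x + b • y) = a * ρ x + b * ρ y := by
      intro a b
      rw [map_add, map_smul, map_smul, smul_eq_mul, smul_eq_mul]
    by_cases hc : 0 < a + b * β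
    · have h2 := hsm _ b (ex ▸ hxr) (by
        rw [hρab, hρab]
        have := mul_pos hc hρx
        nlinarith)
      rcases h2 with ⟨h2, h3⟩ | ⟨h2, h3⟩ | ⟨h2, h3⟩
      · -- `w = y + 2|β| x`
        have h4 := hnn _ _ (ey ▸ hyr)
        have h5 : a = -(2 * β) := by
          rw [h3] at h2
          linarith
        have h6 : 1 ≤ a := by
          have : 0 ≤ 4 * β ^ 2 - 1 := by
            have := h4.2
            rw [h3, h5] at this
            linarith
          nlinarith
        exact hbad (Or.inr (Or.inr ⟨h6, h3.ge⟩))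
      · exact hb0.ne' h3
      · exact hbad (Or.inr (Or.inr ⟨by linarith, h3⟩))
    · have hc' : 0 < b + a * β := by
        have h7 : a * (a + b * β) + b * (b + a * β) = 1 := by linarith
        have h8 : a * (a + b * β) ≤ 0 := mul_nonpos_of_nonneg_of_nonpos ha0.le (not_lt.mp hc)
        have h9 : 0 < b * (b + a * β) := by linarith
        exact pos_of_mul_pos_right h9 hb0.le
      have h2 := hsm a _ (ey ▸ hyr) (by
        rw [hρab, hρab]
        have := mul_pos hc' hρy
        nlinarith)
      rcases h2 with ⟨h2, h3⟩ | ⟨h2, h3⟩ | ⟨h2, h3⟩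
      · exact ha0.ne' h2
      · have h4 := hnn _ _ (ex ▸ hxr)
        have h5 : b = -(2 * β) := by
          rw [h2] at h3
          linarith
        have h6 : 1 ≤ b := by
          have : 0 ≤ 4 * β ^ 2 - 1 := by
            have := h4.1
            rw [h2, h5] at this
            linarith
          nlinarith
        exact hbad (Or.inr (Or.inr ⟨h2.ge, h6⟩))
      · exact hbad (Or.inr (Or.inr ⟨h2, by linarith⟩))
  refine ⟨x, hx.1, y, hy.1.1, hyx.symm, hx.2, hy.1.2, hβ0, hρxy, fun w hw hwP => ?_⟩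
  rw [hP, ← h.span_eq hx.1 hy.1.1 hyx.symm hx.2 hy.1.2, Submodule.mem_span_pair] at hwP
  obtain ⟨a, b, rfl⟩ := hwP
  exact ⟨a, b, rfl, hge a b hw⟩

end RS

end DY
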