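import Pool.Agent.Helper70.DY.D

/-!
# The largest root of a ball is interior; reflection orders from tightness of the balls
-/

namespace DY

open Set

variable {E : Type*} [AddCommGroup E] [Module ℝ E]

namespace RS

variable {Φ : Set E} {B : E →ₗ[ℝ] E →ₗ[ℝ] ℝ} {ρ : E →ₗ[ℝ] ℝ} (h : RS Φ B ρ)

include h

theorem coord_unique {x y : E} (hx : x ∈ Φ) (hy : y ∈ Φ) (hxy : x ≠ y) {a b a' b' : ℝ}
    (e : a • x + b • y = a' • x + b' • y) : a = a' ∧ b = b' := by
  have h1 := h.indep hx hy hxy (a - a') (b - b') (by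
    rw [sub_smul, sub_smul]
    rw [← sub_eq_zero] at e
    rw [← e]
    abel)
  exact ⟨by linarith [h1.1], by linarith [h1.2]⟩

/-- `t` is interior -/
theorem interior {t u w : E} (ht : t ∈ Φ) (hu : u ∈ Φ) (hw : w ∈ Φ) (hut : ρ u < ρ t)
    (hwt : ρ w < ρ t) (hb : Btw t w u) : ∃ v ∈ Φ, ρ v < ρ t ∧ Btw v t w := by
  have hne : t ≠ u := by
    rintro rfl
    exact lt_irrefl _ hut
  obtain ⟨x, hx, y, hy, hxy, hxP, hyP, -, hρxy, hall⟩ := h.exists_canon ht hu hne
  have htP : t ∈ Submodule.span ℝ ({t, u} : Set E) := Submodule.subset_span (by simp)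
  have huP : u ∈ Submodule.span ℝ ({t, u} : Set E) := Submodule.subset_span (by simp)
  obtain ⟨α, γ, hα, hγ, hwe⟩ := hb
  have hwP : w ∈ Submodule.span ℝ ({t, u} : Set E) := by
    rw [hwe]
    exact Submodule.add_mem _ (Submodule.smul_mem _ _ htP) (Submodule.smul_mem _ _ huP)
  obtain ⟨a, b, et, hab⟩ := hall t ht htP
  obtain ⟨a1, b1, eu, hab1⟩ := hall u hu huP
  obtain ⟨a2, b2, ew, hab2⟩ := hall w hw hwP
  have hρx := h.pos x hx
  have hρy := h.pos y hy
  have hρab : ∀ a b : ℝ, ρ (a • x + b • y) = a * ρ x + b * ρ y := by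
    intro a b
    rw [map_add, map_smul, map_smul, smul_eq_mul, smul_eq_mul]
  obtain ⟨ea, eb⟩ := h.coord_unique hx hy hxy (a := a2) (b := b2) (a' := α * a + γ * a1)
    (b' := α * b + γ * b1) (by
      rw [← ew, hwe, et, eu]
      module)
  -- `t` is not a generator
  have hint : 1 ≤ a ∧ 1 ≤ b := by
    rcases hab with ⟨ha, hb⟩ | ⟨ha, hb⟩ | hab
    · exfalso
      have htx : t = y := by rw [et, ha, hb, zero_smul, one_smul, zero_add]
      have ha1 : 0 < a1 := by
        rcases hab1 with ⟨h1, h2⟩ | ⟨h1, h2⟩ | ⟨h1, h2⟩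
        · exfalso
          exact hne (by rw [et, eu, ha, hb, h1, h2])
        · rw [h1]; exact one_pos
        · linarith
      have hb1 : 0 ≤ b1 := by
        rcases hab1 with ⟨h1, h2⟩ | ⟨h1, h2⟩ | ⟨h1, h2⟩ <;> linarith
      have ha2 : 0 < a2 := by
        rw [ea, ha]
        have := mul_pos hγ ha1
        linarith
      have hb2 : 0 < b2 := by
        rw [eb, hb]
        have := mul_nonneg hγ.le hb1
        linarith
      rcases hab2 with ⟨h1, h2⟩ | ⟨h1, h2⟩ | ⟨h1, h2⟩
      · linarith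
      · linarith
      · rw [ew, hρab, htx] at hwt
        nlinarith
    · exfalso
      have htx : t = x := by rw [et, ha, hb, zero_smul, one_smul, add_zero]
      have hb1 : 0 < b1 := by
        rcases hab1 with ⟨h1, h2⟩ | ⟨h1, h2⟩ | ⟨h1, h2⟩
        · rw [h2]; exact one_pos
        · exfalso
          exact hne (by rw [et, eu, ha, hb, h1, h2])
        · linarith
      have ha1 : 0 ≤ a1 := by
        rcases hab1 with ⟨h1, h2⟩ | ⟨h1, h2⟩ | ⟨h1, h2⟩ <;> linarith
      have hb2 : 0 < b2 := by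
        rw [eb, hb]
        have := mul_pos hγ hb1
        linarith
      have ha2 : 0 < a2 := by
        rw [ea, ha]
        have := mul_nonneg hγ.le ha1
        linarith
      rcases hab2 with ⟨h1, h2⟩ | ⟨h1, h2⟩ | ⟨h1, h2⟩
      · linarith
      · linarith
      · rw [ew, hρab, htx] at hwt
        nlinarith
    · exact hab
  obtain ⟨ha, hb⟩ := hint
  have hxt : ρ x < ρ t := by
    rw [et, hρab]
    nlinarith
  have hyt : ρ y < ρ t := by
    rw [et, hρab]
    nlinarith
  have ha2 : 0 ≤ a2 := by rcases hab2 with ⟨h1, h2⟩ | ⟨h1, h2⟩ | ⟨h1, h2⟩ <;> linarith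
  have hb2 : 0 ≤ b2 := by rcases hab2 with ⟨h1, h2⟩ | ⟨h1, h2⟩ | ⟨h1, h2⟩ <;> linarith
  rcases lt_trichotomy (a2 * b) (a * b2) with hlt | heq | hgt
  · have hb2' : 0 < b2 := by
      rcases hb2.eq_or_lt with h1 | h1
      · rw [← h1, mul_zero] at hlt
        have := mul_nonneg ha2 (zero_le_one.trans hb)
        linarith
      · exact h1
    refine ⟨x, hx, hxt, (a * b2 - a2 * b) / b2, b / b2, by
      apply div_pos <;> linarith, by apply div_pos <;> linarith, ?_⟩
    rw [et, ew, smul_add, ← add_assoc, smul_smul, smul_smul, ← add_smul]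
    congr 2
    · field_simp
      ring
    · field_simp
  · exfalso
    have hwt' : w = t := by
      refine h.np w hw t ht (b2 / b) ?_
      rw [et, ew, smul_add, smul_smul, smul_smul]
      congr 2
      · rw [div_mul_eq_mul_div, eq_div_iff (by linarith : b ≠ 0)]
        linarith
      · rw [div_mul_cancel₀ _ (by linarith : b ≠ 0)]
    rw [hwt'] at hwt
    exact lt_irrefl _ hwt
  · have ha2' : 0 < a2 := by
      rcases ha2.eq_or_lt with h1 | h1
      · rw [← h1, zero_mul] at hgt
        have := mul_nonneg (zero_le_one.trans ha) hb2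
        linarith
      · exact h1
    refine ⟨y, hy, hyt, (a2 * b - a * b2) / a2, a / a2, by
      apply div_pos <;> linarith, by apply div_pos <;> linarith, ?_⟩
    rw [et, ew, smul_add, add_left_comm, smul_smul, smul_smul, ← add_smul]
    congr 2
    · field_simp
    · field_simp
      ring

/-- if all balls are tight then every biclosed set is an initial section of a reflection order -/
theorem order (hT : ∀ r, Tight (ball Φ ρ r)) {A : Set E} (hA : Hs Φ A) :
    ∃ r : E → E → Prop,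
      (∀ u, ¬ r u u) ∧ (∀ u v w, r u v → r v w → r u w) ∧
      (∀ u ∈ Φ, ∀ v ∈ Φ, u ≠ v → r u v ∨ r v u) ∧
      (∀ u ∈ Φ, ∀ v ∈ Φ, ∀ w ∈ Φ, u ≠ v → Btw u w v → (r u w ∧ r w v) ∨ (r v w ∧ r w u)) ∧
      (∀ u ∈ Φ, ∀ v ∈ Φ, v ∈ A → r u v → u ∈ A) :=
  exists_order h.pos h.np h.fin h.inj hT
    (fun _ ht _ hu _ hw hut hwt hb => h.interior ht hu hw hut hwt hb) hA

end RS

end DY
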