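import Pool.Agent.Helper70.DY.D2

/-!
# Discreteness of the roots

Two distinct positive roots `u`, `v` satisfy `1 ≤ (h u - h v)² + 2 (1 - B u v) h u h v` for the
height `h`, since each reflection inverts finitely many positive roots.
-/

namespace DY

open Set

section sep

variable {E : Type*} [AddCommGroup E] [Module ℝ E]
variable {Φ : Set E} {B : E →ₗ[ℝ] E →ₗ[ℝ] ℝ} {h : E →ₗ[ℝ] ℝ}
  (hs : ∀ u v, B u v = B v u) (h1 : ∀ u ∈ Φ, B u u = 1) (hh : ∀ u ∈ Φ, 1 ≤ h u)
  (hr : ∀ u ∈ Φ, ∀ v ∈ Φ, rf B u v ∈ Φ ∨ -rf B u v ∈ Φ)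
  (hi : ∀ u ∈ Φ, {v | v ∈ Φ ∧ -rf B u v ∈ Φ}.Finite)

include hs h1 hh hr in
theorem exists_seq {u v : E} (hu : u ∈ Φ) (hv : v ∈ Φ) {β : ℝ} (hβ : B u v = β) (hβ0 : 0 < β)
    (hQ : (h u - h v) ^ 2 + 2 * (1 - β) * h u * h v < 1) :
    ∃ z : ℕ → E, z 0 = u ∧ z 1 = v ∧ (∀ n, z (n + 2) = (2 * β) • z (n + 1) - z n) ∧
      (∀ n, z n ∈ Φ) ∧ ∀ n, (h (z n) - h (z (n + 1))) ^ 2 +
        2 * (1 - β) * h (z n) * h (z (n + 1)) < 1 := by
  let p : ℕ → E × E := fun n => n.rec (u, v) fun _ q => (q.2, (2 * β) • q.2 - q.1)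
  have hp : ∀ n, (p n).1 ∈ Φ ∧ (p n).2 ∈ Φ ∧ B (p n).1 (p n).2 = β ∧
      (h (p n).1 - h (p n).2) ^ 2 + 2 * (1 - β) * h (p n).1 * h (p n).2 < 1 := by
    intro n
    induction n with
    | zero => exact ⟨hu, hv, hβ, hQ⟩
    | succ n ih =>
      obtain ⟨i1, i2, i3, i4⟩ := ih
      have e3 : (p (n + 1)).2 = (2 * β) • (p n).2 - (p n).1 := rfl
      have e4 : (p (n + 1)).1 = (p n).2 := rfl
      have e5 : (p (n + 1)).2 = -rf B (p n).2 (p n).1 := by
        rw [e3]
        unfold rf
        rw [hs (p n).2, i3]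
        abel
      have e6 : h (p (n + 1)).2 = 2 * β * h (p n).2 - h (p n).1 := by
        rw [e3, map_sub, map_smul, smul_eq_mul]
      have hq : (h (p (n + 1)).1 - h (p (n + 1)).2) ^ 2 +
          2 * (1 - β) * h (p (n + 1)).1 * h (p (n + 1)).2 < 1 := by
        rw [e6, e4]
        linarith [show (h (p n).2 - (2 * β * h (p n).2 - h (p n).1)) ^ 2 +
          2 * (1 - β) * h (p n).2 * (2 * β * h (p n).2 - h (p n).1) =
          (h (p n).1 - h (p n).2) ^ 2 + 2 * (1 - β) * h (p n).1 * h (p n).2 by ring]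
      refine ⟨e4 ▸ i2, ?_, ?_, hq⟩
      · rcases hr _ i2 _ i1 with h4 | h4
        · exfalso
          have h5 := hh _ h4
          have h6 : h (p (n + 1)).2 ≤ -1 := by
            rw [e5, map_neg]
            linarith
          have h7 := hh _ i2
          rw [e4] at hq
          nlinarith [mul_nonneg hβ0.le (mul_nonneg (zero_le_one.trans h7)
            (show 0 ≤ -h (p (n + 1)).2 by linarith))]
        · rw [e5]
          exact h4
      · rw [e4, e3, map_sub, map_smul, h1 _ i2, hs (p n).2, i3, smul_eq_mul]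
        ring
  exact ⟨fun n => (p n).1, rfl, rfl, fun n => rfl, fun n => (hp n).1, fun n => (hp n).2.2.2⟩

include hs h1 hh hr hi in
theorem sep {u v : E} (hu : u ∈ Φ) (hv : v ∈ Φ) (huv : u ≠ v) :
    1 ≤ (h u - h v) ^ 2 + 2 * (1 - B u v) * h u * h v := by
  by_contra hQ
  rw [not_le] at hQ
  have hhu := hh u hu
  have hhv := hh v hv
  set β := B u v with hβ
  have hβ0 : 0 < β := by
    by_contra hb
    rw [not_lt] at hb
    have : 1 ≤ h u * h v := by nlinarith
    nlinarith [sq_nonneg (h u - h v)]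
  obtain ⟨z, z0, z1, zr, zp, zq⟩ := exists_seq hs h1 hh hr hu hv hβ.symm hβ0 hQ
  by_cases hβ1 : 1 ≤ β
  · -- the backward sequence
    have e2 : -rf B u v = (2 * β) • u - v := by
      unfold rf
      rw [← hβ]
      abel
    have hb1 : B u (-rf B u v) = β := by
      rw [e2, map_sub, map_smul, h1 u hu, ← hβ, smul_eq_mul]
      ring
    have e6 : h (-rf B u v) = 2 * β * h u - h v := by
      rw [e2, map_sub, map_smul, smul_eq_mul]
    have hq : (h u - h (-rf B u v)) ^ 2 + 2 * (1 - β) * h u * h (-rf B u v) < 1 := by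
      rw [e6]
      linarith [show (h u - (2 * β * h u - h v)) ^ 2 + 2 * (1 - β) * h u * (2 * β * h u - h v) =
        (h u - h v) ^ 2 + 2 * (1 - β) * h u * h v by ring]
    have hv' : -rf B u v ∈ Φ := by
      rcases hr u hu v hv with h4 | h4
      · exfalso
        have h5 := hh _ h4
        have h6 : h (-rf B u v) ≤ -1 := by
          rw [map_neg]
          linarith
        nlinarith [mul_nonneg hβ0.le (mul_nonneg (zero_le_one.trans hhu)
          (show 0 ≤ -h (-rf B u v) by linarith))]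
      · exact h4
    obtain ⟨z', z0', z1', zr', zp', -⟩ := exists_seq hs h1 hh hr hu hv' hb1 hβ0 hq
    have hrf : ∀ n, -rf B u (z n) = z' n ∧ -rf B u (z (n + 1)) = z' (n + 1) := by
      have hlin : ∀ (a b : ℝ) (p q : E), rf B u (a • p - b • q) = a • rf B u p - b • rf B u q := by
        intro a b p q
        unfold rf
        rw [map_sub, map_smul, map_smul, smul_eq_mul, smul_eq_mul]
        module
      intro n
      induction n with
      | zero =>
        refine ⟨?_, ?_⟩
        · rw [z0, z0']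
          unfold rf
          rw [h1 u hu]
          module
        · rw [zero_add, z1, z1']
      | succ n ih =>
        refine ⟨ih.2, ?_⟩
        have h5 := hlin (2 * β) 1 (z (n + 1)) (z n)
        rw [one_smul, one_smul] at h5
        rw [show n + 1 + 1 = n + 2 from rfl, zr, zr', h5, ← ih.1, ← ih.2]
        module
    have hsub : range z ⊆ {v | v ∈ Φ ∧ -rf B u v ∈ Φ} := by
      rintro _ ⟨n, rfl⟩
      refine ⟨zp n, ?_⟩
      rw [(hrf n).1]
      exact zp' n
    -- a form vanishing on `u`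
    have hn : v ∉ Submodule.span ℝ {u} := by
      rw [Submodule.mem_span_singleton]
      rintro ⟨c, hc⟩
      have h3 := h1 v hv
      simp only [← hc, map_smul, LinearMap.smul_apply, h1 u hu, smul_eq_mul] at h3
      have h4 : h v = c * h u := by rw [← hc, map_smul, smul_eq_mul]
      have hc0 : 0 < c := by
        by_contra hh
        have := mul_nonpos_of_nonpos_of_nonneg (not_lt.mp hh) (zero_le_one.trans hhu)
        linarith
      have hc1 : c = 1 := by nlinarith
      rw [hc1, one_smul] at hc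
      exact huv hc
    obtain ⟨f, hf, hf'⟩ := Submodule.exists_dual_map_eq_bot_of_notMem hn inferInstance
    have hfu : f u = 0 := by
      have : f u ∈ (Submodule.span ℝ {u}).map f :=
        Submodule.mem_map_of_mem (Submodule.mem_span_singleton_self u)
      rwa [hf', Submodule.mem_bot] at this
    have hg : ∀ n, 0 ≤ (f v)⁻¹ * f (z n) ∧ (f v)⁻¹ * f (z n) + 1 ≤ (f v)⁻¹ * f (z (n + 1)) := by
      intro n
      induction n with
      | zero =>
        rw [z0, zero_add, z1, hfu, inv_mul_cancel₀ hf]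
        norm_num
      | succ n ih =>
        refine ⟨by linarith [ih.1, ih.2], ?_⟩
        have e7 : (f v)⁻¹ * f (z (n + 2)) =
            2 * β * ((f v)⁻¹ * f (z (n + 1))) - (f v)⁻¹ * f (z n) := by
          rw [zr, map_sub, map_smul, smul_eq_mul]
          ring
        rw [show n + 1 + 1 = n + 2 from rfl, e7]
        nlinarith [ih.1, ih.2]
    have hinj : Function.Injective z := by
      have h6 : StrictMono (fun n => (f v)⁻¹ * f (z n)) :=
        strictMono_nat_of_lt_succ fun n => by linarith [(hg n).2]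
      intro m n hmn
      exact h6.injective (congrArg (fun w => (f v)⁻¹ * f w) hmn)
    exact (Set.infinite_range_of_injective hinj) ((hi u hu).subset hsub)
  · rw [not_le] at hβ1
    have hd : ∀ n : ℕ, h (z (n + 1)) - h (z n) ≤ (h (z 1) - h (z 0)) - 2 * (1 - β) * n := by
      intro n
      induction n with
      | zero => simp
      | succ n ih =>
        have e7 : h (z (n + 2)) = 2 * β * h (z (n + 1)) - h (z n) := by
          rw [zr, map_sub, map_smul, smul_eq_mul]
        have h8 := hh _ (zp (n + 1))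
        rw [show n + 1 + 1 = n + 2 from rfl, e7]
        push_cast
        nlinarith
    have hlt : ∀ n : ℕ, (h (z (n + 1)) - h (z n)) ^ 2 < 1 := by
      intro n
      have h8 := zq n
      have h9 := hh _ (zp n)
      have h10 := hh _ (zp (n + 1))
      have h11 : 0 ≤ 2 * (1 - β) * h (z n) * h (z (n + 1)) := by
        have := mul_nonneg (mul_nonneg (sub_nonneg.mpr hβ1.le) (zero_le_one.trans h9))
          (zero_le_one.trans h10)
        linarith
      nlinarith
    obtain ⟨N, hN⟩ := exists_nat_gt (1 / (1 - β))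
    have h12 : 1 < (1 - β) * N := by
      rw [div_lt_iff₀ (by linarith)] at hN
      linarith
    have h13 := hd N
    have h14 := abs_lt.mp (sq_lt_one_iff_abs_lt_one _ |>.mp (hlt N))
    have h15 := abs_lt.mp (sq_lt_one_iff_abs_lt_one _ |>.mp (hlt 0))
    rw [zero_add] at h15
    linarith [h14.1, h15.2]

end sep

/-- the roots of bounded height are finite in number -/
theorem finite_height {S : Type*} [Fintype S] {Φ : Set (S →₀ ℝ)}
    {B : (S →₀ ℝ) →ₗ[ℝ] (S →₀ ℝ) →ₗ[ℝ] ℝ} {h : (S →₀ ℝ) →ₗ[ℝ] ℝ}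
    (hh : ∀ u, h u = ∑ s, u s)
    (hB : ∀ u, B u u ≤ (∑ s, |u s|) ^ 2)
    (hs : ∀ u v, B u v = B v u) (h1 : ∀ u ∈ Φ, B u u = 1) (hn : ∀ u ∈ Φ, ∀ s, 0 ≤ u s)
    (hr : ∀ u ∈ Φ, ∀ v ∈ Φ, rf B u v ∈ Φ ∨ -rf B u v ∈ Φ)
    (hi : ∀ u ∈ Φ, {v | v ∈ Φ ∧ -rf B u v ∈ Φ}.Finite) (H : ℝ) :
    (ball Φ h H).Finite := by
  classical
  have hh1 : ∀ u ∈ Φ, 1 ≤ h u := by
    intro u hu
    have h2 := hB u
    have h3 : ∑ s, |u s| = h u := by
      rw [hh]
      exact Finset.sum_congr rfl fun s _ => abs_of_nonneg (hn u hu s)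
    have h4 : 0 ≤ h u := by
      rw [hh]
      exact Finset.sum_nonneg fun s _ => hn u hu s
    rw [h1 u hu, h3] at h2
    nlinarith
  obtain ⟨N, hN⟩ := exists_nat_gt ((Fintype.card S : ℝ) * (1 + |H|))
  have hN0 : (0 : ℝ) < N := lt_of_le_of_lt (by positivity) hN
  have hb : ∀ u ∈ ball Φ h H, ∀ s, u s ≤ |H| := by
    intro u hu s
    have h3 : u s ≤ ∑ t, u t :=
      Finset.single_le_sum (f := fun t => u t) (fun t _ => hn u hu.1 t) (Finset.mem_univ s)
    rw [← hh] at h3
    exact (h3.trans hu.2).trans (le_abs_self H)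
  refine Set.Finite.of_finite_image (f := fun u : S →₀ ℝ => fun s : S => ⌊(N : ℝ) * u s⌋) ?_ ?_
  · refine (Set.Finite.pi' (fun _ : S => Set.finite_Icc (0 : ℤ) ⌊(N : ℝ) * |H|⌋)).subset ?_
    rintro _ ⟨u, hu, rfl⟩ s
    refine ⟨Int.floor_nonneg.mpr (mul_nonneg hN0.le (hn u hu.1 s)), Int.floor_le_floor ?_⟩
    exact mul_le_mul_of_nonneg_left (hb u hu s) hN0.le
  · intro u hu v hv huv
    by_contra hne
    have h3 := sep (h := h) hs h1 hh1 hr hi hu.1 hv.1 hne
    have h4 : ∀ s, |u s - v s| ≤ 1 / N := by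
      intro s
      have h5 := congrFun huv s
      have h6 := Int.abs_sub_lt_one_of_floor_eq_floor h5
      rw [← mul_sub, abs_mul, abs_of_pos hN0] at h6
      rw [le_div_iff₀ hN0]
      linarith
    have h5 : ∑ s, |(u - v) s| ≤ Fintype.card S / N := by
      have : ∑ s, |(u - v) s| ≤ ∑ _s : S, (1 / N : ℝ) := Finset.sum_le_sum fun s _ => by
        rw [Finsupp.sub_apply]
        exact h4 s
      rw [Finset.sum_const, Finset.card_univ, nsmul_eq_mul, mul_one_div] at this
      exact this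
    have h5' : 0 ≤ ∑ s, |(u - v) s| := Finset.sum_nonneg fun s _ => abs_nonneg _
    have h6 : B (u - v) (u - v) = 2 * (1 - B u v) := by
      simp only [map_sub, LinearMap.sub_apply, h1 u hu.1, h1 v hv.1, hs v u]
      ring
    have h7 := hB (u - v)
    set D := ∑ s, |(u - v) s| with hD
    rw [h6] at h7
    have h8 : |h u - h v| ≤ D := by
      rw [← map_sub, hh]
      exact Finset.abs_sum_le_sum_abs _ _
    have h9 : (h u - h v) ^ 2 ≤ D ^ 2 := by
      rw [← sq_abs]
      exact pow_le_pow_left₀ (abs_nonneg _) h8 2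
    have hu1 := hh1 u hu.1
    have hv1 := hh1 v hv.1
    have hu2 : h u ≤ |H| := hu.2.trans (le_abs_self H)
    have hv2 : h v ≤ |H| := hv.2.trans (le_abs_self H)
    have h10 : h u * h v ≤ |H| ^ 2 := by nlinarith
    have h11 : 2 * (1 - B u v) * h u * h v ≤ D ^ 2 * |H| ^ 2 := by
      have : 0 ≤ h u * h v := by nlinarith
      calc 2 * (1 - B u v) * h u * h v = (2 * (1 - B u v)) * (h u * h v) := by ring
        _ ≤ D ^ 2 * (h u * h v) := mul_le_mul_of_nonneg_right h7 this
        _ ≤ _ := mul_le_mul_of_nonneg_left h10 (sq_nonneg D)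
    have h12 : 1 ≤ D ^ 2 * (1 + |H|) ^ 2 := by
      have : 0 ≤ D ^ 2 * |H| := by positivity
      nlinarith
    have h13 : D * (1 + |H|) < 1 := by
      have : D * (1 + |H|) ≤ Fintype.card S / N * (1 + |H|) :=
        mul_le_mul_of_nonneg_right h5 (by positivity)
      refine this.trans_lt ?_
      rw [div_mul_eq_mul_div, div_lt_one hN0]
      exact hN
    have h14 : 0 ≤ D * (1 + |H|) := by positivity
    nlinarith

end DY
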