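import Pool.Agent.Helper70.DY.F0

/-!
# Centres, signed sections, the configuration `(*)` (MP_d13a5e_al)
-/

namespace DY

open Set

variable {E : Type*} [AddCommGroup E] [Module ℝ E]

/-- root systems (both signs) -/
structure Sys (Ψ : Set E) (B : E →ₗ[ℝ] E →ₗ[ℝ] ℝ) : Prop where
  symm : ∀ u v, B u v = B v u
  one : ∀ u ∈ Ψ, B u u = 1
  neg : ∀ u ∈ Ψ, -u ∈ Ψ
  refl : ∀ u ∈ Ψ, ∀ v ∈ Ψ, rf B u v ∈ Ψ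

theorem Tri.sys {Ψ : Set E} {B : E →ₗ[ℝ] E →ₗ[ℝ] ℝ} {a b c : E} (h : Tri Ψ B a b c) : Sys Ψ B :=
  ⟨h.symm, h.one, h.neg, h.refl⟩

/-- local finiteness around a centre `ρ` -/
structure Cn (Ψ : Set E) (B : E →ₗ[ℝ] E →ₗ[ℝ] ℝ) (ρ : E →ₗ[ℝ] ℝ) : Prop where
  fin : ∀ r : ℝ, {u | u ∈ Ψ ∧ |ρ u| ≤ r}.Finite
  inv : ∀ u ∈ Ψ, {v | v ∈ Ψ ∧ 0 ≤ ρ v ∧ ρ (rf B u v) ≤ 0}.Finite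

/-- admissible centres for a triangle system -/
structure Adm (Ψ : Set E) (a b c : E) (ρ : E →ₗ[ℝ] ℝ) : Prop where
  fin : ∀ r : ℝ, {u | u ∈ Ψ ∧ |ρ u| ≤ r}.Finite
  neg : {u | u ∈ Ψ ∧ u ∈ C01 a b c ∧ ρ u ≤ 0}.Finite

/-- signed sections of a symmetric set `K` -/
structure Sg (K S : Set E) : Prop where
  sub : S ⊆ K
  half : ∀ u ∈ K, (u ∈ S ↔ -u ∉ S)
  cl : ∀ u ∈ S, ∀ v ∈ S, ∀ w ∈ K, Btw u w v → w ∈ S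

/-- toggling `x` -/
def flp (S : Set E) (x : E) : Set E :=
  {u | (u ∈ S ∧ u ≠ x ∧ u ≠ -x) ∨ (u ∉ S ∧ (u = x ∨ u = -x))}

/-- `t` is killed (relative to the plane of `x, x'`) -/
def Kill (Ψ : Set E) (ρ : E →ₗ[ℝ] ℝ) (x x' t : E) : Prop :=
  ∃ g ∈ Ψ, ∃ h ∈ Ψ, |ρ g| < ρ t ∧ |ρ h| < ρ t ∧ Btw g t h ∧
    (∃ α β γ : ℝ, 0 < γ ∧ g = α • x + β • x' + γ • t) ∧
    (∃ α β γ : ℝ, 0 < γ ∧ h = α • x + β • x' + γ • t)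

/-- `t` is killed, closed version -/
def KillS (Ψ : Set E) (ρ : E →ₗ[ℝ] ℝ) (x x' t : E) : Prop :=
  ∃ g ∈ Ψ, ∃ h ∈ Ψ, g ≠ t ∧ h ≠ t ∧ |ρ g| ≤ ρ t ∧ |ρ h| ≤ ρ t ∧ Btw g t h ∧
    (∃ α β γ : ℝ, 0 < γ ∧ g = α • x + β • x' + γ • t) ∧
    (∃ α β γ : ℝ, 0 < γ ∧ h = α • x + β • x' + γ • t)

/-- helper54's form `(**)` of the statement about triangles; this is the target -/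
def StarS (Ψ : Set E) (a b c : E) : Prop :=
  ∀ ρ : E →ₗ[ℝ] ℝ, Adm Ψ a b c ρ → ∀ x ∈ Ψ, ∀ x' ∈ Ψ, ∀ t ∈ Ψ,
    (∀ α β γ : ℝ, α • x + β • x' + γ • t = 0 → α = 0 ∧ β = 0 ∧ γ = 0) →
    Canon Ψ x x' → Canon Ψ x t → Canon Ψ x' t → 0 ≤ ρ x → 0 ≤ ρ x' → 0 < ρ x + ρ x' → 0 < ρ t →
    ρ x + ρ x' ≤ ρ t →
    ∀ k ∈ Ψ, |ρ k| ≤ ρ t → (∀ α β : ℝ, k ≠ α • x + β • x') → (∀ α β : ℝ, k ≠ α • x + β • t) →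
    (∀ α β : ℝ, k ≠ α • x' + β • t) → KillS Ψ ρ x x' t

/-- `(*)`, first form -/
def StarA (Ψ : Set E) (B : E →ₗ[ℝ] E →ₗ[ℝ] ℝ) (a b c : E) : Prop :=
  ∀ ρ : E →ₗ[ℝ] ℝ, Adm Ψ a b c ρ → ∀ x ∈ Ψ, ∀ x' ∈ Ψ, ∀ t ∈ Ψ,
    (∀ α β γ : ℝ, α • x + β • x' + γ • t = 0 → α = 0 ∧ β = 0 ∧ γ = 0) →
    Canon Ψ x x' → Canon Ψ x t → Canon Ψ x' t → 0 < ρ x → 0 < ρ x' → B x x' ≠ 0 →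
    (ρ (rf B x x') ≤ ρ t ∨ ρ (rf B x' x) ≤ ρ t) →
    ∀ k ∈ Ψ, |ρ k| ≤ ρ t → (∀ α β : ℝ, k ≠ α • x + β • x') → (∀ α β : ℝ, k ≠ α • x + β • t) →
    (∀ α β : ℝ, k ≠ α • x' + β • t) → Kill Ψ ρ x x' t

/-- `(*)`, second form: the centre lies on `x` -/
def StarB (Ψ : Set E) (B : E →ₗ[ℝ] E →ₗ[ℝ] ℝ) (a b c : E) : Prop :=
  ∀ ρ : E →ₗ[ℝ] ℝ, Adm Ψ a b c ρ → ∀ x ∈ Ψ, ∀ x' ∈ Ψ, ∀ t ∈ Ψ,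
    (∀ α β γ : ℝ, α • x + β • x' + γ • t = 0 → α = 0 ∧ β = 0 ∧ γ = 0) →
    Canon Ψ x x' → Canon Ψ x t → Canon Ψ x' t → ρ x = 0 → (∀ u ∈ Ψ, ρ u = 0 → u = x ∨ u = -x) →
    0 < ρ x' → ρ x' ≤ ρ t →
    ∀ k ∈ Ψ, |ρ k| ≤ ρ t → (∀ α β : ℝ, k ≠ α • x + β • x') → (∀ α β : ℝ, k ≠ α • x + β • t) →
    (∀ α β : ℝ, k ≠ α • x' + β • t) → Kill Ψ ρ x x' t

end DY
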