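import Pool.Agent.Helper70.DY.Final
import Pool.Agent.Helper9.DY.CaseII
import Pool.Agent.Helper9.DY.Str
import Pool.Agent.Helper62.DY.CaseI
import Pool.Agent.Helper64.DY.OF

/-!
# The assembly: the statement about triangles from the blocks of case II
-/

namespace DY

open RC (BEq Rlz)
open RC.Rlz (ReflOrder InitSec mik Biclosed)
open _root_.RS

/-- the blocks of case II -/
structure BlkII {E : Type*} [AddCommGroup E] [Module ℝ E] (Ψ : Set E) (B : E →ₗ[ℝ] E →ₗ[ℝ] ℝ) :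
    Prop where
  e0 : E0Stat Ψ B
  ng : NGStat Ψ B
  ng0 : NG0Stat Ψ B
  gap1 : GAP1 Ψ B
  gap2 : GAP2 Ψ B
  gap4 : GAP4 Ψ B

theorem starS_of_blk {E : Type*} [AddCommGroup E] [Module ℝ E] {Ψ : Set E}
    {B : E →ₗ[ℝ] E →ₗ[ℝ] ℝ} (H : BlkII Ψ B) {a b c : E} (hT : Tri Ψ B a b c) : StarS Ψ a b c := by
  refine starS_of_loc hT ?_ ?_
  · intro ρ φ t d1 d2 x x' h1 h2 h3 h4 h5 h6 h7 h8
    exact str_of h1 h2 h3 h4 h5 h6 h7 h8
  · refine not_loc ?_ ?_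
    · intro ρ φ t d1 d2 x x' L h1 h2
      exact Pool.Agent.Helper62.DY.caseI L h1 h2
    · exact caseII_of H.e0 (of_stat Ψ B) H.ng H.ng0 H.gap1 H.gap2 H.gap4

theorem full_of_blk {B W : Type} [Finite B] [Group W] {M : CoxeterMatrix B}
    (cs : CoxeterSystem M W) (V : Rlz cs) (H : ∀ Ψ : Set (B →₀ ℝ), BlkII Ψ (Bf V)) :
    ∃ Bz : W → Raw V.n, (∀ w, IsB V w (Bz w)) ∧
      ∀ A, Biclosed V A → ∀ l, cs.IsReduced l → ∀ u, BEq M u (mik V A l) →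
        (∃ X, IsCx X ∧ HE X (Rou V u) ∧ Minimal X) ∧
        ∀ X, IsCx X → HE X (Rou V u) → Minimal X → Linear cs Bz (cs.wordProd l) X :=
  full_of_star cs V fun Ψ _ _ _ hT => starS_of_blk (H Ψ) hT

end DY
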