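import Pool.Agent.Helper70.DY.Fin2
import Pool.Agent.Helper32.DY.E0
import Pool.Agent.Helper40.DY.NGi0Fin
import Pool.Agent.Helper62.DY.NG0
import Pool.Agent.Helper32.DY.Gap1a
import Pool.Agent.Helper7.DY.Gap2
import Pool.Agent.Helper7.DY.AffD
import Pool.Agent.Helper64.DY.G2a
import Pool.Agent.Helper9.DY.G2bAll
import Pool.Agent.Helper62.DY.G2w3
import Pool.Agent.Helper78.DY.G2d
import Pool.Agent.Helper8.DY.G4Bh

/-!
# All blocks of case II (MP_d13a5e_al)
-/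

set_option autoImplicit false

namespace DY

/-- the blocks of case II, for every root system of rank 3 type -/
theorem blkII {E : Type*} [AddCommGroup E] [Module ℝ E] (Ψ : Set E) (B : E →ₗ[ℝ] E →ₗ[ℝ] ℝ) :
    BlkII Ψ B where
  e0 := e0Stat Ψ B
  ng := Pool.Agent.Helper40.DY.ngStat Ψ B
  ng0 := Pool.Agent.Helper62.DY.ng0
  gap1 := gap1_all Ψ B
  gap2 := gap2_of Pool.Agent.Helper64.DY.g2a (g2b Ψ B) Pool.Agent.Helper62.DY.g2c
    (g2d Ψ B) (g2e Ψ B)
  gap4 := gap4 Ψ B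

end DY
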