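import Pool.Agent.Helper70.DY.F1

/-!
# Signed sections and toggles (MP_d13a5e_al)
-/

namespace DY

open Set

variable {E : Type*} [AddCommGroup E] [Module ℝ E]
variable {Ψ K S : Set E} {B : E →ₗ[ℝ] E →ₗ[ℝ] ℝ} {ρ : E →ₗ[ℝ] ℝ}

/-- `x` can be toggled in `S` -/
def Tg (K S : Set E) (x : E) : Prop :=
  (∃ S', Sg K S' ∧ x ∈ S' ∧ ∀ y, y ≠ x → y ≠ -x → (y ∈ S' ↔ y ∈ S)) ∧
  (∃ S', Sg K S' ∧ -x ∈ S' ∧ ∀ y, y ≠ x → y ≠ -x → (y ∈ S' ↔ y ∈ S))

theorem Btw.neg {u w v : E} (h : Btw u w v) : Btw (-u) (-w) (-v) := by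
  obtain ⟨a, b, ha, hb, rfl⟩ := h
  exact ⟨a, b, ha, hb, by module⟩

theorem Sg.neg_mem (hK : ∀ u ∈ K, -u ∈ K) (h : Sg K S) {u : E} (hu : u ∈ K) :
    (-u ∈ S ↔ u ∉ S) := by
  have := h.half (-u) (hK u hu)
  rwa [neg_neg] at this

theorem Sg.cl' (hK : ∀ u ∈ K, -u ∈ K) (h : Sg K S) {u v w : E} (hu : u ∈ K) (hv : v ∈ K)
    (hw : w ∈ K) (hu' : u ∉ S) (hv' : v ∉ S) (hb : Btw u w v) : w ∉ S := by
  have h1 := (h.neg_mem hK hu).mpr hu'
  have h2 := (h.neg_mem hK hv).mpr hv'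
  exact (h.neg_mem hK hw).mp (h.cl _ h1 _ h2 _ (hK w hw) hb.neg)

theorem Tg.neg {x : E} (h : Tg K S x) : Tg K S (-x) := by
  obtain ⟨⟨S1, h1, h2, h3⟩, ⟨S2, h4, h5, h6⟩⟩ := h
  refine ⟨⟨S2, h4, h5, fun y hy hy' => h6 y ?_ hy⟩, ⟨S1, h1, by rwa [neg_neg], fun y hy hy' =>
    h3 y ?_ hy⟩⟩
  · rwa [neg_neg] at hy'
  · rwa [neg_neg] at hy'

theorem Sys.smul_eq {u v : E} (hS : Sys Ψ B) (hu : u ∈ Ψ) (hv : v ∈ Ψ) {c : ℝ}
    (h : v = c • u) : c = 1 ∨ c = -1 := by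
  have h1 := hS.one u hu
  have h2 := hS.one v hv
  rw [h, map_smul, map_smul, LinearMap.smul_apply, h1, smul_eq_mul, smul_eq_mul, mul_one] at h2
  have h3 : (c - 1) * (c + 1) = 0 := by linarith
  rcases mul_eq_zero.mp h3 with h4 | h4
  · left
    linarith
  · right
    linarith

theorem Sys.smul_eq' {u v : E} (hS : Sys Ψ B) (hu : u ∈ Ψ) (hv : v ∈ Ψ) {c : ℝ}
    (h : v = c • u) : v = u ∨ v = -u := by
  rcases hS.smul_eq hu hv h with h1 | h1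
  · left
    rw [h, h1, one_smul]
  · right
    rw [h, h1, neg_smul, one_smul]

/-- toggling `x` makes the status constant on the flats through `x` -/
theorem Sg.toggle (hS : Sys Ψ B) (hKΨ : K ⊆ Ψ) (h : Sg K S) {x : E}
    (ht : Tg K S x) {u v : E} (hu : u ∈ K) (hv : v ∈ K) (hux : u ≠ x) (hux' : u ≠ -x)
    (hvx : v ≠ x) (hvx' : v ≠ -x) {α β : ℝ} (hα : 0 < α) (e : v = α • u + β • x) :
    (u ∈ S ↔ v ∈ S) := by
  obtain ⟨⟨S1, h1, h2, h3⟩, ⟨S2, h4, h5, h6⟩⟩ := ht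
  have e' : u = (1 / α) • v + (-β / α) • x := by
    rw [e, smul_add, smul_smul, smul_smul, add_assoc, ← add_smul]
    have e1 : 1 / α * α = 1 := by field_simp
    have e2 : 1 / α * β + -β / α = 0 := by field_simp; ring
    rw [e1, e2]
    module
  rcases lt_trichotomy β 0 with hβ | hβ | hβ
  · constructor
    · intro hm
      refine (h6 v hvx hvx').mp (h4.cl u ((h6 u hux hux').mpr hm) (-x) h5 v hv
        ⟨α, -β, hα, by linarith, ?_⟩)
      rw [e]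
      module
    · intro hm
      refine (h3 u hux hux').mp (h1.cl v ((h3 v hvx hvx').mpr hm) x h2 u hu
        ⟨1 / α, -β / α, by positivity, div_pos (by linarith) hα, e'⟩)
  · have h7 : v = α • u := by rw [e, hβ, zero_smul, add_zero]
    rcases hS.smul_eq (hKΨ hu) (hKΨ hv) h7 with h8 | h8
    · rw [h7, h8, one_smul]
    · linarith
  · constructor
    · intro hm
      exact (h3 v hvx hvx').mp (h1.cl u ((h3 u hux hux').mpr hm) x h2 v hv
        ⟨α, β, hα, hβ, e⟩)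
    · intro hm
      refine (h6 u hux hux').mp (h4.cl v ((h6 v hvx hvx').mpr hm) (-x) h5 u hu
        ⟨1 / α, β / α, by positivity, by positivity, ?_⟩)
      rw [e']
      module

end DY
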