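import Pool.Agent.Helper70.DY.G9

/-!
# Constancy off the plane: the induction, end (MP_d13a5e_al)
-/

namespace DY

open Set

variable {E : Type*} [AddCommGroup E] [Module ℝ E]

theorem Th.swap {x x' w : E} (h : Th x x' w) : Th x' x w := by
  obtain ⟨α, β, h1, h2, e⟩ := h
  exact ⟨β, α, h2, h1, by rw [e, add_comm]⟩

theorem Fn.swap {Ψ : Set E} {x x' : E} {φ : E →ₗ[ℝ] ℝ} (h : Fn Ψ x x' φ) : Fn Ψ x' x φ := by
  refine ⟨h.zx', h.zx, fun u hu h0 => ?_, fun u hu v hv h0 => ?_⟩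
  · obtain ⟨α, β, e⟩ := h.ker u hu h0
    exact ⟨β, α, by rw [e, add_comm]⟩
  · obtain ⟨α, β, γ, e⟩ := h.span3 u hu v hv h0
    exact ⟨β, α, γ, by rw [e]; module⟩

namespace Dt

variable {Ψ K S : Set E} {B : E →ₗ[ℝ] E →ₗ[ℝ] ℝ} {a b c x x' : E} {φ : E →ₗ[ℝ] ℝ}
  (h : Dt Ψ K S B a b c x x' φ)

include h

theorem swap : Dt Ψ K S B a b c x' x φ where
  tri := h.tri
  star := h.star
  sg := h.sg
  hx := h.hx'
  hx' := h.hx
  hxx := h.hxx.symm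
  can := h.can.symm
  tg := h.tg'
  tg' := h.tg
  fn := h.fn.swap
  red := by
    rintro ρ R K' hA hK hKK hne hx' hx ⟨w, hw, hwT⟩
    exact h.red ρ R K' hA hK hKK hne hx hx' ⟨w, hw, hwT.swap⟩

theorem step_strict {ρ : E →ₗ[ℝ] ℝ} {R : ℝ} (hA : Adm Ψ a b c ρ)
    (hK : ∀ u, u ∈ K ↔ u ∈ Ψ ∧ |ρ u| ≤ R) (hx0 : 0 < ρ x) (hxx'0 : ρ x < ρ x')
    (hw : ∃ w ∈ K, Th x x' w) : Eqv K S φ := by
  obtain ⟨w, hw, hwT⟩ := hw
  have hx'0 : 0 < ρ x' := hx0.trans hxx'0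
  obtain ⟨R0, m, hm, hmR, -, hK0⟩ := h.exists_max hA hK ⟨w, hw⟩
  by_cases h1 : ∃ w1 ∈ K, Th x x' w1 ∧ |ρ w1| < R0
  · obtain ⟨w1, hw1, hw1T, hw1R⟩ := h1
    exact h.caseE hA hK0 hx0 hx'0 ((hK w1).mp hw1).1 hw1T hw1R hm hmR
  · have hall : ∀ w ∈ K, Th x x' w → |ρ w| = R0 := by
      intro w1 hw1 hw1T
      refine le_antisymm ((hK0 w1).mp hw1).2 (not_lt.mp fun h2 => h1 ⟨w1, hw1, hw1T, h2⟩)
    by_cases h2 : ∃ t ∈ Ψ, |ρ t| = R0 ∧ φ t ≠ 0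
    · obtain ⟨t, ht, htR, htφ⟩ := h2
      exact h.caseC hA hK0 hx0 hx'0 ((hK w).mp hw).1 hwT (hall w hw hwT).le ht htR htφ
    · refine h.caseF hA hK0 hx0 hxx'0 hw hwT (fun t ht htR => ?_) hall
      by_contra h3
      exact h2 ⟨t, ht, htR, h3⟩

theorem step {ρ : E →ₗ[ℝ] ℝ} {R : ℝ} (hA : Adm Ψ a b c ρ)
    (hK : ∀ u, u ∈ K ↔ u ∈ Ψ ∧ |ρ u| ≤ R) (hx0 : 0 < ρ x) (hx'0 : 0 < ρ x')
    (hw : ∃ w ∈ K, Th x x' w) : Eqv K S φ := by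
  rcases lt_trichotomy (ρ x) (ρ x') with h1 | h1 | h1
  · exact h.step_strict hA hK hx0 h1 hw
  · obtain ⟨w, hwK, hwT⟩ := hw
    have hwΨ := ((hK w).mp hwK).1
    have hR : 0 ≤ R := (abs_nonneg _).trans ((hK w).mp hwK).2
    obtain ⟨δ0, hδ0, hδ⟩ := ball_opn h.tri hA h.hx hx0 hR
    obtain ⟨δ, hδp, hδ1⟩ : ∃ δ, 0 < δ ∧ δ ≤ δ0 ∧ δ < ρ x := by
      refine ⟨min δ0 (ρ x / 2), lt_min hδ0 (by linarith), min_le_left _ _, ?_⟩
      have := min_le_right δ0 (ρ x / 2)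
      linarith
    obtain ⟨R', hR', hball⟩ := hδ δ hδp.le hδ1.1
    have hc0 := (h.two_c0 hwΨ hwT).1
    have e1 : (ρ - δ • B x) x = ρ x - δ := by
      rw [LinearMap.sub_apply, LinearMap.smul_apply, smul_eq_mul, h.tri.one x h.hx, mul_one]
    have e2 : (ρ - δ • B x) x' = ρ x' - δ * B x x' := by
      rw [LinearMap.sub_apply, LinearMap.smul_apply, smul_eq_mul]
    refine h.step_strict (hA.move h.tri h.hx hδp.le hδ1.2.le) (R := R') (fun u => ?_) ?_ ?_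
      ⟨w, hwK, hwT⟩
    · rw [hK, LinearMap.sub_apply, LinearMap.smul_apply, smul_eq_mul]
      exact hball u
    · rw [e1]
      linarith [hδ1.2]
    · rw [e1, e2]
      nlinarith
  · obtain ⟨w, hwK, hwT⟩ := hw
    exact h.swap.step_strict hA hK hx'0 h1 ⟨w, hwK, hwT.swap⟩

end Dt

theorem Sg.restrict {K S K' : Set E} (h : Sg K S) (hK' : K' ⊆ K) (hsym : ∀ u ∈ K', -u ∈ K') :
    Sg K' (S ∩ K') := by
  refine ⟨fun u hu => hu.2, fun u hu => ?_, fun u hu v hv w hw hb => ⟨h.cl u hu.1 v hv.1 w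
    (hK' hw) hb, hw⟩⟩
  constructor
  · rintro ⟨h1, -⟩ ⟨h2, -⟩
    exact (h.half u (hK' hu)).mp h1 h2
  · intro h1
    exact ⟨(h.half u (hK' hu)).mpr fun h2 => h1 ⟨h2, hsym u hu⟩, hu⟩

theorem Tg.restrict {K S K' : Set E} {x : E} (h : Tg K S x) (hK' : K' ⊆ K)
    (hsym : ∀ u ∈ K', -u ∈ K') (hx : x ∈ K') : Tg K' (S ∩ K') x := by
  obtain ⟨⟨S1, h1, h2, h3⟩, ⟨S2, h4, h5, h6⟩⟩ := h
  refine ⟨⟨S1 ∩ K', h1.restrict hK' hsym, ⟨h2, hx⟩, fun y hy hy' => ?_⟩,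
    ⟨S2 ∩ K', h4.restrict hK' hsym, ⟨h5, hsym x hx⟩, fun y hy hy' => ?_⟩⟩
  · rw [Set.mem_inter_iff, Set.mem_inter_iff, h3 y hy hy']
  · rw [Set.mem_inter_iff, Set.mem_inter_iff, h6 y hy hy']

section

variable {Ψ : Set E} {B : E →ₗ[ℝ] E →ₗ[ℝ] ℝ} {a b c x x' : E} {φ : E →ₗ[ℝ] ℝ}

/-- **constancy off the plane** -/
theorem eqv_main (hT : Tri Ψ B a b c) (hStar : StarS Ψ a b c) (hx : x ∈ Ψ) (hx' : x' ∈ Ψ)
    (hxx : x ≠ x') (hcan : Canon Ψ x x') (hφ : Fn Ψ x x' φ) :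
    ∀ n : ℕ, ∀ (K S : Set E) (ρ : E →ₗ[ℝ] ℝ) (R : ℝ), K.ncard < n → Adm Ψ a b c ρ →
    (∀ u, u ∈ K ↔ u ∈ Ψ ∧ |ρ u| ≤ R) → Sg K S → Tg K S x → Tg K S x' → 0 < ρ x → 0 < ρ x' →
    (∃ w ∈ K, Th x x' w) → Eqv K S φ := by
  intro n
  induction n with
  | zero => intro K S ρ R h0; exact absurd h0 (Nat.not_lt_zero _)
  | succ n ih =>
    intro K S ρ R hn hA hK hSg ht ht' hx0 hx'0 hw
    have hfin : K.Finite := (hA.fin R).subset fun u hu => (hK u).mp hu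
    have hD : Dt Ψ K S B a b c x x' φ := by
      refine ⟨hT, hStar, hSg, hx, hx', hxx, hcan, ht, ht', hφ, ?_⟩
      rintro ρ1 R1 K1 hA1 hK1 hKK hne hx1 hx'1 ⟨w, hwK, hwT⟩
      have hsym : ∀ u ∈ K1, -u ∈ K1 := by
        intro u hu
        rw [hK1] at hu ⊢
        exact ⟨hT.neg u hu.1, by rw [map_neg, abs_neg]; exact hu.2⟩
      have hwΨ := ((hK1 w).mp hwK).1
      -- `x, x'` lie in `K1`
      have hle : ρ1 x + ρ1 x' ≤ |ρ1 w| := by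
        obtain ⟨α, β, h1, h2, e⟩ := hwT
        have h3 : ρ1 w = α * ρ1 x + β * ρ1 x' := by
          rw [e, map_add, map_smul, map_smul, smul_eq_mul, smul_eq_mul]
        rw [h3]
        rcases hcan w hwΨ α β e with (⟨h4, h5⟩ | ⟨h4, h5⟩ | ⟨h4, h5⟩) |
          (⟨h4, h5⟩ | ⟨h4, h5⟩ | ⟨h4, h5⟩)
        · exact absurd h4 h1
        · exact absurd h5 h2
        · refine le_trans ?_ (le_abs_self _)
          nlinarith
        · exact absurd (neg_eq_zero.mp h4) h1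
        · exact absurd (neg_eq_zero.mp h5) h2
        · refine le_trans ?_ (neg_le_abs _)
          nlinarith
      have hwR := ((hK1 w).mp hwK).2
      have hxK : x ∈ K1 := (hK1 x).mpr ⟨hx, by rw [abs_of_pos hx1]; linarith⟩
      have hx'K : x' ∈ K1 := (hK1 x').mpr ⟨hx', by rw [abs_of_pos hx'1]; linarith⟩
      have hcard : K1.ncard < n := by
        have := Set.ncard_lt_ncard (hKK.ssubset_of_ne hne) hfin
        omega
      have h1 := ih K1 (S ∩ K1) ρ1 R1 hcard hA1 hK1 (hSg.restrict hKK hsym)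
        (ht.restrict hKK hsym hxK) (ht'.restrict hKK hsym hx'K) hx1 hx'1 ⟨w, hwK, hwT⟩
      intro u hu v hv hu' hv'
      have h2 := h1 u hu v hv hu' hv'
      simpa [hu, hv] using h2
    exact hD.step hA hK hx0 hx'0 hw

end

end DY
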