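import Pool.Agent.Helper70.DY.G10

/-!
# Tightness of the balls of triangle systems (MP_d13a5e_al)
-/

namespace DY

open Set

variable {E : Type*} [AddCommGroup E] [Module ℝ E]

section

variable {Ψ : Set E} {B : E →ₗ[ℝ] E →ₗ[ℝ] ℝ} {ρ : E →ₗ[ℝ] ℝ} {a b c : E}

theorem Tri.ne_zero (hT : Tri Ψ B a b c) {u : E} (hu : u ∈ Ψ) : u ≠ 0 := by
  rintro rfl
  have := hT.one 0 hu
  rw [map_zero] at this
  norm_num at this

theorem Z1.nonneg {x : ℝ} (h : Z1 x) : 0 ≤ x := by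
  rcases h with h | h <;> linarith

/-- positive centres -/
theorem Tri.rho_pos (hT : Tri Ψ B a b c) (ha : 0 < ρ a) (hb : 0 < ρ b) (hc : 0 < ρ c) {u : E}
    (hu : u ∈ Ψ) (h : u ∈ C01 a b c) : 0 < ρ u := by
  obtain ⟨α, β, γ, e, h1, h2, h3⟩ := h
  have h0 := hT.ne_zero hu
  have e1 : ρ u = α * ρ a + β * ρ b + γ * ρ c := by
    rw [e, map_add, map_add, map_smul, map_smul, map_smul, smul_eq_mul, smul_eq_mul, smul_eq_mul]
  have h4 := mul_nonneg h1.nonneg ha.le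
  have h5 := mul_nonneg h2.nonneg hb.le
  have h6 := mul_nonneg h3.nonneg hc.le
  rw [e1]
  rcases h1 with h1 | h1
  · rcases h2 with h2 | h2
    · rcases h3 with h3 | h3
      · exfalso
        apply h0
        rw [e, h1, h2, h3]
        simp
      · nlinarith
    · nlinarith
  · nlinarith

theorem Tri.rho_ne (hT : Tri Ψ B a b c) (ha : 0 < ρ a) (hb : 0 < ρ b) (hc : 0 < ρ c) {u : E}
    (hu : u ∈ Ψ) : ρ u ≠ 0 := by
  rcases hT.pos u hu with h | h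
  · exact (hT.rho_pos ha hb hc hu h).ne'
  · have := hT.rho_pos ha hb hc (hT.neg u hu) h
    rw [map_neg] at this
    intro h1
    linarith

theorem Tri.adm (hT : Tri Ψ B a b c) (ha : 0 < ρ a) (hb : 0 < ρ b) (hc : 0 < ρ c) :
    Adm Ψ a b c ρ := by
  refine ⟨fun r => ?_, ?_⟩
  · obtain ⟨m, hm, hma, hmb, hmc⟩ : ∃ m, 0 < m ∧ m ≤ ρ a ∧ m ≤ ρ b ∧ m ≤ ρ c :=
      ⟨min (ρ a) (min (ρ b) (ρ c)), lt_min ha (lt_min hb hc), min_le_left _ _,
        (min_le_right _ _).trans (min_le_left _ _), (min_le_right _ _).trans (min_le_right _ _)⟩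
    have h1 := hT.fin (r / m)
    have key : ∀ u ∈ Ψ, u ∈ C01 a b c → |ρ u| ≤ r → u ∈ {u | u ∈ Ψ ∧ ∃ α β γ : ℝ,
        u = α • a + β • b + γ • c ∧ 0 ≤ α ∧ 0 ≤ β ∧ 0 ≤ γ ∧ α + β + γ ≤ r / m} := by
      rintro u hu ⟨α, β, γ, e, h1, h2, h3⟩ hr
      refine ⟨hu, α, β, γ, e, h1.nonneg, h2.nonneg, h3.nonneg, ?_⟩
      rw [le_div_iff₀ hm]
      have e1 : ρ u = α * ρ a + β * ρ b + γ * ρ c := by
        rw [e, map_add, map_add, map_smul, map_smul, map_smul, smul_eq_mul, smul_eq_mul,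
          smul_eq_mul]
      have h4 := mul_le_mul_of_nonneg_left hma h1.nonneg
      have h5 := mul_le_mul_of_nonneg_left hmb h2.nonneg
      have h6 := mul_le_mul_of_nonneg_left hmc h3.nonneg
      have := le_abs_self (ρ u)
      nlinarith
    refine (h1.union (h1.image fun u => -u)).subset ?_
    rintro u ⟨hu, hr⟩
    rcases hT.pos u hu with h | h
    · exact Or.inl (key u hu h hr)
    · exact Or.inr ⟨-u, key (-u) (hT.neg u hu) h (by rwa [map_neg, abs_neg]), neg_neg u⟩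
  · convert Set.finite_empty (α := E)
    ext u
    simp only [mem_ofPred_eq, mem_empty_iff_false, iff_false, not_and, not_le]
    intro hu h
    exact hT.rho_pos ha hb hc hu h

/-- the section of a relatively biclosed set -/
theorem Sg.of_hs {r : ℝ} {V : Set E} (hne : ∀ u ∈ Ψ, ρ u ≠ 0)
    (hneg : ∀ u ∈ Ψ, -u ∈ Ψ) (hV : Hs {u | u ∈ Ψ ∧ 0 < ρ u ∧ ρ u ≤ r} V) :
    Sg {u | u ∈ Ψ ∧ |ρ u| ≤ r}
      {u | (u ∈ Ψ ∧ |ρ u| ≤ r) ∧ ((0 < ρ u ∧ u ∉ V) ∨ (ρ u < 0 ∧ -u ∈ V))} := by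
  refine ⟨fun u hu => hu.1, fun u hu => ?_, fun u hu v hv w hw hb => ⟨hw, ?_⟩⟩
  · have h1 := hne u hu.1
    rcases h1.lt_or_gt with h2 | h2
    · constructor
      · rintro ⟨-, ⟨h3, -⟩ | ⟨-, h3⟩⟩
        · linarith
        · rintro ⟨-, ⟨-, h4⟩ | ⟨h4, -⟩⟩
          · exact h4 h3
          · rw [map_neg] at h4
            linarith
      · intro h3
        refine ⟨hu, Or.inr ⟨h2, ?_⟩⟩
        by_contra h4
        exact h3 ⟨⟨hneg u hu.1, by rw [map_neg, abs_neg]; exact hu.2⟩, Or.inl ⟨by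
          rw [map_neg]; linarith, h4⟩⟩
    · constructor
      · rintro ⟨-, ⟨-, h3⟩ | ⟨h3, -⟩⟩
        · rintro ⟨-, ⟨h4, -⟩ | ⟨-, h4⟩⟩
          · rw [map_neg] at h4
            linarith
          · rw [neg_neg] at h4
            exact h3 h4
        · linarith
      · intro h3
        refine ⟨hu, Or.inl ⟨h2, fun h4 => h3 ⟨⟨hneg u hu.1, by
          rw [map_neg, abs_neg]; exact hu.2⟩, Or.inr ⟨by rw [map_neg]; linarith, ?_⟩⟩⟩⟩
        rwa [neg_neg]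
  · obtain ⟨s, t, hs, ht, e⟩ := hb
    have hmem : ∀ z, z ∈ Ψ ∧ |ρ z| ≤ r → 0 < ρ z → z ∈ {u | u ∈ Ψ ∧ 0 < ρ u ∧ ρ u ≤ r} :=
      fun z hz h => ⟨hz.1, h, by have := hz.2; rwa [abs_of_pos h] at this⟩
    have hmem' : ∀ z, z ∈ Ψ ∧ |ρ z| ≤ r → ρ z < 0 → -z ∈ {u | u ∈ Ψ ∧ 0 < ρ u ∧ ρ u ≤ r} :=
      fun z hz h => ⟨hneg z hz.1, by rw [map_neg]; linarith, by
        have := hz.2
        rw [map_neg]
        rwa [abs_of_neg h] at this⟩
    have ew : ρ w = s * ρ u + t * ρ v := by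
      rw [e, map_add, map_smul, map_smul, smul_eq_mul, smul_eq_mul]
    have hw0 := hne w hw.1
    -- the mixed case
    have mixed : ∀ (u v : E) (s t : ℝ), 0 < s → 0 < t → w = s • u + t • v →
        (u ∈ Ψ ∧ |ρ u| ≤ r) → (v ∈ Ψ ∧ |ρ v| ≤ r) → 0 < ρ u → u ∉ V → ρ v < 0 → -v ∈ V →
        ((0 < ρ w ∧ w ∉ V) ∨ (ρ w < 0 ∧ -w ∈ V)) := by
      intro u v s t hs ht e hu hv hu0 huV hv0 hvV
      rcases hw0.lt_or_gt with h1 | h1
      · right
        refine ⟨h1, ?_⟩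
        have hb : Btw (-w) (-v) u := ⟨1 / t, s / t, by positivity, by positivity, by
          rw [e]
          have h2 : (1 / t) • -(s • u + t • v) + (s / t) • u =
            -((1 / t * t) • v) + (s / t - 1 / t * s) • u := by module
          rw [h2, one_div_mul_cancel ht.ne', show s / t - 1 / t * s = 0 by ring]
          simp⟩
        rcases (hV.2 _ (hmem' w hw h1) _ (hmem u hu hu0) _ (hmem' v hv hv0) hb).2 hvV with h3 | h3
        · exact h3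
        · exact absurd h3 huV
      · left
        refine ⟨h1, fun h2 => huV ?_⟩
        have hb : Btw w u (-v) := ⟨1 / s, t / s, by positivity, by positivity, by
          rw [e]
          have h2 : (1 / s) • (s • u + t • v) + (t / s) • -v =
            (1 / s * s) • u + (1 / s * t - t / s) • v := by module
          rw [h2, one_div_mul_cancel hs.ne', show 1 / s * t - t / s = 0 by ring]
          simp⟩
        exact (hV.2 _ (hmem w hw h1) _ (hmem' v hv hv0) _ (hmem u hu hu0) hb).1 h2 hvV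
    obtain ⟨huK, ⟨hu0, huV⟩ | ⟨hu0, huV⟩⟩ := hu
    · obtain ⟨hvK, ⟨hv0, hvV⟩ | ⟨hv0, hvV⟩⟩ := hv
      · left
        have hw1 : 0 < ρ w := by
          rw [ew]
          positivity
        refine ⟨hw1, fun h2 => ?_⟩
        rcases (hV.2 _ (hmem u huK hu0) _ (hmem v hvK hv0) _ (hmem w hw hw1)
          ⟨s, t, hs, ht, e⟩).2 h2 with h3 | h3
        · exact huV h3
        · exact hvV h3
      · exact mixed u v s t hs ht e huK hvK hu0 huV hv0 hvV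
    · obtain ⟨hvK, ⟨hv0, hvV⟩ | ⟨hv0, hvV⟩⟩ := hv
      · exact mixed v u t s ht hs (by rw [e, add_comm]) hvK huK hv0 hvV hu0 huV
      · right
        have hw1 : ρ w < 0 := by
          rw [ew]
          nlinarith
        refine ⟨hw1, ?_⟩
        exact (hV.2 _ (hmem' u huK hu0) _ (hmem' v hvK hv0) _ (hmem' w hw hw1)
          ⟨s, t, hs, ht, by rw [e]; module⟩).1 huV hvV

/-- one-element extensions give toggles -/
theorem Tg.of_hs {r : ℝ} {U : Set E} {x : E} (hne : ∀ u ∈ Ψ, ρ u ≠ 0)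
    (hneg : ∀ u ∈ Ψ, -u ∈ Ψ) (hU : Hs {u | u ∈ Ψ ∧ 0 < ρ u ∧ ρ u ≤ r} U)
    (hUx : Hs {u | u ∈ Ψ ∧ 0 < ρ u ∧ ρ u ≤ r} (insert x U)) (hx : x ∉ U) :
    Tg {u | u ∈ Ψ ∧ |ρ u| ≤ r}
      {u | (u ∈ Ψ ∧ |ρ u| ≤ r) ∧ ((0 < ρ u ∧ u ∉ U) ∨ (ρ u < 0 ∧ -u ∈ U))} x := by
  have hxK := hUx.1 (mem_insert _ _)
  refine ⟨⟨_, Sg.of_hs hne hneg hU, ⟨⟨hxK.1, by rw [abs_of_pos hxK.2.1]; exact hxK.2.2⟩,
    Or.inl ⟨hxK.2.1, hx⟩⟩, fun y _ _ => Iff.rfl⟩, ⟨_, Sg.of_hs hne hneg hUx,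
    ⟨⟨hneg x hxK.1, by rw [map_neg, abs_neg, abs_of_pos hxK.2.1]; exact hxK.2.2⟩, Or.inr ⟨by
      rw [map_neg]; linarith [hxK.2.1], by rw [neg_neg]; exact mem_insert _ _⟩⟩, ?_⟩⟩
  intro y hy hy'
  have h1 : -y ≠ x := fun e => hy' (by rw [← e, neg_neg])
  simp only [mem_ofPred_eq, mem_insert_iff, hy, h1, false_or]

end

end DY
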