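import Pool.Agent.Helper70.DY.G11

/-!
# Tightness of the balls of triangle systems, end (MP_d13a5e_al)
-/

namespace DY

open Set

variable {E : Type*} [AddCommGroup E] [Module ℝ E]

section

variable {Ψ : Set E} {B : E →ₗ[ℝ] E →ₗ[ℝ] ℝ} {ρ : E →ₗ[ℝ] ℝ} {a b c : E}

/-- the two elements of a minimal flat are canonical -/
theorem canon_of_flat (hT : Tri Ψ B a b c) (hA : Adm Ψ a b c ρ) (hne : ∀ u ∈ Ψ, ρ u ≠ 0) {r : ℝ}
    {x y : E} (hx : x ∈ Ψ) (hy : y ∈ Ψ) (hx0 : 0 < ρ x) (hy0 : 0 < ρ y) (hxr : ρ x ≤ r)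
    (hyr : ρ y ≤ r) (hxy : x ≠ y)
    (hF : ∀ z ∈ Ψ, 0 < ρ z → ρ z ≤ r → (∃ α β : ℝ, z = α • x + β • y) →
      ∃ α β : ℝ, 0 ≤ α ∧ 0 ≤ β ∧ z = α • x + β • y) : Canon Ψ x y := by
  have hS := hT.sys
  have hC := hA.cn hT
  have hxy' : x ≠ -y := by
    rintro rfl
    rw [map_neg] at hx0
    linarith
  have hind := hS.indepC hx hy hxy hxy'
  obtain ⟨p, hp, q, hq, hpq, hp1, hq1, hp0, hq0, hcan, hall⟩ := hC.canon_pair hS hx hy
    (fun s e => by
      rcases hS.smul_eq' hx hy e with h1 | h1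
      · exact hxy h1.symm
      · exact hxy' (by rw [h1, neg_neg])) (fun w hw _ => hne w hw)
  obtain ⟨α, β, ex, h1⟩ := hall x hx ⟨1, 0, by module⟩ hx0
  obtain ⟨α', β', ey, h2⟩ := hall y hy ⟨0, 1, by module⟩ hy0
  -- a proper combination is impossible
  have proper : ∀ x y : E, x ∈ Ψ → y ∈ Ψ → 0 < ρ x → ρ x ≤ r →
      (∀ z ∈ Ψ, 0 < ρ z → ρ z ≤ r → (∃ α β : ℝ, z = α • x + β • y) →
        ∃ α β : ℝ, 0 ≤ α ∧ 0 ≤ β ∧ z = α • x + β • y) →
      (∀ α β : ℝ, α • x + β • y = 0 → α = 0 ∧ β = 0) →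
      (∃ α β : ℝ, p = α • x + β • y) → (∃ α β : ℝ, q = α • x + β • y) →
      ∀ α β : ℝ, x = α • p + β • q → 1 ≤ α → 1 ≤ β → False := by
    intro x y hx hy hx0 hxr hF hind hp1 hq1 α β ex hα hβ
    have e1 : ρ x = α * ρ p + β * ρ q := by
      rw [ex, map_add, map_smul, map_smul, smul_eq_mul, smul_eq_mul]
    obtain ⟨s, t, hs, ht, e2⟩ := hF p hp hp0 (by nlinarith) hp1
    obtain ⟨s', t', hs', ht', e3⟩ := hF q hq hq0 (by nlinarith) hq1
    have e4 : (α * s + β * s' - 1) • x + (α * t + β * t') • y = 0 := by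
      have : (α * s + β * s' - 1) • x + (α * t + β * t') • y =
        (α • (s • x + t • y) + β • (s' • x + t' • y)) - x := by module
      rw [this, ← e2, ← e3, ← ex, sub_self]
    obtain ⟨e5, e6⟩ := hind _ _ e4
    have h3 : t = 0 := by nlinarith
    have h4 : t' = 0 := by nlinarith
    rw [h3, zero_smul, add_zero] at e2
    rw [h4, zero_smul, add_zero] at e3
    rcases hS.smul_eq hx hp e2 with h5 | h5
    · rcases hS.smul_eq hx hq e3 with h6 | h6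
      · apply hpq
        rw [e2, e3, h5, h6]
      · linarith
    · linarith
  rcases h1 with ⟨hα, hβ⟩ | ⟨hα, hβ⟩ | ⟨hα, hβ⟩
  · -- x = q
    have exq : x = q := by rw [ex, hα, hβ]; module
    rcases h2 with ⟨hα', hβ'⟩ | ⟨hα', hβ'⟩ | ⟨hα', hβ'⟩
    · exfalso
      apply hxy
      rw [exq, ey, hα', hβ']
      module
    · have eyp : y = p := by rw [ey, hα', hβ']; module
      rw [exq, eyp]
      exact hcan.symm
    · exfalso
      exact proper y x hy hx hy0 hyr (fun z hz h3 h4 ⟨s, t, e⟩ => by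
        obtain ⟨s', t', g1, g2, g3⟩ := hF z hz h3 h4 ⟨t, s, by rw [e]; module⟩
        exact ⟨t', s', g2, g1, by rw [g3]; module⟩) (fun s t e => by
        obtain ⟨g1, g2⟩ := hind t s (by rw [← e]; module)
        exact ⟨g2, g1⟩) (by
        obtain ⟨s, t, e⟩ := hp1
        exact ⟨t, s, by rw [e]; module⟩) (by
        obtain ⟨s, t, e⟩ := hq1
        exact ⟨t, s, by rw [e]; module⟩) α' β' ey hα' hβ'
  · -- x = p
    have exq : x = p := by rw [ex, hα, hβ]; module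
    rcases h2 with ⟨hα', hβ'⟩ | ⟨hα', hβ'⟩ | ⟨hα', hβ'⟩
    · have eyp : y = q := by rw [ey, hα', hβ']; module
      rw [exq, eyp]
      exact hcan
    · exfalso
      apply hxy
      rw [exq, ey, hα', hβ']
      module
    · exfalso
      exact proper y x hy hx hy0 hyr (fun z hz h3 h4 ⟨s, t, e⟩ => by
        obtain ⟨s', t', g1, g2, g3⟩ := hF z hz h3 h4 ⟨t, s, by rw [e]; module⟩
        exact ⟨t', s', g2, g1, by rw [g3]; module⟩) (fun s t e => by
        obtain ⟨g1, g2⟩ := hind t s (by rw [← e]; module)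
        exact ⟨g2, g1⟩) (by
        obtain ⟨s, t, e⟩ := hp1
        exact ⟨t, s, by rw [e]; module⟩) (by
        obtain ⟨s, t, e⟩ := hq1
        exact ⟨t, s, by rw [e]; module⟩) α' β' ey hα' hβ'
  · exfalso
    exact proper x y hx hy hx0 hxr hF hind hp1 hq1 α β ex hα hβ

/-- **tightness of the balls of triangle systems**, from the statement about triangles -/
theorem tight_tri (hT : Tri Ψ B a b c) (hStar : StarS Ψ a b c)
    (hFn : ∀ x ∈ Ψ, ∀ x' ∈ Ψ, x ≠ x' → x ≠ -x' → ∃ φ : E →ₗ[ℝ] ℝ, Fn Ψ x x' φ)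
    (ha : 0 < ρ a) (hb : 0 < ρ b) (hc : 0 < ρ c) (r : ℝ) :
    Tight {u | u ∈ Ψ ∧ 0 < ρ u ∧ ρ u ≤ r} := by
  have hS := hT.sys
  have hA := hT.adm ha hb hc
  have hne : ∀ u ∈ Ψ, ρ u ≠ 0 := fun u hu => hT.rho_ne ha hb hc hu
  intro U x y hxy hx hy h0 h1 h2
  have hxK := h1.1 (mem_insert _ _)
  have hyK := h2.1 (mem_insert _ _)
  have hNice : Nice {u | u ∈ Ψ ∧ 0 < ρ u ∧ ρ u ≤ r} := by
    refine ⟨(hA.fin r).subset ?_, ⟨ρ, fun u hu => hu.2.1⟩, fun u hu v hv s e => ?_⟩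
    · rintro u ⟨hu, hu0, hur⟩
      exact ⟨hu, by rwa [abs_of_pos hu0]⟩
    · rcases hS.smul_eq' hv.1 hu.1 e with h3 | h3
      · exact h3
      · exfalso
        have := hu.2.1
        rw [h3, map_neg] at this
        linarith [hv.2.1]
  have hxy' : x ≠ -y := by
    rintro rfl
    have := hxK.2.1
    rw [map_neg] at this
    linarith [hyK.2.1]
  have hcan : Canon Ψ x y := canon_of_flat hT hA hne hxK.1 hyK.1 hxK.2.1 hyK.2.1 hxK.2.2 hyK.2.2
    hxy fun z hz hz0 hzr ⟨α, β, e⟩ => (mem_Fl_of_plane hNice hxy hx hy h1 h2 ⟨hz, hz0, hzr⟩ e).2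
  obtain ⟨φ, hφ⟩ := hFn x hxK.1 y hyK.1 hxy hxy'
  set P : E → Prop := fun u => ∃ α β : ℝ, u = α • x + β • y with hP
  have hPφ : ∀ u ∈ Ψ, (P u ↔ φ u = 0) := by
    intro u hu
    constructor
    · rintro ⟨α, β, e⟩
      rw [e, map_add, map_smul, map_smul, hφ.zx, hφ.zx']
      simp
    · exact hφ.ker u hu
  have hPF : ∀ u, u ∈ {u | u ∈ Ψ ∧ 0 < ρ u ∧ ρ u ≤ r} → P u → u ∈ Fl {u | u ∈ Ψ ∧ 0 < ρ u ∧ ρ u ≤ r} x y :=
    fun u hu ⟨α, β, e⟩ => mem_Fl_of_plane hNice hxy hx hy h1 h2 hu e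
  have hFP : ∀ u, u ∈ Fl {u | u ∈ Ψ ∧ 0 < ρ u ∧ ρ u ≤ r} x y → P u :=
    fun u ⟨_, α, β, _, _, e⟩ => ⟨α, β, e⟩
  set S := {u | (u ∈ Ψ ∧ |ρ u| ≤ r) ∧ ((0 < ρ u ∧ u ∉ U) ∨ (ρ u < 0 ∧ -u ∈ U))} with hSdef
  have hSg : Sg {u | u ∈ Ψ ∧ |ρ u| ≤ r} S := Sg.of_hs hne hT.neg h0
  have hTg : Tg {u | u ∈ Ψ ∧ |ρ u| ≤ r} S x := Tg.of_hs hne hT.neg h0 h1 hx
  have hTg' : Tg {u | u ∈ Ψ ∧ |ρ u| ≤ r} S y := Tg.of_hs hne hT.neg h0 h2 hy
  have hmS : ∀ u, u ∈ {u | u ∈ Ψ ∧ 0 < ρ u ∧ ρ u ≤ r} → (u ∈ S ↔ u ∉ U) := by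
    intro u hu
    constructor
    · rintro ⟨-, ⟨-, h3⟩ | ⟨h3, -⟩⟩
      · exact h3
      · linarith [hu.2.1]
    · intro h3
      exact ⟨⟨hu.1, by rw [abs_of_pos hu.2.1]; exact hu.2.2⟩, Or.inl ⟨hu.2.1, h3⟩⟩
  have hmS' : ∀ u, u ∈ {u | u ∈ Ψ ∧ 0 < ρ u ∧ ρ u ≤ r} → (-u ∈ S ↔ u ∈ U) := by
    intro u hu
    constructor
    · rintro ⟨-, ⟨h4, -⟩ | ⟨-, h3⟩⟩
      · rw [map_neg] at h4
        linarith [hu.2.1]
      · rwa [neg_neg] at h3
    · intro h3
      exact ⟨⟨hT.neg u hu.1, by rw [map_neg, abs_neg, abs_of_pos hu.2.1]; exact hu.2.2⟩,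
        Or.inr ⟨by rw [map_neg]; linarith [hu.2.1], by rwa [neg_neg]⟩⟩
  have hKK : ∀ u, u ∈ {u | u ∈ Ψ ∧ 0 < ρ u ∧ ρ u ≤ r} → u ∈ {u | u ∈ Ψ ∧ |ρ u| ≤ r} ∧
      -u ∈ {u | u ∈ Ψ ∧ |ρ u| ≤ r} := fun u hu =>
    ⟨⟨hu.1, by rw [abs_of_pos hu.2.1]; exact hu.2.2⟩,
      ⟨hT.neg u hu.1, by rw [map_neg, abs_neg, abs_of_pos hu.2.1]; exact hu.2.2⟩⟩
  -- statuses off the plane
  have hstat : (∃ w ∈ {u | u ∈ Ψ ∧ |ρ u| ≤ r}, Th x y w) → Eqv {u | u ∈ Ψ ∧ |ρ u| ≤ r} S φ :=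
    fun hw => eqv_main hT hStar hxK.1 hyK.1 hxy hcan hφ _ {u | u ∈ Ψ ∧ |ρ u| ≤ r} S ρ r
      (Nat.lt_succ_self _) hA (fun u => Iff.rfl) hSg hTg hTg' hxK.2.1 hyK.2.1 hw
  -- without third roots the flat is `{x, y}`
  have hsmall : (¬ ∃ w ∈ {u | u ∈ Ψ ∧ |ρ u| ≤ r}, Th x y w) →
      ∀ u ∈ {u | u ∈ Ψ ∧ 0 < ρ u ∧ ρ u ≤ r}, P u → u = x ∨ u = y := by
    rintro h3 u hu ⟨α, β, e⟩
    have hu0 := hu.2.1
    have e1 : ρ u = α * ρ x + β * ρ y := by
      rw [e, map_add, map_smul, map_smul, smul_eq_mul, smul_eq_mul]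
    have hx0 := hxK.2.1
    have hy0 := hyK.2.1
    rcases hcan u hu.1 α β e with (⟨h4, h5⟩ | ⟨h4, h5⟩ | ⟨h4, h5⟩) |
      (⟨h4, h5⟩ | ⟨h4, h5⟩ | ⟨h4, h5⟩)
    · right
      rw [e, h4, h5]
      module
    · left
      rw [e, h4, h5]
      module
    · exact absurd ⟨u, (hKK u hu).1, α, β, by linarith, by linarith, e⟩ h3
    · exfalso
      nlinarith
    · exfalso
      nlinarith
    · exfalso
      nlinarith
  refine ⟨union_subset h0.1 fun z hz => hz.1, fun u hu v hv w hw hb => ?_⟩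
  obtain ⟨s, t, hs, ht, e⟩ := hb
  have eφ : φ w = s * φ u + t * φ v := by
    rw [e, map_add, map_smul, map_smul, smul_eq_mul, smul_eq_mul]
  by_cases hpw : P w
  · have hwF := hPF w hw hpw
    have hw0 := (hPφ w hw.1).mp hpw
    refine ⟨fun _ _ => Or.inr hwF, fun _ => ?_⟩
    by_cases hpu : P u
    · exact Or.inl (Or.inr (hPF u hu hpu))
    have hu0 : φ u ≠ 0 := fun h3 => hpu ((hPφ u hu.1).mpr h3)
    by_contra hcon
    rw [not_or] at hcon
    have huU : u ∉ U := fun h3 => hcon.1 (Or.inl h3)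
    have hvU : v ∉ U := fun h3 => hcon.2 (Or.inl h3)
    by_cases hth : ∃ w ∈ {u | u ∈ Ψ ∧ |ρ u| ≤ r}, Th x y w
    · have hE := hstat hth
      rcases hu0.lt_or_gt with h3 | h3
      · have h4 : 0 < φ v := by nlinarith
        have h5 := hE (-u) (hKK u hu).2 v (hKK v hv).1 (by rw [map_neg]; linarith) h4
        rw [hmS' u hu, hmS v hv] at h5
        exact huU (h5.mpr hvU)
      · have h4 : φ v < 0 := by nlinarith
        have h5 := hE u (hKK u hu).1 (-v) (hKK v hv).2 h3 (by rw [map_neg]; linarith)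
        rw [hmS' v hv, hmS u hu] at h5
        exact hvU (h5.mp huU)
    · have hpv : ¬ P v := by
        intro h3
        have h4 := (hPφ v hv.1).mp h3
        rw [hw0, h4, mul_zero, add_zero] at eφ
        rcases mul_eq_zero.mp eφ.symm with h5 | h5
        · linarith
        · exact hu0 h5
      rcases hsmall hth w hw hpw with h3 | h3
      · rcases (h1.2 u hu v hv w hw ⟨s, t, hs, ht, e⟩).2 (by rw [h3]; exact mem_insert _ _) with
          h4 | h4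
        · rcases h4 with h4 | h4
          · exact hpu ⟨1, 0, by rw [h4]; module⟩
          · exact huU h4
        · rcases h4 with h4 | h4
          · exact hpv ⟨1, 0, by rw [h4]; module⟩
          · exact hvU h4
      · rcases (h2.2 u hu v hv w hw ⟨s, t, hs, ht, e⟩).2 (by rw [h3]; exact mem_insert _ _) with
          h4 | h4
        · rcases h4 with h4 | h4
          · exact hpu ⟨0, 1, by rw [h4]; module⟩
          · exact huU h4
        · rcases h4 with h4 | h4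
          · exact hpv ⟨0, 1, by rw [h4]; module⟩
          · exact hvU h4
  · -- `w` is off the plane
    have hw0 : φ w ≠ 0 := fun h3 => hpw ((hPφ w hw.1).mpr h3)
    have hwF : w ∉ Fl {u | u ∈ Ψ ∧ 0 < ρ u ∧ ρ u ≤ r} x y := fun h3 => hpw (hFP w h3)
    -- the case `u` in the plane
    have main : ∀ u ∈ {u | u ∈ Ψ ∧ 0 < ρ u ∧ ρ u ≤ r}, ∀ v ∈ {u | u ∈ Ψ ∧ 0 < ρ u ∧ ρ u ≤ r},
        ∀ s t : ℝ, 0 < s → 0 < t → w = s • u + t • v → P u → v ∈ U → w ∈ U := by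
      intro u hu v hv s t hs ht e hpu hvU
      have hu0 := (hPφ u hu.1).mp hpu
      have eφ : φ w = s * φ u + t * φ v := by
        rw [e, map_add, map_smul, map_smul, smul_eq_mul, smul_eq_mul]
      rw [hu0, mul_zero, zero_add] at eφ
      by_contra hwU
      by_cases hth : ∃ w ∈ {u | u ∈ Ψ ∧ |ρ u| ≤ r}, Th x y w
      · have hE := hstat hth
        rcases hw0.lt_or_gt with h3 | h3
        · have h4 : φ v < 0 := by
            by_contra hcon
            have := mul_nonneg ht.le (not_lt.mp hcon)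
            linarith
          have h5 := hE (-w) (hKK w hw).2 (-v) (hKK v hv).2 (by rw [map_neg]; linarith)
            (by rw [map_neg]; linarith)
          rw [hmS' w hw, hmS' v hv] at h5
          exact hwU (h5.mpr hvU)
        · have h4 : 0 < φ v := by
            by_contra hcon
            have := mul_nonneg ht.le (by linarith : 0 ≤ -φ v)
            linarith
          have h5 := hE w (hKK w hw).1 v (hKK v hv).1 h3 h4
          rw [hmS w hw, hmS v hv] at h5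
          exact (h5.mp hwU) hvU
      · rcases hsmall hth u hu hpu with h3 | h3
        · rcases (h1.2 u hu v hv w hw ⟨s, t, hs, ht, e⟩).1 (by rw [h3]; exact mem_insert _ _)
            (mem_insert_of_mem _ hvU) with h4 | h4
          · exact hpw ⟨1, 0, by rw [h4]; module⟩
          · exact hwU h4
        · rcases (h2.2 u hu v hv w hw ⟨s, t, hs, ht, e⟩).1 (by rw [h3]; exact mem_insert _ _)
            (mem_insert_of_mem _ hvU) with h4 | h4
          · exact hpw ⟨0, 1, by rw [h4]; module⟩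
          · exact hwU h4
    refine ⟨fun h3 h4 => ?_, fun h3 => ?_⟩
    · rcases h3 with h3 | h3
      · rcases h4 with h4 | h4
        · exact Or.inl ((h0.2 u hu v hv w hw ⟨s, t, hs, ht, e⟩).1 h3 h4)
        · exact Or.inl (main v hv u hu t s ht hs (by rw [e, add_comm]) (hFP v h4) h3)
      · rcases h4 with h4 | h4
        · exact Or.inl (main u hu v hv s t hs ht e (hFP u h3) h4)
        · exfalso
          apply hw0
          rw [eφ, (hPφ u hu.1).mp (hFP u h3), (hPφ v hv.1).mp (hFP v h4)]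
          simp
    · rcases h3 with h3 | h3
      · rcases (h0.2 u hu v hv w hw ⟨s, t, hs, ht, e⟩).2 h3 with h4 | h4
        · exact Or.inl (Or.inl h4)
        · exact Or.inr (Or.inl h4)
      · exact absurd h3 hwF

end

end DY
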