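import Pool.Agent.Helper70.DY.G1
import Pool.Agent.Helper21.DY.H
import Pool.Agent.Helper69.DY.C

/-!
# Canonical pairs in explicit coordinates (MP_d13a5e_al)
-/

namespace DY

open Set

variable {E : Type*} [AddCommGroup E] [Module ℝ E]
variable {Ψ K S : Set E} {B : E →ₗ[ℝ] E →ₗ[ℝ] ℝ} {ρ : E →ₗ[ℝ] ℝ}

theorem mem_span_iff' {u v w : E} :
    w ∈ Submodule.span ℝ {u, v} ↔ ∃ α β : ℝ, w = α • u + β • v := by
  rw [Submodule.mem_span_pair]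
  constructor
  · rintro ⟨α, β, h⟩
    exact ⟨α, β, h.symm⟩
  · rintro ⟨α, β, h⟩
    exact ⟨α, β, h.symm⟩

theorem Cn.canon_pair (hS : Sys Ψ B) (hC : Cn Ψ B ρ) {u v : E} (hu : u ∈ Ψ) (hv : v ∈ Ψ)
    (huv : ∀ c : ℝ, v ≠ c • u)
    (hne : ∀ w ∈ Ψ, (∃ α β : ℝ, w = α • u + β • v) → ρ w ≠ 0) :
    ∃ x ∈ Ψ, ∃ y ∈ Ψ, x ≠ y ∧ (∃ α β : ℝ, x = α • u + β • v) ∧ (∃ α β : ℝ, y = α • u + β • v) ∧
      0 < ρ x ∧ 0 < ρ y ∧ Canon Ψ x y ∧ ∀ w ∈ Ψ, (∃ α β : ℝ, w = α • u + β • v) → 0 < ρ w →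
      ∃ α β : ℝ, w = α • x + β • y ∧ (α = 0 ∧ β = 1 ∨ α = 1 ∧ β = 0 ∨ 1 ≤ α ∧ 1 ≤ β) := by
  obtain ⟨x, hx, y, hy, h1, -, h3, h4, h5, h6, -, h8, h9⟩ := hS.exists_canon hC hu hv
    (fun h => huv 1 (by rw [h, one_smul])) (fun h => huv (-1) (by rw [h]; module))
    (fun w hw hw' => hne w hw (mem_span_iff'.mp hw'))
  exact ⟨x, hx, y, hy, h1, mem_span_iff'.mp h3, mem_span_iff'.mp h4, h5, h5.trans_le h6, h9,
    fun w hw hw' h0 => h8 w hw (mem_span_iff'.mpr hw') h0⟩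

theorem Cn.row (hS : Sys Ψ B) (hC : Cn Ψ B ρ) {x u : E} (hx : x ∈ Ψ) (hx0 : ρ x = 0)
    (hu : u ∈ Ψ) (hu0 : 0 < ρ u)
    (hne : ∀ w ∈ Ψ, (∃ α β : ℝ, w = α • x + β • u) → ρ w = 0 → w = x ∨ w = -x) :
    ∃ κ ∈ Ψ, 0 < ρ κ ∧ Canon Ψ x κ ∧ ∃ α β : ℝ, u = α • x + β • κ ∧ 1 ≤ β := by
  obtain ⟨κ, h1, h2, h3, -, h5, h6⟩ := hS.exists_canon_wall hC hx hu
    (by rintro rfl; rw [hx0] at hu0; exact lt_irrefl _ hu0)
    (by rintro rfl; rw [map_neg, hx0, neg_zero] at hu0; exact lt_irrefl _ hu0) hx0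
    (fun w hw hw' => hne w hw (mem_span_iff'.mp hw'))
  obtain ⟨α, β, e⟩ := mem_span_iff'.mp h2
  have h7 : ρ κ = β * ρ u := by
    rw [e, map_add, map_smul, map_smul, hx0]
    simp
  have hβ : 0 < β := by
    by_contra hh
    have := mul_nonpos_of_nonpos_of_nonneg (not_lt.mp hh) hu0.le
    linarith
  have h8 := h5 u hu (mem_span_iff'.mpr ⟨0, 1, by module⟩) hu0
  have hβ1 : β ≤ 1 := by
    by_contra hh
    nlinarith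
  refine ⟨κ, h1, h3, h6, -α / β, 1 / β, ?_, ?_⟩
  · rw [e]
    match_scalars <;> field_simp <;> ring
  · rw [le_div_iff₀ hβ]
    linarith

end DY
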