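import Pool.Agent.Helper70.DY.G1b

/-!
# Rows through a root `x` on which the centre lies (MP_d13a5e_al)
-/

namespace DY

open Set

variable {E : Type*} [AddCommGroup E] [Module ℝ E]
variable {Ψ K S : Set E} {B : E →ₗ[ℝ] E →ₗ[ℝ] ℝ} {ρ : E →ₗ[ℝ] ℝ} {a b c : E}

/-- canonical elements of the rows through `x` -/
def Kc (Ψ : Set E) (ρ : E →ₗ[ℝ] ℝ) (x κ : E) : Prop := κ ∈ Ψ ∧ 0 < ρ κ ∧ Canon Ψ x κ

theorem Canon.symm {x y : E} (h : Canon Ψ x y) : Canon Ψ y x := by
  intro u hu α β e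
  rcases h u hu β α (by rw [e]; module) with h1 | h1
  · left
    tauto
  · right
    tauto

theorem Kc.eq {x i k : E} (hx0 : ρ x = 0) (hi : Kc Ψ ρ x i) (hk : Kc Ψ ρ x k) {α β : ℝ}
    (e : k = α • x + β • i) : k = i := by
  obtain ⟨hi1, hi2, hi3⟩ := hi
  obtain ⟨hk1, hk2, hk3⟩ := hk
  have h1 : ρ k = β * ρ i := by
    rw [e, map_add, map_smul, map_smul, hx0]
    simp
  have hβ : 0 < β := by
    by_contra hh
    have := mul_nonpos_of_nonpos_of_nonneg (not_lt.mp hh) hi2.le
    linarith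
  rcases hi3 k hk1 α β e with (⟨h2, h3⟩ | ⟨h2, h3⟩ | ⟨h2, h3⟩) | (⟨h2, h3⟩ | ⟨h2, h3⟩ | ⟨h2, h3⟩)
  · rw [e, h2, h3]
    module
  · linarith
  · exfalso
    have e' : i = (-α / β) • x + (1 / β) • k := by
      rw [e, smul_add, smul_smul, smul_smul, ← add_assoc, ← add_smul]
      have e1 : -α / β + 1 / β * α = 0 := by field_simp; ring
      have e2 : 1 / β * β = 1 := by field_simp
      rw [e1, e2]
      module
    have h4 : -α / β < 0 := div_neg_of_neg_of_pos (by linarith) hβ
    have h5 : 0 < 1 / β := by positivity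
    rcases hk3 i hi1 _ _ e' with (⟨h6, h7⟩ | ⟨h6, h7⟩ | ⟨h6, h7⟩) |
      (⟨h6, h7⟩ | ⟨h6, h7⟩ | ⟨h6, h7⟩) <;> linarith
  · linarith
  · linarith
  · linarith

theorem Sys.ne_zero (hS : Sys Ψ B) {u : E} (hu : u ∈ Ψ) : u ≠ 0 := by
  rintro rfl
  have := hS.one _ hu
  rw [map_zero] at this
  norm_num at this

theorem Kc.indep (hS : Sys Ψ B) {x i t : E} (hx : x ∈ Ψ) (hx0 : ρ x = 0) (hi : Kc Ψ ρ x i)
    (ht : Kc Ψ ρ x t) (hit : i ≠ t) :
    ∀ α β γ : ℝ, α • x + β • i + γ • t = 0 → α = 0 ∧ β = 0 ∧ γ = 0 := by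
  intro α β γ h
  have hγ : γ = 0 := by
    by_contra hγ
    apply hit
    refine (Kc.eq hx0 hi ht (α := -α / γ) (β := -β / γ) ?_).symm
    have h1 : γ • t = (-α) • x + (-β) • i := by
      have : γ • t = -(α • x + β • i) := by
        rw [eq_neg_iff_add_eq_zero, add_comm]
        exact h
      rw [this]
      module
    have h2 : t = (1 / γ) • (γ • t) := by
      rw [smul_smul, one_div, inv_mul_cancel₀ hγ, one_smul]
    rw [h2, h1, smul_add, smul_smul, smul_smul]
    congr 2 <;> ring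
  have hβ : β = 0 := by
    have h1 := congrArg ρ h
    rw [hγ, zero_smul, add_zero, map_add, map_smul, map_smul, hx0, map_zero, smul_zero, zero_add,
      smul_eq_mul] at h1
    rcases mul_eq_zero.mp h1 with h2 | h2
    · exact h2
    · have := hi.2.1
      linarith
  rw [hγ, hβ, zero_smul, zero_smul, add_zero, add_zero] at h
  rcases smul_eq_zero.mp h with h1 | h1
  · exact ⟨h1, hβ, hγ⟩
  · exact absurd h1 (hS.ne_zero hx)

/-- a newborn row is not canonical to its neighbour -/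
theorem ray_noncanon (hS : Sys Ψ B) (hStar : StarS Ψ a b c) (hA : Adm Ψ a b c ρ) {x i t k : E}
    (hx : x ∈ Ψ) (hx0 : ρ x = 0) (hi : Kc Ψ ρ x i) (ht : Kc Ψ ρ x t) (hk : Kc Ψ ρ x k)
    (hit : ρ i < ρ t) (hkt : ρ k ≤ ρ t) (hki : k ≠ i) (hkt' : k ≠ t)
    (hbet : ∀ g ∈ Ψ, ∀ α β γ : ℝ, 0 < β → 0 < γ → g = α • x + β • i + γ • t → ρ t < ρ g) :
    ¬ Canon Ψ i t := by
  intro hc
  have hit' : i ≠ t := by
    rintro rfl
    exact lt_irrefl _ hit
  have hind := Kc.indep hS hx hx0 hi ht hit'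
  obtain ⟨g, hg, h, hh, hgt, hht, hρg, hρh, ⟨p, q, hp, hq, e⟩, ⟨α1, β1, γ1, hγ1, e1⟩,
    ⟨α2, β2, γ2, hγ2, e2⟩⟩ := hStar ρ hA x hx i hi.1 t ht.1 hind hi.2.2 ht.2.2 hc hx0.ge hi.2.1.le
    (by rw [hx0, zero_add]; exact hi.2.1) ht.2.1 (by rw [hx0, zero_add]; exact hit.le) k hk.1 (by rw [abs_of_pos hk.2.1]; exact hkt)
    (fun α β e => hki (Kc.eq hx0 hi hk e)) (fun α β e => hkt' (Kc.eq hx0 ht hk e))
    (by
      intro α β e
      have h1 : ρ k = α * ρ i + β * ρ t := by
        rw [e, map_add, map_smul, map_smul, smul_eq_mul, smul_eq_mul]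
      have hi2 := hi.2.1
      have ht2 := ht.2.1
      have hk2 := hk.2.1
      rcases hc k hk.1 α β e with (⟨h2, h3⟩ | ⟨h2, h3⟩ | ⟨h2, h3⟩) |
        (⟨h2, h3⟩ | ⟨h2, h3⟩ | ⟨h2, h3⟩)
      · apply hkt'
        rw [e, h2, h3]
        module
      · apply hki
        rw [e, h2, h3]
        module
      · nlinarith
      · have h4 : β = -1 := by linarith
        have h5 : α = 0 := by linarith
        rw [h4, h5] at h1
        linarith
      · have h4 : β = 0 := by linarith
        have h5 : α = -1 := by linarith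
        rw [h4, h5] at h1
        linarith
      · nlinarith)
  have e3 : (p * α1 + q * α2) • x + (p * β1 + q * β2) • i + (p * γ1 + q * γ2 - 1) • t = 0 := by
    have : t = p • (α1 • x + β1 • i + γ1 • t) + q • (α2 • x + β2 • i + γ2 • t) := by
      rw [← e1, ← e2]
      exact e
    have h5 : p • (α1 • x + β1 • i + γ1 • t) + q • (α2 • x + β2 • i + γ2 • t) - t = 0 := by
      rw [sub_eq_zero]
      exact this.symm
    rw [← h5]
    module
  obtain ⟨e4, e5, e6⟩ := hind _ _ _ e3
  rcases lt_trichotomy β1 0 with h1 | h1 | h1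
  · have h2 : 0 < β2 := by
      by_contra hcon
      have h3 := mul_nonpos_of_nonneg_of_nonpos hq.le (not_lt.mp hcon)
      have h4 := mul_neg_of_pos_of_neg hp h1
      linarith
    have h3 := hbet h hh α2 β2 γ2 h2 hγ2 e2
    have := le_abs_self (ρ h)
    linarith
  · have h2 : β2 = 0 := by
      rw [h1, mul_zero, zero_add] at e5
      rcases mul_eq_zero.mp e5 with h3 | h3
      · linarith
      · exact h3
    -- both in the row of `t`
    have key : ∀ g ∈ Ψ, g ≠ t → |ρ g| ≤ ρ t → ∀ α γ : ℝ, 0 < γ → g = α • x + γ • t → 1 ≤ α := by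
      intro g hg hgt hρg α γ hγ e
      have h3 : ρ g = γ * ρ t := by
        rw [e, map_add, map_smul, map_smul, hx0]
        simp
      rcases ht.2.2 g hg α γ e with (⟨h4, h5⟩ | ⟨h4, h5⟩ | ⟨h4, h5⟩) |
        (⟨h4, h5⟩ | ⟨h4, h5⟩ | ⟨h4, h5⟩)
      · exact absurd (by rw [e, h4, h5]; module) hgt
      · linarith
      · exact h4
      · linarith
      · linarith
      · linarith
    have h3 := key g hg hgt hρg α1 γ1 hγ1 (by rw [e1, h1]; module)
    have h4 := key h hh hht hρh α2 γ2 hγ2 (by rw [e2, h2]; module)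
    have h5 := mul_pos hp (by linarith : (0 : ℝ) < α1)
    have h6 := mul_pos hq (by linarith : (0 : ℝ) < α2)
    linarith
  · have h3 := hbet g hg α1 β1 γ1 h1 hγ1 e1
    have := le_abs_self (ρ g)
    linarith

/-- the constraint given by the neighbour row -/
theorem ray (hS : Sys Ψ B) (hC : Cn Ψ B ρ) {x i t : E} (hx : x ∈ Ψ) (hx0 : ρ x = 0)
    (hgen : ∀ u ∈ Ψ, ρ u = 0 → u = x ∨ u = -x) (hi : Kc Ψ ρ x i) (ht : Kc Ψ ρ x t)
    (hit : ρ i < ρ t) (hnc : ¬ Canon Ψ i t) :
    ∃ q ∈ Ψ, 0 < ρ q ∧ ρ q < ρ t ∧ Btw i t q := by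
  have hit' : i ≠ t := by
    rintro rfl
    exact lt_irrefl _ hit
  have hind := Kc.indep hS hx hx0 hi ht hit'
  have hi2 := hi.2.1
  have ht2 := ht.2.1
  obtain ⟨p, hp, p', hp', hpp, -, -, hρp, hρp', hcan, hall⟩ := hC.canon_pair hS hi.1 ht.1
    (fun s e => by
      have := (hind 0 s (-1) (by rw [e]; module)).2.2
      norm_num at this)
    (fun w hw ⟨α, β, e⟩ h0 => by
      rcases hgen w hw h0 with h1 | h1
      · have := (hind (-1) α β (by
          rw [add_assoc, ← e, h1]; module)).1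
        norm_num at this
      · have := (hind 1 α β (by
          rw [add_assoc, ← e, h1]; module)).1
        norm_num at this)
  obtain ⟨α, β, e1, h1⟩ := hall t ht.1 ⟨0, 1, by module⟩ ht2
  obtain ⟨α', β', e2, h2⟩ := hall i hi.1 ⟨1, 0, by module⟩ hi2
  have hρt : ρ t = α * ρ p + β * ρ p' := by
    rw [e1, map_add, map_smul, map_smul, smul_eq_mul, smul_eq_mul]
  have hρi : ρ i = α' * ρ p + β' * ρ p' := by
    rw [e2, map_add, map_smul, map_smul, smul_eq_mul, smul_eq_mul]
  rcases h1 with ⟨h3, h4⟩ | ⟨h3, h4⟩ | ⟨h3, h4⟩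
  · exfalso
    have et : t = p' := by rw [e1, h3, h4]; module
    rcases h2 with ⟨h5, h6⟩ | ⟨h5, h6⟩ | ⟨h5, h6⟩
    · apply hit'
      rw [e2, h5, h6, et]
      module
    · apply hnc
      have ei : i = p := by rw [e2, h5, h6]; module
      rw [ei, et]
      exact hcan
    · rw [← et] at hρi
      nlinarith
  · exfalso
    have et : t = p := by rw [e1, h3, h4]; module
    rcases h2 with ⟨h5, h6⟩ | ⟨h5, h6⟩ | ⟨h5, h6⟩
    · apply hnc
      have ei : i = p' := by rw [e2, h5, h6]; module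
      rw [ei, et]
      exact hcan.symm
    · apply hit'
      rw [e2, h5, h6, et]
      module
    · rw [← et] at hρi
      nlinarith
  · have h7 : ρ p < ρ t := by nlinarith
    have h8 : ρ p' < ρ t := by nlinarith
    rcases h2 with ⟨h5, h6⟩ | ⟨h5, h6⟩ | ⟨h5, h6⟩
    · have ei : i = p' := by rw [e2, h5, h6]; module
      refine ⟨p, hp, hρp, h7, β, α, by linarith, by linarith, ?_⟩
      rw [e1, ei]
      module
    · have ei : i = p := by rw [e2, h5, h6]; module
      refine ⟨p', hp', hρp', h8, α, β, by linarith, by linarith, ?_⟩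
      rw [e1, ei]
    · have hα' : 0 < α' := by linarith
      have hβ' : 0 < β' := by linarith
      rcases lt_trichotomy (β * α') (α * β') with h9 | h9 | h9
      · refine ⟨p, hp, hρp, h7, β / β', (α * β' - β * α') / β', div_pos (by linarith) hβ',
          div_pos (by linarith) hβ', ?_⟩
        rw [e1, e2]
        match_scalars <;> field_simp
        ring
      · exfalso
        have e3 : t = (α / α') • i := by
          rw [e1, e2]
          match_scalars
          · field_simp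
          · field_simp
            linarith
        rcases hS.smul_eq' hi.1 ht.1 e3 with h10 | h10
        · exact hit' h10.symm
        · rw [h10, map_neg] at ht2
          linarith
      · refine ⟨p', hp', hρp', h8, α / α', (β * α' - α * β') / α', div_pos (by linarith) hα',
          div_pos (by linarith) hα', ?_⟩
        rw [e1, e2]
        match_scalars <;> field_simp
        ring

end DY
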