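import Pool.Agent.Helper70.DY.G2

/-!
# Sections which can be toggled at a root on which the centre lies are real (MP_d13a5e_al)
-/

namespace DY

open Set

variable {E : Type*} [AddCommGroup E] [Module ℝ E]

/-- everything needed for the rows through `x` -/
structure RW (Ψ K S : Set E) (B : E →ₗ[ℝ] E →ₗ[ℝ] ℝ) (ρ τ : E →ₗ[ℝ] ℝ) (a b c x : E) (R : ℝ) :
    Prop where
  sys : Sys Ψ B
  star : StarS Ψ a b c
  adm : Adm Ψ a b c ρ
  cn : Cn Ψ B ρ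
  hx : x ∈ Ψ
  hx0 : ρ x = 0
  gen : ∀ u ∈ Ψ, ρ u = 0 → u = x ∨ u = -x
  inj : ∀ u ∈ Ψ, ∀ v ∈ Ψ, |ρ u| ≤ R → 0 < ρ u → ρ u = ρ v → ∃ l : ℝ, v = u + l • x
  tx : τ x = 0
  tau : ∀ u ∈ Ψ, ∀ v ∈ Ψ, 0 < ρ u → 0 < ρ v → τ u * ρ v = τ v * ρ u →
    ∃ l m : ℝ, v = l • x + m • u
  ball : ∀ u, u ∈ K ↔ u ∈ Ψ ∧ |ρ u| ≤ R
  sg : Sg K S
  tg : Tg K S x

private theorem taut70a {a b c d e : Prop} (h4 : ¬ (a ↔ d)) (h5 : ¬ (b ↔ c)) (el : a ↔ e) (er : b ↔ e)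
    (h8 : (c ↔ d) → (a ↔ c)) : False := by
  tauto

private theorem taut70b {o a b c : Prop} (h : (o ↔ c) → (b ↔ o)) (hst : a ↔ c) (hcon : ¬ (b ↔ a)) : o ↔ b := by
  tauto

private theorem taut70c {o a b : Prop} (h : (a ↔ o) → (b ↔ a)) (hcon : ¬ (b ↔ a)) : o ↔ b := by
  tauto

namespace RW

variable {Ψ K S : Set E} {B : E →ₗ[ℝ] E →ₗ[ℝ] ℝ} {ρ τ : E →ₗ[ℝ] ℝ} {a b c x : E} {R : ℝ}
  (h : RW Ψ K S B ρ τ a b c x R)

include h

theorem symK : ∀ u ∈ K, -u ∈ K := by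
  intro u hu
  rw [h.ball] at hu ⊢
  exact ⟨h.sys.neg u hu.1, by rw [map_neg, abs_neg]; exact hu.2⟩

theorem memK {u : E} (hu : u ∈ Ψ) (h0 : 0 < ρ u) (h1 : ρ u ≤ R) : u ∈ K :=
  (h.ball u).mpr ⟨hu, by rwa [abs_of_pos h0]⟩

theorem kc_inj {u v : E} (hu : Kc Ψ ρ x u) (hv : Kc Ψ ρ x v) (h1 : ρ u ≤ R) (h2 : ρ u = ρ v) :
    v = u := by
  obtain ⟨l, hl⟩ := h.inj u hu.1 v hv.1 (by rwa [abs_of_pos hu.2.1]) hu.2.1 h2
  exact Kc.eq h.hx0 hu hv (α := l) (β := 1) (by rw [hl]; module)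

/-- the canonical element of a row -/
theorem row {u : E} (hu : u ∈ Ψ) (hu0 : 0 < ρ u) :
    ∃ κ, Kc Ψ ρ x κ ∧ ∃ α β : ℝ, u = α • x + β • κ ∧ 1 ≤ β := by
  obtain ⟨κ, h1, h2, h3, h4⟩ := h.cn.row h.sys h.hx h.hx0 hu hu0 (fun w hw _ h0 => h.gen w hw h0)
  exact ⟨κ, ⟨h1, h2, h3⟩, h4⟩

theorem ne_x {u : E} (h0 : 0 < ρ u) : u ≠ x ∧ u ≠ -x := by
  constructor
  · rintro rfl
    rw [h.hx0] at h0
    exact lt_irrefl _ h0
  · rintro rfl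
    rw [map_neg, h.hx0, neg_zero] at h0
    exact lt_irrefl _ h0

theorem side {i t k : E} (hi : Kc Ψ ρ x i) (ht : Kc Ψ ρ x t) (htR : ρ t ≤ R) (hit : ρ i < ρ t)
    (hk : Kc Ψ ρ x k) (hkt : ρ k < ρ t) (hki : k ≠ i)
    (hadj : ∀ o, Kc Ψ ρ x o → ρ o < ρ t → ¬ (0 < (τ t * ρ i - τ i * ρ t) * (τ o * ρ i - τ i * ρ o) ∧
      0 < (τ t * ρ i - τ i * ρ t) * (τ t * ρ o - τ o * ρ t))) :
    ∃ g, Kc Ψ ρ x g ∧ ρ g < ρ t ∧ 0 < (τ t * ρ i - τ i * ρ t) * (τ g * ρ t - τ t * ρ g) ∧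
      ((i ∈ S ↔ g ∈ S) → (t ∈ S ↔ i ∈ S)) := by
  have hi2 := hi.2.1
  have ht2 := ht.2.1
  have hit' : i ≠ t := by
    rintro rfl
    exact lt_irrefl _ hit
  have hind := Kc.indep h.sys h.hx h.hx0 hi ht hit'
  have hD : τ t * ρ i - τ i * ρ t ≠ 0 := by
    intro h0
    obtain ⟨l, m, e⟩ := h.tau i hi.1 t ht.1 hi2 ht2 (by linarith only [h0])
    exact hit' (Kc.eq h.hx0 hi ht e).symm
  have hbet : ∀ g ∈ Ψ, ∀ α β γ : ℝ, 0 < β → 0 < γ → g = α • x + β • i + γ • t → ρ t < ρ g := by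
    intro g hg α β γ hβ hγ e
    by_contra hcon
    rw [not_lt] at hcon
    have hρg : ρ g = β * ρ i + γ * ρ t := by
      rw [e, map_add, map_add, map_smul, map_smul, map_smul, h.hx0]
      simp
    have hτg : τ g = β * τ i + γ * τ t := by
      rw [e, map_add, map_add, map_smul, map_smul, map_smul, h.tx]
      simp
    have hg0 : 0 < ρ g := by
      rw [hρg]
      positivity
    obtain ⟨κ, hκ, α', β', e', hβ'⟩ := h.row hg hg0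
    have hρg' : ρ g = β' * ρ κ := by
      rw [e', map_add, map_smul, map_smul, h.hx0]
      simp
    have hτg' : τ g = β' * τ κ := by
      rw [e', map_add, map_smul, map_smul, h.tx]
      simp
    have hκ2 := hκ.2.1
    have h1 : ρ κ ≤ ρ g := by
      rw [hρg']
      nlinarith only [hβ', hκ2]
    have h2 : κ ≠ t := by
      rintro rfl
      have := (hind (α - α') β (γ - β') (by
        have : (α - α') • x + β • i + (γ - β') • κ = (α • x + β • i + γ • κ) -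
          (α' • x + β' • κ) := by module
        rw [this, ← e, ← e', sub_self])).2.1
      linarith only [hβ, this]
    have h3 : ρ κ < ρ t := by
      refine lt_of_le_of_ne (h1.trans hcon) fun h4 => ?_
      exact h2 (h.kc_inj ht hκ htR h4.symm)
    refine hadj κ hκ h3 ?_
    have e1 : β' * (τ κ * ρ i - τ i * ρ κ) = γ * (τ t * ρ i - τ i * ρ t) := by
      have : β' * (τ κ * ρ i - τ i * ρ κ) = τ g * ρ i - τ i * ρ g := by rw [hτg', hρg']; ring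
      rw [this, hτg, hρg]
      ring
    have e2 : β' * (τ t * ρ κ - τ κ * ρ t) = β * (τ t * ρ i - τ i * ρ t) := by
      have : β' * (τ t * ρ κ - τ κ * ρ t) = τ t * ρ g - τ g * ρ t := by rw [hτg', hρg']; ring
      rw [this, hτg, hρg]
      ring
    have hβ0 : 0 < β' := by linarith only [hβ']
    have hsq : 0 < (τ t * ρ i - τ i * ρ t) ^ 2 := by positivity
    constructor
    · have : β' * ((τ t * ρ i - τ i * ρ t) * (τ κ * ρ i - τ i * ρ κ)) =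
          γ * (τ t * ρ i - τ i * ρ t) ^ 2 := by
        calc _ = (τ t * ρ i - τ i * ρ t) * (β' * (τ κ * ρ i - τ i * ρ κ)) := by ring
          _ = _ := by rw [e1]; ring
      have h5 : 0 < β' * ((τ t * ρ i - τ i * ρ t) * (τ κ * ρ i - τ i * ρ κ)) := by
        rw [this]
        positivity
      exact pos_of_mul_pos_right h5 hβ0.le
    · have : β' * ((τ t * ρ i - τ i * ρ t) * (τ t * ρ κ - τ κ * ρ t)) =
          β * (τ t * ρ i - τ i * ρ t) ^ 2 := by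
        calc _ = (τ t * ρ i - τ i * ρ t) * (β' * (τ t * ρ κ - τ κ * ρ t)) := by ring
          _ = _ := by rw [e2]; ring
      have h5 : 0 < β' * ((τ t * ρ i - τ i * ρ t) * (τ t * ρ κ - τ κ * ρ t)) := by
        rw [this]
        positivity
      exact pos_of_mul_pos_right h5 hβ0.le
  have hkt' : k ≠ t := by
    rintro rfl
    exact lt_irrefl _ hkt
  have hnc := ray_noncanon h.sys h.star h.adm h.hx h.hx0 hi ht hk hit hkt.le hki hkt' hbet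
  obtain ⟨q, hq, hq0, hqt, X, Y, hX, hY, e⟩ := ray h.sys h.cn h.hx h.hx0 h.gen hi ht hit hnc
  obtain ⟨κ, hκ, α', β', e', hβ'⟩ := h.row hq hq0
  have hβ0 : 0 < β' := by linarith only [hβ']
  have hκ2 := hκ.2.1
  have hρq : ρ q = β' * ρ κ := by
    rw [e', map_add, map_smul, map_smul, h.hx0]
    simp
  have hτq : τ q = β' * τ κ := by
    rw [e', map_add, map_smul, map_smul, h.tx]
    simp
  have h1 : ρ κ ≤ ρ q := by
    rw [hρq]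
    nlinarith only [hβ', hκ2]
  have hρt : ρ t = X * ρ i + Y * ρ q := by
    rw [e, map_add, map_smul, map_smul, smul_eq_mul, smul_eq_mul]
  have hτt : τ t = X * τ i + Y * τ q := by
    rw [e, map_add, map_smul, map_smul, smul_eq_mul, smul_eq_mul]
  refine ⟨κ, hκ, h1.trans_lt hqt, ?_, ?_⟩
  · have e1 : τ t * ρ i - τ i * ρ t = Y * (τ q * ρ i - τ i * ρ q) := by
      rw [hρt, hτt]
      ring
    have e2 : β' * (τ κ * ρ t - τ t * ρ κ) = X * (τ q * ρ i - τ i * ρ q) := by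
      have : β' * (τ κ * ρ t - τ t * ρ κ) = τ q * ρ t - τ t * ρ q := by rw [hτq, hρq]; ring
      rw [this, hρt, hτt]
      ring
    have h3 : τ q * ρ i - τ i * ρ q ≠ 0 := by
      intro h4
      rw [h4, mul_zero] at e1
      exact hD e1
    have h4 : 0 < (τ q * ρ i - τ i * ρ q) ^ 2 := by positivity
    have h5 : β' * ((τ t * ρ i - τ i * ρ t) * (τ κ * ρ t - τ t * ρ κ)) =
        X * Y * (τ q * ρ i - τ i * ρ q) ^ 2 := by
      calc _ = (τ t * ρ i - τ i * ρ t) * (β' * (τ κ * ρ t - τ t * ρ κ)) := by ring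
        _ = _ := by rw [e1, e2]; ring
    have h6 : 0 < β' * ((τ t * ρ i - τ i * ρ t) * (τ κ * ρ t - τ t * ρ κ)) := by
      rw [h5]
      positivity
    exact pos_of_mul_pos_right h6 hβ0.le
  · have hiK := h.memK hi.1 hi2 (hit.le.trans htR)
    have htK := h.memK ht.1 ht2 htR
    have hqK := h.memK hq hq0 (hqt.le.trans htR)
    have hκK := h.memK hκ.1 hκ2 ((h1.trans hqt.le).trans htR)
    have hΨ : K ⊆ Ψ := fun u hu => ((h.ball u).mp hu).1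
    have htog : κ ∈ S ↔ q ∈ S := h.sg.toggle h.sys hΨ h.tg hκK hqK (h.ne_x hκ2).1 (h.ne_x hκ2).2
      (h.ne_x hq0).1 (h.ne_x hq0).2 hβ0 (by rw [e']; module)
    intro h2
    by_cases h3 : i ∈ S
    · have h4 : q ∈ S := htog.mp (h2.mp h3)
      exact ⟨fun _ => h3, fun _ => h.sg.cl i h3 q h4 t htK ⟨X, Y, hX, hY, e⟩⟩
    · have h4 : q ∉ S := fun h5 => h3 (h2.mpr (htog.mpr h5))
      have h5 := h.sg.cl' h.symK hiK hqK htK h3 h4 ⟨X, Y, hX, hY, e⟩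
      exact ⟨fun h6 => absurd h6 h5, fun h6 => absurd h6 h3⟩

theorem det_trans {u v w : E} (hu : 0 < ρ u) (hv : 0 < ρ v) (hw : 0 < ρ w)
    (h1 : 0 < τ v * ρ u - τ u * ρ v) (h2 : 0 < τ w * ρ v - τ v * ρ w) :
    0 < τ w * ρ u - τ u * ρ w := by
  have e : ρ v * (τ w * ρ u - τ u * ρ w) =
      ρ w * (τ v * ρ u - τ u * ρ v) + ρ u * (τ w * ρ v - τ v * ρ w) := by ring
  have h3 : 0 < ρ v * (τ w * ρ u - τ u * ρ w) := by
    rw [e]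
    positivity
  exact pos_of_mul_pos_right h3 hv.le

theorem tri {u v : E} (hu : Kc Ψ ρ x u) (hv : Kc Ψ ρ x v) (huv : u ≠ v) :
    0 < τ v * ρ u - τ u * ρ v ∨ 0 < τ u * ρ v - τ v * ρ u := by
  rcases lt_trichotomy (τ v * ρ u - τ u * ρ v) 0 with h1 | h1 | h1
  · right
    linarith only [h1]
  · exfalso
    obtain ⟨l, m, e⟩ := h.tau u hu.1 v hv.1 hu.2.1 hv.2.1 (by linarith only [h1])
    exact huv (Kc.eq h.hx0 hu hv e).symm
  · exact Or.inl h1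

theorem fin_kc (M : ℝ) : {κ | Kc Ψ ρ x κ ∧ ρ κ < M}.Finite :=
  (h.cn.fin M).subset fun κ hκ => ⟨hκ.1.1, by rw [abs_of_pos hκ.1.2.1]; exact hκ.2.le⟩

/-- the neighbours of a newborn row -/
theorem newborn {t o1 o2 : E} (ht : Kc Ψ ρ x t) (htR : ρ t ≤ R) (h1 : Kc Ψ ρ x o1)
    (h1t : ρ o1 < ρ t) (h2 : Kc Ψ ρ x o2) (h2t : ρ o2 < ρ t) (h12 : o1 ≠ o2) :
    ∃ l r gl gr, (Kc Ψ ρ x l ∧ ρ l < ρ t ∧ 0 < τ t * ρ l - τ l * ρ t) ∧
      (Kc Ψ ρ x r ∧ ρ r < ρ t ∧ 0 < τ r * ρ t - τ t * ρ r) ∧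
      (∀ o, Kc Ψ ρ x o → ρ o < ρ t → 0 < τ t * ρ o - τ o * ρ t →
        o = l ∨ 0 < τ l * ρ o - τ o * ρ l) ∧
      (∀ o, Kc Ψ ρ x o → ρ o < ρ t → 0 < τ o * ρ t - τ t * ρ o →
        o = r ∨ 0 < τ o * ρ r - τ r * ρ o) ∧
      (Kc Ψ ρ x gl ∧ ρ gl < ρ t ∧ 0 < τ t * ρ gl - τ gl * ρ t) ∧
      (Kc Ψ ρ x gr ∧ ρ gr < ρ t ∧ 0 < τ gr * ρ t - τ t * ρ gr) ∧
      ((l ∈ S ↔ gr ∈ S) → (t ∈ S ↔ l ∈ S)) ∧ ((r ∈ S ↔ gl ∈ S) → (t ∈ S ↔ r ∈ S)) := by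
  have ht2 := ht.2.1
  -- another element
  have hoth : ∀ i, ∃ k, Kc Ψ ρ x k ∧ ρ k < ρ t ∧ k ≠ i := by
    intro i
    by_cases hi : o1 = i
    · exact ⟨o2, h2, h2t, fun hh => h12 (hi.trans hh.symm)⟩
    · exact ⟨o1, h1, h1t, hi⟩
  have hfin := h.fin_kc (ρ t)
  -- the left side
  have hl : (∃ o, Kc Ψ ρ x o ∧ ρ o < ρ t ∧ 0 < τ t * ρ o - τ o * ρ t) →
      ∃ l gr, (Kc Ψ ρ x l ∧ ρ l < ρ t ∧ 0 < τ t * ρ l - τ l * ρ t) ∧
      (∀ o, Kc Ψ ρ x o → ρ o < ρ t → 0 < τ t * ρ o - τ o * ρ t →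
        o = l ∨ 0 < τ l * ρ o - τ o * ρ l) ∧
      (Kc Ψ ρ x gr ∧ ρ gr < ρ t ∧ 0 < τ gr * ρ t - τ t * ρ gr) ∧
      ((l ∈ S ↔ gr ∈ S) → (t ∈ S ↔ l ∈ S)) := by
    rintro ⟨o, ho1, ho2, ho3⟩
    obtain ⟨l, ⟨hl1, hl2, hl3⟩, hmax⟩ := Set.exists_max_image
      {o | Kc Ψ ρ x o ∧ ρ o < ρ t ∧ 0 < τ t * ρ o - τ o * ρ t} (fun o => τ o / ρ o)
      (hfin.subset fun o ho => ⟨ho.1, ho.2.1⟩) ⟨o, ho1, ho2, ho3⟩
    have hmx : ∀ o, Kc Ψ ρ x o → ρ o < ρ t → 0 < τ t * ρ o - τ o * ρ t →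
        o = l ∨ 0 < τ l * ρ o - τ o * ρ l := by
      intro o ho1 ho2 ho3
      by_cases hol : o = l
      · exact Or.inl hol
      right
      have h3 := hmax o ⟨ho1, ho2, ho3⟩
      rw [div_le_div_iff₀ ho1.2.1 hl1.2.1] at h3
      rcases h.tri ho1 hl1 hol with h4 | h4
      · exact h4
      · linarith only [h3, h4]
    obtain ⟨k, hk1, hk2, hk3⟩ := hoth l
    obtain ⟨g, hg1, hg2, hg3, hg4⟩ := h.side hl1 ht htR hl2 hk1 hk2 hk3 (by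
      rintro o ho1 ho2 ⟨h3, h4⟩
      have h5 := pos_of_mul_pos_right h3 hl3.le
      have h6 := pos_of_mul_pos_right h4 hl3.le
      rcases hmx o ho1 ho2 h6 with h7 | h7
      · rw [h7] at h5
        linarith only [h5]
      · linarith only [h5, h7])
    exact ⟨l, g, ⟨hl1, hl2, hl3⟩, hmx, ⟨hg1, hg2, pos_of_mul_pos_right hg3 hl3.le⟩, hg4⟩
  -- the right side
  have hr : (∃ o, Kc Ψ ρ x o ∧ ρ o < ρ t ∧ 0 < τ o * ρ t - τ t * ρ o) →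
      ∃ r gl, (Kc Ψ ρ x r ∧ ρ r < ρ t ∧ 0 < τ r * ρ t - τ t * ρ r) ∧
      (∀ o, Kc Ψ ρ x o → ρ o < ρ t → 0 < τ o * ρ t - τ t * ρ o →
        o = r ∨ 0 < τ o * ρ r - τ r * ρ o) ∧
      (Kc Ψ ρ x gl ∧ ρ gl < ρ t ∧ 0 < τ t * ρ gl - τ gl * ρ t) ∧
      ((r ∈ S ↔ gl ∈ S) → (t ∈ S ↔ r ∈ S)) := by
    rintro ⟨o, ho1, ho2, ho3⟩
    obtain ⟨r, ⟨hr1, hr2, hr3⟩, hmin⟩ := Set.exists_min_image
      {o | Kc Ψ ρ x o ∧ ρ o < ρ t ∧ 0 < τ o * ρ t - τ t * ρ o} (fun o => τ o / ρ o)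
      (hfin.subset fun o ho => ⟨ho.1, ho.2.1⟩) ⟨o, ho1, ho2, ho3⟩
    have hmx : ∀ o, Kc Ψ ρ x o → ρ o < ρ t → 0 < τ o * ρ t - τ t * ρ o →
        o = r ∨ 0 < τ o * ρ r - τ r * ρ o := by
      intro o ho1 ho2 ho3
      by_cases hor : o = r
      · exact Or.inl hor
      right
      have h3 := hmin o ⟨ho1, ho2, ho3⟩
      rw [div_le_div_iff₀ hr1.2.1 ho1.2.1] at h3
      rcases h.tri ho1 hr1 hor with h4 | h4
      · linarith only [h3, h4]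
      · exact h4
    obtain ⟨k, hk1, hk2, hk3⟩ := hoth r
    have hneg : τ t * ρ r - τ r * ρ t < 0 := by linarith only [hr3]
    obtain ⟨g, hg1, hg2, hg3, hg4⟩ := h.side hr1 ht htR hr2 hk1 hk2 hk3 (by
      rintro o ho1 ho2 ⟨h3, h4⟩
      have h5 : τ o * ρ r - τ r * ρ o < 0 := by
        by_contra hh
        have := mul_nonpos_of_nonpos_of_nonneg hneg.le (not_lt.mp hh)
        linarith only [h3, this]
      have h6 : τ t * ρ o - τ o * ρ t < 0 := by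
        by_contra hh
        have := mul_nonpos_of_nonpos_of_nonneg hneg.le (not_lt.mp hh)
        linarith only [h4, this]
      rcases hmx o ho1 ho2 (by linarith only [h6]) with h7 | h7
      · rw [h7] at h5
        linarith only [h5]
      · linarith only [h5, h7])
    refine ⟨r, g, ⟨hr1, hr2, hr3⟩, hmx, ⟨hg1, hg2, ?_⟩, hg4⟩
    have h5 : τ g * ρ t - τ t * ρ g < 0 := by
      by_contra hh
      have := mul_nonpos_of_nonpos_of_nonneg hneg.le (not_lt.mp hh)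
      linarith only [hg3, this]
    linarith only [h5]
  have h1t' : o1 ≠ t := by
    rintro rfl
    exact lt_irrefl _ h1t
  rcases h.tri h1 ht h1t' with h3 | h3
  · obtain ⟨l, gr, hl1, hl2, hl3, hl4⟩ := hl ⟨o1, h1, h1t, h3⟩
    obtain ⟨r, gl, hr1, hr2, hr3, hr4⟩ := hr ⟨gr, hl3.1, hl3.2.1, hl3.2.2⟩
    exact ⟨l, r, gl, gr, hl1, hr1, hl2, hr2, hr3, hl3, hl4, hr4⟩
  · obtain ⟨r, gl, hr1, hr2, hr3, hr4⟩ := hr ⟨o1, h1, h1t, h3⟩
    obtain ⟨l, gr, hl1, hl2, hl3, hl4⟩ := hl ⟨gl, hr3.1, hr3.2.1, hr3.2.2⟩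
    exact ⟨l, r, gl, gr, hl1, hr1, hl2, hr2, hr3, hl3, hl4, hr4⟩

/-- the statuses of the rows are monotone -/
theorem mono : ∀ n : ℕ, ∀ M : ℝ, {κ | Kc Ψ ρ x κ ∧ ρ κ < M}.ncard ≤ n →
    (∀ κ, Kc Ψ ρ x κ → ρ κ < M → ρ κ ≤ R) → ∀ k1 k2 k3, Kc Ψ ρ x k1 → Kc Ψ ρ x k2 →
    Kc Ψ ρ x k3 → ρ k1 < M → ρ k2 < M → ρ k3 < M → 0 < τ k2 * ρ k1 - τ k1 * ρ k2 →
    0 < τ k3 * ρ k2 - τ k2 * ρ k3 → (k1 ∈ S ↔ k3 ∈ S) → (k2 ∈ S ↔ k1 ∈ S) := by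
  intro n
  induction n with
  | zero =>
    intro M hM _ k1 k2 k3 h1 _ _ hk1
    exfalso
    have h2 : k1 ∈ {κ | Kc Ψ ρ x κ ∧ ρ κ < M} := ⟨h1, hk1⟩
    have h3 := (Set.ncard_eq_zero (h.fin_kc M)).mp (Nat.le_zero.mp hM)
    rw [h3] at h2
    exact h2
  | succ n ih =>
    intro M hM hMR k1 k2 k3 h1 h2 h3 hk1 hk2 hk3 d12 d23 hst
    -- the induction hypothesis below a row
    have IH : ∀ t, Kc Ψ ρ x t → ρ t < M → ∀ k1 k2 k3, Kc Ψ ρ x k1 → Kc Ψ ρ x k2 →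
        Kc Ψ ρ x k3 → ρ k1 < ρ t → ρ k2 < ρ t → ρ k3 < ρ t → 0 < τ k2 * ρ k1 - τ k1 * ρ k2 →
        0 < τ k3 * ρ k2 - τ k2 * ρ k3 → (k1 ∈ S ↔ k3 ∈ S) → (k2 ∈ S ↔ k1 ∈ S) := by
      intro t ht htM
      refine ih (ρ t) ?_ (fun κ hκ hlt => hMR κ hκ (hlt.trans htM))
      have h4 : {κ | Kc Ψ ρ x κ ∧ ρ κ < ρ t}.ncard < {κ | Kc Ψ ρ x κ ∧ ρ κ < M}.ncard := by
        refine Set.ncard_lt_ncard ⟨fun κ hκ => ⟨hκ.1, hκ.2.trans htM⟩, fun hh => ?_⟩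
          (h.fin_kc M)
        exact lt_irrefl _ (hh ⟨ht, htM⟩ : t ∈ {κ | Kc Ψ ρ x κ ∧ ρ κ < ρ t}).2
      omega
    have n12 : k1 ≠ k2 := by
      rintro rfl
      linarith only [d12]
    have n23 : k2 ≠ k3 := by
      rintro rfl
      linarith only [d23]
    have d13 := h.det_trans h1.2.1 h2.2.1 h3.2.1 d12 d23
    have n13 : k1 ≠ k3 := by
      rintro rfl
      linarith only [d13]
    have hinj : ∀ u v, Kc Ψ ρ x u → Kc Ψ ρ x v → ρ u < M → u ≠ v → ρ u ≤ ρ v → ρ u < ρ v := by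
      intro u v hu hv huM huv hle
      refine lt_of_le_of_ne hle fun he => ?_
      exact huv (h.kc_inj hu hv (hMR u hu huM) he).symm
    -- which one is the largest
    have hmax : (ρ k1 < ρ k2 ∧ ρ k3 < ρ k2) ∨ (ρ k2 < ρ k1 ∧ ρ k3 < ρ k1) ∨
        (ρ k1 < ρ k3 ∧ ρ k2 < ρ k3) := by
      rcases le_total (ρ k1) (ρ k2) with h4 | h4
      · have h4' := hinj k1 k2 h1 h2 hk1 n12 h4
        rcases le_total (ρ k3) (ρ k2) with h5 | h5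
        · exact Or.inl ⟨h4', hinj k3 k2 h3 h2 hk3 n23.symm h5⟩
        · have h5' := hinj k2 k3 h2 h3 hk2 n23 h5
          exact Or.inr (Or.inr ⟨h4'.trans h5', h5'⟩)
      · have h4' := hinj k2 k1 h2 h1 hk2 n12.symm h4
        rcases le_total (ρ k3) (ρ k1) with h5 | h5
        · exact Or.inr (Or.inl ⟨h4', hinj k3 k1 h3 h1 hk3 n13.symm h5⟩)
        · have h5' := hinj k1 k3 h1 h3 hk1 n13 h5
          exact Or.inr (Or.inr ⟨h5', h4'.trans h5'⟩)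
    rcases hmax with ⟨m1, m3⟩ | ⟨m2, m3⟩ | ⟨m1, m2⟩
    · -- the middle one is the newborn
      obtain ⟨l, r, gl, gr, ⟨hl1, hl2, hl3⟩, ⟨hr1, hr2, hr3⟩, hL, hR, ⟨hgl1, hgl2, hgl3⟩,
        ⟨hgr1, hgr2, hgr3⟩, cL, cR⟩ := h.newborn h2 (hMR k2 h2 hk2) h1 m1 h3 m3 n13
      have ih' := IH k2 h2 hk2
      have el : l ∈ S ↔ k1 ∈ S := by
        rcases hL k1 h1 m1 d12 with e | e
        · rw [e]
        · exact ih' k1 l k3 h1 hl1 h3 m1 hl2 m3 e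
            (h.det_trans hl1.2.1 h2.2.1 h3.2.1 hl3 d23) hst
      have er : r ∈ S ↔ k1 ∈ S := by
        rcases hR k3 h3 m3 d23 with e | e
        · rw [← e, hst]
        · exact ih' k1 r k3 h1 hr1 h3 m1 hr2 m3
            (h.det_trans h1.2.1 h2.2.1 hr1.2.1 d12 hr3) e hst
      by_contra hcon
      have h4 : ¬ (l ∈ S ↔ gr ∈ S) := fun h5 => hcon ((cL h5).trans el)
      have h5 : ¬ (r ∈ S ↔ gl ∈ S) := fun h5 => hcon ((cR h5).trans er)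
      have h6 : gl ≠ l := by
        rintro rfl
        exact h5 (er.trans el.symm)
      have h7 : 0 < τ l * ρ gl - τ gl * ρ l := (hL gl hgl1 hgl2 hgl3).resolve_left h6
      have h8 := ih' gl l gr hgl1 hl1 hgr1 hgl2 hl2 hgr2 h7
        (h.det_trans hl1.2.1 h2.2.1 hgr1.2.1 hl3 hgr3)
      exact taut70a h4 h5 el er h8
    · -- the first one
      obtain ⟨l, r, gl, gr, ⟨hl1, hl2, hl3⟩, ⟨hr1, hr2, hr3⟩, hL, hR, ⟨hgl1, hgl2, hgl3⟩,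
        ⟨hgr1, hgr2, hgr3⟩, cL, cR⟩ := h.newborn h1 (hMR k1 h1 hk1) h2 m2 h3 m3 n23
      have ih' := IH k1 h1 hk1
      by_contra hcon
      have hall : ∀ o, Kc Ψ ρ x o → ρ o < ρ k1 → 0 < τ k2 * ρ o - τ o * ρ k2 →
          (o ∈ S ↔ k2 ∈ S) := by
        intro o ho1 ho2 ho3
        have := ih' o k2 k3 ho1 h2 h3 ho2 m2 m3 ho3 d23
        exact taut70b this hst hcon
      have er : r ∈ S ↔ k2 ∈ S := by
        rcases hR k2 h2 m2 d12 with e | e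
        · rw [e]
        · exact hall r hr1 hr2 e
      have egl := hall gl hgl1 hgl2 (h.det_trans hgl1.2.1 h1.2.1 h2.2.1 hgl3 d12)
      have := cR (er.trans egl.symm)
      exact hcon (this.trans er).symm
    · -- the last one
      obtain ⟨l, r, gl, gr, ⟨hl1, hl2, hl3⟩, ⟨hr1, hr2, hr3⟩, hL, hR, ⟨hgl1, hgl2, hgl3⟩,
        ⟨hgr1, hgr2, hgr3⟩, cL, cR⟩ := h.newborn h3 (hMR k3 h3 hk3) h1 m1 h2 m2 n12
      have ih' := IH k3 h3 hk3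
      by_contra hcon
      have hall : ∀ o, Kc Ψ ρ x o → ρ o < ρ k3 → 0 < τ o * ρ k2 - τ k2 * ρ o →
          (o ∈ S ↔ k2 ∈ S) := by
        intro o ho1 ho2 ho3
        have := ih' k1 k2 o h1 h2 ho1 m1 m2 ho2 d12 ho3
        exact taut70c this hcon
      have el : l ∈ S ↔ k2 ∈ S := by
        rcases hL k2 h2 m2 d23 with e | e
        · rw [e]
        · exact hall l hl1 hl2 e
      have egr := hall gr hgr1 hgr2 (h.det_trans h2.2.1 h3.2.1 hgr1.2.1 d23 hgr3)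
      have := cL (el.trans egr.symm)
      exact hcon ((this.trans el).symm.trans hst.symm)

end RW

end DY
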