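import Pool.Agent.Helper70.DY.G3

/-!
# The functional of a section which can be toggled at a root on which the centre lies
-/

namespace DY

open Set

variable {E : Type*} [AddCommGroup E] [Module ℝ E]

namespace RW

variable {Ψ K S : Set E} {B : E →ₗ[ℝ] E →ₗ[ℝ] ℝ} {ρ τ : E →ₗ[ℝ] ℝ} {a b c x : E} {R : ℝ}
  (h : RW Ψ K S B ρ τ a b c x R)

include h

theorem exists_M : ∃ M, R < M ∧ ∀ u ∈ Ψ, 0 < ρ u → ρ u < M → ρ u ≤ R := by
  by_cases hne : ({u | u ∈ Ψ ∧ |ρ u| ≤ R + 1 ∧ R < ρ u} : Set E).Nonempty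
  · obtain ⟨u0, ⟨h1, h2, h3⟩, hmin⟩ := Set.exists_min_image
      {u | u ∈ Ψ ∧ |ρ u| ≤ R + 1 ∧ R < ρ u} ρ ((h.cn.fin (R + 1)).subset fun u hu =>
      ⟨hu.1, hu.2.1⟩) hne
    refine ⟨ρ u0, h3, fun u hu h0 hlt => ?_⟩
    by_contra hcon
    rw [not_le] at hcon
    have h4 := le_abs_self (ρ u0)
    have := hmin u ⟨hu, by rw [abs_of_pos h0]; linarith, hcon⟩
    linarith
  · refine ⟨R + 1, by linarith, fun u hu h0 hlt => ?_⟩
    by_contra hcon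
    rw [not_le] at hcon
    exact hne ⟨u, hu, by rw [abs_of_pos h0]; linarith, hcon⟩

theorem mono' {k1 k2 k3 : E} (h1 : Kc Ψ ρ x k1) (h2 : Kc Ψ ρ x k2) (h3 : Kc Ψ ρ x k3)
    (r1 : ρ k1 ≤ R) (r2 : ρ k2 ≤ R) (r3 : ρ k3 ≤ R) (d12 : 0 < τ k2 * ρ k1 - τ k1 * ρ k2)
    (d23 : 0 < τ k3 * ρ k2 - τ k2 * ρ k3) (hst : k1 ∈ S ↔ k3 ∈ S) : (k2 ∈ S ↔ k1 ∈ S) := by
  obtain ⟨M, hM, hM'⟩ := h.exists_M
  exact h.mono _ M le_rfl (fun κ hκ hlt => hM' κ hκ.1 hκ.2.1 hlt) k1 k2 k3 h1 h2 h3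
    (r1.trans_lt hM) (r2.trans_lt hM) (r3.trans_lt hM) d12 d23 hst

theorem exists_functional : ∃ f : E →ₗ[ℝ] ℝ, f x = 0 ∧
    ∀ u ∈ K, u ≠ x → u ≠ -x → (u ∈ S ↔ 0 < f u) := by
  classical
  have hfin : {κ | Kc Ψ ρ x κ ∧ ρ κ ≤ R}.Finite :=
    (h.cn.fin R).subset fun κ hκ => ⟨hκ.1.1, by rw [abs_of_pos hκ.1.2.1]; exact hκ.2⟩
  -- it is enough to have a functional on canonical elements
  have key : ∀ f : E →ₗ[ℝ] ℝ, f x = 0 → (∀ κ, Kc Ψ ρ x κ → ρ κ ≤ R → (κ ∈ S → 0 < f κ) ∧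
      (κ ∉ S → f κ < 0)) → ∀ u ∈ K, u ≠ x → u ≠ -x → (u ∈ S ↔ 0 < f u) := by
    intro f hfx hf
    have hpos : ∀ u ∈ K, 0 < ρ u → (u ∈ S → 0 < f u) ∧ (u ∉ S → f u < 0) := by
      intro u hu hu0
      have huK := (h.ball u).mp hu
      obtain ⟨κ, hκ, α, β, e, hβ⟩ := h.row huK.1 hu0
      have hκ2 := hκ.2.1
      have hρu : ρ u = β * ρ κ := by
        rw [e, map_add, map_smul, map_smul, h.hx0]
        simp
      have hfu : f u = β * f κ := by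
        rw [e, map_add, map_smul, map_smul, hfx]
        simp
      have hβ0 : 0 < β := by linarith
      have hκR : ρ κ ≤ R := by
        have h1 : ρ κ ≤ ρ u := by
          rw [hρu]
          nlinarith
        exact h1.trans ((le_abs_self _).trans huK.2)
      have hκK := h.memK hκ.1 hκ2 hκR
      have hΨ : K ⊆ Ψ := fun u hu => ((h.ball u).mp hu).1
      have htog : κ ∈ S ↔ u ∈ S := h.sg.toggle h.sys hΨ h.tg hκK hu (h.ne_x hκ2).1 (h.ne_x hκ2).2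
        (h.ne_x hu0).1 (h.ne_x hu0).2 hβ0 (by rw [e]; module)
      obtain ⟨h1, h2⟩ := hf κ hκ hκR
      rw [hfu]
      exact ⟨fun h3 => mul_pos hβ0 (h1 (htog.mpr h3)),
        fun h3 => mul_neg_of_pos_of_neg hβ0 (h2 fun h4 => h3 (htog.mp h4))⟩
    intro u hu hux hux'
    have huK := (h.ball u).mp hu
    rcases lt_trichotomy (ρ u) 0 with h1 | h1 | h1
    · have h2 := hpos (-u) (h.symK u hu) (by rw [map_neg]; linarith)
      rw [map_neg] at h2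
      rw [h.sg.half u hu]
      constructor
      · intro h3
        have := h2.2 h3
        linarith
      · intro h3 h4
        have := h2.1 h4
        linarith
    · rcases h.gen u huK.1 h1 with h2 | h2
      · exact absurd h2 hux
      · exact absurd h2 hux'
    · have h2 := hpos u hu h1
      constructor
      · exact h2.1
      · intro h3
        by_contra h4
        have := h2.2 h4
        linarith
  -- separation
  have hsep : (∀ κ κ', Kc Ψ ρ x κ → ρ κ ≤ R → Kc Ψ ρ x κ' → ρ κ' ≤ R → κ ∈ S → κ' ∉ S →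
      0 < τ κ' * ρ κ - τ κ * ρ κ') ∨ (∀ κ κ', Kc Ψ ρ x κ → ρ κ ≤ R → Kc Ψ ρ x κ' → ρ κ' ≤ R →
      κ ∈ S → κ' ∉ S → 0 < τ κ * ρ κ' - τ κ' * ρ κ) := by
    by_contra hcon
    rw [not_or] at hcon
    obtain ⟨hc1, hc2⟩ := hcon
    push Not at hc1 hc2
    obtain ⟨a1, b1, ha1, ra1, hb1, rb1, sa1, sb1, d1⟩ := hc1
    obtain ⟨a2, b2, ha2, ra2, hb2, rb2, sa2, sb2, d2⟩ := hc2
    have n1 : a1 ≠ b1 := fun e => sb1 (e ▸ sa1)
    have n2 : a2 ≠ b2 := fun e => sb2 (e ▸ sa2)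
    have n3 : a1 ≠ b2 := fun e => sb2 (e ▸ sa1)
    have e1 := (h.tri ha1 hb1 n1).resolve_left (by linarith)
    have e2 := (h.tri ha2 hb2 n2).resolve_right (by linarith)
    rcases h.tri ha1 hb2 n3 with e3 | e3
    · have := h.mono' hb1 ha1 hb2 rb1 ra1 rb2 e1 e3
      tauto
    · have := h.mono' ha2 hb2 ha1 ra2 rb2 ra1 e2 e3
      tauto
  -- the threshold
  have hslope : ∀ κ κ', Kc Ψ ρ x κ → Kc Ψ ρ x κ' → 0 < τ κ' * ρ κ - τ κ * ρ κ' →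
      τ κ / ρ κ < τ κ' / ρ κ' := by
    intro κ κ' hκ hκ' hd
    rw [div_lt_div_iff₀ hκ.2.1 hκ'.2.1]
    linarith
  have hfA : {κ | (Kc Ψ ρ x κ ∧ ρ κ ≤ R) ∧ κ ∈ S}.Finite := hfin.subset fun κ hκ => hκ.1
  have hfB : {κ | (Kc Ψ ρ x κ ∧ ρ κ ≤ R) ∧ κ ∉ S}.Finite := hfin.subset fun κ hκ => hκ.1
  rcases hsep with hs | hs
  · obtain ⟨m, hm1, hm2⟩ := Order.exists_between_finsets
      (hfA.toFinset.image fun κ => τ κ / ρ κ) (hfB.toFinset.image fun κ => τ κ / ρ κ) (by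
      intro y hy z hz
      rw [Finset.mem_image] at hy hz
      obtain ⟨κ, hκ, rfl⟩ := hy
      obtain ⟨κ', hκ', rfl⟩ := hz
      rw [Set.Finite.mem_toFinset] at hκ hκ'
      exact hslope κ κ' hκ.1.1 hκ'.1.1 (hs κ κ' hκ.1.1 hκ.1.2 hκ'.1.1 hκ'.1.2 hκ.2 hκ'.2))
    refine ⟨m • ρ - τ, by simp [h.hx0, h.tx], key _ (by simp [h.hx0, h.tx]) fun κ hκ hκR => ?_⟩
    have hκ2 := hκ.2.1
    rw [LinearMap.sub_apply, LinearMap.smul_apply, smul_eq_mul]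
    constructor
    · intro h1
      have h2 := hm1 (τ κ / ρ κ) (Finset.mem_image.mpr ⟨κ, hfA.mem_toFinset.mpr
        ⟨⟨hκ, hκR⟩, h1⟩, rfl⟩)
      rw [div_lt_iff₀ hκ2] at h2
      linarith
    · intro h1
      have h2 := hm2 (τ κ / ρ κ) (Finset.mem_image.mpr ⟨κ, hfB.mem_toFinset.mpr
        ⟨⟨hκ, hκR⟩, h1⟩, rfl⟩)
      rw [lt_div_iff₀ hκ2] at h2
      linarith
  · obtain ⟨m, hm1, hm2⟩ := Order.exists_between_finsets
      (hfB.toFinset.image fun κ => τ κ / ρ κ) (hfA.toFinset.image fun κ => τ κ / ρ κ) (by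
      intro y hy z hz
      rw [Finset.mem_image] at hy hz
      obtain ⟨κ, hκ, rfl⟩ := hy
      obtain ⟨κ', hκ', rfl⟩ := hz
      rw [Set.Finite.mem_toFinset] at hκ hκ'
      exact hslope κ κ' hκ.1.1 hκ'.1.1 (hs κ' κ hκ'.1.1 hκ'.1.2 hκ.1.1 hκ.1.2 hκ'.2 hκ.2))
    refine ⟨τ - m • ρ, by simp [h.hx0, h.tx], key _ (by simp [h.hx0, h.tx]) fun κ hκ hκR => ?_⟩
    have hκ2 := hκ.2.1
    rw [LinearMap.sub_apply, LinearMap.smul_apply, smul_eq_mul]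
    constructor
    · intro h1
      have h2 := hm2 (τ κ / ρ κ) (Finset.mem_image.mpr ⟨κ, hfA.mem_toFinset.mpr
        ⟨⟨hκ, hκR⟩, h1⟩, rfl⟩)
      rw [lt_div_iff₀ hκ2] at h2
      linarith
    · intro h1
      have h2 := hm1 (τ κ / ρ κ) (Finset.mem_image.mpr ⟨κ, hfB.mem_toFinset.mpr
        ⟨⟨hκ, hκR⟩, h1⟩, rfl⟩)
      rw [div_lt_iff₀ hκ2] at h2
      linarith

end RW

end DY
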