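import Pool.Agent.Helper70.DY.G4
import Pool.Agent.Helper69.DY.W3

/-!
# The symmetric case (MP_d13a5e_al)
-/

namespace DY

open Set

variable {E : Type*} [AddCommGroup E] [Module ℝ E]

/-- a linear form which vanishes exactly on the plane of `x, x'` -/
structure Fn (Ψ : Set E) (x x' : E) (φ : E →ₗ[ℝ] ℝ) : Prop where
  zx : φ x = 0
  zx' : φ x' = 0
  ker : ∀ u ∈ Ψ, φ u = 0 → ∃ α β : ℝ, u = α • x + β • x'
  span3 : ∀ u ∈ Ψ, ∀ v ∈ Ψ, φ v ≠ 0 → ∃ α β γ : ℝ, u = α • x + β • x' + γ • v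

section

variable {Ψ K S : Set E} {B : E →ₗ[ℝ] E →ₗ[ℝ] ℝ} {ρ : E →ₗ[ℝ] ℝ} {a b c x x' : E} {R : ℝ}

theorem rf_add' (u v w : E) : rf B u (v + w) = rf B u v + rf B u w := by
  unfold rf
  rw [map_add]
  module

theorem rf_smul' (u v : E) (s : ℝ) : rf B u (s • v) = s • rf B u v := by
  unfold rf
  rw [map_smul, smul_eq_mul]
  module

theorem rf_neg' (u v : E) : rf B u (-v) = -rf B u v := by
  unfold rf
  rw [map_neg]
  module

/-- the reflected section -/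
theorem Sg.refl (hS : Sys Ψ B) (hx : x ∈ Ψ) (hinv : ∀ u ∈ K, rf B x u ∈ K) (h : Sg K S) :
    Sg K {u | u ∈ K ∧ rf B x u ∈ S} := by
  refine ⟨fun u hu => hu.1, fun u hu => ?_, fun u hu v hv w hw hb => ⟨hw, ?_⟩⟩
  · have h1 := h.half _ (hinv u hu)
    simp only [mem_setOf_eq]
    rw [rf_neg']
    constructor
    · rintro ⟨-, h2⟩ ⟨-, h3⟩
      exact h1.mp h2 h3
    · intro h2
      refine ⟨hu, ?_⟩
      by_contra h3
      have h4 : -rf B x u ∈ S := by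
        by_contra h5
        exact h3 (h1.mpr h5)
      refine h2 ⟨?_, h4⟩
      have h5 := h.sub h4
      have h6 := hinv _ h5
      rw [rf_neg', rf_rf_one (hS.one x hx)] at h6
      exact h6
  · refine h.cl _ hu.2 _ hv.2 _ (hinv w hw) ?_
    obtain ⟨s, t, hs, ht, e⟩ := hb
    exact ⟨s, t, hs, ht, by rw [e, rf_add', rf_smul', rf_smul']⟩

/-- any row can be put into `S`, if each element of the row occurs in some section -/
theorem Sg.row (hK : ∀ u ∈ K, -u ∈ K) (h : Sg K S) {P : E → Prop}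
    (hP2 : ∀ u v w, Btw u w v → P u → P v → P w) (hP3 : ∀ u v w, Btw u w v → P u → P w → P v)
    (hPn : ∀ u, P u → P (-u))
    (hex : ∀ f ∈ K, P f → ∃ S', Sg K S' ∧ f ∈ S' ∧ ∀ u ∈ K, ¬ P u → (u ∈ S' ↔ u ∈ S))
    {Q : Set E} (hQ : Sg K Q) : Sg K {u | u ∈ K ∧ ((P u ∧ u ∈ Q) ∨ (¬ P u ∧ u ∈ S))} := by
  have hPn' : ∀ u, P (-u) → P u := fun u hu => by
    have := hPn _ hu
    rwa [neg_neg] at this
  refine ⟨fun u hu => hu.1, fun u hu => ?_, ?_⟩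
  · simp only [mem_setOf_eq]
    by_cases hp : P u
    · have := hQ.half u hu
      have := hPn u hp
      have := hK u hu
      tauto
    · have h1 : ¬ P (-u) := fun h => hp (hPn' u h)
      have := h.half u hu
      have := hK u hu
      tauto
  · have key : ∀ u v w, w ∈ K → Btw u w v → (u ∈ K ∧ P u ∧ u ∈ Q) → (v ∈ K ∧ ¬ P v ∧ v ∈ S) →
        ¬ P w ∧ w ∈ S := by
      rintro u v w hw hb ⟨hu, hpu, huQ⟩ ⟨hv, hpv, hvS⟩
      have hpw : ¬ P w := fun hp => hpv (hP3 u v w hb hpu hp)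
      obtain ⟨S', h1, h2, h3⟩ := hex u hu hpu
      exact ⟨hpw, (h3 w hw hpw).mp (h1.cl u h2 v ((h3 v hv hpv).mpr hvS) w hw hb)⟩
    rintro u ⟨hu, hu'⟩ v ⟨hv, hv'⟩ w hw hb
    refine ⟨hw, ?_⟩
    rcases hu' with ⟨hpu, huQ⟩ | ⟨hpu, huS⟩
    · rcases hv' with ⟨hpv, hvQ⟩ | ⟨hpv, hvS⟩
      · exact Or.inl ⟨hP2 u v w hb hpu hpv, hQ.cl u huQ v hvQ w hw hb⟩
      · exact Or.inr (key u v w hw hb ⟨hu, hpu, huQ⟩ ⟨hv, hpv, hvS⟩)
    · rcases hv' with ⟨hpv, hvQ⟩ | ⟨hpv, hvS⟩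
      · exact Or.inr (key v u w hw hb.symm ⟨hv, hpv, hvQ⟩ ⟨hu, hpu, huS⟩)
      · by_cases hpw : P w
        · exfalso
          obtain ⟨S', h1, h2, h3⟩ := hex (-w) (hK w hw) (hPn w hpw)
          have h4 := h1.cl u ((h3 u hu hpu).mpr huS) v ((h3 v hv hpv).mpr hvS) w hw hb
          exact (h1.half w hw).mp h4 h2
        · exact Or.inr ⟨hpw, h.cl u huS v hvS w hw hb⟩

/-- **the symmetric case** -/
theorem sym_case (hT : Tri Ψ B a b c) (hStar : StarS Ψ a b c) (hA : Adm Ψ a b c ρ) (hx : x ∈ Ψ)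
    (hx' : x' ∈ Ψ) (hx0 : ρ x = 0) (hx'0 : 0 < ρ x') (hxx : x' ≠ x) (hxx' : x' ≠ -x)
    (hK : ∀ u, u ∈ K ↔ u ∈ Ψ ∧ |ρ u| ≤ R) (hx'R : ρ x' ≤ R)
    (hF : ∀ u ∈ K, (∃ α β : ℝ, u = α • x + β • x') → u = x ∨ u = -x ∨ u = x' ∨ u = -x' ∨
      u = rf B x x' ∨ u = -rf B x x')
    (hSg : Sg K S) (ht : Tg K S x) (ht' : Tg K S x') {φ : E →ₗ[ℝ] ℝ} (hφ : Fn Ψ x x' φ) :
    (∀ u ∈ K, 0 < φ u → u ∈ S) ∨ (∀ u ∈ K, 0 < φ u → u ∉ S) := by
  have hS := hT.sys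
  have hΨ : K ⊆ Ψ := fun u hu => ((hK u).mp hu).1
  have hsym : ∀ u ∈ K, -u ∈ K := by
    intro u hu
    rw [hK] at hu ⊢
    exact ⟨hS.neg u hu.1, by rw [map_neg, abs_neg]; exact hu.2⟩
  have hρrf : ∀ u, ρ (rf B x u) = ρ u := by
    intro u
    unfold rf
    rw [map_sub, map_smul, hx0, smul_zero, sub_zero]
  have hinv : ∀ u ∈ K, rf B x u ∈ K := by
    intro u hu
    rw [hK] at hu ⊢
    exact ⟨hS.refl x hx u hu.1, by rw [hρrf]; exact hu.2⟩
  set P : E → Prop := fun u => ∃ α β : ℝ, u = α • x + β • x' with hPdef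
  have hP2 : ∀ u v w, Btw u w v → P u → P v → P w := by
    rintro u v w ⟨s, t, -, -, e⟩ ⟨α, β, e1⟩ ⟨α', β', e2⟩
    exact ⟨s * α + t * α', s * β + t * β', by rw [e, e1, e2]; module⟩
  have hP3 : ∀ u v w, Btw u w v → P u → P w → P v := by
    rintro u v w ⟨s, t, -, ht0, e⟩ ⟨α, β, e1⟩ ⟨α', β', e2⟩
    refine ⟨(α' - s * α) / t, (β' - s * β) / t, ?_⟩
    have h1 : t • v = (α' - s * α) • x + (β' - s * β) • x' := by
      have : t • v = w - s • u := by rw [e]; module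
      rw [this, e1, e2]
      module
    have h2 : v = (1 / t) • (t • v) := by
      rw [smul_smul, one_div, inv_mul_cancel₀ ht0.ne', one_smul]
    rw [h2, h1]
    match_scalars <;> field_simp
  have hPn : ∀ u, P u → P (-u) := by
    rintro u ⟨α, β, e⟩
    exact ⟨-α, -β, by rw [e]; module⟩
  have hPx : P x := ⟨1, 0, by module⟩
  have hPx' : P x' := ⟨0, 1, by module⟩
  have hPrf : ∀ u, P (rf B x u) → P u := by
    rintro u ⟨α, β, e⟩
    refine ⟨α + 2 * B x u, β, ?_⟩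
    calc u = rf B x u + (2 * B x u) • x := by unfold rf; module
      _ = (α • x + β • x') + (2 * B x u) • x := by rw [e]
      _ = _ := by module
  have hx'K : x' ∈ K := (hK x').mpr ⟨hx', by rwa [abs_of_pos hx'0]⟩
  have hxK : x ∈ K := (hK x).mpr ⟨hx, by rw [hx0, abs_zero]; linarith⟩
  -- elements off the plane are neither `±x` nor `±x'`
  have hne : ∀ u, ¬ P u → u ≠ x ∧ u ≠ -x ∧ u ≠ x' ∧ u ≠ -x' := by
    intro u hu
    refine ⟨?_, ?_, ?_, ?_⟩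
    · rintro rfl; exact hu hPx
    · rintro rfl; exact hu (hPn _ hPx)
    · rintro rfl; exact hu hPx'
    · rintro rfl; exact hu (hPn _ hPx')
  have hrefl : ∀ S', Sg K S' → (∀ u ∈ K, ¬ P u → (u ∈ S' ↔ u ∈ S)) →
      ∀ u ∈ K, ¬ P u → (u ∈ {u | u ∈ K ∧ rf B x u ∈ S'} ↔ u ∈ S) := by
    intro S' h1 h2 u hu hp
    have hp' : ¬ P (rf B x u) := fun h => hp (hPrf u h)
    have h3 := h2 _ (hinv u hu) hp'
    have h4 : u ∈ S ↔ rf B x u ∈ S := hSg.toggle hS hΨ ht hu (hinv u hu) (hne u hp).1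
      (hne u hp).2.1 (hne _ hp').1 (hne _ hp').2.1 one_pos (β := -(2 * B x u)) (by
      unfold rf; module)
    constructor
    · rintro ⟨-, h5⟩
      exact h4.mpr (h3.mp h5)
    · intro h5
      exact ⟨hu, h3.mpr (h4.mp h5)⟩
  have hex : ∀ f ∈ K, P f → ∃ S', Sg K S' ∧ f ∈ S' ∧ ∀ u ∈ K, ¬ P u → (u ∈ S' ↔ u ∈ S) := by
    obtain ⟨⟨S1, a1, a2, a3⟩, ⟨S2, a4, a5, a6⟩⟩ := id ht
    obtain ⟨⟨S3, b1, b2, b3⟩, ⟨S4, b4, b5, b6⟩⟩ := id ht'
    intro f hf hPf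
    rcases hF f hf hPf with e | e | e | e | e | e
    · exact ⟨S1, a1, e ▸ a2, fun u _ hu => a3 u (hne u hu).1 (hne u hu).2.1⟩
    · exact ⟨S2, a4, e ▸ a5, fun u _ hu => a6 u (hne u hu).1 (hne u hu).2.1⟩
    · exact ⟨S3, b1, e ▸ b2, fun u _ hu => b3 u (hne u hu).2.2.1 (hne u hu).2.2.2⟩
    · exact ⟨S4, b4, e ▸ b5, fun u _ hu => b6 u (hne u hu).2.2.1 (hne u hu).2.2.2⟩
    · refine ⟨_, Sg.refl hS hx hinv b1, ⟨hf, ?_⟩, hrefl S3 b1 fun u _ hu =>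
        b3 u (hne u hu).2.2.1 (hne u hu).2.2.2⟩
      rw [e, rf_rf_one (hS.one x hx)]
      exact b2
    · refine ⟨_, Sg.refl hS hx hinv b4, ⟨hf, ?_⟩, hrefl S4 b4 fun u _ hu =>
        b6 u (hne u hu).2.2.1 (hne u hu).2.2.2⟩
      rw [e, rf_neg', rf_rf_one (hS.one x hx)]
      exact b5
  -- complements are sections
  have hcomp : ∀ S', Sg K S' → Sg K {u | u ∈ K ∧ u ∉ S'} := by
    intro S' h1
    refine ⟨fun u hu => hu.1, fun u hu => ?_, fun u hu v hv w hw hb =>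
      ⟨hw, h1.cl' hsym hu.1 hv.1 hw hu.2 hv.2 hb⟩⟩
    have := h1.half u hu
    have := hsym u hu
    simp only [mem_setOf_eq]
    tauto
  set T : Set E := {u | u ∈ K ∧ ((P u ∧ u ∈ {u | u ∈ K ∧ u ∉ S}) ∨ (¬ P u ∧ u ∈ S))} with hTdef
  have hTSg : Sg K T := Sg.row hsym hSg hP2 hP3 hPn hex (hcomp S hSg)
  have hTt : Tg K T x := by
    obtain ⟨⟨S1, a1, a2, a3⟩, ⟨S2, a4, a5, a6⟩⟩ := id ht
    have hagree : ∀ S' : Set E, (∀ y, y ≠ x → y ≠ -x → (y ∈ S' ↔ y ∈ S)) → ∀ y, y ≠ x →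
        y ≠ -x → (y ∈ {u | u ∈ K ∧ ((P u ∧ u ∈ {u | u ∈ K ∧ u ∉ S'}) ∨ (¬ P u ∧ u ∈ S))} ↔
        y ∈ T) := by
      intro S' h1 y hy hy'
      simp only [hTdef, mem_setOf_eq, h1 y hy hy']
    refine ⟨⟨_, Sg.row hsym hSg hP2 hP3 hPn hex (hcomp S2 a4), ⟨hxK, Or.inl ⟨hPx, hxK, ?_⟩⟩,
      hagree S2 a6⟩, ⟨_, Sg.row hsym hSg hP2 hP3 hPn hex (hcomp S1 a1), ⟨hsym x hxK,
      Or.inl ⟨hPn x hPx, hsym x hxK, ?_⟩⟩, hagree S1 a3⟩⟩
    · intro h1
      exact (a4.half x hxK).mp h1 a5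
    · exact (a1.half x hxK).mp a2
  obtain ⟨ρ', R', τ, hA', -, c1, c2, c3, -, -, c4, c5, c6⟩ := exists_generic_wall2 hT hA hx hx0 R
  have hRW : ∀ S', Sg K S' → Tg K S' x → RW Ψ K S' B ρ' τ a b c x R' := by
    intro S' h1 h2
    refine ⟨hS, hStar, hA', hA'.cn hT, hx, c1, c2, fun u hu v hv h3 _ h4 => c4 u hu v hv h3 h4, c5,
      fun u hu v hv h3 _ h4 => ?_, fun u => ?_, h1, h2⟩
    · obtain ⟨l, m, e⟩ := c6 u hu v hv h3.ne' h4
      exact ⟨m, l, by rw [e, add_comm]⟩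
    · rw [hK]
      constructor
      · rintro ⟨h3, h4⟩
        exact ⟨h3, (c3 u h3).mpr h4⟩
      · rintro ⟨h3, h4⟩
        exact ⟨h3, (c3 u h3).mp h4⟩
  obtain ⟨f, hfx, hf⟩ := (hRW S hSg ht).exists_functional
  obtain ⟨g, hgx, hg⟩ := (hRW T hTSg hTt).exists_functional
  have h1 := hf x' hx'K hxx hxx'
  have h2 := hg x' hx'K hxx hxx'
  have h3 := hf (-x') (hsym x' hx'K) (fun e => hxx' (by rw [← e, neg_neg]))
    (fun e => hxx (neg_injective e))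
  have h4 := hg (-x') (hsym x' hx'K) (fun e => hxx' (by rw [← e, neg_neg]))
    (fun e => hxx (neg_injective e))
  rw [map_neg] at h3 h4
  have h5 := hSg.half x' hx'K
  have h6 := hTSg.half x' hx'K
  have h7 : x' ∈ T ↔ x' ∉ S := by
    constructor
    · rintro ⟨-, ⟨-, h8⟩ | ⟨h8, -⟩⟩
      · exact h8.2
      · exact absurd hPx' h8
    · intro h8
      exact ⟨hx'K, Or.inl ⟨hPx', hx'K, h8⟩⟩
  -- the combination
  have hsign : (0 < f x' ∧ g x' < 0) ∨ (f x' < 0 ∧ 0 < g x') := by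
    by_cases h8 : x' ∈ S
    · left
      have h9 : -x' ∈ T := by
        by_contra h10
        exact (h7.mp (h6.mpr h10)) h8
      have := h1.mp h8
      have := h4.mp h9
      constructor <;> linarith
    · right
      have h9 : -x' ∈ S := by
        by_contra h10
        exact h8 (h5.mpr h10)
      have := h3.mp h9
      have := h2.mp (h7.mpr h8)
      constructor <;> linarith
  set G : E →ₗ[ℝ] ℝ := |g x'| • f + |f x'| • g with hG
  have hGx : G x = 0 := by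
    simp [hG, hfx, hgx]
  have hGx' : G x' = 0 := by
    rw [hG, LinearMap.add_apply, LinearMap.smul_apply, LinearMap.smul_apply, smul_eq_mul,
      smul_eq_mul]
    rcases hsign with ⟨h8, h9⟩ | ⟨h8, h9⟩
    · rw [abs_of_pos h8, abs_of_neg h9]
      ring
    · rw [abs_of_neg h8, abs_of_pos h9]
      ring
  have hpos : 0 < |g x'| ∧ 0 < |f x'| := by
    rcases hsign with ⟨h8, h9⟩ | ⟨h8, h9⟩
    · exact ⟨abs_pos.mpr h9.ne, abs_pos.mpr h8.ne'⟩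
    · exact ⟨abs_pos.mpr h9.ne', abs_pos.mpr h8.ne⟩
  have hTS : ∀ u ∈ K, ¬ P u → (u ∈ T ↔ u ∈ S) := by
    intro u hu hp
    constructor
    · rintro ⟨-, ⟨h8, -⟩ | ⟨-, h8⟩⟩
      · exact absurd h8 hp
      · exact h8
    · intro h8
      exact ⟨hu, Or.inr ⟨hp, h8⟩⟩
  have hGpos : ∀ u ∈ K, ¬ P u → u ∈ S → 0 < G u := by
    intro u hu hp hm
    have h8 := (hf u hu (hne u hp).1 (hne u hp).2.1).mp hm
    have h9 := (hg u hu (hne u hp).1 (hne u hp).2.1).mp ((hTS u hu hp).mpr hm)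
    rw [hG, LinearMap.add_apply, LinearMap.smul_apply, LinearMap.smul_apply, smul_eq_mul,
      smul_eq_mul]
    have := mul_pos hpos.1 h8
    have := mul_pos hpos.2 h9
    linarith
  have hGneg : ∀ u ∈ K, ¬ P u → u ∉ S → G u < 0 := by
    intro u hu hp hm
    have h8 := hGpos (-u) (hsym u hu) (fun h => hp (by
      have := hPn _ h
      rwa [neg_neg] at this)) ((hSg.neg_mem hsym hu).mpr hm)
    rw [map_neg] at h8
    linarith
  have hφP : ∀ u, φ u ≠ 0 → ¬ P u := by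
    rintro u hu ⟨α, β, e⟩
    apply hu
    rw [e, map_add, map_smul, map_smul, hφ.zx, hφ.zx']
    simp
  by_cases hex0 : ∃ t0 ∈ K, 0 < φ t0
  · obtain ⟨t0, ht0, ht0'⟩ := hex0
    have hcmp : ∀ u ∈ K, 0 < φ u → ∃ γ : ℝ, 0 < γ ∧ G u = γ * G t0 := by
      intro u hu hu'
      obtain ⟨α, β, γ, e⟩ := hφ.span3 u (hΨ hu) t0 (hΨ ht0) ht0'.ne'
      refine ⟨γ, ?_, ?_⟩
      · have h8 : φ u = γ * φ t0 := by
          rw [e, map_add, map_add, map_smul, map_smul, map_smul, hφ.zx, hφ.zx']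
          simp
        rw [h8] at hu'
        exact pos_of_mul_pos_left hu' ht0'.le
      · rw [e, map_add, map_add, map_smul, map_smul, map_smul, hGx, hGx']
        simp
    by_cases h8 : t0 ∈ S
    · left
      intro u hu hu'
      obtain ⟨γ, hγ, e⟩ := hcmp u hu hu'
      have h9 := hGpos t0 ht0 (hφP t0 ht0'.ne') h8
      by_contra h10
      have h11 := hGneg u hu (hφP u hu'.ne') h10
      have := mul_pos hγ h9
      linarith
    · right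
      intro u hu hu' h10
      obtain ⟨γ, hγ, e⟩ := hcmp u hu hu'
      have h9 := hGneg t0 ht0 (hφP t0 ht0'.ne') h8
      have h11 := hGpos u hu (hφP u hu'.ne') h10
      have := mul_neg_of_pos_of_neg hγ h9
      linarith
  · left
    intro u hu hu'
    exact absurd ⟨u, hu, hu'⟩ hex0

end

end DY
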