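import Pool.Agent.Helper70.DY.G5

/-!
# Case A: a root off the plane on the boundary of the ball (MP_d13a5e_al)
-/

namespace DY

open Set

variable {E : Type*} [AddCommGroup E] [Module ℝ E]

section

variable {Ψ K S : Set E} {B : E →ₗ[ℝ] E →ₗ[ℝ] ℝ} {ρ φ : E →ₗ[ℝ] ℝ} {a b c x x' : E} {R : ℝ}

/-- the plane of `x` and `t` contains no further element of `K` -/
theorem plane_x (hS : Sys Ψ B) (hK : ∀ u, u ∈ K ↔ u ∈ Ψ ∧ |ρ u| ≤ R) (hSg : Sg K S)
    (hx : x ∈ Ψ) (ht : Tg K S x) (hφx : φ x = 0) {t k : E} (htΨ : t ∈ Ψ)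
    (htK : t ∈ K) (hφt : 0 < φ t) (hall : ∀ u ∈ K, 0 < φ u → u ≠ t → (u ∈ S ↔ k ∈ S))
    (hne : ¬ (t ∈ S ↔ k ∈ S)) : ∀ u ∈ K, (∃ α β : ℝ, u = α • x + β • t) →
    u = x ∨ u = -x ∨ u = t ∨ u = -t := by
  have hΨ : K ⊆ Ψ := fun u hu => ((hK u).mp hu).1
  have hsym : ∀ u ∈ K, -u ∈ K := by
    intro u hu
    rw [hK] at hu ⊢
    exact ⟨hS.neg u hu.1, by rw [map_neg, abs_neg]; exact hu.2⟩
  have hnx : ∀ u, 0 < φ u → u ≠ x ∧ u ≠ -x := by
    intro u hu
    constructor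
    · rintro rfl
      rw [hφx] at hu
      exact lt_irrefl _ hu
    · rintro rfl
      rw [map_neg, hφx, neg_zero] at hu
      exact lt_irrefl _ hu
  have key : ∀ u ∈ K, ∀ α β : ℝ, 0 < β → u = α • x + β • t → u = t := by
    intro u hu α β hβ e
    by_contra hut
    have h1 : φ u = β * φ t := by
      rw [e, map_add, map_smul, map_smul, hφx]
      simp
    have h2 : 0 < φ u := by
      rw [h1]
      positivity
    have h3 := hall u hu h2 hut
    have h4 : t ∈ S ↔ u ∈ S := hSg.toggle hS hΨ ht htK hu (hnx t hφt).1 (hnx t hφt).2 (hnx u h2).1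
      (hnx u h2).2 hβ (by rw [e]; module)
    exact hne (h4.trans h3)
  rintro u hu ⟨α, β, e⟩
  rcases lt_trichotomy β 0 with hβ | hβ | hβ
  · have := key (-u) (hsym u hu) (-α) (-β) (by linarith) (by rw [e]; module)
    right; right; right
    rw [← this, neg_neg]
  · have h1 : u = α • x := by rw [e, hβ]; module
    rcases hS.smul_eq' hx (hΨ hu) h1 with h2 | h2
    · exact Or.inl h2
    · exact Or.inr (Or.inl h2)
  · exact Or.inr (Or.inr (Or.inl (key u hu α β hβ e)))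

/-- `x` and `t` are canonical -/
theorem canon_x (hS : Sys Ψ B) (hC : Cn Ψ B ρ) (hK : ∀ u, u ∈ K ↔ u ∈ Ψ ∧ |ρ u| ≤ R)
    (hx : x ∈ Ψ) (hx0 : 0 < ρ x) (hxR : ρ x < R) {t : E} (ht : t ∈ Ψ) (htR : ρ t = R)
    (hxt : ∀ s : ℝ, t ≠ s • x)
    (hpl : ∀ u ∈ K, (∃ α β : ℝ, u = α • x + β • t) → u = x ∨ u = -x ∨ u = t ∨ u = -t) :
    Canon Ψ x t := by
  have hR : 0 < R := hx0.trans hxR
  have hxt' : x ≠ t := fun h => hxt 1 (by rw [h, one_smul])
  have hsmall : ∀ p ∈ Ψ, (∃ α β : ℝ, p = α • x + β • t) → 0 < ρ p → ρ p < R → p = x := by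
    intro p hp hp1 hp2 hp3
    rcases hpl p ((hK p).mpr ⟨hp, by rw [abs_of_pos hp2]; exact hp3.le⟩) hp1 with e | e | e | e
    · exact e
    · rw [e, map_neg] at hp2
      linarith
    · rw [e, htR] at hp3
      exact absurd hp3 (lt_irrefl _)
    · rw [e, map_neg] at hp2
      linarith
  obtain ⟨p, hp, q, hq, hpq, hp1, hq1, hp2, hq2, hcan, hall⟩ := hC.canon_pair hS hx ht hxt
    (fun w hw hw' h0 => by
      rcases hpl w ((hK w).mpr ⟨hw, by rw [h0, abs_zero]; exact hR.le⟩) hw' with e | e | e | e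
      · rw [e] at h0
        linarith
      · rw [e, map_neg] at h0
        linarith
      · rw [e] at h0
        linarith
      · rw [e, map_neg] at h0
        linarith)
  obtain ⟨α, β, e1, h1⟩ := hall t ht ⟨0, 1, by module⟩ (by rw [htR]; exact hR)
  obtain ⟨α', β', e2, h2⟩ := hall x hx ⟨1, 0, by module⟩ hx0
  have hρt : ρ t = α * ρ p + β * ρ q := by
    rw [e1, map_add, map_smul, map_smul, smul_eq_mul, smul_eq_mul]
  have hρx : ρ x = α' * ρ p + β' * ρ q := by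
    rw [e2, map_add, map_smul, map_smul, smul_eq_mul, smul_eq_mul]
  rcases h1 with ⟨h3, h4⟩ | ⟨h3, h4⟩ | ⟨h3, h4⟩
  · have et : t = q := by rw [e1, h3, h4]; module
    rcases h2 with ⟨h5, h6⟩ | ⟨h5, h6⟩ | ⟨h5, h6⟩
    · exfalso
      apply hxt'
      rw [e2, h5, h6, et]
      module
    · have ex : x = p := by rw [e2, h5, h6]; module
      rw [ex, et]
      exact hcan
    · exfalso
      rw [← et, htR] at hρx
      nlinarith
  · have et : t = p := by rw [e1, h3, h4]; module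
    rcases h2 with ⟨h5, h6⟩ | ⟨h5, h6⟩ | ⟨h5, h6⟩
    · have ex : x = q := by rw [e2, h5, h6]; module
      rw [ex, et]
      exact hcan.symm
    · exfalso
      apply hxt'
      rw [e2, h5, h6, et]
      module
    · exfalso
      rw [← et, htR] at hρx
      nlinarith
  · exfalso
    apply hpq
    rw [hsmall p hp hp1 hp2 (by nlinarith), hsmall q hq hq1 hq2 (by nlinarith)]

theorem caseA (hT : Tri Ψ B a b c) (hStar : StarS Ψ a b c) (hA : Adm Ψ a b c ρ)
    (hK : ∀ u, u ∈ K ↔ u ∈ Ψ ∧ |ρ u| ≤ R) (hSg : Sg K S) (hx : x ∈ Ψ) (hx' : x' ∈ Ψ)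
    (hxx : x ≠ x') (hx0 : 0 < ρ x) (hx'0 : 0 < ρ x') (hcan : Canon Ψ x x')
    (hxR : ρ x + ρ x' ≤ R) (ht : Tg K S x) (ht' : Tg K S x') (hφ : Fn Ψ x x' φ) {t k : E}
    (htΨ : t ∈ Ψ) (htR : ρ t = R) (hφt : 0 < φ t) (hk : k ∈ K) (hφk : 0 < φ k) (hkt : k ≠ t)
    (hall : ∀ u ∈ K, 0 < φ u → u ≠ t → (u ∈ S ↔ k ∈ S)) (hne : ¬ (t ∈ S ↔ k ∈ S)) : False := by
  have hS := hT.sys
  have hC := hA.cn hT
  have hR : 0 < R := by linarith
  have hΨ : K ⊆ Ψ := fun u hu => ((hK u).mp hu).1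
  have hsym : ∀ u ∈ K, -u ∈ K := by
    intro u hu
    rw [hK] at hu ⊢
    exact ⟨hS.neg u hu.1, by rw [map_neg, abs_neg]; exact hu.2⟩
  have htK : t ∈ K := (hK t).mpr ⟨htΨ, by rw [htR, abs_of_pos hR]⟩
  have p1 := plane_x hS hK hSg hx ht hφ.zx htΨ htK hφt hall hne
  have p2 := plane_x hS hK hSg hx' ht' hφ.zx' htΨ htK hφt hall hne
  have n1 : ∀ s : ℝ, t ≠ s • x := by
    intro s e
    rw [e, map_smul, hφ.zx, smul_zero] at hφt
    exact lt_irrefl _ hφt
  have n2 : ∀ s : ℝ, t ≠ s • x' := by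
    intro s e
    rw [e, map_smul, hφ.zx', smul_zero] at hφt
    exact lt_irrefl _ hφt
  have c1 := canon_x hS hC hK hx hx0 (by linarith) htΨ htR n1 p1
  have c2 := canon_x hS hC hK hx' hx'0 (by linarith) htΨ htR n2 p2
  have hxx' : x ≠ -x' := by
    intro e
    rw [e, map_neg] at hx0
    linarith
  have hind : ∀ α β γ : ℝ, α • x + β • x' + γ • t = 0 → α = 0 ∧ β = 0 ∧ γ = 0 := by
    intro α β γ h
    have h1 := congrArg φ h
    rw [map_add, map_add, map_smul, map_smul, map_smul, hφ.zx, hφ.zx', map_zero, smul_zero,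
      smul_zero, zero_add, zero_add, smul_eq_mul] at h1
    have h2 : γ = 0 := by
      rcases mul_eq_zero.mp h1 with h2 | h2
      · exact h2
      · linarith
    rw [h2, zero_smul, add_zero] at h
    obtain ⟨h3, h4⟩ := hS.indepC hx hx' hxx hxx' α β h
    exact ⟨h3, h4, h2⟩
  have hkt' : k ≠ -t := by
    rintro rfl
    rw [map_neg] at hφk
    linarith
  have hkx : ∀ y, φ y = 0 → k ≠ y ∧ k ≠ -y := by
    intro y hy
    constructor
    · rintro rfl
      linarith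
    · rintro rfl
      rw [map_neg] at hφk
      linarith
  obtain ⟨g, hg, h, hh, hgt, hht, hρg, hρh, hb, ⟨α1, β1, γ1, hγ1, e1⟩, ⟨α2, β2, γ2, hγ2, e2⟩⟩ :=
    hStar ρ hA x hx x' hx' t htΨ hind hcan c1 c2 hx0.le hx'0.le (add_pos hx0 hx'0)
      (by rw [htR]; exact hR)
      (by rw [htR]; exact hxR) k (hΨ hk) (by rw [htR]; exact ((hK k).mp hk).2)
      (fun α β e => by
        rw [e, map_add, map_smul, map_smul, hφ.zx, hφ.zx', smul_zero, smul_zero, zero_add] at hφk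
        exact lt_irrefl _ hφk)
      (fun α β e => by
        rcases p1 k hk ⟨α, β, e⟩ with h1 | h1 | h1 | h1
        · exact (hkx x hφ.zx).1 h1
        · exact (hkx x hφ.zx).2 h1
        · exact hkt h1
        · exact hkt' h1)
      (fun α β e => by
        rcases p2 k hk ⟨α, β, e⟩ with h1 | h1 | h1 | h1
        · exact (hkx x' hφ.zx').1 h1
        · exact (hkx x' hφ.zx').2 h1
        · exact hkt h1
        · exact hkt' h1)
  have hφ1 : 0 < φ g := by
    rw [e1, map_add, map_add, map_smul, map_smul, map_smul, hφ.zx, hφ.zx', smul_zero, smul_zero,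
      zero_add, zero_add, smul_eq_mul]
    positivity
  have hφ2 : 0 < φ h := by
    rw [e2, map_add, map_add, map_smul, map_smul, map_smul, hφ.zx, hφ.zx', smul_zero, smul_zero,
      zero_add, zero_add, smul_eq_mul]
    positivity
  have hgK : g ∈ K := (hK g).mpr ⟨hg, by rw [← htR]; exact hρg⟩
  have hhK : h ∈ K := (hK h).mpr ⟨hh, by rw [← htR]; exact hρh⟩
  have s1 := hall g hgK hφ1 hgt
  have s2 := hall h hhK hφ2 hht
  by_cases hkS : k ∈ S
  · exact hne ⟨fun _ => hkS, fun _ => hSg.cl g (s1.mpr hkS) h (s2.mpr hkS) t htK hb⟩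
  · have h3 := hSg.cl' hsym hgK hhK htK (fun h => hkS (s1.mp h)) (fun h => hkS (s2.mp h)) hb
    exact hne ⟨fun h => absurd h h3, fun h => absurd h hkS⟩

end

end DY
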