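import Pool.Agent.Helper70.DY.G6
import Pool.Agent.Helper21.DY.O

/-!
# Balls around moved centres (adapters)
-/

namespace DY

open Set

variable {E : Type*} [AddCommGroup E] [Module ℝ E]
variable {Ψ : Set E} {B : E →ₗ[ℝ] E →ₗ[ℝ] ℝ} {ρ : E →ₗ[ℝ] ℝ} {a b c : E}

theorem ball_shr (hT : Tri Ψ B a b c) (hA : Adm Ψ a b c ρ) {t : E} {R : ℝ} (ht : t ∈ Ψ)
    (htR : ρ t = R) (hR : 0 < R) : ∃ δ0 : ℝ, 0 < δ0 ∧ δ0 < R ∧ ∀ δ, 0 < δ → δ ≤ δ0 →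
      ∀ u, (u ∈ Ψ ∧ |ρ u - δ * B t u| ≤ R - δ) ↔ (u ∈ Ψ ∧ (|ρ u| < R ∨ u = t ∨ u = -t)) := by
  obtain ⟨δ0, h1, h2, h3⟩ := Adm.shr hT hA ht htR hR
  exact ⟨δ0, h1, h2, h3⟩

theorem ball_opn (hT : Tri Ψ B a b c) (hA : Adm Ψ a b c ρ) {t : E} {R : ℝ} (ht : t ∈ Ψ)
    (ht0 : 0 < ρ t) (hR : 0 ≤ R) : ∃ δ0 : ℝ, 0 < δ0 ∧ ∀ δ, 0 ≤ δ → δ ≤ δ0 → ∃ R', 0 ≤ R' ∧
      ∀ u, (u ∈ Ψ ∧ |ρ u| ≤ R) ↔ (u ∈ Ψ ∧ |ρ u - δ * B t u| ≤ R') := by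
  obtain ⟨δ0, h1, h2⟩ := Adm.opn hT hA ht ht0 hR
  exact ⟨δ0, h1, h2⟩

theorem four (hT : Tri Ψ B a b c) (hA : Adm Ψ a b c ρ) {x x' t1 t2 : E} {R : ℝ} (hx : x ∈ Ψ)
    (hx' : x' ∈ Ψ) (hxx : x ≠ x') (hcan : Canon Ψ x x') (hx0 : 0 < ρ x) (hx'0 : 0 < ρ x')
    (hxR : ρ x < R) (hx'R : ρ x' < R)
    (hF : ∀ u ∈ Ψ, |ρ u| < R → ∃ α β : ℝ, u = α • x + β • x') (h1 : t1 ∈ Ψ) (h2 : t2 ∈ Ψ)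
    (h1F : ∀ α β : ℝ, t1 ≠ α • x + β • x') (h2F : ∀ α β : ℝ, t2 ≠ α • x + β • x')
    (h1R : ρ t1 = R) (h2R : ρ t2 = R) : t1 = t2 :=
  Adm.four hT hA hx hx' hcan hxx hx0 hx'0 hxR hx'R hF h1 h2 h1F h2F h1R h2R

end DY
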