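import Pool.Agent.Helper70.DY.G6b

/-!
# Constancy off the plane: the induction (MP_d13a5e_al)
-/

namespace DY

open Set

variable {E : Type*} [AddCommGroup E] [Module ℝ E]

/-- constancy off the plane on a ball -/
def Eqv (K S : Set E) (φ : E →ₗ[ℝ] ℝ) : Prop :=
  ∀ u ∈ K, ∀ v ∈ K, 0 < φ u → 0 < φ v → (u ∈ S ↔ v ∈ S)

/-- third roots -/
def Th (x x' w : E) : Prop := ∃ α β : ℝ, α ≠ 0 ∧ β ≠ 0 ∧ w = α • x + β • x'

/-- the situation of the induction step -/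
structure Dt (Ψ K S : Set E) (B : E →ₗ[ℝ] E →ₗ[ℝ] ℝ) (a b c x x' : E) (φ : E →ₗ[ℝ] ℝ) : Prop where
  tri : Tri Ψ B a b c
  star : StarS Ψ a b c
  sg : Sg K S
  hx : x ∈ Ψ
  hx' : x' ∈ Ψ
  hxx : x ≠ x'
  can : Canon Ψ x x'
  tg : Tg K S x
  tg' : Tg K S x'
  fn : Fn Ψ x x' φ
  red : ∀ (ρ : E →ₗ[ℝ] ℝ) (R : ℝ) (K' : Set E), Adm Ψ a b c ρ →
    (∀ u, u ∈ K' ↔ u ∈ Ψ ∧ |ρ u| ≤ R) → K' ⊆ K → K' ≠ K → 0 < ρ x → 0 < ρ x' →
    (∃ w ∈ K', Th x x' w) → Eqv K' S φ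

namespace Dt

variable {Ψ K S : Set E} {B : E →ₗ[ℝ] E →ₗ[ℝ] ℝ} {a b c x x' : E} {φ : E →ₗ[ℝ] ℝ}
  (h : Dt Ψ K S B a b c x x' φ)

include h

theorem th_neg {w : E} (hw : Th x x' w) : Th x x' (-w) := by
  obtain ⟨α, β, h1, h2, e⟩ := hw
  exact ⟨-α, -β, neg_ne_zero.mpr h1, neg_ne_zero.mpr h2, by rw [e]; module⟩

theorem th_pos {ρ : E →ₗ[ℝ] ℝ} (hx0 : 0 < ρ x) (hx'0 : 0 < ρ x') {w : E} (hwΨ : w ∈ Ψ)
    (hw : Th x x' w) (hw0 : 0 < ρ w) : ∃ α β : ℝ, 1 ≤ α ∧ 1 ≤ β ∧ w = α • x + β • x' := by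
  obtain ⟨α, β, h1, h2, e⟩ := hw
  have h3 : ρ w = α * ρ x + β * ρ x' := by
    rw [e, map_add, map_smul, map_smul, smul_eq_mul, smul_eq_mul]
  rcases h.can w hwΨ α β e with (⟨h4, h5⟩ | ⟨h4, h5⟩ | ⟨h4, h5⟩) |
    (⟨h4, h5⟩ | ⟨h4, h5⟩ | ⟨h4, h5⟩)
  · exact absurd h4 h1
  · exact absurd h5 h2
  · exact ⟨α, β, h4, h5, e⟩
  · exact absurd (neg_eq_zero.mp h4) h1
  · exact absurd (neg_eq_zero.mp h5) h2
  · nlinarith

theorem th_abs {ρ : E →ₗ[ℝ] ℝ} (hx0 : 0 < ρ x) (hx'0 : 0 < ρ x') {w : E} (hwΨ : w ∈ Ψ)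
    (hw : Th x x' w) : ρ x + ρ x' ≤ |ρ w| := by
  have key : ∀ w ∈ Ψ, Th x x' w → 0 < ρ w → ρ x + ρ x' ≤ ρ w := by
    intro w hwΨ hw h0
    obtain ⟨α, β, h1, h2, e⟩ := h.th_pos hx0 hx'0 hwΨ hw h0
    have h3 : ρ w = α * ρ x + β * ρ x' := by
      rw [e, map_add, map_smul, map_smul, smul_eq_mul, smul_eq_mul]
    nlinarith
  rcases lt_trichotomy (ρ w) 0 with h1 | h1 | h1
  · rw [abs_of_neg h1]
    have := key (-w) (h.tri.neg w hwΨ) (h.th_neg hw) (by rw [map_neg]; linarith)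
    rwa [map_neg] at this
  · exfalso
    obtain ⟨α, β, h2, h3, e⟩ := hw
    have h4 : ρ w = α * ρ x + β * ρ x' := by
      rw [e, map_add, map_smul, map_smul, smul_eq_mul, smul_eq_mul]
    rcases h.can w hwΨ α β e with (⟨h5, h6⟩ | ⟨h5, h6⟩ | ⟨h5, h6⟩) |
      (⟨h5, h6⟩ | ⟨h5, h6⟩ | ⟨h5, h6⟩)
    · exact h2 h5
    · exact h3 h6
    · nlinarith
    · exact h2 (neg_eq_zero.mp h5)
    · exact h3 (neg_eq_zero.mp h6)
    · nlinarith
  · rw [abs_of_pos h1]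
    exact key w hwΨ hw h1

theorem th_phi {w : E} (hw : Th x x' w) : φ w = 0 := by
  obtain ⟨α, β, -, -, e⟩ := hw
  rw [e, map_add, map_smul, map_smul, h.fn.zx, h.fn.zx']
  simp

/-- negative statuses -/
theorem stat_neg (hsym : ∀ u ∈ K, -u ∈ K) {u v : E} (hu : u ∈ K) (hv : v ∈ K) :
    (u ∈ S ↔ v ∈ S) ↔ (-u ∈ S ↔ -v ∈ S) := by
  rw [h.sg.neg_mem hsym hu, h.sg.neg_mem hsym hv]
  tauto

/-- Case A for both signs of `ρ t` -/
theorem caseA' {ρ : E →ₗ[ℝ] ℝ} {R : ℝ} (hA : Adm Ψ a b c ρ) (hK : ∀ u, u ∈ K ↔ u ∈ Ψ ∧ |ρ u| ≤ R)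
    (hx0 : 0 < ρ x) (hx'0 : 0 < ρ x') (hxR : ρ x + ρ x' ≤ R) {t k : E} (htK : t ∈ K)
    (htR : |ρ t| = R) (hφt : 0 < φ t) (hk : k ∈ K) (hφk : 0 < φ k)
    (hall : ∀ u ∈ K, 0 < φ u → u ≠ t → (u ∈ S ↔ k ∈ S)) : t ∈ S ↔ k ∈ S := by
  have hsym : ∀ u ∈ K, -u ∈ K := by
    intro u hu
    rw [hK] at hu ⊢
    exact ⟨h.tri.neg u hu.1, by rw [map_neg, abs_neg]; exact hu.2⟩
  by_contra hne
  have hkt : k ≠ t := by
    rintro rfl
    exact hne Iff.rfl
  rcases abs_choice (ρ t) with h1 | h1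
  · exact caseA h.tri h.star hA hK h.sg h.hx h.hx' h.hxx hx0 hx'0 h.can hxR h.tg h.tg' h.fn
      ((hK t).mp htK).1 (by rw [← h1, htR]) hφt hk hφk hkt hall hne
  · have hfn : Fn Ψ x x' (-φ) := by
      refine ⟨by simp [h.fn.zx], by simp [h.fn.zx'], fun u hu h2 => h.fn.ker u hu ?_,
        fun u hu v hv h2 => h.fn.span3 u hu v hv ?_⟩
      · rw [LinearMap.neg_apply] at h2
        linarith
      · rw [LinearMap.neg_apply] at h2
        intro h3
        apply h2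
        rw [h3, neg_zero]
    refine caseA h.tri h.star hA hK h.sg h.hx h.hx' h.hxx hx0 hx'0 h.can hxR h.tg h.tg' hfn
      (t := -t) (k := -k) ((hK _).mp (hsym t htK)).1 (by rw [map_neg, ← h1, htR]) ?_ (hsym k hk) ?_
      (fun e => hkt (neg_injective e)) ?_ ?_
    · rw [LinearMap.neg_apply, map_neg, neg_neg]
      exact hφt
    · rw [LinearMap.neg_apply, map_neg, neg_neg]
      exact hφk
    · intro u hu h2 h3
      have h4 := hall (-u) (hsym u hu) (by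
        rw [map_neg]
        rwa [LinearMap.neg_apply] at h2) (fun e => h3 (by rw [← e, neg_neg]))
      have h5 := (h.stat_neg hsym (hsym u hu) hk).mp h4
      rwa [neg_neg] at h5
    · intro h2
      exact hne ((h.stat_neg hsym htK hk).mpr h2)

theorem exists_smaller {ρ : E →ₗ[ℝ] ℝ} {R : ℝ} (hA : Adm Ψ a b c ρ) :
    ∃ R1, ∀ u, u ∈ Ψ → (|ρ u| ≤ R1 ↔ |ρ u| < R) := by
  by_cases hne : ({u | u ∈ Ψ ∧ |ρ u| < R} : Set E).Nonempty
  · obtain ⟨m, ⟨hm1, hm2⟩, hm⟩ := Set.exists_max_image {u | u ∈ Ψ ∧ |ρ u| < R} (fun u => |ρ u|)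
      ((hA.fin R).subset fun u hu => ⟨hu.1, hu.2.le⟩) hne
    refine ⟨|ρ m|, fun u hu => ⟨fun h1 => h1.trans_lt hm2, fun h1 => hm u ⟨hu, h1⟩⟩⟩
  · refine ⟨-1, fun u hu => ⟨fun h1 => ?_, fun h1 => ?_⟩⟩
    · have := abs_nonneg (ρ u)
      linarith
    · exact absurd ⟨u, hu, h1⟩ hne

/-- a third root inside and a root of the boundary -/
theorem caseE {ρ : E →ₗ[ℝ] ℝ} {R : ℝ} (hA : Adm Ψ a b c ρ) (hK : ∀ u, u ∈ K ↔ u ∈ Ψ ∧ |ρ u| ≤ R)
    (hx0 : 0 < ρ x) (hx'0 : 0 < ρ x') {w m : E} (hw : w ∈ Ψ) (hwT : Th x x' w) (hwR : |ρ w| < R)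
    (hm : m ∈ Ψ) (hmR : |ρ m| = R) : Eqv K S φ := by
  have hsym : ∀ u ∈ K, -u ∈ K := by
    intro u hu
    rw [hK] at hu ⊢
    exact ⟨h.tri.neg u hu.1, by rw [map_neg, abs_neg]; exact hu.2⟩
  have hxR : ρ x + ρ x' < R := (h.th_abs hx0 hx'0 hw hwT).trans_lt hwR
  have hR : 0 < R := by linarith
  -- the open ball
  obtain ⟨R1, hR1⟩ := h.exists_smaller (R := R) hA
  have hopen : Eqv {u | u ∈ Ψ ∧ |ρ u| < R} S φ := by
    refine h.red ρ R1 _ hA (fun u => ?_) (fun u hu => ?_) ?_ hx0 hx'0 ⟨w, ⟨hw, hwR⟩, hwT⟩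
    · constructor
      · rintro ⟨h1, h2⟩
        exact ⟨h1, (hR1 u h1).mpr h2⟩
      · rintro ⟨h1, h2⟩
        exact ⟨h1, (hR1 u h1).mp h2⟩
    · exact (hK u).mpr ⟨hu.1, hu.2.le⟩
    · intro e
      have h1 : m ∈ K := (hK m).mpr ⟨hm, hmR.le⟩
      rw [← e] at h1
      exact absurd h1.2 (by rw [hmR]; exact lt_irrefl _)
  -- adding one boundary root
  have hadd : ∀ t ∈ Ψ, |ρ t| = R → (∃ m' ∈ Ψ, |ρ m'| = R ∧ m' ≠ t ∧ m' ≠ -t) →
      Eqv {u | u ∈ Ψ ∧ (|ρ u| < R ∨ u = t ∨ u = -t)} S φ := by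
    have key : ∀ t ∈ Ψ, ρ t = R → (∃ m' ∈ Ψ, |ρ m'| = R ∧ m' ≠ t ∧ m' ≠ -t) →
        Eqv {u | u ∈ Ψ ∧ (|ρ u| < R ∨ u = t ∨ u = -t)} S φ := by
      rintro t ht htR ⟨m', hm', hmR', h1, h2⟩
      obtain ⟨δ0, hδ0, hδR, hδ⟩ := ball_shr h.tri hA ht htR hR
      -- a small delta
      obtain ⟨δ, hδ1, hδ2, hδ3, hδ4⟩ : ∃ δ, 0 < δ ∧ δ ≤ δ0 ∧ δ * |B t x| < ρ x ∧
          δ * |B t x'| < ρ x' := by
        refine ⟨min δ0 (min (ρ x / (|B t x| + 1)) (ρ x' / (|B t x'| + 1))), ?_, min_le_left _ _,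
          ?_, ?_⟩
        · have := abs_nonneg (B t x)
          have := abs_nonneg (B t x')
          refine lt_min hδ0 (lt_min ?_ ?_) <;> positivity
        · have h3 := abs_nonneg (B t x)
          have h4 : min δ0 (min (ρ x / (|B t x| + 1)) (ρ x' / (|B t x'| + 1))) ≤
              ρ x / (|B t x| + 1) := (min_le_right _ _).trans (min_le_left _ _)
          refine (mul_le_mul_of_nonneg_right h4 h3).trans_lt ?_
          rw [div_mul_eq_mul_div, div_lt_iff₀ (by linarith)]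
          nlinarith
        · have h3 := abs_nonneg (B t x')
          have h4 : min δ0 (min (ρ x / (|B t x| + 1)) (ρ x' / (|B t x'| + 1))) ≤
              ρ x' / (|B t x'| + 1) := (min_le_right _ _).trans (min_le_right _ _)
          refine (mul_le_mul_of_nonneg_right h4 h3).trans_lt ?_
          rw [div_mul_eq_mul_div, div_lt_iff₀ (by linarith)]
          nlinarith
      have hball := hδ δ hδ1 hδ2
      refine h.red (ρ - δ • B t) (R - δ) _ (hA.move h.tri ht hδ1.le (by rw [htR]; linarith))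
        (fun u => ?_) (fun u hu => ?_) ?_ ?_ ?_ ⟨w, ⟨hw, Or.inl hwR⟩, hwT⟩
      · rw [LinearMap.sub_apply, LinearMap.smul_apply, smul_eq_mul]
        exact (hball u).symm
      · rw [hK]
        rcases hu with ⟨h3, h4 | h4 | h4⟩
        · exact ⟨h3, h4.le⟩
        · rw [h4, htR, abs_of_pos hR]
          exact ⟨ht, le_rfl⟩
        · rw [h4, map_neg, abs_neg, htR, abs_of_pos hR]
          exact ⟨h.tri.neg t ht, le_rfl⟩
      · intro e
        have h3 : m' ∈ K := (hK m').mpr ⟨hm', hmR'.le⟩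
        rw [← e] at h3
        rcases h3.2 with h4 | h4 | h4
        · rw [hmR'] at h4
          exact lt_irrefl _ h4
        · exact h1 h4
        · exact h2 h4
      · rw [LinearMap.sub_apply, LinearMap.smul_apply, smul_eq_mul]
        have := le_abs_self (B t x)
        nlinarith
      · rw [LinearMap.sub_apply, LinearMap.smul_apply, smul_eq_mul]
        have := le_abs_self (B t x')
        nlinarith
    rintro t ht htR ⟨m', hm', hmR', h1, h2⟩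
    rcases abs_choice (ρ t) with h3 | h3
    · exact key t ht (by rw [← h3, htR]) ⟨m', hm', hmR', h1, h2⟩
    · have h4 := key (-t) (h.tri.neg t ht) (by rw [map_neg, ← h3, htR])
        ⟨m', hm', hmR', h2, by rwa [neg_neg]⟩
      rw [neg_neg] at h4
      intro u hu v hv
      exact h4 u ⟨hu.1, hu.2.elim Or.inl fun h5 => Or.inr h5.symm⟩ v
        ⟨hv.1, hv.2.elim Or.inl fun h5 => Or.inr h5.symm⟩
  by_cases hk0 : ∃ k0 ∈ Ψ, |ρ k0| < R ∧ 0 < φ k0
  · obtain ⟨k0, hk0, hk0R, hk0φ⟩ := hk0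
    have hk0K : k0 ∈ K := (hK k0).mpr ⟨hk0, hk0R.le⟩
    have hmain : ∀ u ∈ K, 0 < φ u → (u ∈ S ↔ k0 ∈ S) := by
      intro u hu hu'
      have huK := (hK u).mp hu
      rcases huK.2.lt_or_eq with h1 | h1
      · exact hopen u ⟨huK.1, h1⟩ k0 ⟨hk0, hk0R⟩ hu' hk0φ
      · by_cases hoth : ∃ m' ∈ Ψ, |ρ m'| = R ∧ m' ≠ u ∧ m' ≠ -u
        · exact hadd u huK.1 h1 hoth u ⟨huK.1, Or.inr (Or.inl rfl)⟩ k0 ⟨hk0, Or.inl hk0R⟩ hu' hk0φ
        · refine h.caseA' hA hK hx0 hx'0 hxR.le hu h1 hu' hk0K hk0φ fun v hv hv' hvu => ?_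
          have hvK := (hK v).mp hv
          rcases hvK.2.lt_or_eq with h2 | h2
          · exact hopen v ⟨hvK.1, h2⟩ k0 ⟨hk0, hk0R⟩ hv' hk0φ
          · exfalso
            apply hoth
            refine ⟨v, hvK.1, h2, hvu, ?_⟩
            rintro rfl
            rw [map_neg] at hv'
            linarith
    intro u hu v hv hu' hv'
    exact (hmain u hu hu').trans (hmain v hv hv').symm
  · -- all roots of the open ball lie in the plane
    have hF : ∀ u ∈ Ψ, |ρ u| < R → ∃ α β : ℝ, u = α • x + β • x' := by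
      intro u hu hu'
      refine h.fn.ker u hu ?_
      rcases lt_trichotomy (φ u) 0 with h1 | h1 | h1
      · exact absurd ⟨-u, h.tri.neg u hu, by rwa [map_neg, abs_neg], by rw [map_neg]; linarith⟩ hk0
      · exact h1
      · exact absurd ⟨u, hu, hu', h1⟩ hk0
    have hoff : ∀ u, φ u ≠ 0 → ∀ α β : ℝ, u ≠ α • x + β • x' := by
      intro u hu α β e
      apply hu
      rw [e, map_add, map_smul, map_smul, h.fn.zx, h.fn.zx']
      simp
    intro u hu v hv hu' hv'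
    have huK := (hK u).mp hu
    have hvK := (hK v).mp hv
    have hu1 : |ρ u| = R := by
      rcases huK.2.lt_or_eq with h1 | h1
      · exact absurd ⟨u, huK.1, h1, hu'⟩ hk0
      · exact h1
    have hv1 : |ρ v| = R := by
      rcases hvK.2.lt_or_eq with h1 | h1
      · exact absurd ⟨v, hvK.1, h1, hv'⟩ hk0
      · exact h1
    have key : ∀ u v, u ∈ Ψ → v ∈ Ψ → φ u ≠ 0 → φ v ≠ 0 → ρ u = R → ρ v = R → u = v :=
      fun u v h1 h2 h3 h4 h5 h6 => four h.tri hA h.hx h.hx' h.hxx h.can hx0 hx'0 (by linarith)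
        (by linarith) hF h1 h2 (hoff u h3) (hoff v h4) h5 h6
    have huv : u = v := by
      rcases abs_choice (ρ u) with h1 | h1
      · rcases abs_choice (ρ v) with h2 | h2
        · exact key u v huK.1 hvK.1 hu'.ne' hv'.ne' (by rw [← h1, hu1]) (by rw [← h2, hv1])
        · exfalso
          have := key u (-v) huK.1 (h.tri.neg v hvK.1) hu'.ne' (by rw [map_neg]; linarith)
            (by rw [← h1, hu1]) (by rw [map_neg, ← h2, hv1])
          rw [this, map_neg] at hu'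
          linarith
      · rcases abs_choice (ρ v) with h2 | h2
        · exfalso
          have := key (-u) v (h.tri.neg u huK.1) hvK.1 (by rw [map_neg]; linarith) hv'.ne'
            (by rw [map_neg, ← h1, hu1]) (by rw [← h2, hv1])
          rw [← this, map_neg] at hv'
          linarith
        · have := key (-u) (-v) (h.tri.neg u huK.1) (h.tri.neg v hvK.1)
            (by rw [map_neg]; linarith) (by rw [map_neg]; linarith)
            (by rw [map_neg, ← h1, hu1]) (by rw [map_neg, ← h2, hv1])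
          exact neg_injective this
    rw [huv]

end Dt

end DY
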