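import Pool.Agent.Helper70.DY.G7

/-!
# Constancy off the plane: the induction, second part (MP_d13a5e_al)
-/

namespace DY

open Set

variable {E : Type*} [AddCommGroup E] [Module ℝ E]

theorem small_delta {δ0 p q y z : ℝ} (hδ0 : 0 < δ0) (hp : 0 < p) (hq : 0 < q) :
    ∃ δ, 0 < δ ∧ δ ≤ δ0 ∧ δ * |y| < p ∧ δ * |z| < q := by
  refine ⟨min δ0 (min (p / (|y| + 1)) (q / (|z| + 1))), ?_, min_le_left _ _, ?_, ?_⟩
  · have := abs_nonneg y
    have := abs_nonneg z
    refine lt_min hδ0 (lt_min ?_ ?_) <;> positivity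
  · have h3 := abs_nonneg y
    have h4 : min δ0 (min (p / (|y| + 1)) (q / (|z| + 1))) ≤ p / (|y| + 1) :=
      (min_le_right _ _).trans (min_le_left _ _)
    refine (mul_le_mul_of_nonneg_right h4 h3).trans_lt ?_
    rw [div_mul_eq_mul_div, div_lt_iff₀ (by linarith)]
    nlinarith
  · have h3 := abs_nonneg z
    have h4 : min δ0 (min (p / (|y| + 1)) (q / (|z| + 1))) ≤ q / (|z| + 1) :=
      (min_le_right _ _).trans (min_le_right _ _)
    refine (mul_le_mul_of_nonneg_right h4 h3).trans_lt ?_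
    rw [div_mul_eq_mul_div, div_lt_iff₀ (by linarith)]
    nlinarith

namespace Dt

variable {Ψ K S : Set E} {B : E →ₗ[ℝ] E →ₗ[ℝ] ℝ} {a b c x x' : E} {φ : E →ₗ[ℝ] ℝ}
  (h : Dt Ψ K S B a b c x x' φ)

include h

/-- the radius can be taken to be attained -/
theorem exists_max {ρ : E →ₗ[ℝ] ℝ} {R : ℝ} (hA : Adm Ψ a b c ρ)
    (hK : ∀ u, u ∈ K ↔ u ∈ Ψ ∧ |ρ u| ≤ R) (hne : K.Nonempty) :
    ∃ R0 m, m ∈ Ψ ∧ |ρ m| = R0 ∧ R0 ≤ R ∧ ∀ u, u ∈ K ↔ u ∈ Ψ ∧ |ρ u| ≤ R0 := by
  have hfin : K.Finite := (hA.fin R).subset fun u hu => (hK u).mp hu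
  obtain ⟨m, hm, hmax⟩ := Set.exists_max_image K (fun u => |ρ u|) hfin hne
  refine ⟨|ρ m|, m, ((hK m).mp hm).1, rfl, ((hK m).mp hm).2, fun u => ⟨fun hu => ?_, fun hu => ?_⟩⟩
  · exact ⟨((hK u).mp hu).1, hmax u hu⟩
  · exact (hK u).mpr ⟨hu.1, hu.2.trans ((hK m).mp hm).2⟩

/-- a third root in the ball and a root of the boundary off the plane -/
theorem caseC {ρ : E →ₗ[ℝ] ℝ} {R : ℝ} (hA : Adm Ψ a b c ρ) (hK : ∀ u, u ∈ K ↔ u ∈ Ψ ∧ |ρ u| ≤ R)
    (hx0 : 0 < ρ x) (hx'0 : 0 < ρ x') {w t : E} (hw : w ∈ Ψ) (hwT : Th x x' w) (hwR : |ρ w| ≤ R)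
    (ht : t ∈ Ψ) (htR : |ρ t| = R) (hφt : φ t ≠ 0) : Eqv K S φ := by
  rcases hwR.lt_or_eq with hwR | hwR
  · exact h.caseE hA hK hx0 hx'0 hw hwT hwR ht htR
  have hxR : ρ x + ρ x' ≤ R := (h.th_abs hx0 hx'0 hw hwT).trans hwR.le
  have hR : 0 < R := by linarith
  have key : ∀ w ∈ Ψ, Th x x' w → ρ w = R → ∀ t ∈ Ψ, φ t ≠ 0 → ρ t = R → Eqv K S φ := by
    intro w hw hwT hwR t ht hφt htR
    have hwt : w ≠ t := by
      rintro rfl
      exact hφt (h.th_phi hwT)
    have hB : B w t < 1 := by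
      by_contra hcon
      refine (hA.cn h.tri).nest h.tri.sys hw ht hwt (not_lt.mp hcon) (by rw [hwR]; exact hR)
        (by rw [hwR, htR]) ?_
      rw [hwR, htR]
      nlinarith [not_lt.mp hcon]
    obtain ⟨δ0, hδ0, hδ⟩ := ball_opn h.tri hA hw (by rw [hwR]; exact hR) hR.le
    obtain ⟨δ1, hδ1, hδ10, hδx, hδx'⟩ := small_delta (δ0 := min δ0 R) (y := B w x) (z := B w x')
      (lt_min hδ0 hR) hx0 hx'0
    obtain ⟨δ, hδp, hδ1', hδt, -⟩ := small_delta (δ0 := δ1) (p := R) (q := 1) (y := B w t) (z := 0)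
      hδ1 hR one_pos
    have hδδ0 : δ ≤ δ0 := hδ1'.trans (hδ10.trans (min_le_left _ _))
    have hδR : δ ≤ R := hδ1'.trans (hδ10.trans (min_le_right _ _))
    obtain ⟨R', hR', hball⟩ := hδ δ hδp.le hδδ0
    have hK' : ∀ u, u ∈ K ↔ u ∈ Ψ ∧ |(ρ - δ • B w) u| ≤ R' := by
      intro u
      rw [hK, LinearMap.sub_apply, LinearMap.smul_apply, smul_eq_mul]
      exact hball u
    have hA' : Adm Ψ a b c (ρ - δ • B w) := hA.move h.tri hw hδp.le (by rw [hwR]; exact hδR)
    obtain ⟨R0, m, hm, hmR, -, hK0⟩ := h.exists_max hA' hK' ⟨w, (hK w).mpr ⟨hw, by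
      rw [hwR, abs_of_pos hR]⟩⟩
    have htK : t ∈ K := (hK t).mpr ⟨ht, by rw [htR, abs_of_pos hR]⟩
    have e1 : |(ρ - δ • B w) t| ≤ R0 := ((hK0 t).mp htK).2
    rw [LinearMap.sub_apply, LinearMap.smul_apply, smul_eq_mul, htR] at e1
    have e2 := le_abs_self (R - δ * B w t)
    refine h.caseE hA' hK0 ?_ ?_ hw hwT ?_ hm hmR
    · rw [LinearMap.sub_apply, LinearMap.smul_apply, smul_eq_mul]
      have := le_abs_self (B w x)
      have := abs_nonneg (B w x)
      nlinarith
    · rw [LinearMap.sub_apply, LinearMap.smul_apply, smul_eq_mul]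
      have := le_abs_self (B w x')
      have := abs_nonneg (B w x')
      nlinarith
    · rw [LinearMap.sub_apply, LinearMap.smul_apply, smul_eq_mul, hwR, h.tri.one w hw, mul_one,
        abs_of_nonneg (by linarith)]
      nlinarith
  rcases abs_choice (ρ w) with h1 | h1
  · rcases abs_choice (ρ t) with h2 | h2
    · exact key w hw hwT (by rw [← h1, hwR]) t ht hφt (by rw [← h2, htR])
    · exact key w hw hwT (by rw [← h1, hwR]) (-t) (h.tri.neg t ht)
        (by rw [map_neg]; exact neg_ne_zero.mpr hφt) (by rw [map_neg, ← h2, htR])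
  · rcases abs_choice (ρ t) with h2 | h2
    · exact key (-w) (h.tri.neg w hw) (h.th_neg hwT) (by rw [map_neg, ← h1, hwR]) t ht hφt
        (by rw [← h2, htR])
    · exact key (-w) (h.tri.neg w hw) (h.th_neg hwT) (by rw [map_neg, ← h1, hwR]) (-t)
        (h.tri.neg t ht) (by rw [map_neg]; exact neg_ne_zero.mpr hφt) (by rw [map_neg, ← h2, htR])

/-- the reflected root is a third root -/
theorem two_c0 {w : E} (hw : w ∈ Ψ) (hwT : Th x x' w) :
    1 ≤ -2 * B x x' ∧ Th x x' (rf B x x') ∧ rf B x x' = x' + (-2 * B x x') • x := by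
  have e0 : rf B x x' = x' + (-2 * B x x') • x := by
    unfold rf
    module
  have hrf := h.tri.refl x h.hx x' h.hx'
  have hne : B x x' ≠ 0 := by
    intro h0
    obtain ⟨α, β, h1, h2, e⟩ := hwT
    have h3 := h.tri.one w hw
    have hx1 := h.tri.one x h.hx
    have hx1' := h.tri.one x' h.hx'
    rw [e] at h3
    simp only [map_add, map_smul, LinearMap.add_apply, LinearMap.smul_apply, smul_eq_mul, hx1, hx1',
      h.tri.symm x' x, h0] at h3
    rcases h.can w hw α β e with (⟨h4, h5⟩ | ⟨h4, h5⟩ | ⟨h4, h5⟩) |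
      (⟨h4, h5⟩ | ⟨h4, h5⟩ | ⟨h4, h5⟩)
    · exact h1 h4
    · exact h2 h5
    · nlinarith
    · exact h1 (neg_eq_zero.mp h4)
    · exact h2 (neg_eq_zero.mp h5)
    · nlinarith
  have h1 : 1 ≤ -2 * B x x' := by
    rcases h.can _ hrf (-2 * B x x') 1 (by rw [e0]; module) with (⟨h4, h5⟩ | ⟨h4, h5⟩ | ⟨h4, h5⟩) |
      (⟨h4, h5⟩ | ⟨h4, h5⟩ | ⟨h4, h5⟩)
    · exfalso
      apply hne
      linarith
    · linarith
    · exact h4
    · linarith
    · linarith
    · linarith
  exact ⟨h1, ⟨-2 * B x x', 1, by linarith, one_ne_zero, by rw [e0]; module⟩, e0⟩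

/-- the smallest third root -/
theorem min_third {ρ : E →ₗ[ℝ] ℝ} {R : ℝ} (hK : ∀ u, u ∈ K ↔ u ∈ Ψ ∧ |ρ u| ≤ R)
    (hx0 : 0 < ρ x) (hxx'0 : ρ x ≤ ρ x') {w : E} (hw : w ∈ K) (hwT : Th x x' w)
    (hall : ∀ w ∈ K, Th x x' w → |ρ w| = R) : ρ (rf B x x') = R := by
  have hx'0 : 0 < ρ x' := hx0.trans_le hxx'0
  have hwΨ := ((hK w).mp hw).1
  obtain ⟨hc0, hw0, e0⟩ := h.two_c0 hwΨ hwT
  have hrf := h.tri.refl x h.hx x' h.hx'
  have hx1 := h.tri.one x h.hx
  have hx1' := h.tri.one x' h.hx'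
  have hρ0 : ρ (rf B x x') = ρ x' + (-2 * B x x') * ρ x := by
    rw [e0, map_add, map_smul, smul_eq_mul]
  have hpos : 0 < ρ (rf B x x') := by
    rw [hρ0]
    nlinarith
  -- it suffices to find the root in the ball
  have hsuff : ρ (rf B x x') ≤ R → ρ (rf B x x') = R := by
    intro h1
    have h2 := hall _ ((hK _).mpr ⟨hrf, by rw [abs_of_pos hpos]; exact h1⟩) hw0
    rwa [abs_of_pos hpos] at h2
  have key : ∀ w ∈ K, Th x x' w → 0 < ρ w → ρ (rf B x x') ≤ R := by
    intro w hw hwT hwp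
    have hwΨ := ((hK w).mp hw).1
    obtain ⟨α, β, hα, hβ, e⟩ := h.th_pos hx0 hx'0 hwΨ hwT hwp
    have hwR : ρ w = R := by
      have := hall w hw hwT
      rwa [abs_of_pos hwp] at this
    have h3 := h.tri.one w hwΨ
    rw [e] at h3
    simp only [map_add, map_smul, LinearMap.add_apply, LinearMap.smul_apply, smul_eq_mul, hx1, hx1',
      h.tri.symm x' x] at h3
    have hρw : ρ w = α * ρ x + β * ρ x' := by
      rw [e, map_add, map_smul, map_smul, smul_eq_mul, smul_eq_mul]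
    have eB : B x w = α + β * B x x' := by
      rw [e, map_add, map_smul, map_smul, smul_eq_mul, smul_eq_mul, hx1]
      ring
    have eB' : B x' w = α * B x x' + β := by
      rw [e, map_add, map_smul, map_smul, smul_eq_mul, smul_eq_mul, hx1', h.tri.symm x' x]
      ring
    have er : rf B x w = (-2 * B x x' * β - α) • x + β • x' := by
      unfold rf
      rw [eB, e]
      module
    have er' : rf B x' w = α • x + (-2 * B x x' * α - β) • x' := by
      unfold rf
      rw [eB', e]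
      module
    -- reflected roots which are smaller are not third roots
    have small : ∀ v ∈ Ψ, Th x x' v → 0 < ρ v → ρ w ≤ ρ v := by
      intro v hv hvT hvp
      by_contra hcon
      have hvK : v ∈ K := (hK v).mpr ⟨hv, by rw [abs_of_pos hvp]; linarith⟩
      have := hall v hvK hvT
      rw [abs_of_pos hvp] at this
      linarith
    rcases hβ.eq_or_lt with hβ1 | hβ1
    · -- `β = 1`
      subst hβ1
      have h4 : α * (α - (-2 * B x x')) = 0 := by nlinarith
      have h5 : α = -2 * B x x' := by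
        rcases mul_eq_zero.mp h4 with h6 | h6
        · linarith
        · linarith
      rw [hρ0, ← h5, ← hwR, hρw]
      linarith
    rcases hα.eq_or_lt with hα1 | hα1
    · -- `α = 1`
      subst hα1
      have h4 : β * (β - (-2 * B x x')) = 0 := by nlinarith
      have h5 : β = -2 * B x x' := by
        rcases mul_eq_zero.mp h4 with h6 | h6
        · linarith
        · linarith
      rw [hρ0, ← hwR, hρw, ← h5]
      nlinarith
    · exfalso
      have h4 : α * (-2 * B x x' * β - α) = β * β - 1 := by nlinarith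
      have h5 : β * (-2 * B x x' * α - β) = α * α - 1 := by nlinarith
      have h6 : 0 < -2 * B x x' * β - α := by
        by_contra hcon
        nlinarith
      have h7 : 0 < -2 * B x x' * α - β := by
        by_contra hcon
        nlinarith
      have h8 := small _ (h.tri.refl x h.hx w hwΨ) ⟨_, _, h6.ne', by linarith, er⟩ (by
        rw [er, map_add, map_smul, map_smul, smul_eq_mul, smul_eq_mul]
        have := mul_pos h6 hx0
        nlinarith)
      have h9 := small _ (h.tri.refl x' h.hx' w hwΨ) ⟨_, _, by linarith, h7.ne', er'⟩ (by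
        rw [er', map_add, map_smul, map_smul, smul_eq_mul, smul_eq_mul]
        have := mul_pos h7 hx'0
        nlinarith)
      rw [er, map_add, map_smul, map_smul, smul_eq_mul, smul_eq_mul, hρw] at h8
      rw [er', map_add, map_smul, map_smul, smul_eq_mul, smul_eq_mul, hρw] at h9
      have h10 : 0 ≤ -2 * B x x' * β - 2 * α := by
        by_contra hcon
        nlinarith
      have h11 : 0 ≤ -2 * B x x' * α - 2 * β := by
        by_contra hcon
        nlinarith
      nlinarith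
  rcases lt_trichotomy (ρ w) 0 with h1 | h1 | h1
  · exact hsuff (key (-w) ((hK _).mpr ⟨h.tri.neg w hwΨ, by
      rw [map_neg, abs_neg]; exact ((hK w).mp hw).2⟩) (h.th_neg hwT) (by rw [map_neg]; linarith))
  · exfalso
    have := h.th_abs hx0 hx'0 hwΨ hwT
    rw [h1, abs_zero] at this
    linarith
  · exact hsuff (key w hw hwT h1)

end Dt

end DY
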