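import Pool.Agent.Helper70.DY.G8

/-!
# Constancy off the plane: the induction, third part (MP_d13a5e_al)
-/

namespace DY

open Set

variable {E : Type*} [AddCommGroup E] [Module ℝ E]

namespace Dt

variable {Ψ K S : Set E} {B : E →ₗ[ℝ] E →ₗ[ℝ] ℝ} {a b c x x' : E} {φ : E →ₗ[ℝ] ℝ}
  (h : Dt Ψ K S B a b c x x' φ)

include h

theorem plane_roots (w0 : E) (hoth : ∀ w1 ∈ K, Th x x' w1 → w1 = w0 ∨ w1 = -w0)
    (hKΨ : K ⊆ Ψ) {u : E} (hu : u ∈ K) {α β : ℝ} (e : u = α • x + β • x') :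
    u = x ∨ u = -x ∨ u = x' ∨ u = -x' ∨ u = w0 ∨ u = -w0 := by
  rcases h.can u (hKΨ hu) α β e with (⟨h4, h5⟩ | ⟨h4, h5⟩ | ⟨h4, h5⟩) |
      (⟨h4, h5⟩ | ⟨h4, h5⟩ | ⟨h4, h5⟩)
  · right; right; left
    rw [e, h4, h5]
    module
  · left
    rw [e, h4, h5]
    module
  · right; right; right; right
    exact hoth u hu ⟨α, β, by linarith, by linarith, e⟩
  · right; right; right; left
    rw [e, neg_eq_zero.mp h4, show β = -1 by linarith]
    module
  · right; left
    rw [e, neg_eq_zero.mp h5, show α = -1 by linarith]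
    module
  · right; right; right; right
    exact hoth u hu ⟨α, β, by linarith, by linarith, e⟩

/-- moving the centre towards the smallest third root -/
theorem ballF {ρ : E →ₗ[ℝ] ℝ} {R s c0 : ℝ} (hA : Adm Ψ a b c ρ)
    (hK : ∀ u, u ∈ K ↔ u ∈ Ψ ∧ |ρ u| ≤ R) (hx0 : 0 < ρ x) (hxx'0 : ρ x < ρ x')
    (hc : c0 = -B x x') (hc0 : 1 ≤ 2 * c0) (e0 : rf B x x' = x' + (2 * c0) • x)
    (hR : ρ (rf B x x') = R) (hoth : ∀ w1 ∈ K, Th x x' w1 → w1 = rf B x x' ∨ w1 = -rf B x x')
    (hs0 : 0 ≤ s) (hs : s * c0 ≤ ρ x)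
    (hk : ∀ k ∈ K, φ k ≠ 0 → ρ k - s * B (rf B x x') k ≤ R - s) :
    (0 < R - s ∧ ρ x - s * B (rf B x x') x = ρ x - s * c0 ∧
      0 < ρ x' - s * B (rf B x x') x' ∧
      ρ x' - s * B (rf B x x') x' ≤ R - s ∧
      (s * c0 = ρ x → ρ x' - s * B (rf B x x') x' = R - s)) ∧
    ∀ u, u ∈ K ↔ u ∈ Ψ ∧ |(ρ - s • B (rf B x x')) u| ≤ R - s := by
  have hx1 := h.tri.one x h.hx
  have hx1' := h.tri.one x' h.hx'
  have hrf := h.tri.refl x h.hx x' h.hx'
  have hw1 := h.tri.one _ hrf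
  have hsy := h.tri.symm x' x
  have hsym : ∀ u ∈ K, -u ∈ K := by
    intro u hu
    rw [hK] at hu ⊢
    exact ⟨h.tri.neg u hu.1, by rw [map_neg, abs_neg]; exact hu.2⟩
  have hKΨ : K ⊆ Ψ := fun u hu => ((hK u).mp hu).1
  have b1 : B (rf B x x') x = c0 := by
    rw [e0, map_add, map_smul, LinearMap.add_apply, LinearMap.smul_apply, hx1, hsy, hc, smul_eq_mul]
    ring
  have b2 : B (rf B x x') x' = 1 - 2 * c0 * c0 := by
    rw [e0, map_add, map_smul, LinearMap.add_apply, LinearMap.smul_apply, hx1', smul_eq_mul,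
      show B x x' = -c0 by rw [hc]; ring]
    ring
  have hRe : R = ρ x' + 2 * c0 * ρ x := by
    rw [← hR, e0, map_add, map_smul, smul_eq_mul]
  have hs2 : s ≤ 2 * ρ x := by nlinarith
  have hRs : 0 < R - s := by nlinarith
  have hx'1 : 0 < ρ x' - s * B (rf B x x') x' := by
    rw [b2]
    by_cases h1 : 1 ≤ 2 * c0 * c0
    · have : 0 ≤ s * (2 * c0 * c0 - 1) := mul_nonneg hs0 (by linarith)
      nlinarith
    · -- s (1 - 2 c0²) ≤ ρ x < ρ x'
      have h2 : s * (1 - 2 * c0 * c0) ≤ ρ x := by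
        have h3 : s * (1 - 2 * c0 * c0) ≤ s * c0 := by
          refine mul_le_mul_of_nonneg_left ?_ hs0
          nlinarith
        linarith
      linarith
  have hx'2 : ρ x' - s * B (rf B x x') x' ≤ R - s := by
    rw [b2, hRe]
    nlinarith
  have hx'3 : s * c0 = ρ x → ρ x' - s * B (rf B x x') x' = R - s := by
    intro h1
    rw [b2, hRe, ← h1]
    ring
  refine ⟨⟨hRs, by rw [b1], hx'1, hx'2, hx'3⟩, fun u => ⟨fun hu => ?_, fun hu => ?_⟩⟩
  · have key : ∀ u ∈ K, ρ u - s * B (rf B x x') u ≤ R - s := by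
      intro u hu
      by_cases hφ : φ u = 0
      · obtain ⟨α, β, e⟩ := h.fn.ker u (hKΨ hu) hφ
        rcases h.plane_roots (rf B x x') hoth hKΨ hu e with h1 | h1 | h1 | h1 | h1 | h1
        · rw [h1, b1, hRe]
          nlinarith
        · rw [h1, map_neg, map_neg, b1]
          nlinarith
        · rw [h1]
          exact hx'2
        · rw [h1, map_neg, map_neg]
          linarith
        · rw [h1, hR, hw1]
          linarith
        · rw [h1, map_neg, map_neg, hR, hw1]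
          linarith
      · exact hk u hu hφ
    have h1 := key u hu
    have h2 := key (-u) (hsym u hu)
    rw [map_neg, map_neg] at h2
    refine ⟨hKΨ hu, ?_⟩
    rw [LinearMap.sub_apply, LinearMap.smul_apply, smul_eq_mul, abs_le]
    constructor <;> linarith
  · rw [hK]
    refine ⟨hu.1, ?_⟩
    have h1 := (hA.cn h.tri).shrink h.tri.sys hrf hu.1 hs0 (by rw [hR]; linarith) (by
      have := hu.2
      rw [LinearMap.sub_apply, LinearMap.smul_apply, smul_eq_mul] at this
      rwa [hR])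
    rwa [hR] at h1

/-- all ties and no smaller third root in the plane -/
theorem caseF {ρ : E →ₗ[ℝ] ℝ} {R : ℝ} (hA : Adm Ψ a b c ρ) (hK : ∀ u, u ∈ K ↔ u ∈ Ψ ∧ |ρ u| ≤ R)
    (hx0 : 0 < ρ x) (hxx'0 : ρ x < ρ x') {w : E} (hw : w ∈ K) (hwT : Th x x' w)
    (hties : ∀ t ∈ Ψ, |ρ t| = R → φ t = 0) (hall : ∀ w ∈ K, Th x x' w → |ρ w| = R) :
    Eqv K S φ := by
  have hx'0 : 0 < ρ x' := hx0.trans hxx'0
  have hKΨ : K ⊆ Ψ := fun u hu => ((hK u).mp hu).1
  obtain ⟨hc0, hw0, e0⟩ := h.two_c0 (hKΨ hw) hwT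
  have hrf := h.tri.refl x h.hx x' h.hx'
  have hR := h.min_third hK hx0 hxx'0.le hw hwT hall
  have hx1 := h.tri.one x h.hx
  have hw1 := h.tri.one _ hrf
  obtain ⟨c0, hc⟩ : ∃ c0, c0 = -B x x' := ⟨_, rfl⟩
  have hc0' : 1 ≤ 2 * c0 := by rw [hc]; linarith
  have e0' : rf B x x' = x' + (2 * c0) • x := by
    rw [e0, hc]
    module
  have hRe : R = ρ x' + 2 * c0 * ρ x := by
    rw [← hR, e0', map_add, map_smul, smul_eq_mul]
  have hRp : 0 < R := by nlinarith
  have hlt : ∀ k ∈ K, φ k ≠ 0 → |ρ k| < R := by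
    intro k hk hφ
    refine lt_of_le_of_ne ((hK k).mp hk).2 fun e => hφ (hties k (hKΨ hk) e)
  by_cases hoth : ∃ w1 ∈ K, Th x x' w1 ∧ w1 ≠ rf B x x' ∧ w1 ≠ -rf B x x'
  · obtain ⟨w1, hw1K, hw1T, hw1a, hw1b⟩ := hoth
    obtain ⟨δ0, hδ0, hδR, hδ⟩ := ball_shr h.tri hA hrf hR hRp
    obtain ⟨δ, hδ1, hδ2, hδ3, hδ4⟩ := small_delta (y := B (rf B x x') x) (z := B (rf B x x') x')
      hδ0 hx0 hx'0
    have hball := hδ δ hδ1 hδ2
    have hE : Eqv {u | u ∈ Ψ ∧ (|ρ u| < R ∨ u = rf B x x' ∨ u = -rf B x x')} S φ := by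
      refine h.red (ρ - δ • B (rf B x x')) (R - δ) _
        (hA.move h.tri hrf hδ1.le (by rw [hR]; linarith)) (fun u => ?_) (fun u hu => ?_) ?_ ?_ ?_
        ⟨_, ⟨hrf, Or.inr (Or.inl rfl)⟩, hw0⟩
      · rw [LinearMap.sub_apply, LinearMap.smul_apply, smul_eq_mul]
        exact (hball u).symm
      · rw [hK]
        rcases hu with ⟨h3, h4 | h4 | h4⟩
        · exact ⟨h3, h4.le⟩
        · rw [h4, hR, abs_of_pos hRp]
          exact ⟨hrf, le_rfl⟩
        · rw [h4, map_neg, abs_neg, hR, abs_of_pos hRp]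
          exact ⟨h.tri.neg _ hrf, le_rfl⟩
      · intro e
        have h3 := hw1K
        rw [← e] at h3
        have h5 : ∀ w1 ∈ K, |ρ w1| < R → ¬ Th x x' w1 := by
          intro w1 h6 h7 h8
          have := hall w1 h6 h8
          linarith
        rcases h3.2 with h4 | h4 | h4
        · exact h5 w1 hw1K h4 hw1T
        · exact hw1a h4
        · exact hw1b h4
      · rw [LinearMap.sub_apply, LinearMap.smul_apply, smul_eq_mul]
        have := le_abs_self (B (rf B x x') x)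
        nlinarith
      · rw [LinearMap.sub_apply, LinearMap.smul_apply, smul_eq_mul]
        have := le_abs_self (B (rf B x x') x')
        nlinarith
    intro u hu v hv hu' hv'
    exact hE u ⟨hKΨ hu, Or.inl (hlt u hu hu'.ne')⟩ v ⟨hKΨ hv, Or.inl (hlt v hv hv'.ne')⟩ hu' hv'
  · have hoth' : ∀ w1 ∈ K, Th x x' w1 → w1 = rf B x x' ∨ w1 = -rf B x x' := by
      intro w1 h1 h2
      by_contra hcon
      rw [not_or] at hcon
      exact hoth ⟨w1, h1, h2, hcon.1, hcon.2⟩
    have hball := fun (s : ℝ) => h.ballF (s := s) hA hK hx0 hxx'0 hc hc0' e0' hR hoth'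
    have hfin : K.Finite := (hA.fin R).subset fun u hu => (hK u).mp hu
    by_cases hex : ∃ k ∈ K, φ k ≠ 0 ∧ B (rf B x x') k < 1 ∧
        (R - ρ k) / (1 - B (rf B x x') k) * c0 < ρ x
    · obtain ⟨k, hk, hkφ, hkB, hkf⟩ := hex
      obtain ⟨k1, ⟨hk1, hk1φ, hk1B⟩, hmin⟩ := Set.exists_min_image
        {k | k ∈ K ∧ φ k ≠ 0 ∧ B (rf B x x') k < 1} (fun k => (R - ρ k) / (1 - B (rf B x x') k))
        (hfin.subset fun u hu => hu.1) ⟨k, hk, hkφ, hkB⟩
      set s1 := (R - ρ k1) / (1 - B (rf B x x') k1) with hs1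
      have hs1e : s1 * (1 - B (rf B x x') k1) = R - ρ k1 := by
        rw [hs1]
        field_simp [show (1 - B (rf B x x') k1) ≠ 0 by linarith]
      have h1 : s1 ≤ (R - ρ k) / (1 - B (rf B x x') k) := hmin k ⟨hk, hkφ, hkB⟩
      have h2 : 0 ≤ s1 := by
        refine div_nonneg ?_ (by linarith)
        have := (abs_lt.mp (hlt k1 hk1 hk1φ)).2
        linarith
      have h3 : s1 * c0 < ρ x := by
        refine lt_of_le_of_lt ?_ hkf
        exact mul_le_mul_of_nonneg_right h1 (by linarith)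
      obtain ⟨⟨c1, c2, c3, c4, -⟩, hK1⟩ := hball s1 h2 h3.le (by
        intro k hk hkφ
        rcases lt_or_ge (B (rf B x x') k) 1 with h4 | h4
        · have h5 : s1 ≤ (R - ρ k) / (1 - B (rf B x x') k) := hmin k ⟨hk, hkφ, h4⟩
          rw [le_div_iff₀ (by linarith)] at h5
          linarith
        · have := (abs_lt.mp (hlt k hk hkφ)).2
          nlinarith)
      have hs1R : s1 ≤ ρ (rf B x x') := by
        rw [hR]
        linarith
      refine h.caseC (hA.move h.tri hrf h2 hs1R) hK1 ?_ ?_ hrf hw0 ?_ (hKΨ hk1) ?_ hk1φ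
      · rw [LinearMap.sub_apply, LinearMap.smul_apply, smul_eq_mul, c2]
        linarith
      · rw [LinearMap.sub_apply, LinearMap.smul_apply, smul_eq_mul]
        exact c3
      · rw [LinearMap.sub_apply, LinearMap.smul_apply, smul_eq_mul, hR, hw1, mul_one,
          abs_of_pos c1]
      · rw [LinearMap.sub_apply, LinearMap.smul_apply, smul_eq_mul]
        have : ρ k1 - s1 * B (rf B x x') k1 = R - s1 := by linarith
        rw [this, abs_of_pos c1]
    · have hs0 : ρ x / c0 * c0 = ρ x := by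
        field_simp [show c0 ≠ 0 by linarith]
      have hs0' : 0 ≤ ρ x / c0 := div_nonneg hx0.le (by linarith)
      obtain ⟨⟨c1, c2, c3, c4, c5⟩, hK1⟩ := hball (ρ x / c0) hs0' hs0.le (by
        intro k hk hkφ
        rcases lt_or_ge (B (rf B x x') k) 1 with h4 | h4
        · have h5 : ρ x ≤ (R - ρ k) / (1 - B (rf B x x') k) * c0 := by
            by_contra hcon
            exact hex ⟨k, hk, hkφ, h4, not_le.mp hcon⟩
          have h6 : ρ x / c0 ≤ (R - ρ k) / (1 - B (rf B x x') k) := by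
            rw [div_le_iff₀ (by linarith)]
            exact h5
          rw [le_div_iff₀ (by linarith)] at h6
          linarith
        · have := (abs_lt.mp (hlt k hk hkφ)).2
          nlinarith)
      have h7 := c5 hs0
      have hs1R : ρ x / c0 ≤ ρ (rf B x x') := by
        rw [hR]
        linarith
      have hxx2 : x ≠ -x' := by
        intro e
        rw [e, map_neg] at hx0
        linarith
      rcases sym_case h.tri h.star (hA.move h.tri hrf hs0' hs1R) h.hx h.hx' (by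
          rw [LinearMap.sub_apply, LinearMap.smul_apply, smul_eq_mul, c2, hs0, sub_self]) (by
          rw [LinearMap.sub_apply, LinearMap.smul_apply, smul_eq_mul]; exact c3)
        h.hxx.symm (fun e => hxx2 (by rw [e, neg_neg])) hK1 (by
          rw [LinearMap.sub_apply, LinearMap.smul_apply, smul_eq_mul]; exact c4)
        (fun u hu ⟨α, β, e⟩ => h.plane_roots (rf B x x') hoth' hKΨ hu e) h.sg h.tg h.tg' h.fn with
        h8 | h8
      · intro u hu v hv hu' hv'
        exact iff_of_true (h8 u hu hu') (h8 v hv hv')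
      · intro u hu v hv hu' hv'
        exact iff_of_false (h8 u hu hu') (h8 v hv hv')

end Dt

end DY
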