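import Pool.Agent.Helper9.DY.NG
import Pool.Agent.Helper62.DY.NG0

/-!
# The ultraparallel bound for a root `x` and a root `u` of the plane of `t, d2` (MP_d13a5e_al)

If `B x u ≥ 1`, the roots `s_k x - s_(k+1) u` (`s = sq (B x u)`) have the `d1`-coordinate `s_k x1 > 0`, so they are
positive, and almost all of them have `ρ > 0`.  This gives `ρ u ≤ w ρ x`, `w + 1 / w = 2 B x u`.
-/

set_option autoImplicit false

namespace DY

open Set

variable {E : Type*} [AddCommGroup E] [Module ℝ E]
variable {Ψ : Set E} {B : E →ₗ[ℝ] E →ₗ[ℝ] ℝ} {ρ φ : E →ₗ[ℝ] ℝ} {t d1 d2 x x' : E}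

/-- the pencil of two roots -/
theorem Tri.pencil70 {a b c : E} (hT : Tri Ψ B a b c) {x u : E} (hx : x ∈ Ψ) (hu : u ∈ Ψ) (k : ℕ) :
    sq (B x u) (k + 1) • x - sq (B x u) k • u ∈ Ψ ∧ sq (B x u) k • x - sq (B x u) (k + 1) • u ∈ Ψ := by
  have ox := hT.one x hx
  have ou := hT.one u hu
  have hs := hT.symm u x
  induction k with
  | zero =>
    have e0 : sq (B x u) 0 = 0 := rfl
    have e1 : sq (B x u) (0 + 1) = 1 := rfl
    rw [e0, e1]
    refine ⟨?_, ?_⟩
    · rw [one_smul, zero_smul, sub_zero]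
      exact hx
    · rw [one_smul, zero_smul, zero_sub]
      exact hT.neg u hu
  | succ k ih =>
    obtain ⟨h1, h2⟩ := ih
    have e2 : sq (B x u) (k + 1 + 1) = 2 * B x u * sq (B x u) (k + 1) - sq (B x u) k := rfl
    refine ⟨?_, ?_⟩
    · have h3 := hT.refl x hx _ h2
      have h4 : rf B x (sq (B x u) k • x - sq (B x u) (k + 1) • u) =
          sq (B x u) (k + 1 + 1) • x - sq (B x u) (k + 1) • u := by
        unfold rf
        simp only [map_sub, map_smul, smul_eq_mul, ox]
        rw [e2]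
        module
      rw [h4] at h3
      exact h3
    · have h3 := hT.refl u hu _ h1
      have h4 : rf B u (sq (B x u) (k + 1) • x - sq (B x u) k • u) =
          sq (B x u) (k + 1) • x - sq (B x u) (k + 1 + 1) • u := by
        unfold rf
        simp only [map_sub, map_smul, smul_eq_mul, ou, hs]
        rw [e2]
        module
      rw [h4] at h3
      exact h3

/-- **ULT**: `ρ u ≤ w ρ x` for a root `u` of the plane of `t, d2` with `B x u ≥ 1` -/
theorem Loc.ult70 (L : Loc Ψ B ρ φ t d1 d2 x x') {y u : E} (hy : y ∈ Ψ) (hu : u ∈ Ψ) {g x1 x2 s s' w : ℝ}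
    (ey : y = g • t + x1 • d1 + x2 • d2) (hx1 : 0 < x1) (eu : u = s • t + s' • d2) (hb : 1 ≤ B y u)
    (hρ : 0 ≤ ρ y) (hw : w ^ 2 - 2 * B y u * w + 1 = 0) (hw0 : 0 < w) (hw1 : w ≤ 1) : ρ u ≤ w * ρ y := by
  set c := B y u with hc
  have hgrow : ∀ n : ℕ, (n : ℝ) ≤ sq c n ∧ sq c n + 1 ≤ sq c (n + 1) :=
    fun n => Pool.Agent.Helper62.DY.sq_grow hb n
  have hid : ∀ n, w * sq c (n + 1) - sq c n = w ^ (n + 1) := by
    intro n
    induction n with
    | zero =>
      have e0 : sq c 0 = 0 := rfl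
      have e1 : sq c (0 + 1) = 1 := rfl
      rw [e0, e1]
      ring
    | succ n ih =>
      have e1 : sq c (n + 1 + 1) = 2 * c * sq c (n + 1) - sq c n := rfl
      rw [e1, pow_succ, ← ih]
      linear_combination (-(sq c (n + 1))) * hw
  -- the roots `s_k y - s_(k+1) u`
  have hroot : ∀ k : ℕ, sq c k • y - sq c (k + 1) • u ∈ Ψ := fun k => (L.tri.pencil70 hy hu k).2
  have hco : ∀ k : ℕ, sq c k • y - sq c (k + 1) • u =
      (sq c k * g - sq c (k + 1) * s) • t + (sq c k * x1) • d1 + (sq c k * x2 - sq c (k + 1) * s') • d2 := by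
    intro k
    rw [ey, eu]
    module
  have hpos : ∀ k : ℕ, sq c (k + 1) • y - sq c (k + 1 + 1) • u ∈ C01 t d1 d2 := by
    intro k
    rcases L.tri.pos _ (hroot (k + 1)) with h | h
    · exact h
    · exfalso
      obtain ⟨α, β, γ, e, hα, hβ, hγ⟩ := h
      have h1 := hco (k + 1)
      have h2 : (-(α + (sq c (k + 1) * g - sq c (k + 1 + 1) * s))) • t +
          (-(β + sq c (k + 1) * x1)) • d1 + (-(γ + (sq c (k + 1) * x2 - sq c (k + 1 + 1) * s'))) • d2 = 0 := by
        have h3 : (sq c (k + 1) • y - sq c (k + 1 + 1) • u) + -(sq c (k + 1) • y - sq c (k + 1 + 1) • u) = 0 := by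
          abel
        rw [e] at h3
        rw [h1] at h3
        have h4 : (-(α + (sq c (k + 1) * g - sq c (k + 1 + 1) * s))) • t +
          (-(β + sq c (k + 1) * x1)) • d1 + (-(γ + (sq c (k + 1) * x2 - sq c (k + 1 + 1) * s'))) • d2 =
          -((sq c (k + 1) * g - sq c (k + 1 + 1) * s) • t + (sq c (k + 1) * x1) • d1 +
            (sq c (k + 1) * x2 - sq c (k + 1 + 1) * s') • d2 + (α • t + β • d1 + γ • d2)) := by
          module
        rw [h4, h3, neg_zero]
      obtain ⟨-, h3, -⟩ := L.tri.indep _ _ _ h2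
      have h4 : 0 ≤ β := by
        rcases hβ with h | h <;> linarith
      have h5 : 0 < sq c (k + 1) := by
        have := (hgrow (k + 1)).1
        push_cast at this
        have : (0 : ℝ) ≤ k := Nat.cast_nonneg k
        linarith
      have h6 : 0 < sq c (k + 1) * x1 := mul_pos h5 hx1
      linarith
  -- one of them has `ρ > 0`
  have hinf : ∃ k : ℕ, 0 < ρ (sq c (k + 1) • y - sq c (k + 1 + 1) • u) := by
    by_contra hcon
    push Not at hcon
    have hinj : Function.Injective fun k : ℕ => sq c (k + 1) • y - sq c (k + 1 + 1) • u := by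
      have hmono : StrictMono fun k : ℕ => sq c (k + 1) := by
        refine strictMono_nat_of_lt_succ fun n => ?_
        have := (hgrow (n + 1)).2
        show sq c (n + 1) < sq c (n + 1 + 1)
        linarith
      intro i j hij
      simp only at hij
      rw [hco (i + 1), hco (j + 1)] at hij
      have h2 : ((sq c (i + 1) * g - sq c (i + 1 + 1) * s) - (sq c (j + 1) * g - sq c (j + 1 + 1) * s)) • t +
          (sq c (i + 1) * x1 - sq c (j + 1) * x1) • d1 +
          ((sq c (i + 1) * x2 - sq c (i + 1 + 1) * s') - (sq c (j + 1) * x2 - sq c (j + 1 + 1) * s')) • d2 = 0 := by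
        have h3 := sub_eq_zero.2 hij
        rw [← h3]
        module
      obtain ⟨-, h3, -⟩ := L.tri.indep _ _ _ h2
      have h4 : (sq c (i + 1) - sq c (j + 1)) * x1 = 0 := by linarith
      rcases mul_eq_zero.1 h4 with h5 | h5
      · exact hmono.injective (by linarith : sq c (i + 1) = sq c (j + 1))
      · linarith
    have hmem : ∀ k : ℕ, (fun k : ℕ => sq c (k + 1) • y - sq c (k + 1 + 1) • u) k ∈
        {v | v ∈ Ψ ∧ v ∈ C01 t d1 d2 ∧ ρ v ≤ 0} := fun k => ⟨hroot (k + 1), hpos k, hcon k⟩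
    exact Set.infinite_of_injective_forall_mem hinj hmem L.adm.neg
  obtain ⟨k, hk⟩ := hinf
  rw [map_sub, map_smul, map_smul, smul_eq_mul, smul_eq_mul] at hk
  have h1 := hid (k + 1)
  have h2 : 0 < w ^ (k + 1 + 1) := by positivity
  have h3 : 0 < sq c (k + 1 + 1) := by
    have := (hgrow (k + 1 + 1)).1
    push_cast at this
    have : (0 : ℝ) ≤ k := Nat.cast_nonneg k
    linarith
  have h4 : sq c (k + 1) * ρ y ≤ (w * sq c (k + 1 + 1)) * ρ y := mul_le_mul_of_nonneg_right (by linarith) hρ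
  have h5 : sq c (k + 1 + 1) * ρ u ≤ sq c (k + 1 + 1) * (w * ρ y) := by linarith
  exact le_of_mul_le_mul_left h5 h3

end DY
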