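import Pool.Agent.Helper70.DY.J3c
import Pool.Agent.Helper70.DY.Ult
import Pool.Agent.Helper54.DY.Det3
import Pool.Agent.Helper23.DY.F1
import Pool.Agent.Helper64.DY.OF

/-!
# [GAP1], `h = d2`, `j = 3`, `m_O = 3`, `x_L ≠ a` (MP_d13a5e_al)
-/

set_option autoImplicit false

namespace Pool.Agent.Helper70.DY

open _root_.DY (Z1 sq Tri Xs OFA ORt Good Beyond Loc Str exists_form3 vol vol_comb det_ge)
open Pool.Agent.Helper62.DY (RT rt_of_tri ult_low)

theorem root_ex70 {c : ℝ} (hc : 1 ≤ c) : ∃ w : ℝ, w ^ 2 - 2 * c * w + 1 = 0 ∧ 0 < w ∧ w ≤ 1 := by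
  have hs : 0 ≤ c ^ 2 - 1 := by
    have := one_le_sq70 hc
    linarith
  obtain ⟨s, hs0, hs1⟩ : ∃ s : ℝ, 0 ≤ s ∧ s ^ 2 = c ^ 2 - 1 := ⟨√(c ^ 2 - 1), Real.sqrt_nonneg _,
    Real.sq_sqrt hs⟩
  have hsb : s < c := by
    by_contra k5
    rw [not_lt] at k5
    have := sq_le70 (by linarith) k5
    linarith
  have hprod : (c - s) * (c + s) = 1 := by linear_combination -hs1
  have hw1 : c - s ≤ 1 := by
    have h2 : (c - s) * 1 ≤ (c - s) * (c + s) := mul_le_mul_of_nonneg_left (by linarith) (by linarith)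
    linarith
  exact ⟨c - s, by linear_combination hs1, by linarith, hw1⟩

section

variable {E : Type*} [AddCommGroup E] [Module ℝ E] {Ψ : Set E} {B : E →ₗ[ℝ] E →ₗ[ℝ] ℝ}
  {ρ φ : E →ₗ[ℝ] ℝ} {t d1 d2 x x' : E} {g x1 x2 g' x1' x2' al1 al2 be1 be2 : ℝ}

/-- determinants of three roots are `0` or at least `1` -/
theorem det_tri70 (hT : Tri Ψ B t d1 d2) {x0 x1 x2 y0 y1 y2 z0 z1 z2 : ℝ}
    (hx : x0 • t + x1 • d1 + x2 • d2 ∈ Ψ) (hy : y0 • t + y1 • d1 + y2 • d2 ∈ Ψ)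
    (hz : z0 • t + z1 • d1 + z2 • d2 ∈ Ψ) {D : ℝ}
    (hD : D = x0 * (y1 * z2 - y2 * z1) - x1 * (y0 * z2 - y2 * z0) + x2 * (y0 * z1 - y1 * z0)) :
    D = 0 ∨ 1 ≤ |D| := by
  obtain ⟨f, f0, f1, f2⟩ := exists_form3 hT.indep 1 0 0
  obtain ⟨k, k0, k1, k2⟩ := exists_form3 hT.indep 0 1 0
  obtain ⟨h, h0, h1, h2⟩ := exists_form3 hT.indep 0 0 1
  have hv : vol f k h t d1 d2 = 1 := by
    unfold vol
    rw [f0, f1, f2, k0, k1, k2, h0, h1, h2]
    norm_num
  have key := det_ge (f := f) (g := k) (h := h) hT hx hy hz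
  rw [vol_comb, hv, mul_one, abs_one, ← hD] at key
  exact key

/-- an `O`-root does not pass through `F` if `g, g' > 0` -/
theorem phi_ne70 (X : Xs Ψ B ρ φ t d1 d2 x x' g x1 x2 g' x1' x2') (hg : 1 ≤ g) (hg' : 1 ≤ g')
    {y1 y2 : ℝ} (hy : y1 • d1 + y2 • d2 ∈ Ψ) : y1 * φ d1 + y2 * φ d2 ≠ 0 := by
  intro h0
  have hφ : φ (y1 • d1 + y2 • d2) = 0 := by
    simp only [map_add, map_smul, smul_eq_mul]
    exact h0
  obtain ⟨α, β, e⟩ := X.L.sp _ hy
  rw [hφ, zero_smul, add_zero] at e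
  have h1 : α * g + β * g' = 0 := by
    have e2 : (α * g + β * g') • t + (α * x1 + β * x1' - y1) • d1 + (α * x2 + β * x2' - y2) • d2 = 0 := by
      have : (α * g + β * g') • t + (α * x1 + β * x1' - y1) • d1 + (α * x2 + β * x2' - y2) • d2 =
          (α • x + β • x') - (y1 • d1 + y2 • d2) := by
        rw [X.e, X.e']
        module
      rw [this, e, sub_self]
    exact (X.L.tri.indep _ _ _ e2).1
  rcases X.L.cxx _ hy _ _ e with (⟨k1, k2⟩ | ⟨k1, k2⟩ | ⟨k1, k2⟩) | (⟨k1, k2⟩ | ⟨k1, k2⟩ | ⟨k1, k2⟩)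
  · rw [k1, k2] at h1
    linarith
  · rw [k1, k2] at h1
    linarith
  · have := mul_pos (by linarith : 0 < α) (by linarith : 0 < g)
    have := mul_pos (by linarith : 0 < β) (by linarith : 0 < g')
    linarith
  · have a1 : α = 0 := by linarith
    have a2 : β = -1 := by linarith
    rw [a1, a2] at h1
    linarith
  · have a1 : α = -1 := by linarith
    have a2 : β = 0 := by linarith
    rw [a1, a2] at h1
    linarith
  · have := mul_pos (by linarith : 0 < -α) (by linarith : 0 < g)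
    have := mul_pos (by linarith : 0 < -β) (by linarith : 0 < g')
    linarith

/-- **[GAP1], `h = d2`, `m_O = 3`, index `3` at `t ∩ d2` (or `m2 = 3`), `x_L ≠ a`** -/
theorem gap1_j3 (X : Xs Ψ B ρ φ t d1 d2 x x' g x1 x2 g' x1' x2') (O : OFA Ψ B φ d1 d2 al1 al2 be1 be2)
    (hbe : be1 = 0) (hO : -B d1 d2 = 1 / 2) (hb1 : 1 / 2 ≤ -B t d1)
    (hca : 1 < al1 * -B t d1 + al2 * -B t d2) (hu : 0 < al1 * x2 - al2 * x1) (hg' : 1 ≤ g')
    (hj : Good (-B t d2) (φ d2) 2 ∨ (-B t d2 = 1 / 2 ∧ Beyond (-B t d2) (φ d2))) : False := by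
  -- `h = d2`, `a = d1 + d2`
  have hbe2 : be2 = 1 := by
    have h1 := O.rh.nrm
    rw [hbe] at h1
    have h2 : (be2 - 1) * (be2 + 1) = 0 := by linear_combination h1
    have h3 : 0 ≤ be2 := by
      rcases O.rh.z2 with h | h <;> linarith
    rcases mul_eq_zero.1 h2 with h | h <;> linarith
  have hal1 : al1 = 1 := by
    have := O.det
    rw [hbe, hbe2] at this
    linarith
  have hal2 : al2 = 1 := by
    have := O.adj
    rw [hbe, hbe2, hal1] at this
    linarith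
  subst hbe hbe2 hal1 hal2
  have hR := rt_of_tri X.L.tri
  have hxm : g • t + x1 • d1 + x2 • d2 ∈ Ψ := by
    rw [← X.e]
    exact X.L.xm
  have hym : g' • t + x1' • d1 + x2' • d2 ∈ Ψ := by
    rw [← X.e']
    exact X.L.xm'
  have f1 : g + x1 * φ d1 + x2 * φ d2 = 0 := by
    have := X.c.fz
    linarith
  have f2 : g' + x1' * φ d1 + x2' * φ d2 = 0 := by
    have := X.c'.fz
    linarith
  -- `g ≥ 1`
  have hg : 1 ≤ g := by
    rcases X.c.zg with h | h
    · exfalso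
      have ho : ORt Ψ B d1 d2 x1 x2 := by
        refine ⟨?_, X.c.z1, X.c.z2, ?_⟩
        · rw [h, zero_smul, zero_add] at hxm
          exact hxm
        · have := X.c.nrm
          rw [h] at this
          linear_combination this
      obtain ⟨k1, k2⟩ := O.uniq x1 x2 ho (by rw [h] at f1; linarith)
      rw [k1, k2] at hu
      linarith
    · exact h
  have hfa0 : 0 < φ d1 + φ d2 := by
    have k1 := O.fa
    have k2 := phi_ne70 X hg hg' O.ra.mem
    rcases k1.lt_or_eq with k | k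
    · linarith
    · exact absurd k.symm k2
  have hΔ0 := X.delta
  have ha : (0 : ℝ) • t + (1 : ℝ) • d1 + (1 : ℝ) • d2 ∈ Ψ := by
    rw [zero_smul, zero_add]
    exact O.ra.mem
  -- `Δ φ(a) ≥ 1`
  have hF : 1 ≤ (x2 * x1' - x1 * x2') * (φ d1 + φ d2) := by
    have k1 := det_tri70 X.L.tri hxm hym ha (D := -((x2 * x1' - x1 * x2') * (φ d1 + φ d2))) (by
      linear_combination (x2' - x1') * f1 - (x2 - x1) * f2)
    have k2 : 0 < (x2 * x1' - x1 * x2') * (φ d1 + φ d2) := mul_pos hΔ0 hfa0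
    rcases k1 with k | k
    · linarith
    · rw [abs_neg, abs_of_pos k2] at k
      exact k
  -- the value of `a`
  have hSa := X.L.strO64 O.ra
  have e1 : -B t d1 * 1 + -B t d2 * 1 = -B t d1 + -B t d2 := by ring
  have e2 : (1 : ℝ) * ρ d1 + 1 * ρ d2 = ρ d1 + ρ d2 := by ring
  rw [e1, e2] at hSa
  have hca' : 1 < -B t d1 + -B t d2 := by linarith
  obtain ⟨ea, ha1, ha2, ha3⟩ := root_ex70 hca'.le
  have hra := ult_low hSa hca'.le ha1 ha2 ha3
  have hb2n : 0 ≤ -B t d2 := hR.b2n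
  obtain ⟨τ, hτ⟩ : ∃ τ : ℝ, τ * (2 * -B t d2 + 1) = 1 :=
    ⟨1 / (2 * -B t d2 + 1), by
      have : 2 * -B t d2 + 1 ≠ 0 := by linarith
      exact one_div_mul_cancel this⟩
  have s1 : sq (-B t d2) 1 = 1 := rfl
  have s2 : sq (-B t d2) 2 = 2 * -B t d2 := by
    show 2 * -B t d2 * 1 - 0 = _
    ring
  have s3 : sq (-B t d2) 3 = (2 * -B t d2) ^ 2 - 1 := by
    show 2 * -B t d2 * sq (-B t d2) 2 - sq (-B t d2) 1 = _
    rw [s2, s1]
    ring
  have hd2 : d2 ∈ Ψ := X.L.tri.hc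
  have hne : d2 ≠ t := by
    intro h
    have h1 := X.h2
    rw [h, X.L.ft] at h1
    linarith
  have hp : d2 ∈ _root_.DY.C01 t d1 d2 := ⟨0, 0, 1, by simp, Or.inl rfl, Or.inl rfl, Or.inr le_rfl⟩
  have hS2 := X.L.str d2 hd2 hp hne
  have hcase : 1 ≤ 2 * -B t d2 * -φ d2 ∧ ((-B t d2 = 1 / 2 ∧ -τ ≤ ρ d2) ∨
      (1 < 2 * -B t d2 ∧ ((2 * -B t d2) ^ 2 - 1) * -φ d2 < 2 * -B t d2 ∧ -τ < ρ d2)) := by
    rcases hj with hj | ⟨hj, hb⟩
    · have k1 := hj.hm 1 (by norm_num)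
      have k2 := hj.hpos
      have k3 := hj.hs 2 le_rfl
      have k4 := hj.hs 1 (by norm_num)
      rw [show (1 : ℕ) + 1 = 2 from rfl, s2, s1] at k1
      rw [show (2 : ℕ) + 1 = 3 from rfl, s3] at k2 k3
      rw [s2] at k2
      rw [show (1 : ℕ) + 1 = 2 from rfl, s2] at k4
      have k5 := hj.nk hS2 X.h2
      rw [show (2 : ℕ) + 1 = 3 from rfl, s3, s2] at k5
      have k6 : 1 < 2 * -B t d2 := by
        by_contra h
        rw [not_lt] at h
        have := sq_le70 k4.le h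
        linarith
      refine ⟨by linarith, Or.inr ⟨k6, by linarith, ?_⟩⟩
      -- `(μ² - 1) (ρ d2 + τ) > 0`
      have k7 : 0 < ((2 * -B t d2) ^ 2 - 1) * (ρ d2 + τ) := by
        have : ((2 * -B t d2) ^ 2 - 1) * τ = 2 * -B t d2 - 1 := by
          linear_combination (2 * -B t d2 - 1) * hτ
        linarith
      have := (mul_pos_iff_of_pos_left k3).1 k7
      linarith
    · have k1 := hb 1 (by
        intro i hi
        interval_cases i
        · rw [show (0 : ℕ) + 1 = 1 from rfl, s1]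
          norm_num
        · rw [show (1 : ℕ) + 1 = 2 from rfl, s2, hj]
          norm_num)
      rw [show (1 : ℕ) + 1 = 2 from rfl, s2, s1, hj] at k1
      have k2 := hS2.foot
      have k3 : τ = 1 / 2 := by
        rw [hj] at hτ
        linarith
      rw [hj]
      refine ⟨by linarith, Or.inl ⟨rfl, ?_⟩⟩
      rw [hj] at k2
      rw [k3]
      exact k2
  obtain ⟨hκ1, hcase⟩ := hcase
  have hτρ : -τ ≤ ρ d2 := by
    rcases hcase with ⟨-, h⟩ | ⟨-, -, h⟩
    · exact h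
    · exact h.le
  have hKf := X.lam_ge hτρ
  have hBxt := X.Bxt
  have hBxd2 := X.Bxd2
  have hβ2 := X.beta2
  have hn2 := X.nrm2
  have hcR := X.cR_nonneg
  have hcxx : 0 ≤ -B x x' := by linarith [X.cxx]
  have hu' : (1 : ℝ) • t + (2 * -B t d2) • d2 ∈ Ψ := by
    have := hR.r2 1 0 0 hR.e0
    have e3 : 2 * -B t d2 * 1 + 2 * -B d1 d2 * 0 - 0 = 2 * -B t d2 := by ring
    have e4 : (1 : ℝ) • t + (0 : ℝ) • d1 + (2 * -B t d2 * 1 + 2 * -B d1 d2 * 0 - 0) • d2 =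
        (1 : ℝ) • t + (2 * -B t d2) • d2 := by
      rw [e3]
      module
    rw [e4] at this
    exact this
  have hR' : RT (-B t d1) (-B t d2) (1 / 2) (fun g x1 x2 => g • t + x1 • d1 + x2 • d2 ∈ Ψ) := by
    rw [← hO]
    exact hR
  refine j3_core (b1 := -B t d1) (b2 := -B t d2) (τ := τ) (κ := -φ d2) (fa := φ d1 + φ d2)
    (Δ := x2 * x1' - x1 * x2') (c := -B x x') (ra := ρ d1 + ρ d2) (r2 := ρ d2) (rx := ρ x) (ea := ea)
    hR' hxm hym hb1 hca' X.p1 (by linarith) hg hg' X.p1' rfl hΔ0 ?_ ?_ hfa0 hF ?_ hcxx ?_ ?_ hτ hKf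
    hκ1 hcase hra ha1 ha2 ha3 ?_ X.L.rx X.rx_le ?_
  · linear_combination x1 * f2 - x1' * f1
  · linear_combination f1
  · rw [hBxt] at hcR
    linarith
  · rw [hBxt, hBxd2, hO] at hβ2
    linear_combination hβ2
  · linear_combination hn2
  · rw [X.rx]
    ring
  · intro b w hb hb1' hw hw0 hw1
    have hBu : B x ((1 : ℝ) • t + (2 * -B t d2) • d2) = b := by
      simp only [map_add, map_smul, smul_eq_mul]
      rw [hBxt, hBxd2, hO]
      linarith
    have k1 := X.L.ult70 X.L.xm hu' X.e (by linarith [X.p1]) rfl (by rw [hBu]; exact hb1') X.L.rx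
      (by rw [hBu]; exact hw) hw0 hw1
    simp only [map_add, map_smul, smul_eq_mul, X.L.rt] at k1
    linarith

end

end Pool.Agent.Helper70.DY
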