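import Mathlib

/-!
# GAP1, `h = d2`, `j = 3`, `m_O = 3`: real inequalities (MP_d13a5e_al)

`p = 2 b1`, `μ = 2 b2`, `τ = 1 / (μ + 1)`, `x_R = e (-d2) + (μ e + r) u_2 + v a`.
-/

set_option autoImplicit false

namespace Pool.Agent.Helper70.DY

theorem sq2_70 : ∃ s : ℝ, 0 < s ∧ s ^ 2 = 2 := ⟨√2, by positivity, by norm_num⟩

theorem le_of_sq70 {s p : ℝ} (hp0 : 0 < p) (hs2 : s ^ 2 = 2) (hp : 2 ≤ p ^ 2) : s ≤ p := by
  by_contra h
  rw [not_le] at h
  have := mul_self_lt_mul_self hp0.le h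
  nlinarith

theorem sql70 {a b : ℝ} (h0 : 0 ≤ a) (h : a ≤ b) : a ^ 2 ≤ b ^ 2 := pow_le_pow_left₀ h0 h 2

theorem sqlt70 {a b : ℝ} (h0 : 0 ≤ a) (h : a < b) : a ^ 2 < b ^ 2 := pow_lt_pow_left₀ h h0 (by norm_num)

/-- the region `v ≤ e` -/
theorem j3_small {p μ s τ e v r : ℝ} (hs : 0 < s) (hs2 : s ^ 2 = 2) (hp : s ≤ p) (hμ : s ≤ μ)
    (hτ1 : τ + 1 ≤ s) (hτ0 : 0 < τ)
    (he : 1 ≤ e) (hv : 1 ≤ v) (hve : v ≤ e) (hr : 0 < r)
    (hN : r ^ 2 + μ * r * e + e ^ 2 - 1 = v * ((p * μ + 1) * e + p * r - v))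
    (hb0 : 0 < 2 * r + μ * e - p * v) (hb : 2 * r + μ * e - p * v < μ + 1 + τ) : False := by
  have hμ0 : 0 < μ := by linarith only [hs, hμ]
  have hp0 : 0 < p := by linarith only [hs, hp]
  have hμ2 : 2 ≤ μ ^ 2 := by
    have := sql70 hs.le hμ
    linarith only [this, hs2]
  have hS : (2 * r + μ * e - p * v) ^ 2 = (μ * e + p * v) ^ 2 - 4 * (e ^ 2 + v ^ 2 - e * v - 1) := by
    linear_combination 4 * hN
  have hS2 : (2 * r + μ * e - p * v) ^ 2 < (μ + s) ^ 2 := by
    have h1 : 2 * r + μ * e - p * v < μ + s := by linarith only [hb, hτ1]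
    exact sqlt70 hb0.le h1
  rw [hS] at hS2
  have hev0 : e * 1 ≤ e * v := mul_le_mul_of_nonneg_left hv (by linarith only [he])
  have hev : 1 ≤ e * v := by linarith only [hev0, he]
  have he2 : 1 ≤ e ^ 2 := by
    have := sql70 zero_le_one he
    linarith only [this]
  have hvq : v ^ 2 ≤ e * v := by
    have := mul_le_mul_of_nonneg_right hve (by linarith only [hv] : 0 ≤ v)
    linarith only [this]
  rcases le_or_gt (μ * e) (p * v) with h1 | h1
  · have hW : 0 < μ * e := mul_pos hμ0 (by linarith only [he])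
    have h2 : (2 * (μ * e)) ^ 2 ≤ (μ * e + p * v) ^ 2 :=
      sql70 (by linarith only [hW]) (by linarith only [h1])
    have h3 : (μ + s) ^ 2 ≤ (2 * μ) ^ 2 := sql70 (by linarith only [hs, hμ0]) (by linarith only [hμ])
    have h4 : (μ ^ 2 - 1) * 1 ≤ (μ ^ 2 - 1) * e ^ 2 :=
      mul_le_mul_of_nonneg_left he2 (by linarith only [hμ2])
    linarith only [hS2, h2, h3, h4, hvq]
  · -- `P < p μ e v`
    have hE : e ^ 2 + v ^ 2 - e * v - 1 < p * v * (μ * e) := by
      have h2 : 0 < r * (μ * e - p * v) := mul_pos hr (by linarith only [h1])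
      have h3 := sq_nonneg r
      linarith only [h2, h3, hN]
    rcases le_or_gt (s * μ * (e * v)) (e ^ 2 + v ^ 2 - e * v - 1) with h2 | h2
    · -- `P ≥ √2 μ e v`
      have hsμ : 2 ≤ s * μ := by
        have := mul_le_mul_of_nonneg_left hμ hs.le
        linarith only [this, hs2]
      have he0 : 1 + s * μ ≤ e := by
        by_contra h3
        rw [not_le] at h3
        have h4 : 0 ≤ (v - 1) * (e - v) := mul_nonneg (by linarith only [hv]) (by linarith only [hve])
        have h5 : 2 * (e * v) ≤ s * μ * (e * v) :=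
          mul_le_mul_of_nonneg_right hsμ (by linarith only [hev])
        have h6 : (e - 1) * (e * v) < (s * μ) * (e * v) :=
          mul_lt_mul_of_pos_right (by linarith only [h3]) (by linarith only [hev])
        have h8 : 2 ≤ e := by
          by_contra h9
          rw [not_le] at h9
          have k1 : e * e < 2 * e := mul_lt_mul_of_pos_right h9 (by linarith only [he])
          linarith only [k1, hev0, h2, h5, hvq, hev, h9, he]
        have h9 : 0 ≤ (v - 1) * (e ^ 2 - e - 1) := by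
          apply mul_nonneg (by linarith only [hv])
          have := mul_le_mul_of_nonneg_right h8 (by linarith only [he] : 0 ≤ e)
          linarith only [this, h8]
        linarith only [h2, h4, h6, h9, hvq, h8, hv]
      have he3 : 3 ≤ e := by linarith only [he0, hsμ]
      have hv1 : v ≤ e - 1 := by
        by_contra h3
        rw [not_le] at h3
        have h4 : 2 * (e * v) ≤ s * μ * (e * v) :=
          mul_le_mul_of_nonneg_right hsμ (by linarith only [hev])
        have h5 : (e - 1) * e < v * e := mul_lt_mul_of_pos_right h3 (by linarith only [he])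
        have h6 : 3 * e ≤ e * e := mul_le_mul_of_nonneg_right he3 (by linarith only [he])
        linarith only [h2, h4, h5, h6, hvq, he3]
      have h3 : 0 ≤ (v - 1) * (e - 1 - v) := mul_nonneg (by linarith only [hv]) (by linarith only [hv1])
      have hPe : e ^ 2 + v ^ 2 - e * v - 1 ≤ e ^ 2 - e := by linarith only [h3]
      have h4 : (μ + s) * (μ * e) ≤ (μ * e) ^ 2 - (e ^ 2 + v ^ 2 - e * v - 1) := by
        have h6 : 0 ≤ e * ((μ ^ 2 - 1) * (e - 1) - s * μ) := by
          apply mul_nonneg (by linarith only [he])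
          have h7 : 1 * (e - 1) ≤ (μ ^ 2 - 1) * (e - 1) :=
            mul_le_mul_of_nonneg_right (by linarith only [hμ2]) (by linarith only [he])
          linarith only [h7, he0]
        linarith only [h6, hPe]
      have hW : 0 < μ * e := mul_pos hμ0 (by linarith only [he])
      have hX0 : 0 < p * v := mul_pos hp0 (by linarith only [hv])
      have hP0 : 0 ≤ e ^ 2 + v ^ 2 - e * v - 1 := by
        have : 0 ≤ s * μ * (e * v) := mul_nonneg (by linarith only [hsμ]) (by linarith only [hev])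
        linarith only [this, h2]
      generalize μ * e = W at *
      generalize p * v = X at *
      generalize e ^ 2 + v ^ 2 - e * v - 1 = P at *
      have h8 : 0 ≤ W * X - P := by linarith only [hE]
      have h7 : (W ^ 2 - P) ^ 2 ≤ W ^ 2 * ((W + X) ^ 2 - 4 * P) := by
        have h9 : 0 ≤ W ^ 2 * (W * X - P) := mul_nonneg (sq_nonneg W) h8
        have h10 : 0 ≤ (W * X - P) * (W * X + P) := by
          apply mul_nonneg h8
          have := mul_pos hW hX0
          linarith only [this, hP0]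
        linarith only [h9, h10]
      have h8 : ((μ + s) * W) ^ 2 ≤ (W ^ 2 - P) ^ 2 :=
        sql70 (mul_nonneg (by linarith only [hμ0, hs]) hW.le) h4
      have h9 : W ^ 2 * ((W + X) ^ 2 - 4 * P) < W ^ 2 * (μ + s) ^ 2 :=
        mul_lt_mul_of_pos_left hS2 (pow_pos hW 2)
      linarith only [h7, h8, h9]
    · -- `P < √2 μ e v`
      have h3 : (μ * e + s * v) ^ 2 ≤ (μ * e + p * v) ^ 2 := by
        have h4 : s * v ≤ p * v := mul_le_mul_of_nonneg_right hp (by linarith only [hv])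
        have h5 : 0 < μ * e := mul_pos hμ0 (by linarith only [he])
        have h6 : 0 < s * v := mul_pos hs (by linarith only [hv])
        exact sql70 (by linarith only [h5, h6]) (by linarith only [h4])
      have hkey : (μ * e + s * v) ^ 2 - 4 * (e ^ 2 + v ^ 2 - e * v - 1) =
          (μ ^ 2 - 4) * e ^ 2 + (2 * (s * μ) + 4) * (e * v) - 2 * v ^ 2 + 4 := by
        linear_combination (v ^ 2) * hs2
      have hgoal : (μ + s) ^ 2 = μ ^ 2 + 2 * (s * μ) + 2 := by linear_combination hs2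
      have hsμ : 0 < s * μ := mul_pos hs hμ0
      have hv2 : 1 ≤ v ^ 2 := by
        have := sql70 zero_le_one hv
        linarith only [this]
      have hlow : (μ ^ 2 - 4) * e ^ 2 + (2 * (s * μ) + 4) * (e * v) - 2 * v ^ 2 + 4 <
          μ ^ 2 + 2 * (s * μ) + 2 := by
        rw [← hkey, ← hgoal]
        linarith only [h3, hS2]
      have hq2 : 0 ≤ (e ^ 2 - 1) * (v ^ 2 - 1) :=
        mul_nonneg (by linarith only [he2]) (by linarith only [hv2])
      have hq3 : e ^ 2 * v ^ 2 = (e * v) ^ 2 := by ring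
      generalize e * v = q at *
      rcases le_or_gt 4 (μ ^ 2) with h4 | h4
      · have h5 : (μ ^ 2 - 4) * 1 ≤ (μ ^ 2 - 4) * e ^ 2 :=
          mul_le_mul_of_nonneg_left he2 (by linarith only [h4])
        have h6 : (2 * (s * μ) + 2) * 1 ≤ (2 * (s * μ) + 2) * q :=
          mul_le_mul_of_nonneg_left hev (by linarith only [hsμ])
        linarith only [hlow, h5, h6, hvq]
      · have h5 : 0 ≤ (μ ^ 2 - 2) * (q - v ^ 2) :=
          mul_nonneg (by linarith only [hμ2]) (by linarith only [hvq])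
        rcases le_or_gt (1 + s * μ) q with h6 | h6
        · have h7 : 0 ≤ (4 - μ ^ 2) * (1 + (1 + s * μ) * q - (e ^ 2 + v ^ 2)) :=
            mul_nonneg (by linarith only [h4]) (by linarith only [h2])
          have h8 : 0 ≤ (s * μ) * ((μ ^ 2 - 2) * q) :=
            mul_nonneg hsμ.le (mul_nonneg (by linarith only [hμ2]) (by linarith only [hev]))
          linarith only [hlow, h5, h6, h7, h8]
        · have h7 : e ^ 2 + v ^ 2 ≤ q ^ 2 + 1 := by linarith only [hq2, hq3]
          have h8 : 0 ≤ (4 - μ ^ 2) * (q ^ 2 + 1 - (e ^ 2 + v ^ 2)) :=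
            mul_nonneg (by linarith only [h4]) (by linarith only [h7])
          have h9 : (4 - μ ^ 2) * q ≤ 2 * (1 + s * μ) := by
            have h10 : (4 - μ ^ 2) * q ≤ 2 * q :=
              mul_le_mul_of_nonneg_right (by linarith only [hμ2]) (by linarith only [hev])
            linarith only [h10, h6]
          have h10 : 0 ≤ (q - 1) * (2 + 2 * (s * μ) - (4 - μ ^ 2) * q) :=
            mul_nonneg (by linarith only [hev]) (by linarith only [h9])
          linarith only [hlow, h5, h8, h10]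

/-- the region `e ≤ v` -/
theorem j3_large {p μ s τ e v r : ℝ} (hs : 0 < s) (hs2 : s ^ 2 = 2) (hp : s ≤ p) (hμ : s ≤ μ)
    (hτ : τ * (μ + 1) = 1) (hτ1 : τ + 1 ≤ s) (hτ0 : 0 < τ)
    (he : 1 ≤ e) (hve : e ≤ v)
    (hN : r ^ 2 + μ * r * e + e ^ 2 - 1 = v * ((p * μ + 1) * e + p * r - v))
    (hb0 : 0 < 2 * r + μ * e - p * v) (hb : 2 * r + μ * e - p * v < μ + 1 + τ) :
    (p * μ + 1) * e + p * r - 2 * v < 1 ∧ 2 * e ≤ v := by
  have hμ0 : 0 < μ := by linarith only [hs, hμ]
  have hp0 : 0 < p := by linarith only [hs, hp]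
  have hμ2 : 2 ≤ μ ^ 2 := by
    have := sql70 hs.le hμ
    linarith only [this, hs2]
  have hp2 : 2 ≤ p ^ 2 := by
    have := sql70 hs.le hp
    linarith only [this, hs2]
  have hpμ : 2 ≤ p * μ := by
    have h1 : s * s ≤ p * μ := mul_le_mul hp hμ hs.le hp0.le
    linarith only [h1, hs2]
  have hS : (2 * r + μ * e - p * v) ^ 2 = (μ * e + p * v) ^ 2 - 4 * (e ^ 2 + v ^ 2 - e * v - 1) := by
    linear_combination 4 * hN
  set S := 2 * r + μ * e - p * v with hSd
  have he2 : 1 ≤ e ^ 2 := by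
    have := sql70 zero_le_one he
    linarith only [this]
  have hs3 : s ≤ 2 := by
    by_contra h
    have := sqlt70 zero_le_two (not_le.1 h)
    linarith only [this, hs2]
  have hτ2 : τ ≤ 1 := by linarith only [hτ1, hs3]
  -- `p < 2`
  have hp4 : p < 2 := by
    by_contra h
    rw [not_lt] at h
    have h1 : 0 ≤ (p ^ 2 - 4) * v ^ 2 := by
      apply mul_nonneg _ (sq_nonneg v)
      have := sql70 zero_le_two h
      linarith only [this]
    have h2 : e ^ 2 ≤ e * v := by
      have := mul_le_mul_of_nonneg_left hve (by linarith only [he] : 0 ≤ e)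
      linarith only [this]
    have h3 : 2 * μ ≤ p * μ := mul_le_mul_of_nonneg_right h hμ0.le
    have h4 : (4 + 2 * (p * μ)) * e ^ 2 ≤ (4 + 2 * (p * μ)) * (e * v) :=
      mul_le_mul_of_nonneg_left h2 (by linarith only [hpμ])
    have h5 : (μ ^ 2 + 4 * μ) * 1 ≤ (μ ^ 2 + 4 * μ) * e ^ 2 :=
      mul_le_mul_of_nonneg_left he2 (by linarith only [hμ2, hμ0])
    have h6 : (μ + 1 + τ) ^ 2 ≤ (μ + 2) ^ 2 :=
      sql70 (by linarith only [hμ0, hτ0]) (by linarith only [hτ2])
    have h7 : S ^ 2 < (μ + 1 + τ) ^ 2 := sqlt70 hb0.le hb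
    have h8 : 4 * μ * e ^ 2 ≤ 2 * (p * μ) * e ^ 2 :=
      mul_le_mul_of_nonneg_right (by linarith only [h3]) (sq_nonneg e)
    rw [hS] at h7
    linarith only [h1, h4, h5, h6, h7, h8]
  have hd : 0 < 4 - p ^ 2 := by
    have := sqlt70 hp0.le hp4
    linarith only [this]
  have hQ : (4 - p ^ 2) * (S ^ 2 - 4) =
      4 * (p ^ 2 + μ ^ 2 + p * μ - 3) * e ^ 2 - ((4 - p ^ 2) * v - (2 + p * μ) * e) ^ 2 := by
    rw [hS]
    ring
  have hy : 0 < (4 - p ^ 2) * v - (2 + p * μ) * e := by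
    by_contra h
    rw [not_lt] at h
    have h1 : -((p ^ 2 + p * μ - 2) * e) ≤ (4 - p ^ 2) * v - (2 + p * μ) * e := by
      have := mul_le_mul_of_nonneg_left hve hd.le
      linarith only [this]
    have h2 : ((4 - p ^ 2) * v - (2 + p * μ) * e) ^ 2 ≤ ((p ^ 2 + p * μ - 2) * e) ^ 2 := by
      have h3 := sql70 (neg_nonneg.2 h) (neg_le.1 h1)
      linarith only [h3]
    have h3 : (4 - p ^ 2) * (((p + μ) ^ 2 - 4) * e ^ 2) ≤ (4 - p ^ 2) * (S ^ 2 - 4) := by
      rw [hQ]
      linarith only [h2]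
    have h4 : ((p + μ) ^ 2 - 4) * e ^ 2 ≤ S ^ 2 - 4 := le_of_mul_le_mul_left h3 hd
    have h5 : ((p + μ) ^ 2 - 4) * 1 ≤ ((p + μ) ^ 2 - 4) * e ^ 2 :=
      mul_le_mul_of_nonneg_left he2 (by linarith only [hp2, hμ2, hpμ])
    have h6 : p + μ ≤ S := by
      by_contra h7
      rw [not_le] at h7
      have := sqlt70 hb0.le h7
      linarith only [this, h4, h5]
    linarith only [h6, hb, hτ1, hp]
  refine ⟨?_, ?_⟩
  · by_contra h
    rw [not_lt] at h
    -- `4 η = p S - y`
    have h1 : 2 * ((p * μ + 1) * e + p * r - 2 * v) = p * S - ((4 - p ^ 2) * v - (2 + p * μ) * e) := by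
      rw [hSd]
      ring
    have h2 : (4 - p ^ 2) * v - (2 + p * μ) * e < p * (μ + 1 + τ) - 2 := by
      have : p * S < p * (μ + 1 + τ) := mul_lt_mul_of_pos_left hb hp0
      linarith only [this, h1, h]
    have h3 : ((4 - p ^ 2) * v - (2 + p * μ) * e) ^ 2 < (p * (μ + 1 + τ) - 2) ^ 2 := sqlt70 hy.le h2
    have h4 : S ^ 2 < (μ + 1 + τ) ^ 2 := sqlt70 hb0.le hb
    have h5 : (4 - p ^ 2) * (S ^ 2 - 4) < (4 - p ^ 2) * ((μ + 1 + τ) ^ 2 - 4) :=
      mul_lt_mul_of_pos_left (by linarith only [h4]) hd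
    have h6 : 4 * (p ^ 2 + μ ^ 2 + p * μ - 3) * 1 ≤ 4 * (p ^ 2 + μ ^ 2 + p * μ - 3) * e ^ 2 :=
      mul_le_mul_of_nonneg_left he2 (by linarith only [hp2, hμ2, hpμ])
    have h7 : p * (2 * μ + 1 + τ) < (1 + τ) * (2 * μ + 1 + τ) := by
      rw [hQ] at h5
      linarith only [h5, h3, h6, hτ]
    have h8 : p < 1 + τ := lt_of_mul_lt_mul_right h7 (by linarith only [hμ0, hτ0])
    linarith only [h8, hp, hτ1]
  · have h1 : 2 * (4 - p ^ 2) ≤ 2 + p * μ := by linarith only [hp2, hpμ]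
    have h2 : 2 * (4 - p ^ 2) * e ≤ (2 + p * μ) * e :=
      mul_le_mul_of_nonneg_right h1 (by linarith only [he])
    have h3 : (4 - p ^ 2) * (2 * e) ≤ (4 - p ^ 2) * v := by linarith only [h2, hy]
    exact le_of_mul_le_mul_left h3 hd

/-- **(B1)** -/
theorem j3_B1 {p μ τ e v r : ℝ} (hp : 2 ≤ p ^ 2) (hp0 : 0 < p) (hμ : 2 ≤ μ ^ 2) (hμ0 : 0 < μ)
    (hτ : τ * (μ + 1) = 1) (he : 1 ≤ e) (hv : 1 ≤ v) (hr : 0 < r)
    (hN : r ^ 2 + μ * r * e + e ^ 2 - 1 = v * ((p * μ + 1) * e + p * r - v))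
    (hb0 : 0 < 2 * r + μ * e - p * v) (hb : 2 * r + μ * e - p * v < μ + 1 + τ) :
    (p * μ + 1) * e + p * r - 2 * v < 1 ∧ 2 * e ≤ v := by
  obtain ⟨s, hs, hs2⟩ := sq2_70
  have hps := le_of_sq70 hp0 hs2 hp
  have hμs := le_of_sq70 hμ0 hs2 hμ
  have hτ0 : 0 < τ := by
    by_contra h
    have := mul_nonpos_of_nonpos_of_nonneg (not_lt.1 h) (by linarith only [hμ0] : 0 ≤ μ + 1)
    linarith only [this, hτ]
  have hτ1 : τ + 1 ≤ s := by
    have h1 : τ * (s + 1) ≤ τ * (μ + 1) := mul_le_mul_of_nonneg_left (by linarith only [hμs]) hτ0.le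
    have h2 : (s - 1) * (s + 1) = 1 := by linear_combination hs2
    have h3 : τ * (s + 1) ≤ (s - 1) * (s + 1) := by linarith only [h1, h2, hτ]
    have := le_of_mul_le_mul_right h3 (by linarith only [hs] : 0 < s + 1)
    linarith only [this]
  rcases le_or_gt e v with h | h
  · exact j3_large hs hs2 hps hμs hτ hτ1 hτ0 he h hN hb0 hb
  · exact (j3_small hs hs2 hps hμs hτ1 hτ0 he hv h.le hr hN hb0 hb).elim

end Pool.Agent.Helper70.DY
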