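import Mathlib

/-!
# GAP1, `h = d2`, `j = 3`, `m_O = 3`: real inequalities, part 2 (MP_d13a5e_al)
-/

set_option autoImplicit false

namespace Pool.Agent.Helper70.DY

theorem sq_le70 {a b : ℝ} (ha : 0 ≤ a) (h : a ≤ b) : a ^ 2 ≤ b ^ 2 := by
  have := mul_self_le_mul_self ha h
  linarith only [this, sq a, sq b]

/-- `ea ≤ 8/15` -/
theorem ea15_70 {M ea : ℝ} (hM : 2414 / 1000 ≤ M) (hea : ea ^ 2 - M * ea + 1 = 0) (hea0 : 0 < ea)
    (hea1 : ea ≤ 1) : ea ≤ 8 / 15 := by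
  by_contra h
  rw [not_le] at h
  have h1 : 0 ≤ (ea - 8 / 15) * (1 - ea) := mul_nonneg (by linarith only [h]) (by linarith only [hea1])
  have h2 : (2414 / 1000) * ea ≤ M * ea := mul_le_mul_of_nonneg_right hM hea0.le
  nlinarith only [hM, hea, h, h1]

private theorem A2_c1 {μ τ : ℝ} (hμ : 1414 / 1000 < μ) (hτ0 : 0 < τ) (e1 : μ * τ = 1 - τ) :
    0 ≤ ((μ + 7 / 15) ^ 2 - 1) * (3 / 8) + (2 * (μ + 7 / 15 - 8 / 15 + 64 / 225 * τ) - μ) -
        (16 / 15 * τ - 64 / 225 * τ ^ 2) := by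
  have hτ2 : τ < 1 / 2 := by nlinarith only [hμ, e1]
  nlinarith only [hμ, sq_nonneg τ]

private theorem A2_c2 {μ τ : ℝ} (hμ : 1414 / 1000 < μ) (hτ0 : 0 < τ) (e1 : μ * τ = 1 - τ) :
    0 ≤ 3 / 5 * (((μ + 7 / 15) ^ 2 - 1) * (3 / 8) + (2 * (μ + 7 / 15 - 8 / 15 + 64 / 225 * τ) - μ) -
        (16 / 15 * τ - 64 / 225 * τ ^ 2)) - (16 / 15 * τ - 64 / 225 * τ ^ 2) - (μ - 2 * τ) := by
  obtain ⟨w, hw⟩ : ∃ w, w = μ - 1414 / 1000 := ⟨_, rfl⟩
  have em : μ = 1414 / 1000 + w := by linarith only [hw]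
  have hw0 : 0 < w := by linarith only [hμ, em]
  have k1 : 0 < w * τ := mul_pos hw0 hτ0
  have k2 : 0 < w * w := mul_pos hw0 hw0
  have e2 : w * τ = 1 - (2414 / 1000) * τ := by
    rw [em] at e1
    linarith only [e1]
  have k3 : 0 ≤ τ ^ 2 := sq_nonneg τ
  rw [em]
  nlinarith only [k2, e2]

private theorem A2_delta {μ τ d v r ea : ℝ} (hμ1 : 1414 / 1000 < μ) (hτ0 : 0 < τ) (e1 : μ * τ = 1 - τ)
    (h : 3 / 5 ≤ d) (hr : 0 < r) (hr1 : r ≤ 1 + d)
    (hK : v ^ 2 < d ^ 2 + r * (r + μ * (1 + d) - 2 * τ)) (hv : 0 < v)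
    (hea : ea ^ 2 - (1 + μ) * ea + 1 = 0) (hea0 : 0 < ea) (hea1 : ea ≤ 1)
    (hc : d + τ * r < ea * v) : False := by
  have hτ2 : τ < 1 / 2 := by nlinarith only [hμ1, e1]
  have he15 : ea ≤ 8 / 15 := ea15_70 (by linarith only [hμ1]) hea hea0 hea1
  -- `(μ + 7/15) (δ + τ r) ≤ v`
  have h1 : (μ + 7 / 15) * (d + τ * r) ≤ v := by
    have k0 : 0 < d + τ * r := by positivity
    have k1 : (1 + μ - ea) * (d + τ * r) < (1 + μ - ea) * (ea * v) :=
      mul_lt_mul_of_pos_left hc (by linarith only [hμ1, he15])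
    have k2 : (1 + μ - ea) * (ea * v) = v := by linear_combination (-v) * hea
    have k3 : (μ + 7 / 15) * (d + τ * r) ≤ (1 + μ - ea) * (d + τ * r) :=
      mul_le_mul_of_nonneg_right (by linarith only [he15]) k0.le
    linarith only [k1, k2, k3]
  have h2 : (μ + 7 / 15) * (d + τ * r) = (μ + 7 / 15) * d + (1 - 8 / 15 * τ) * r := by
    linear_combination r * e1
  rw [h2] at h1
  have h3 : ((μ + 7 / 15) * d + (1 - 8 / 15 * τ) * r) ^ 2 ≤ v ^ 2 := by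
    refine sq_le70 ?_ h1
    have := mul_nonneg (by linarith only [hτ2] : 0 ≤ 1 - 8 / 15 * τ) hr.le
    have := mul_nonneg (by linarith only [hμ1] : 0 ≤ μ + 7 / 15) (by linarith only [h] : 0 ≤ d)
    linarith
  have h4 := lt_of_le_of_lt h3 hK
  -- divide by `r`
  have k1 : 0 ≤ ((μ + 7 / 15) ^ 2 - 1) := by nlinarith only [hμ1]
  have k2 : ((μ + 7 / 15) ^ 2 - 1) * (3 / 8 * (d * r)) ≤ ((μ + 7 / 15) ^ 2 - 1) * d ^ 2 := by
    apply mul_le_mul_of_nonneg_left _ k1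
    have k3 : d * r ≤ d * (1 + d) := mul_le_mul_of_nonneg_left hr1 (by linarith only [h])
    nlinarith only [h, hr1]
  have hc0 : 0 ≤ 16 / 15 * τ - 64 / 225 * τ ^ 2 := by nlinarith only [hμ1, e1]
  have k3 : (16 / 15 * τ - 64 / 225 * τ ^ 2) * (r * r) ≤ (16 / 15 * τ - 64 / 225 * τ ^ 2) * (r * (1 + d)) :=
    mul_le_mul_of_nonneg_left (mul_le_mul_of_nonneg_left hr1 hr.le) hc0
  have e2 : (μ + 7 / 15) * (1 - 8 / 15 * τ) = μ + 7 / 15 - 8 / 15 + 64 / 225 * τ := by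
    linear_combination (-8 / 15) * e1
  have e3 : ((μ + 7 / 15) * d + (1 - 8 / 15 * τ) * r) ^ 2 =
      (μ + 7 / 15) ^ 2 * d ^ 2 + 2 * (μ + 7 / 15 - 8 / 15 + 64 / 225 * τ) * (d * r) +
        (1 - (16 / 15 * τ - 64 / 225 * τ ^ 2)) * (r * r) := by
    linear_combination (2 * (d * r)) * e2
  have h5 : r * (((μ + 7 / 15) ^ 2 - 1) * (3 / 8 * d) + (2 * (μ + 7 / 15 - 8 / 15 + 64 / 225 * τ) - μ) * d -
      (16 / 15 * τ - 64 / 225 * τ ^ 2) * (1 + d) - (μ - 2 * τ)) < 0 := by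
    rw [e3] at h4
    linarith only [h4, k2, k3]
  have h6 : ((μ + 7 / 15) ^ 2 - 1) * (3 / 8 * d) + (2 * (μ + 7 / 15 - 8 / 15 + 64 / 225 * τ) - μ) * d -
      (16 / 15 * τ - 64 / 225 * τ ^ 2) * (1 + d) - (μ - 2 * τ) < 0 := by
    by_contra h7
    rw [not_lt] at h7
    have := mul_nonneg hr.le h7
    linarith only [h5, this]
  have h7 := A2_c1 hμ1 hτ0 e1
  have h8 := mul_le_mul_of_nonneg_right h h7
  have h9 := A2_c2 hμ1 hτ0 e1
  linarith only [h6, h8, h9]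

/-- **(A2)** `p = 1`, `m2 ≥ 4`: only the exceptional root is left -/
theorem j3_A2 {μ τ e v r ea : ℝ} (hμ : 2 ≤ μ ^ 2) (hμ0 : 0 < μ) (hτ : τ * (μ + 1) = 1)
    (he : 1 ≤ e) (hv : 1 ≤ v) (hr : 0 < r)
    (hN : r ^ 2 + μ * r * e + e ^ 2 - 1 = v * ((μ + 1) * e + r - v))
    (hη : 0 ≤ (μ + 1) * e + r - 2 * v)
    (hf : v - r = 0 ∨ 1 ≤ v - r) (hz : e - r = 0 ∨ 1 ≤ e - r)
    (hK : v ^ 2 < (e - 1) ^ 2 + r * (r + μ * e - 2 * τ))
    (hea : ea ^ 2 - (1 + μ) * ea + 1 = 0) (hea0 : 0 < ea) (hea1 : ea ≤ 1)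
    (hc : (e - 1) + τ * r < ea * v) : e = 1 ∧ v = 1 ∧ r = 1 := by
  have hre : r ≤ e := by rcases hz with h | h <;> linarith only [h]
  have hτ0 : 0 < τ := by
    by_contra h
    have := mul_nonpos_of_nonpos_of_nonneg (not_lt.1 h) (by linarith only [hμ0] : 0 ≤ μ + 1)
    linarith only [hτ, this]
  have hμ2 : 1414 / 1000 < μ := by
    by_contra h
    rw [not_lt] at h
    have := sq_le70 hμ0.le h
    norm_num at this
    linarith
  -- `δ < 3/5`
  have hδ : e - 1 < 3 / 5 := by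
    by_contra h
    rw [not_lt] at h
    refine A2_delta hμ2 hτ0 (by linarith only [hτ]) h hr (by linarith only [hre]) ?_ (by linarith only [hv]) hea hea0 hea1 hc
    have : 1 + (e - 1) = e := by ring
    rw [this]
    exact hK
  rcases hf with hf | hf
  · -- `f = 0`
    have ev : v = r := by linarith only [hf]
    subst ev
    rcases hz with hz | hz
    · have er : v = e := by linarith only [hz]
      subst er
      have h1 : v ^ 2 = 1 := by linear_combination hN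
      have h3 : (v - 1) * (v + 1) = 0 := by linear_combination h1
      have h2 : v = 1 := by
        rcases mul_eq_zero.1 h3 with h | h <;> linarith
      exact ⟨h2, h2, h2⟩
    · exfalso
      linarith only [hv, hδ, hz]
  · -- `f ≥ 1`
    exfalso
    have h1 : 0 ≤ (v - r - 1) * ((μ + 1) * e - r - (v - r) - 1) :=
      mul_nonneg (by linarith only [hf]) (by linarith only [hη, hf])
    have h2 : (r - e) * (r + 1) ≤ 0 := mul_nonpos_of_nonpos_of_nonneg (by linarith only [hre]) (by linarith only [hr])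
    have h3 : 0 ≤ e * (e - μ) := by linarith only [hN, h1, h2]
    have h4 : μ ≤ e := by
      have := (mul_nonneg_iff_of_pos_left (by linarith only [he] : 0 < e)).1 h3
      linarith only [this]
    have h5 : (r + 1) ^ 2 ≤ v ^ 2 := sq_le70 (by linarith only [hr]) (by linarith only [hf])
    have h10 : (e - 1) ^ 2 < 1 := by
      have := sq_le70 (by linarith only [hμ2, h4] : 0 ≤ e - 1) hδ.le
      norm_num at this
      linarith only [this]
    have h6 : r * (2 - μ * e + 2 * τ) < 0 := by linarith only [hK, h5, h10]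
    have h7 : 2 + 2 * τ < μ * e := by
      by_contra h8
      rw [not_lt] at h8
      have := mul_nonneg hr.le (by linarith only [h8] : 0 ≤ 2 - μ * e + 2 * τ)
      linarith only [h6, this]
    have h8 : μ * e ≤ 8 / 5 * (8 / 5) := mul_le_mul (by linarith only [hδ, h4]) (by linarith only [hδ]) (by linarith only [hμ2, h4]) (by norm_num)
    have h9 : τ * (μ + 1) ≤ τ * (13 / 5) := mul_le_mul_of_nonneg_left (by linarith only [hδ, h4]) hτ0.le
    linarith only [hτ, h7, h8, h9]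

/-- **(B2)**, `m1 ≥ 5` -/
theorem j3_B2a {p e v r ea : ℝ} (hp : p + 1 ≤ p ^ 2) (hp0 : 0 < p) (he : 1 ≤ e) (hv : 1 ≤ v) (hr : 0 < r)
    (hK : v ^ 2 < (e - 1) ^ 2 + r * (r + (e - 1)))
    (hea : ea ^ 2 - (p + 1) * ea + 1 = 0) (hea0 : 0 < ea) (hea1 : ea ≤ 1)
    (hc : (e - 1) + r / 2 ≤ ea * v) : False := by
  have h1 : 3 / 2 < p := by nlinarith only [hp, hp0]
  have h2 : ea ≤ 1 / 2 := by
    by_contra h
    rw [not_le] at h
    have k1 : (5 / 2) * ea ≤ (p + 1) * ea := mul_le_mul_of_nonneg_right (by linarith only [h1]) hea0.le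
    nlinarith only [hea, hea1, h1, h]
  have h3 : 2 * (e - 1) + r ≤ v := by
    have : ea * v ≤ 1 / 2 * v := mul_le_mul_of_nonneg_right h2 (by linarith only [hv])
    linarith only [hc, this]
  have h4 : (2 * (e - 1) + r) ^ 2 ≤ v ^ 2 := sq_le70 (by linarith only [he, hr]) h3
  have h5 : 0 ≤ (e - 1) * r := mul_nonneg (by linarith only [he]) hr.le
  linarith only [hK, h4, h5, sq_nonneg (e - 1)]

private theorem B2b_r3 {p e d r : ℝ} (hp2 : p < 1415 / 1000) (ed : e = 1 + d) (hd0 : 0 ≤ d)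
    (hr : 0 < r) (hd20 : d ≤ r / 20)
    (k1 : 4 * (r ^ 2 + r * e + e ^ 2 - 1) ≤ (3 + 2 * p) * e ^ 2 + (4 + 2 * p) * (e * r) + 2 * r ^ 2) :
    r ≤ 3 := by
  by_contra h
  rw [not_le] at h
  have k3 : e ≤ 1 + r / 20 := by linarith only [ed, hd20]
  have he0 : 0 ≤ e := by linarith only [ed, hd0]
  have k5 : e * r ≤ (1 + r / 20) * r := mul_le_mul_of_nonneg_right k3 hr.le
  have k6 : e ^ 2 ≤ (1 + r / 20) ^ 2 := sq_le70 he0 k3
  have k7 : p * (e * r) ≤ 1415 / 1000 * (e * r) := mul_le_mul_of_nonneg_right hp2.le (by positivity)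
  have k8 : p * e ^ 2 ≤ 1415 / 1000 * e ^ 2 := mul_le_mul_of_nonneg_right hp2.le (by positivity)
  have k9 : 0 < (r - 3) * r := mul_pos (by linarith only [h]) hr
  linarith only [k1, h, k5, k6, k7, k8, k9]

private theorem B2b_r2 {p e d v r : ℝ} (hp1 : 1414 / 1000 < p) (ed : e = 1 + d) (hd0 : 0 ≤ d)
    (hr : 0 < r) (hr3 : r ≤ 3) (hd20 : d ≤ r / 20)
    (hN : r ^ 2 + r * e + e ^ 2 - 1 = v * ((p + 1) * e + p * r - v))
    (hη0 : 0 ≤ (p + 1) * e + p * r - 2 * v) (hvl : 15 / 16 * r ≤ v) : 52 / 25 ≤ r := by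
  by_contra h
  rw [not_le] at h
  have k1 : 0 ≤ (v - 15 / 16 * r) * ((p + 1) * e + p * r - v - 15 / 16 * r) := by
    apply mul_nonneg (by linarith only [hvl])
    linarith only [hη0, hvl]
  have k3 : 1414 / 1000 * (r * e) ≤ p * (r * e) := by
    apply mul_le_mul_of_nonneg_right hp1.le
    have : 0 ≤ e := by linarith only [ed, hd0]
    positivity
  have k4 : 1414 / 1000 * (r * r) ≤ p * (r * r) := mul_le_mul_of_nonneg_right hp1.le (by positivity)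
  have k5 : e ^ 2 - 1 ≤ r / 20 * (2 + 3 / 20) := by
    have : e ^ 2 - 1 = d * (2 + d) := by rw [ed]; ring
    rw [this]
    have : d ≤ 3 / 20 := by linarith only [hr3, hd20]
    apply mul_le_mul hd20 (by linarith only [this]) (by linarith only [hd0]) (by linarith only [hr])
  have k6 : r * 1 ≤ r * e := mul_le_mul_of_nonneg_left (by linarith only [ed, hd0]) hr.le
  have k7 : 0 < r * (11555 / 10000 - 5533 / 10000 * r) := mul_pos hr (by linarith only [h])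
  linarith only [hr, hN, k1, k3, k4, k5, k6, k7]

/-- **(B2)**, `m1 = 4` -/
theorem j3_B2b {p e v r ea η cR SL : ℝ} (hp : p ^ 2 = 2) (hp0 : 0 < p) (he : 1 ≤ e) (hv : 1 ≤ v) (hr : 0 < r)
    (hN : r ^ 2 + r * e + e ^ 2 - 1 = v * ((p + 1) * e + p * r - v))
    (hη : 2 * η = (p + 1) * e + p * r - 2 * v) (hη0 : 0 ≤ η)
    (hSL : 2 * SL = (e - 1) ^ 2 + r * (r + (e - 1)) - v ^ 2) (hK : 0 < SL)
    (hcR : cR = v * ((p + 1) / 2) - e - r / 2)
    (hea : ea ^ 2 - (p + 1) * ea + 1 = 0) (hea0 : 0 < ea) (hea1 : ea ≤ 1)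
    (hc : (e - 1) + r / 2 ≤ ea * v)
    (hP : v ^ 2 * (1 + cR) ^ 2 * (1 - η ^ 2) ≤ SL ^ 2 * r ^ 2) : False := by
  have hp1 : 1414 / 1000 < p := by
    by_contra h
    rw [not_lt] at h
    have := sq_le70 hp0.le h
    norm_num at this
    linarith only [hp, this]
  have hp2 : p < 1415 / 1000 := by
    by_contra h
    rw [not_lt] at h
    have := sq_le70 (by norm_num) h
    norm_num at this
    linarith only [hp, this]
  have he15 : ea ≤ 8 / 15 := ea15_70 (by linarith only [hp1]) hea hea0 hea1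
  obtain ⟨d, hd⟩ : ∃ d, d = e - 1 := ⟨_, rfl⟩
  have ed : e = 1 + d := by linarith only [hd]
  have hd0 : 0 ≤ d := by linarith only [he, ed]
  rw [← hd] at hSL hc
  have hvl : 15 / 16 * (r + 2 * d) ≤ v := by
    have : ea * v ≤ 8 / 15 * v := mul_le_mul_of_nonneg_right he15 (by linarith only [hv])
    linarith only [hc, this]
  have hvl2 : (15 / 16 * (r + 2 * d)) ^ 2 ≤ v ^ 2 := sq_le70 (by positivity) hvl
  have hdr : 0 ≤ d * r := mul_nonneg hd0 hr.le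
  have hdd : 0 ≤ d ^ 2 := sq_nonneg d
  have hSL2 : SL ≤ 31 / 512 * r ^ 2 := by linarith only [hSL, hvl2, hdr, hdd]
  have hd20 : d ≤ r / 20 := by
    have k2 : r * (644 * d) < r * (31 * r) := by linarith only [hK, hSL, hvl2, hdd]
    have k3 := lt_of_mul_lt_mul_left k2 hr.le
    linarith only [hd0, k3]
  have hr3 : r ≤ 3 := by
    refine B2b_r3 hp2 ed hd0 hr hd20 ?_
    have k2 : ((p + 1) * e + p * r) ^ 2 = (3 + 2 * p) * e ^ 2 + (4 + 2 * p) * (e * r) + 2 * r ^ 2 := by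
      linear_combination (e ^ 2 + 2 * (e * r) + r ^ 2) * hp
    rw [← k2, hN]
    linarith only [sq_nonneg ((p + 1) * e + p * r - 2 * v)]
  have hr2 : 52 / 25 ≤ r := B2b_r2 hp1 ed hd0 hr hr3 hd20 hN (by linarith only [hη, hη0]) (by linarith only [hd0, hvl])
  have hη2 : η ≤ 6 / 7 := by
    have k1 : p * e ≤ 1415 / 1000 * e := mul_le_mul_of_nonneg_right hp2.le (by linarith only [ed, hd0])
    have k2 : p * r ≤ 1415 / 1000 * r := mul_le_mul_of_nonneg_right hp2.le (by linarith only [hr2])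
    linarith only [hη, ed, hd0, hvl, hr2, k1, k2]
  have hcR2 : r / 2 ≤ 1 + cR := by
    have k1 : (1414 / 1000) * v ≤ p * v := mul_le_mul_of_nonneg_right hp1.le (by linarith only [hd0, hvl, hr2])
    rw [hcR, ed]
    linarith only [hd0, hvl, hr2, k1]
  have q1 : (15 / 16 * r) ^ 2 ≤ v ^ 2 := sq_le70 (by positivity) (by linarith only [hd0, hvl])
  have q2 : (r / 2) ^ 2 ≤ (1 + cR) ^ 2 := sq_le70 (by positivity) hcR2
  have q3 : 13 / 49 ≤ 1 - η ^ 2 := by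
    have := sq_le70 hη0 hη2
    norm_num at this
    linarith only [this]
  have q4 : (15 / 16 * r) ^ 2 * (r / 2) ^ 2 ≤ v ^ 2 * (1 + cR) ^ 2 :=
    mul_le_mul q1 q2 (by positivity) (by positivity)
  have q5 : (15 / 16 * r) ^ 2 * (r / 2) ^ 2 * (13 / 49) ≤ v ^ 2 * (1 + cR) ^ 2 * (1 - η ^ 2) :=
    mul_le_mul q4 q3 (by norm_num) (by positivity)
  have q6 : SL ^ 2 ≤ (31 / 512 * r ^ 2) ^ 2 := sq_le70 hK.le hSL2
  have q7 : SL ^ 2 * r ^ 2 ≤ (31 / 512 * r ^ 2) ^ 2 * r ^ 2 := mul_le_mul_of_nonneg_right q6 (sq_nonneg r)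
  have q9 : r ^ 4 * ((15 / 16) ^ 2 * (1 / 2) ^ 2 * (13 / 49) - (31 / 512) ^ 2 * r ^ 2) ≤ 0 := by linarith only [hP, q5, q7]
  have q10 : r ^ 2 ≤ 9 := by
    have := sq_le70 hr.le hr3
    norm_num at this
    exact this
  have q11 : 0 < r ^ 4 := by positivity
  have q12 : 0 < (15 / 16 : ℝ) ^ 2 * (1 / 2) ^ 2 * (13 / 49) - (31 / 512) ^ 2 * r ^ 2 := by
    norm_num
    linarith only [q10]
  have := mul_pos q11 q12
  linarith only [q9, this]

/-- the pair inequality -/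
theorem pair70 {Δ β fa c cR ca η v SL : ℝ} (hβ : 0 < β) (hΔ : 0 < Δ) (hfa : 0 < fa) (hF : 1 ≤ Δ * fa)
    (hcR : 0 ≤ cR) (hca : 0 ≤ ca) (hη : 0 ≤ η) (hv : 0 < v)
    (h1 : v * (fa * (1 + cR)) ≤ SL) (h2 : SL < v * η)
    (hG : β ^ 2 * (1 - c ^ 2) = Δ ^ 2 * ((1 - η ^ 2) + 2 * fa * (η * cR + ca) - (cR ^ 2 - 1) * fa ^ 2)) :
    v ^ 2 * (1 + cR) ^ 2 * (1 - η ^ 2) ≤ SL ^ 2 * β ^ 2 := by
  have hfη : fa * (1 + cR) < η := by
    have : v * (fa * (1 + cR)) < v * η := lt_of_le_of_lt h1 h2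
    exact lt_of_mul_lt_mul_left this hv.le
  have hfc : 0 ≤ fa * (1 + cR) := by positivity
  have hb : 1 - η ^ 2 ≤ (1 - η ^ 2) + 2 * fa * (η * cR + ca) - (cR ^ 2 - 1) * fa ^ 2 := by
    have k1 : 0 ≤ fa * ca := by positivity
    have k3 : fa * cR * (fa * (1 + cR)) ≤ fa * cR * η := mul_le_mul_of_nonneg_left hfη.le (by positivity)
    have k4 : 0 ≤ fa * cR * η := by positivity
    have k5 : 0 ≤ fa ^ 2 * (1 + cR) := by positivity
    linarith only [k1, k3, k4, k5]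
  have hb2 : Δ ^ 2 * (1 - η ^ 2) ≤ β ^ 2 := by
    have k1 : Δ ^ 2 * (1 - η ^ 2) ≤
        Δ ^ 2 * ((1 - η ^ 2) + 2 * fa * (η * cR + ca) - (cR ^ 2 - 1) * fa ^ 2) :=
      mul_le_mul_of_nonneg_left hb (by positivity)
    have k2 : 0 ≤ β ^ 2 * c ^ 2 := by positivity
    linarith only [hG, k1, k2]
  have hF2 : 1 ≤ (Δ * fa) ^ 2 := by
    have := sq_le70 (by norm_num : (0:ℝ) ≤ 1) hF
    linarith only [this]
  rcases le_or_gt (1 - η ^ 2) 0 with h | h
  · have k1 : v ^ 2 * (1 + cR) ^ 2 * (1 - η ^ 2) ≤ 0 :=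
      mul_nonpos_of_nonneg_of_nonpos (by positivity) h
    have k2 : 0 ≤ SL ^ 2 * β ^ 2 := by positivity
    linarith only [k1, k2]
  · have k1 : (v * (fa * (1 + cR))) ^ 2 ≤ SL ^ 2 := sq_le70 (by positivity) h1
    have k2 : (v * (fa * (1 + cR))) ^ 2 * (Δ ^ 2 * (1 - η ^ 2)) ≤ SL ^ 2 * β ^ 2 :=
      mul_le_mul k1 hb2 (by positivity) (by positivity)
    have k3 : 0 ≤ v ^ 2 * (1 + cR) ^ 2 * (1 - η ^ 2) := by positivity
    have k4 : v ^ 2 * (1 + cR) ^ 2 * (1 - η ^ 2) * 1 ≤ v ^ 2 * (1 + cR) ^ 2 * (1 - η ^ 2) * (Δ * fa) ^ 2 :=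
      mul_le_mul_of_nonneg_left hF2 k3
    have k5 : v ^ 2 * (1 + cR) ^ 2 * (1 - η ^ 2) * (Δ * fa) ^ 2 =
        (v * (fa * (1 + cR))) ^ 2 * (Δ ^ 2 * (1 - η ^ 2)) := by ring
    linarith only [k2, k4]

end Pool.Agent.Helper70.DY
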