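import Pool.Agent.Helper70.DY.J3a
import Pool.Agent.Helper70.DY.J3b
import Pool.Agent.Helper62.DY.CaseI

/-!
# GAP1, `h = d2`, `j = 3`, `m_O = 3`: the argument for coordinate triples (MP_d13a5e_al)
-/

set_option autoImplicit false

namespace Pool.Agent.Helper70.DY

open _root_.DY (Z1 sq)
open Pool.Agent.Helper62.DY (RT)

section

variable {b1 b2 τ κ fa Δ c g x1 x2 g' x1' x2' : ℝ}

/-- the exact identity behind `K fails` -/
theorem pk_id {e η cR SL : ℝ} (hfa : g = κ * (x2 - x1) - x1 * fa)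
    (hn : g ^ 2 + x1 ^ 2 + x2 ^ 2 - 2 * b1 * g * x1 - 2 * b2 * g * x2 - x1 * x2 = 1)
    (hcR : cR = b1 * x1 + b2 * x2 - g) (hη : η = (b1 + b2) * g - (x1 + x2) / 2)
    (hE : Δ * (x2 - b2 * g - x1 / 2) = x1' + x1 * c + Δ * (κ * cR))
    (he : e = 2 * b2 * g + x1 - x2) (hτ : τ * (2 * b2 + 1) = 1)
    (hSL : SL = x1 * η - ((e - 1) + τ * (g - 2 * b2 * e))) :
    Δ * SL = (x2 - x1) * (x1' - Δ * (κ - τ)) + (x2 - x1) * (x1 * c) + Δ * (x1 * (fa * (1 + cR))) := by
  have h1 : SL = x1 * η - (g - τ * (x2 - x1) - 1) := by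
    rw [hSL, he]
    linear_combination (2 * b2 * g + x1 - x2 - g) * hτ
  rw [h1]
  rw [hcR] at hE ⊢
  rw [hη]
  linear_combination (x2 - x1) * hE - Δ * hn - Δ * (1 + (b1 * x1 + b2 * x2 - g)) * hfa

/-- the Gram identity -/
theorem pg_id {η cR : ℝ} (hx1 : 0 < x1) (hfa : g = κ * (x2 - x1) - x1 * fa)
    (hn : g ^ 2 + x1 ^ 2 + x2 ^ 2 - 2 * b1 * g * x1 - 2 * b2 * g * x2 - x1 * x2 = 1)
    (hcR : cR = b1 * x1 + b2 * x2 - g) (hη : η = (b1 + b2) * g - (x1 + x2) / 2)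
    (hE : Δ * (x2 - b2 * g - x1 / 2) = x1' + x1 * c + Δ * (κ * cR))
    (hQ : Δ ^ 2 * (1 + κ ^ 2 - 2 * b2 * κ) = x1' ^ 2 + x1 ^ 2 + 2 * x1 * x1' * c) :
    (x2 - x1) ^ 2 * (1 - c ^ 2) =
      Δ ^ 2 * ((1 - η ^ 2) + 2 * fa * (η * cR + (b1 + b2)) - (cR ^ 2 - 1) * fa ^ 2) := by
  have hY : (x2 - x1) * (x1' + x1 * c) = Δ * (1 + x1 * η - x1 * fa * cR) := by
    rw [hcR] at hE ⊢
    rw [hη]
    linear_combination (-(x2 - x1)) * hE + Δ * hn + Δ * (b1 * x1 + b2 * x2 - g) * hfa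
  have hB : (x2 - x1) ^ 2 * (1 + κ ^ 2 - 2 * b2 * κ) =
      1 + 2 * x1 * η + x1 ^ 2 + 2 * x1 * fa * (x1 * (b1 + b2) - cR) + x1 ^ 2 * fa ^ 2 := by
    have e1 : κ * (x2 - x1) = g + x1 * fa := by linarith only [hfa]
    have e2 : (x2 - x1) ^ 2 * (1 + κ ^ 2 - 2 * b2 * κ) =
        (x2 - x1) ^ 2 + (κ * (x2 - x1)) ^ 2 - 2 * b2 * (x2 - x1) * (κ * (x2 - x1)) := by ring
    rw [e2, e1, hcR, hη]
    linear_combination hn
  have h3 : x1 ^ 2 * ((x2 - x1) ^ 2 * (1 - c ^ 2)) =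
      x1 ^ 2 * (Δ ^ 2 * ((1 - η ^ 2) + 2 * fa * (η * cR + (b1 + b2)) - (cR ^ 2 - 1) * fa ^ 2)) := by
    have e3 : x1 ^ 2 * ((x2 - x1) ^ 2 * (1 - c ^ 2)) =
        Δ ^ 2 * ((x2 - x1) ^ 2 * (1 + κ ^ 2 - 2 * b2 * κ)) - ((x2 - x1) * (x1' + x1 * c)) ^ 2 := by
      linear_combination (-(x2 - x1) ^ 2) * hQ
    rw [e3, hB, hY]
    ring
  exact mul_left_cancel₀ (by positivity) h3

end

theorem one_le_sq70 {a : ℝ} (h : 1 ≤ a) : 1 ≤ a ^ 2 := by
  have := sq_le70 zero_le_one h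
  rwa [one_pow] at this

theorem one_lt_sq70 {a : ℝ} (h : 1 < a) : 1 < a ^ 2 := by
  have h1 : a * 1 < a * a := mul_lt_mul_of_pos_left h (by linarith only [h])
  rw [pow_two]
  linarith only [h, h1]

/-- the small root of `w² - 2 b w + 1` -/
theorem small_root70 {b M τ : ℝ} (hb : M + τ ≤ 2 * b) (hτ : τ * M = 1) (hτ0 : 0 < τ) (hτ1 : τ < 1) :
    1 ≤ b ∧ ∃ w : ℝ, w ^ 2 - 2 * b * w + 1 = 0 ∧ 0 < w ∧ w ≤ 1 ∧ w ≤ τ := by
  have hM : 1 < M := by
    by_contra h
    rw [not_lt] at h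
    have h1 : τ * M ≤ τ * 1 := mul_le_mul_of_nonneg_left h hτ0.le
    linarith only [hτ, hτ1, h1]
  have hb1 : 1 ≤ b := by
    have h1 : 0 ≤ (1 - τ) * (M - 1) := mul_nonneg (by linarith only [hτ1]) (by linarith only [hM])
    linarith only [hb, hτ, h1]
  have hs : 0 ≤ b ^ 2 - 1 := by
    have := one_le_sq70 hb1
    linarith only [this]
  obtain ⟨s, hs0, hs1⟩ : ∃ s : ℝ, 0 ≤ s ∧ s ^ 2 = b ^ 2 - 1 := ⟨√(b ^ 2 - 1), Real.sqrt_nonneg _,
    Real.sq_sqrt hs⟩
  have hsb : s < b := by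
    by_contra k5
    rw [not_lt] at k5
    have := sq_le70 (by linarith only [hb1]) k5
    linarith only [hs1, this]
  have hprod : (b - s) * (b + s) = 1 := by linear_combination -hs1
  have hw1 : b - s ≤ 1 := by
    have h2 : (b - s) * 1 ≤ (b - s) * (b + s) := mul_le_mul_of_nonneg_left (by linarith only [hb1, hs0]) (by linarith only [hsb])
    linarith only [hprod, h2]
  have hwτ : b - s ≤ τ := by
    by_contra k5
    rw [not_le] at k5
    have k6 : (b - s - τ) * (b + s - τ) = 1 + τ ^ 2 - 2 * b * τ := by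
      linear_combination -hs1
    have k8 : (M + τ) * τ ≤ 2 * b * τ := mul_le_mul_of_nonneg_right hb hτ0.le
    have k9 : 0 < (b - s - τ) * (b + s - τ) := mul_pos (by linarith only [k5]) (by linarith only [hτ1, hb1, hs0])
    linarith only [hτ, k6, k8, k9]
  exact ⟨hb1, b - s, by linear_combination hs1, by linarith only [hsb], hw1, hwτ⟩

/-- the last step of (B1) -/
theorem fin70 {b2 β η cR SL x1 : ℝ} (hb2 : 1 / 2 ≤ b2 ^ 2) (hb20 : 0 < b2) (hβ : 0 < β) (hx1 : 0 < x1)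
    (hη0 : 0 < η) (hη1 : η < 1 / 2) (h1 : b2 * β ≤ 1 + cR) (hSL0 : 0 < SL) (hSL : SL < x1 * η)
    (hP : x1 ^ 2 * (1 + cR) ^ 2 * (1 - η ^ 2) ≤ SL ^ 2 * β ^ 2) : False := by
  have hη4 : η ^ 2 < 1 / 4 := by
    have k1 : η * η < η * (1 / 2) := mul_lt_mul_of_pos_left hη1 hη0
    rw [pow_two]
    linarith only [hη1, k1]
  have k5 : (b2 * β) ^ 2 ≤ (1 + cR) ^ 2 := sq_le70 (by positivity) h1
  have k6 : x1 ^ 2 * (b2 * β) ^ 2 * (1 - η ^ 2) ≤ x1 ^ 2 * (1 + cR) ^ 2 * (1 - η ^ 2) :=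
    mul_le_mul_of_nonneg_right (mul_le_mul_of_nonneg_left k5 (sq_nonneg x1)) (by linarith only [hη4])
  have k7 : SL ^ 2 ≤ (x1 * η) ^ 2 := sq_le70 hSL0.le hSL.le
  have k8 : SL ^ 2 * β ^ 2 ≤ (x1 * η) ^ 2 * β ^ 2 := mul_le_mul_of_nonneg_right k7 (by positivity)
  have k9 : (x1 * β) ^ 2 * (b2 ^ 2 * (1 - η ^ 2)) ≤ (x1 * β) ^ 2 * η ^ 2 := by
    have e1 : (x1 * β) ^ 2 * (b2 ^ 2 * (1 - η ^ 2)) = x1 ^ 2 * (b2 * β) ^ 2 * (1 - η ^ 2) := by ring
    have e2 : (x1 * β) ^ 2 * η ^ 2 = (x1 * η) ^ 2 * β ^ 2 := by ring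
    rw [e1, e2]
    linarith only [hP, k6, k8]
  have k10 := le_of_mul_le_mul_left k9 (by positivity)
  have k12 : 1 / 2 * (3 / 4) ≤ b2 ^ 2 * (1 - η ^ 2) :=
    mul_le_mul hb2 (by linarith only [hη4]) (by norm_num) (by positivity)
  linarith only [hη4, k10, k12]

/-- **the case `j = 3` of [GAP1], `h = d2`, `m_O = 3`, `x_L ≠ a`** -/
theorem j3_core {b1 b2 τ κ fa Δ c g x1 x2 g' x1' x2' ra r2 rx ea : ℝ} {R : ℝ → ℝ → ℝ → Prop}
    (h : RT b1 b2 (1 / 2) R) (hx : R g x1 x2) (hy : R g' x1' x2')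
    (hb1 : 1 / 2 ≤ b1) (hca : 1 < b1 + b2)
    (h1 : 1 ≤ x1) (hβ : x1 < x2) (hg : 1 ≤ g) (hg' : 1 ≤ g') (h1' : 1 ≤ x1')
    (hΔ : Δ = x2 * x1' - x1 * x2') (hΔ0 : 0 < Δ) (hκ : Δ * κ = g * x1' - g' * x1)
    (hfa : g = κ * (x2 - x1) - x1 * fa) (hfa0 : 0 < fa) (hF : 1 ≤ Δ * fa)
    (hcR : 0 ≤ b1 * x1 + b2 * x2 - g) (hc : 0 ≤ c)
    (hE : Δ * (x2 - b2 * g - x1 / 2) = x1' + x1 * c + Δ * (κ * (b1 * x1 + b2 * x2 - g)))
    (hQ : Δ ^ 2 * (1 + κ ^ 2 - 2 * b2 * κ) = x1' ^ 2 + x1 ^ 2 + 2 * x1 * x1' * c)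
    (hτ : τ * (2 * b2 + 1) = 1) (hKf : Δ * (κ - τ) ≤ x1') (hκ1 : 1 ≤ 2 * b2 * κ)
    (hcase : (b2 = 1 / 2 ∧ -τ ≤ r2) ∨
      (1 < 2 * b2 ∧ ((2 * b2) ^ 2 - 1) * κ < 2 * b2 ∧ -τ < r2))
    (hra : -ea ≤ ra) (hea : ea ^ 2 - 2 * (b1 + b2) * ea + 1 = 0) (hea0 : 0 < ea) (hea1 : ea ≤ 1)
    (hrx : rx = g + x1 * ra + (x2 - x1) * r2) (hrx0 : 0 ≤ rx) (hrx1 : rx ≤ 1)
    (hult : ∀ b w : ℝ, 2 * b = 2 * g - 2 * b1 * x1 - 2 * b2 * (2 * b2 * g + x1 - x2) → 1 ≤ b →
      w ^ 2 - 2 * b * w + 1 = 0 → 0 < w → w ≤ 1 → 1 + 2 * b2 * r2 ≤ w * rx) : False := by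
  have hb2 : 0 ≤ b2 := h.b2n
  have hμ0 : 0 < 2 * b2 + 1 := by linarith only [hb2]
  have hτ0 : 0 < τ := by
    by_contra h0
    have := mul_nonpos_of_nonpos_of_nonneg (not_lt.1 h0) hμ0.le
    linarith only [hτ, this]
  have hn := h.n _ _ _ hx
  have hn' : g ^ 2 + x1 ^ 2 + x2 ^ 2 - 2 * b1 * g * x1 - 2 * b2 * g * x2 - x1 * x2 = 1 := by
    linear_combination hn
  obtain ⟨e, he⟩ : ∃ e, e = 2 * b2 * g + x1 - x2 := ⟨_, rfl⟩
  obtain ⟨e', he'⟩ : ∃ e', e' = 2 * b2 * g' + x1' - x2' := ⟨_, rfl⟩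
  obtain ⟨r, hr⟩ : ∃ r, r = g - 2 * b2 * e := ⟨_, rfl⟩
  obtain ⟨cR, hcRd⟩ : ∃ cR, cR = b1 * x1 + b2 * x2 - g := ⟨_, rfl⟩
  obtain ⟨η, hη⟩ : ∃ η, η = (b1 + b2) * g - (x1 + x2) / 2 := ⟨_, rfl⟩
  obtain ⟨SL, hSL⟩ : ∃ SL, SL = x1 * η - ((e - 1) + τ * (g - 2 * b2 * e)) := ⟨_, rfl⟩
  have hx2 : R g x1 e := by
    have := h.r2 _ _ _ hx
    have e1 : 2 * b2 * g + 2 * (1 / 2) * x1 - x2 = e := by rw [he]; ring
    rw [e1] at this
    exact this
  have hy2 : R g' x1' e' := by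
    have := h.r2 _ _ _ hy
    have e1 : 2 * b2 * g' + 2 * (1 / 2) * x1' - x2' = e' := by rw [he']; ring
    rw [e1] at this
    exact this
  have ze := (h.z1 hx2 (by linarith only [h1])).2.2
  have ze' := (h.z1 hy2 (by linarith only [h1'])).2.2
  -- `e ≥ 1`
  have hT : e * x1' - x1 * e' = Δ * (2 * b2 * κ - 1) := by
    rw [he, he']
    linear_combination (-(2 * b2)) * hκ + hΔ
  have hT0 : 0 ≤ Δ * (2 * b2 * κ - 1) := mul_nonneg hΔ0.le (by linarith only [hκ1])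
  have he1 : 1 ≤ e := by
    rcases ze with h0 | h0
    · exfalso
      have k1 : x1 * e' ≤ 0 := by
        rw [h0, zero_mul] at hT
        linarith only [hT, hT0]
      have k2 : e' = 0 := by
        rcases ze' with k | k
        · exact k
        · exfalso
          have := mul_pos (by linarith only [h1] : 0 < x1) (by linarith only [k] : 0 < e')
          linarith only [k1, this]
      rw [h0, k2] at hT
      have k3 : Δ * (2 * b2 * κ - 1) = 0 := by linarith only [hT]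
      have k4 : 2 * b2 * κ - 1 = 0 := by
        rcases mul_eq_zero.1 k3 with k | k
        · linarith only [hΔ0, k]
        · exact k
      -- `x2 - x1 = 2 b2 g`, so `g = g - x1 fa`
      rw [h0] at he
      have k5 : x1 * fa = 0 := by
        have k6 : x2 - x1 = 2 * b2 * g := by linarith only [he]
        rw [k6] at hfa
        linear_combination g * k4 + hfa
      have := mul_pos (by linarith only [h1] : 0 < x1) hfa0
      linarith only [k5, this]
    · exact h0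
  -- `r > 0`
  have hβ0 : 0 < x2 - x1 := by linarith only [hβ]
  have hgκ : g ≤ κ * (x2 - x1) := by
    have := mul_pos (by linarith only [h1] : 0 < x1) hfa0
    linarith only [hfa, this]
  have hr2 : r = 2 * b2 * (x2 - x1) - ((2 * b2) ^ 2 - 1) * g := by
    rw [hr, he]
    ring
  have hr0 : 0 < r := by
    rw [hr2]
    rcases hcase with ⟨k1, -⟩ | ⟨k1, k2, -⟩
    · rw [k1]
      norm_num
      linarith only [hβ0]
    · have k3 : 0 ≤ (2 * b2) ^ 2 - 1 := by nlinarith only [k1]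
      have k4 : ((2 * b2) ^ 2 - 1) * g ≤ ((2 * b2) ^ 2 - 1) * (κ * (x2 - x1)) :=
        mul_le_mul_of_nonneg_left hgκ k3
      have k5 : ((2 * b2) ^ 2 - 1) * κ * (x2 - x1) < 2 * b2 * (x2 - x1) := mul_lt_mul_of_pos_right k2 hβ0
      linarith
  -- identities
  have hN : r ^ 2 + 2 * b2 * r * e + e ^ 2 - 1 = x1 * ((2 * b1 * (2 * b2) + 1) * e + 2 * b1 * r - x1) := by
    have k1 := h.n _ _ _ hx2
    have k2 : g = r + 2 * b2 * e := by linarith only [hr]
    rw [k2] at k1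
    linear_combination k1
  have hη2 : 2 * η = (2 * b1 * (2 * b2) + 1) * e + 2 * b1 * r - 2 * x1 := by
    rw [hη, hr, he]
    ring
  have hSLr : SL = x1 * η - ((e - 1) + τ * r) := by rw [hSL, hr]
  have hSL2 : 2 * SL = (e - 1) ^ 2 + r * (r + 2 * b2 * e - 2 * τ) - x1 ^ 2 := by
    rw [hSLr]
    linear_combination x1 * hη2 - hN
  -- `K fails`
  have hpk := pk_id (Δ := Δ) (c := c) (x1' := x1') hfa hn' hcRd hη (by rw [hcRd]; exact hE) he hτ hSL
  have hcR0 : 0 ≤ cR := by rw [hcRd]; exact hcR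
  have hPK : x1 * (fa * (1 + cR)) ≤ SL := by
    have k1 : 0 ≤ (x2 - x1) * (x1' - Δ * (κ - τ)) := mul_nonneg hβ0.le (by linarith only [hKf])
    have k2 : 0 ≤ (x2 - x1) * (x1 * c) := by positivity
    refine le_of_mul_le_mul_left ?_ hΔ0
    linarith only [hpk, k1, k2]
  have hPKpos : 0 < x1 * (fa * (1 + cR)) := by positivity
  have hSL0 : 0 < SL := by linarith only [hPK, hPKpos]
  have hτr : 0 < τ * r := mul_pos hτ0 hr0
  have hSLη : SL < x1 * η := by linarith only [he1, hSLr, hτr]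
  have hη0 : 0 < η := by
    have : 0 < x1 * η := by linarith only [hSL0, hSLη]
    exact (mul_pos_iff_of_pos_left (by linarith only [h1])).1 this
  have hG := pg_id (Δ := Δ) (c := c) (x1' := x1') (by linarith only [h1]) hfa hn' hcRd hη (by rw [hcRd]; exact hE) hQ
  have hpair := pair70 hβ0 hΔ0 hfa0 hF hcR0 (by linarith only [hca] : 0 ≤ b1 + b2) hη0.le (by linarith only [h1]) hPK hSLη hG
  -- the corner
  have hrx2 : rx = 1 + ((e - 1) + τ * r - ea * x1) + x1 * (ra + ea) + (x2 - x1) * (r2 + τ) := by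
    rw [hrx, hr, he]
    linear_combination (2 * b2 * g + x1 - x2 - g) * hτ
  have hrac : 0 ≤ x1 * (ra + ea) := mul_nonneg (by linarith only [h1]) (by linarith only [hra])
  -- the labels
  rcases hcase with ⟨k1, k2⟩ | ⟨k1, k2, k3⟩
  · -- `m2 = 3`
    have hτ2 : τ = 1 / 2 := by
      rw [k1] at hτ
      linarith only [hτ]
    have hc1 : (e - 1) + r / 2 ≤ ea * x1 := by
      have : 0 ≤ (x2 - x1) * (r2 + τ) := mul_nonneg hβ0.le (by linarith only [k2])
      rw [hτ2] at this hrx2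
      linarith only [hrx1, hrx2, hrac, this]
    have hrβ : r = x2 - x1 := by
      rw [hr2, k1]
      ring
    subst k1
    have hsq1 : sq b1 (0 + 1) = 1 := rfl
    have hsq2 : sq b1 (1 + 1) = 2 * b1 := by
      show 2 * b1 * 1 - 0 = 2 * b1
      ring
    have hsq3 : sq b1 (2 + 1) = (2 * b1) ^ 2 - 1 := by
      show 2 * b1 * sq b1 (1 + 1) - sq b1 (0 + 1) = _
      rw [hsq2, hsq1]
      ring
    have hsq4 : sq b1 (3 + 1) = (2 * b1) ^ 3 - 2 * (2 * b1) := by
      show 2 * b1 * sq b1 (2 + 1) - sq b1 (1 + 1) = _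
      rw [hsq2, hsq3]
      ring
    have hp1 : 1 < 2 * b1 := by linarith only [hca]
    have hs3 : 0 < sq b1 (2 + 1) := by
      rw [hsq3]
      have := one_lt_sq70 hp1
      linarith only [this]
    have hs3' := Pool.Agent.Helper62.DY.RT.pge h.swap 2 hs3
    rw [hsq3] at hs3'
    have hs4 := Pool.Agent.Helper62.DY.RT.pnn h.swap 2 hs3
    have hs4' : 0 ≤ sq b1 (3 + 1) := hs4
    have hN2 : r ^ 2 + r * e + e ^ 2 - 1 = x1 * ((2 * b1 + 1) * e + 2 * b1 * r - x1) := by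
      linear_combination hN
    have hea2 : ea ^ 2 - (2 * b1 + 1) * ea + 1 = 0 := by linear_combination hea
    have hK2 : 2 * SL = (e - 1) ^ 2 + r * (r + (e - 1)) - x1 ^ 2 := by
      rw [hτ2] at hSL2
      linear_combination hSL2
    rcases hs4'.lt_or_eq with k4 | k4
    · -- `m1 ≥ 5`
      have k5 := Pool.Agent.Helper62.DY.RT.pge h.swap 3 k4
      rw [hsq4] at k5
      have k6 : 2 * b1 + 1 ≤ (2 * b1) ^ 2 := by
        have k7 : 0 ≤ (2 * b1 + 1) * ((2 * b1) ^ 2 - 2 * b1 - 1) := by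
          have e1 : (2 * b1 + 1) * ((2 * b1) ^ 2 - 2 * b1 - 1) = (2 * b1) ^ 3 - 2 * (2 * b1) - 1 := by ring
          rw [e1]
          linarith only [k5]
        have := (mul_nonneg_iff_of_pos_left (by linarith only [hp1] : 0 < 2 * b1 + 1)).1 k7
        linarith only [this]
      exact j3_B2a (p := 2 * b1) k6 (by linarith only [hp1]) he1 h1 hr0 (by linarith only [hSL0, hK2]) hea2 hea0 hea1 hc1
    · -- `m1 = 4`
      rw [hsq4] at k4
      have k5 : (2 * b1) ^ 2 = 2 := by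
        have k6 : 2 * b1 * ((2 * b1) ^ 2 - 2) = 0 := by linarith only [k4]
        rcases mul_eq_zero.1 k6 with k | k <;> linarith
      refine j3_B2b (p := 2 * b1) (η := η) (cR := cR) (SL := SL) k5 (by linarith only [hp1]) he1 h1 hr0 hN2 ?_ hη0.le
        hK2 hSL0 ?_ hea2 hea0 hea1 hc1 ?_
      · linear_combination hη2
      · rw [hcRd, hr, he]
        ring
      · rw [hrβ]
        exact hpair
  · -- `m2 ≥ 4`
    have hc1 : (e - 1) + τ * r < ea * x1 := by
      have : 0 < (x2 - x1) * (r2 + τ) := mul_pos hβ0 (by linarith only [k3])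
      linarith only [hrx1, hrx2, hrac, this]
    have hμ2 : 2 ≤ (2 * b2) ^ 2 := by
      rcases h.swap.swap0.bOs with k | k | k
      · linarith only [k1, k]
      · linarith only [k1, k]
      · exact k
    rcases h.swap0.bOs with k | k | k
    · linarith only [hb1, k]
    · -- `m1 = 3`
      have hf : R (x1 - r) x1 e := by
        have := h.r0 _ _ _ hx2
        have e1 : 2 * b1 * x1 + 2 * b2 * e - g = x1 - r := by
          rw [hr, k]
          ring
        rw [e1] at this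
        exact this
      have zf := (h.z1 hf (by linarith only [h1])).1
      have hz : R (x1 - r) (e - r) e := by
        have := h.r1 _ _ _ hf
        have e1 : 2 * b1 * (x1 - r) + 2 * (1 / 2) * e - x1 = e - r := by
          rw [k]
          ring
        rw [e1] at this
        exact this
      have zz := (h.z2 hz (by linarith only [he1])).2.1
      have hN2 : r ^ 2 + 2 * b2 * r * e + e ^ 2 - 1 = x1 * ((2 * b2 + 1) * e + r - x1) := by
        rw [k] at hN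
        linear_combination hN
      have hη3 : 0 ≤ (2 * b2 + 1) * e + r - 2 * x1 := by
        rw [k] at hη2
        linarith only [hη2, hη0]
      have hea2 : ea ^ 2 - (1 + 2 * b2) * ea + 1 = 0 := by
        linear_combination hea + ea * k
      obtain ⟨u1, u2, u3⟩ := j3_A2 (μ := 2 * b2) hμ2 (by linarith only [k1]) hτ he1 h1 hr0 hN2 hη3 zf zz
        (by linarith only [hSL2, hPK, hPKpos]) hea2 hea0 hea1 hc1
      -- `x_R = U`
      have hgU : g = 2 * b2 + 1 := by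
        rw [u1, u3] at hr
        linarith only [hr]
      have hx2U : x2 = (2 * b2) ^ 2 + 2 * b2 := by
        rw [u1, hgU, u2] at he
        linarith only [he]
      have hκ' : Δ * κ = (2 * b2 + 1) * x1' - g' := by
        rw [hκ, hgU, u2]
        ring
      have hΔ' : Δ = ((2 * b2) ^ 2 + 2 * b2) * x1' - x2' := by
        rw [hΔ, hx2U, u2]
        ring
      -- coordinates of `x_L`
      have hf' : R (x1' + 2 * b2 * e' - g') x1' e' := by
        have := h.r0 _ _ _ hy2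
        have e1 : 2 * b1 * x1' + 2 * b2 * e' - g' = x1' + 2 * b2 * e' - g' := by
          rw [k]
          ring
        rw [e1] at this
        exact this
      have hf3 : x1' + 2 * b2 * e' - g' = Δ * (2 * b2 - ((2 * b2) ^ 2 - 1) * κ) := by
        have : Δ * (2 * b2 - ((2 * b2) ^ 2 - 1) * κ) = 2 * b2 * Δ - ((2 * b2) ^ 2 - 1) * (Δ * κ) := by ring
        rw [this, hκ', hΔ', he']
        ring
      have hf'0 : 0 < x1' + 2 * b2 * e' - g' := by
        rw [hf3]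
        exact mul_pos hΔ0 (by linarith only [k2])
      have hz' : R (x1' + 2 * b2 * e' - g') ((x1' + 2 * b2 * e' - g') + e' - x1') e' := by
        have := h.r1 _ _ _ hf'
        have e1 : 2 * b1 * (x1' + 2 * b2 * e' - g') + 2 * (1 / 2) * e' - x1' =
            (x1' + 2 * b2 * e' - g') + e' - x1' := by
          rw [k]
          ring
        rw [e1] at this
        exact this
      have zz' := (h.z0 hz' hf'0).2.1
      have hz0 : 0 ≤ (x1' + 2 * b2 * e' - g') + e' - x1' := by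
        rcases zz' with k4 | k4 <;> linarith only [k4]
      have hfaU : Δ * fa = -((x1' + 2 * b2 * e' - g') + e' - x1') := by
        have k4 : fa = κ * (x2 - x1) - g := by
          rw [u2] at hfa ⊢
          linarith only [hfa]
        rw [k4, hx2U, u2, hgU]
        have : Δ * (κ * ((2 * b2) ^ 2 + 2 * b2 - 1) - (2 * b2 + 1)) =
            (Δ * κ) * ((2 * b2) ^ 2 + 2 * b2 - 1) - (2 * b2 + 1) * Δ := by ring
        rw [this, hκ', hΔ', he']
        ring
      linarith only [hF, hz0, hfaU]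
    · -- `m1 ≥ 4`
      have hτ1 : τ < 1 := by
        by_contra k4
        rw [not_lt] at k4
        have := mul_le_mul_of_nonneg_right k4 hμ0.le
        linarith
      -- `B(x, u_2) > 0`
      have hbpos : 0 < 2 * r + 2 * b2 * e - 2 * b1 * x1 := by
        -- `b = μ B(x,d2) - cR`
        have k4 : 2 * r + 2 * b2 * e - 2 * b1 * x1 = 2 * (2 * b2 * (x2 - b2 * g - x1 / 2) - cR) := by
          rw [hr, he, hcRd]
          ring
        rw [k4]
        have k5 : Δ * (2 * b2 * (x2 - b2 * g - x1 / 2) - cR) =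
            2 * b2 * (x1' + x1 * c) + Δ * ((2 * b2 * κ - 1) * cR) := by
          rw [← hcRd] at hE
          linear_combination (2 * b2) * hE
        have k6 : 0 < 2 * b2 * (x1' + x1 * c) := by
          apply mul_pos (by linarith only [k1])
          have := mul_nonneg (by linarith only [h1] : 0 ≤ x1) hc
          linarith only [h1', this]
        have k7 : 0 ≤ Δ * ((2 * b2 * κ - 1) * cR) :=
          mul_nonneg hΔ0.le (mul_nonneg (by linarith only [hκ1]) hcR0)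
        have k8 : 0 < Δ * (2 * b2 * (x2 - b2 * g - x1 / 2) - cR) := by linarith only [k5, k6, k7]
        have := (mul_pos_iff_of_pos_left hΔ0).1 k8
        linarith
      -- `B(x, u_2)` is small
      have hblt : 2 * r + 2 * b2 * e - 2 * b1 * x1 < 2 * b2 + 1 + τ := by
        by_contra k4
        rw [not_lt] at k4
        obtain ⟨b, hb⟩ : ∃ b, 2 * b = 2 * r + 2 * b2 * e - 2 * b1 * x1 :=
          ⟨(2 * r + 2 * b2 * e - 2 * b1 * x1) / 2, by ring⟩
        obtain ⟨hb1', w, w1, w2, w3, w4⟩ := small_root70 (b := b) (M := 2 * b2 + 1) (τ := τ)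
          (by linarith only [k4, hb]) hτ hτ0 hτ1
        have hw := hult b w (by rw [hb, hr, he]; ring) hb1' w1 w2 w3
        have k5 : w * rx ≤ w * 1 := mul_le_mul_of_nonneg_left hrx1 w2.le
        have k6 : 2 * b2 * (-τ) < 2 * b2 * r2 := mul_lt_mul_of_pos_left k3 (by linarith only [k1])
        linarith only [hτ, w4, hw, k5, k6]
      obtain ⟨v1, v2⟩ := j3_B1 (p := 2 * b1) (μ := 2 * b2) k (by linarith only [hb1]) hμ2 (by linarith only [k1]) hτ he1 h1 hr0 hN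
        hbpos hblt
      rw [← hη2] at v1
      -- `1 + cR ≥ b2 β`
      have k4 : b2 * (x2 - x1) ≤ 1 + cR := by
        have k5 : 0 ≤ 2 * b2 * (x1 - e - 1) := mul_nonneg (by linarith only [k1]) (by linarith only [he1, v2])
        have k6 : cR = b2 * (x2 - x1) + x1 * (b1 + b2) - g := by
          rw [hcRd]
          ring
        have k7 : g = r + 2 * b2 * e := by linarith only [hr]
        rw [k6, k7]
        linarith only [hτ1, hblt, k5]
      exact fin70 (by linarith only [hμ2]) (by linarith only [k1]) hβ0 (by linarith only [he1, v2]) hη0 (by linarith only [v1]) k4 hSL0 hSLη hpair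

end Pool.Agent.Helper70.DY
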